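import Pool.Agent.Lib_helper8.AQ.NCDefs

/-!
# NC, block NL1: the mean (helper99)
-/

set_option autoImplicit false

namespace Pool.Agent.AQ.NC

open Finset Pool.Agent.PENT Pool.Agent.PENT.EQ

variable [Cst] {k : ℕ}

/-- NL1 -/
theorem V3_pos {m : ℕ} (hm : 0 < m) : 0 < (V3 m).card := by
  rw [card_pos]
  have h0 : (0 : ℤ) < m := by exact_mod_cast hm
  refine ⟨(1 % (m : ℤ), 0, D % (m : ℤ)), ?_⟩
  unfold V3
  rw [mem_filter, mem_product, mem_product, mem_Ico, mem_Ico, mem_Ico]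
  refine ⟨⟨⟨Int.emod_nonneg _ h0.ne', Int.emod_lt_of_pos _ h0⟩, ⟨le_rfl, h0⟩,
    ⟨Int.emod_nonneg _ h0.ne', Int.emod_lt_of_pos _ h0⟩⟩, ?_⟩
  have h1 : (m : ℤ) ∣ 1 % (m : ℤ) - 1 := by
    have := Int.mul_ediv_add_emod 1 (m : ℤ)
    exact ⟨-(1 / (m : ℤ)), by linarith⟩
  have h2 : (m : ℤ) ∣ D % (m : ℤ) - D := by
    have := Int.mul_ediv_add_emod D (m : ℤ)
    exact ⟨-(D / (m : ℤ)), by linarith⟩
  have e : 1 % (m : ℤ) * (D % (m : ℤ)) - 0 ^ 2 - D =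
      (1 % (m : ℤ) - 1) * (D % (m : ℤ)) + (D % (m : ℤ) - D) := by ring
  show (m : ℤ) ∣ 1 % (m : ℤ) * (D % (m : ℤ)) - 0 ^ 2 - D
  rw [e]
  exact dvd_add (Dvd.dvd.mul_right h1 _) h2

/-- NL1 -/
theorem MV_mono' {m : ℕ} {h h' : ℤ × ℤ × ℤ → ℝ} (hh : ∀ v, h v ≤ h' v) :
    MV m h ≤ MV m h' := by
  unfold MV
  exact div_le_div_of_nonneg_right (sum_le_sum fun v _ => hh v) (Nat.cast_nonneg _)

/-- NL1 -/
theorem MV_const' {m : ℕ} (hm : 0 < m) (c : ℝ) : MV m (fun _ => c) = c := by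
  unfold MV
  have h : ((V3 m).card : ℝ) ≠ 0 := by
    have := V3_pos hm
    positivity
  rw [sum_const, nsmul_eq_mul]
  field_simp

/-- NL1 -/
theorem MV_add' {m : ℕ} (h h' : ℤ × ℤ × ℤ → ℝ) :
    MV m (fun v => h v + h' v) = MV m h + MV m h' := by
  unfold MV
  rw [sum_add_distrib, add_div]

/-- NL1 -/
theorem MV_sub' {m : ℕ} (h h' : ℤ × ℤ × ℤ → ℝ) :
    MV m (fun v => h v - h' v) = MV m h - MV m h' := by
  unfold MV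
  rw [sum_sub_distrib, sub_div]

/-- NL1 -/
theorem MV_smul' {m : ℕ} (c : ℝ) (h : ℤ × ℤ × ℤ → ℝ) :
    MV m (fun v => c * h v) = c * MV m h := by
  unfold MV
  rw [← mul_sum, mul_div_assoc]

/-- NL1 -/
theorem MV_sum' {m : ℕ} {ι : Type} (s : Finset ι) (h : ι → ℤ × ℤ × ℤ → ℝ) :
    MV m (fun v => ∑ i ∈ s, h i v) = ∑ i ∈ s, MV m (h i) := by
  unfold MV
  rw [sum_comm, sum_div]

/-- NL1 -/
theorem MV_01 {m : ℕ} {h : ℤ × ℤ × ℤ → ℝ} (hh : ∀ v, 0 ≤ h v ∧ h v ≤ 1) :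
    0 ≤ MV m h ∧ MV m h ≤ 1 := by
  unfold MV
  refine ⟨div_nonneg (sum_nonneg fun v _ => (hh v).1) (Nat.cast_nonneg _), ?_⟩
  refine div_le_one_of_le₀ ?_ (Nat.cast_nonneg _)
  calc ∑ v ∈ V3 m, h v ≤ ∑ v ∈ V3 m, (1 : ℝ) := sum_le_sum fun v _ => (hh v).2
    _ = ((V3 m).card : ℝ) := by rw [sum_const, nsmul_eq_mul, mul_one]

end Pool.Agent.AQ.NC
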