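import Pool.Agent.Lib_helper88.AQN.CNT

set_option autoImplicit false

namespace Pool.Agent.AQ.NC

open Finset Pool.Agent.PENT Pool.Agent.PENT.EQ

variable [Cst]

theorem nl2_ich (s : Finset (ℤ × ℤ × ℤ)) (P : ℤ × ℤ × ℤ → Prop) [DecidablePred P] :
    ∑ r ∈ s, (if P r then (1 : ℝ) else 0) = ((s.filter P).card : ℝ) := by
  rw [Finset.card_filter]
  push_cast
  rfl

theorem nl2_card {l : ℕ} (hl : l.Prime) (h4 : Sp l) :
    ((V3 l).card : ℝ) = l * ((l : ℝ) + 1) := by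
  have h := card_V3 hl h4.two_lt h4.ndvd
  rw [if_pos h4] at h
  have h' : (((V3 l).card : ℤ) : ℝ) = (((l : ℤ) * (l + 1) : ℤ) : ℝ) := by
    rw [h]
  push_cast at h'
  exact h'

/-- NL2 -/
theorem MV_line {l : ℕ} (hl : l.Prime) (h4 : Sp l) (v : ℤ × ℤ)
    (hv : ¬ ((l : ℤ) ∣ v.1 ∧ (l : ℤ) ∣ v.2)) :
    MV l (fun q => if (l : ℤ) ∣ fv q v then 1 else 0) = 2 / ((l : ℝ) + 1) := by
  classical
  have h3 : (2 : ℝ) < (l : ℝ) := by exact_mod_cast h4.two_lt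
  unfold MV
  have h5 := card_V3_one hl h4.two_lt h4.ndvd v hv
  rw [if_pos h4] at h5
  have h6 : ∑ r ∈ V3 l, (if (l : ℤ) ∣ fv r v then (1 : ℝ) else 0) = ((2 * l : ℕ) : ℝ) := by
    rw [nl2_ich (V3 l) (fun r => (l : ℤ) ∣ fv r v), ← h5]
  rw [h6, nl2_card hl h4]
  push_cast
  have h7 : (l : ℝ) ≠ 0 := by linarith
  have h8 : (l : ℝ) + 1 ≠ 0 := by linarith
  field_simp

/-- NL2 -/
theorem MV_line2 {l : ℕ} (hl : l.Prime) (h4 : Sp l) (v w : ℤ × ℤ)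
    (hvw : ¬ (l : ℤ) ∣ dt v w) :
    MV l (fun q => if (l : ℤ) ∣ fv q v ∧ (l : ℤ) ∣ fv q w then 1 else 0) =
      2 / ((l : ℝ) * (l + 1)) := by
  classical
  unfold MV
  have h5 := card_V3_two hl h4.two_lt h4.ndvd v w hvw
  rw [if_pos h4] at h5
  have h6 : ∑ r ∈ V3 l, (if (l : ℤ) ∣ fv r v ∧ (l : ℤ) ∣ fv r w then (1 : ℝ) else 0) =
      ((2 : ℕ) : ℝ) := by
    rw [nl2_ich (V3 l) (fun r => (l : ℤ) ∣ fv r v ∧ (l : ℤ) ∣ fv r w), ← h5]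
  rw [h6, nl2_card hl h4]
  push_cast
  rfl

end Pool.Agent.AQ.NC
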