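import Pool.Agent.Lib_helper8.AQ.NCDefs

/-!
# NC: the parameters (helper88)
-/

set_option autoImplicit false

namespace Pool.Agent.AQ.NC

open Finset Pool.Agent.PENT Pool.Agent.PENT.EQ

variable [Cst] {k : ℕ}

theorem Prm.Ok.e_pos {p : Prm k} {τ : ℝ} (hp : p.Ok τ) (hτ : 0 < τ) (j : Fin (k + 1))
    (h1 : 2 ≤ j.val) (h2 : j.val + 2 ≤ k) : 0 < p.e j := by
  have h := hp.ew1 j h1 h2
  have h3 := hp.ew0
  by_contra hc
  rw [not_lt] at hc
  nlinarith

theorem Prm.Ok.em_pos {p : Prm k} {τ : ℝ} (hp : p.Ok τ) (hτ : 0 < τ) (hk : 4 ≤ k) :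
    0 < p.em := by
  have h := hp.even ⟨2, by omega⟩ le_rfl hk (by norm_num)
  have h2 := hp.e_pos hτ ⟨2, by omega⟩ le_rfl hk
  by_contra hc
  rw [not_lt] at hc
  nlinarith

theorem Prm.Ok.ta_pos {p : Prm k} {τ : ℝ} (hp : p.Ok τ) (hτ : 0 < τ) (hk : 4 ≤ k) :
    0 < p.ta := by
  have h := hp.em_ta
  have h2 := hp.em_pos hτ hk
  by_contra hc
  rw [not_lt] at hc
  nlinarith

theorem Prm.Ok.ep_pos {p : Prm k} {τ : ℝ} (hp : p.Ok τ) (hτ : 0 < τ) (hk : 4 ≤ k) :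
    0 < p.ep := by
  have h := hp.ta_ep
  have h2 := hp.ta_pos hτ hk
  by_contra hc
  rw [not_lt] at hc
  nlinarith

theorem Prm.Ok.mono {p : Prm k} {τ τ' : ℝ} (hp : p.Ok τ) (hτ : 0 < τ) (hk : 4 ≤ k)
    (h : τ ≤ τ') : p.Ok τ' where
  ew0 := hp.ew0
  ew1 := fun j h1 h2 => (hp.ew1 j h1 h2).trans
    (mul_le_mul_of_nonneg_right h (hp.e_pos hτ j h1 h2).le)
  low := fun i j h1 h2 h3 h4 => (hp.low i j h1 h2 h3 h4).trans
    (mul_le_mul_of_nonneg_right h (hp.e_pos hτ j h1 (by omega)).le)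
  even := fun j h1 h2 h3 => (hp.even j h1 h2 h3).trans
    (mul_le_mul_of_nonneg_right h (hp.em_pos hτ hk).le)
  odd := hp.odd
  em_ta := hp.em_ta.trans (mul_le_mul_of_nonneg_right h (hp.ta_pos hτ hk).le)
  ta_ep := hp.ta_ep.trans (mul_le_mul_of_nonneg_right h (hp.ep_pos hτ hk).le)
  ep1 := hp.ep1.trans h
  c10 := hp.c10
  c11 := hp.c11.trans h

/-- parameters exist for every `τ` -/
theorem exists_prm (k : ℕ) (hk : Even k) (τ : ℝ) (hτ : 0 < τ) (hτ1 : τ ≤ 1) :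
    ∃ p : Prm k, p.Ok τ := by
  refine ⟨{ e := fun j => if Even j.val then (if j.val + 2 = k then τ ^ 5 else τ ^ 4) else τ,
            ew := τ ^ 6, em := τ ^ 3, ep := τ, c1 := τ, ta := τ ^ 2 }, ?_⟩
  have p2 : 0 < τ ^ 2 := by positivity
  have p3 : 0 < τ ^ 3 := by positivity
  have p4 : 0 < τ ^ 4 := by positivity
  have p5 : 0 < τ ^ 5 := by positivity
  have p6 : 0 < τ ^ 6 := by positivity
  have e5 : τ ^ 5 ≤ 1 := pow_le_one₀ hτ.le hτ1
  have e1 : ∀ a b : ℕ, a ≤ b → τ ^ b ≤ τ ^ a := fun a b h => pow_le_pow_of_le_one hτ.le hτ1 h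
  constructor
  · exact p6
  · intro j _ _
    show τ ^ 6 ≤ τ * (if Even j.val then (if j.val + 2 = k then τ ^ 5 else τ ^ 4) else τ)
    split_ifs
    · exact le_of_eq (by ring)
    · calc τ ^ 6 ≤ τ ^ 5 := e1 5 6 (by norm_num)
        _ = τ * τ ^ 4 := by ring
    · calc τ ^ 6 ≤ τ ^ 2 := e1 2 6 (by norm_num)
        _ = τ * τ := by ring
  · intro i j _ h2 h3 h4
    show (if Even i.val then (if i.val + 2 = k then τ ^ 5 else τ ^ 4) else τ) ≤
      τ * (if Even j.val then (if j.val + 2 = k then τ ^ 5 else τ ^ 4) else τ)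
    rw [if_pos h3, if_neg (by omega : ¬ j.val + 2 = k)]
    by_cases hi : Even i.val
    · rw [if_pos hi, if_pos h4]
      exact le_of_eq (by ring)
    · exfalso
      apply hi
      have h5 : Even (i.val + 2) := by rw [h4]; exact hk
      exact (Nat.even_add.1 h5).2 (by norm_num)
  · intro j _ _ h3
    show (if Even j.val then (if j.val + 2 = k then τ ^ 5 else τ ^ 4) else τ) ≤ τ * τ ^ 3
    rw [if_pos h3]
    split_ifs
    · calc τ ^ 5 ≤ τ ^ 4 := e1 4 5 (by norm_num)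
        _ = τ * τ ^ 3 := by ring
    · exact le_of_eq (by ring)
  · intro j _ _ h3
    show (if Even j.val then (if j.val + 2 = k then τ ^ 5 else τ ^ 4) else τ) = τ
    rw [if_neg h3]
  · show τ ^ 3 ≤ τ * τ ^ 2
    exact le_of_eq (by ring)
  · show τ ^ 2 ≤ τ * τ
    exact le_of_eq (by ring)
  · exact le_rfl
  · exact hτ
  · exact le_rfl

end Pool.Agent.AQ.NC
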