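import Pool.Agent.Lib_helper8.AQ.NCDefs

/-!
# AQ, NC: basic facts on the forms (helper88)
-/

set_option autoImplicit false

namespace Pool.Agent.AQ.NC

open Finset Pool.Agent.PENT Pool.Agent.PENT.EQ

variable [Cst]

theorem bas_mul {q : ℤ × ℤ × ℤ} (hq : q.1 * q.2.2 - q.2.1 ^ 2 = D) (u : ℤ × ℤ) :
    q.1 * fv q u = (q.1 * u.1 + q.2.1 * u.2) ^ 2 + D * u.2 ^ 2 := by
  unfold fv qf
  linear_combination (u.2 ^ 2) * hq

theorem bas_q1_ne {q : ℤ × ℤ × ℤ} (hq : q.1 * q.2.2 - q.2.1 ^ 2 = D) : q.1 ≠ 0 := by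
  intro h
  rw [h] at hq
  apply D_ns
  exact ⟨q.2.1, by linear_combination hq⟩

theorem bas_fv_ne {q : ℤ × ℤ × ℤ} (hq : q.1 * q.2.2 - q.2.1 ^ 2 = D) {u : ℤ × ℤ}
    (hu : IsCoprime u.1 u.2) : fv q u ≠ 0 := by
  intro h
  have h1 := bas_mul hq u
  rw [h, mul_zero] at h1
  by_cases h2 : u.2 = 0
  · rw [h2] at h1 hu
    have h3 : (q.1 * u.1) ^ 2 = 0 := by linear_combination -h1
    have h4 : q.1 * u.1 = 0 := pow_eq_zero_iff (two_ne_zero) |>.1 h3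
    rcases mul_eq_zero.1 h4 with h5 | h5
    · exact bas_q1_ne hq h5
    · rw [h5] at hu
      rw [isCoprime_zero_left] at hu
      exact not_isUnit_zero hu
  · have h3 : u.2 ^ 2 ∣ (q.1 * u.1 + q.2.1 * u.2) ^ 2 :=
      ⟨-D, by linear_combination -h1⟩
    obtain ⟨t, ht⟩ := (Int.pow_dvd_pow_iff two_ne_zero).1 h3
    apply D_ns
    refine ⟨t, ?_⟩
    rw [ht] at h1
    have h4 : u.2 ^ 2 * (-D) = u.2 ^ 2 * (t * t) := by linear_combination h1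
    exact mul_left_cancel₀ (pow_ne_zero 2 h2) h4

theorem bas_fvz_ne {q : ℤ × ℤ × ℤ} (hq : q.1 * q.2.2 - q.2.1 ^ 2 = D) : fv q z ≠ 0 :=
  bas_fv_ne hq z_cop

/-- a prime `l ∤ R` which divides `Q(u)`, `u` primitive, splits -/
theorem bas_sp {q : ℤ × ℤ × ℤ} (hq : q.1 * q.2.2 - q.2.1 ^ 2 = D) {u : ℤ × ℤ} {l : ℕ}
    (hl : l.Prime) (hR : ¬ l ∣ R) (hu : ¬ ((l : ℤ) ∣ u.1 ∧ (l : ℤ) ∣ u.2))
    (h : (l : ℤ) ∣ fv q u) : Sp l := by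
  have hlp : Prime (l : ℤ) := Nat.prime_iff_prime_int.1 hl
  have h1 := bas_mul hq u
  have h2 : (l : ℤ) ∣ (q.1 * u.1 + q.2.1 * u.2) ^ 2 + D * u.2 ^ 2 := by
    rw [← h1]; exact h.mul_left _
  refine ⟨hl, hR, ?_⟩
  by_cases h3 : (l : ℤ) ∣ u.2
  · have h4 : (l : ℤ) ∣ (q.1 * u.1 + q.2.1 * u.2) ^ 2 :=
      (Int.dvd_add_left ((dvd_pow h3 two_ne_zero).mul_left _)).1 h2
    have h5 : (l : ℤ) ∣ q.1 * u.1 :=
      (Int.dvd_add_left (h3.mul_left _)).1 (hlp.dvd_of_dvd_pow h4)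
    rcases hlp.dvd_or_dvd h5 with h6 | h6
    · refine ⟨q.2.1, ?_⟩
      have e : q.2.1 ^ 2 + D = q.1 * q.2.2 := by rw [← hq]; ring
      rw [e]
      exact h6.mul_right _
    · exact absurd ⟨h6, h3⟩ hu
  · have hcop : IsCoprime (u.2) (l : ℤ) := ((Prime.coprime_iff_not_dvd hlp).2 h3).symm
    obtain ⟨w, w', hw⟩ := hcop
    refine ⟨(q.1 * u.1 + q.2.1 * u.2) * w, ?_⟩
    have e : ((q.1 * u.1 + q.2.1 * u.2) * w) ^ 2 + D =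
        w ^ 2 * ((q.1 * u.1 + q.2.1 * u.2) ^ 2 + D * u.2 ^ 2) +
          (l : ℤ) * (D * (w' * (1 + w * u.2))) := by
      linear_combination (-(D * (1 + w * u.2))) * hw
    rw [e]
    exact dvd_add (Dvd.dvd.mul_left h2 _) (dvd_mul_right _ _)

theorem bas_prim {u : ℤ × ℤ} (hu : IsCoprime u.1 u.2) {l : ℕ} (hl : l.Prime) :
    ¬ ((l : ℤ) ∣ u.1 ∧ (l : ℤ) ∣ u.2) := by
  rintro ⟨h1, h2⟩
  have h3 := hu.isUnit_of_dvd' h1 h2
  exact (Nat.prime_iff_prime_int.1 hl).not_isUnit h3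

theorem bas_ndvd {l P00 k : ℕ} (hP : pB k ≤ P00) (hl : P00 < l) :
    ¬ l ∣ R ∧ ¬ (l : ℤ) ∣ z.2 ∧ 100 * (k + 1) ^ 2 < l := by
  unfold pB at hP
  refine ⟨?_, ?_, by omega⟩
  · intro h
    have := Nat.le_of_dvd R_pos h
    omega
  · intro h
    have h1 := Int.le_of_dvd z_two h
    omega

theorem pB_ge (k : ℕ) : 100 ≤ pB k := by
  unfold pB
  have : 1 ≤ (k + 1) ^ 2 := Nat.one_le_pow _ _ (by omega)
  omega

theorem three_le_of_pB {k P00 : ℕ} (h : pB k ≤ P00) : 3 ≤ P00 := by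
  have := pB_ge k
  omega

end Pool.Agent.AQ.NC
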