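import Pool.Agent.Lib_helper8.AQ.NCDefs

/-!
# NC, block NA4: values in `[0, 1]`
-/

set_option autoImplicit false

namespace Pool.Agent.AQ.NC

open Finset Pool.Agent.PENT Pool.Agent.PENT.EQ

variable [Cst] {k : ℕ}

theorem na4_mul {a b : ℝ} (ha : 0 ≤ a ∧ a ≤ 1) (hb : 0 ≤ b ∧ b ≤ 1) : 0 ≤ a * b ∧ a * b ≤ 1 :=
  ⟨mul_nonneg ha.1 hb.1, mul_le_one₀ ha.2 hb.1 hb.2⟩

theorem na4_prod {ι : Type} {s : Finset ι} {f : ι → ℝ} (h : ∀ i ∈ s, 0 ≤ f i ∧ f i ≤ 1) :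
    0 ≤ ∏ i ∈ s, f i ∧ ∏ i ∈ s, f i ≤ 1 :=
  ⟨prod_nonneg fun i hi => (h i hi).1, prod_le_one (fun i hi => (h i hi).1) fun i hi => (h i hi).2⟩

theorem na4_cm {g : ℕ → ℝ} (h : ∀ l, 0 ≤ g l ∧ g l ≤ 1) (m : ℕ) : 0 ≤ cm g m ∧ cm g m ≤ 1 := by
  unfold cm Finsupp.prod
  apply na4_prod
  intro i _
  exact ⟨pow_nonneg (h i).1 _, pow_le_one₀ (h i).1 (h i).2⟩

theorem na4_wdE (k : ℕ) (Y : ℝ) (j l : ℕ) : 0 ≤ wdE k Y j l ∧ wdE k Y j l ≤ 1 := by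
  unfold wdE alE
  split_ifs <;> constructor <;> norm_num

/-- NA4 -/
theorem wyV_01 (k : ℕ) (P Y : ℝ) (j l : ℕ) : 0 ≤ wyV k P Y j l ∧ wyV k P Y j l ≤ 1 := by
  unfold wyV boV beV
  split_ifs <;> constructor <;> norm_num

theorem na4_E1 (k : ℕ) (P Y : ℝ) (d l : ℕ) (a : ℤ) : 0 ≤ E1 k P Y d l a ∧ E1 k P Y d l a ≤ 1 := by
  unfold E1
  split_ifs
  · exact na4_wdE k Y 0 l
  · constructor <;> norm_num
  · exact wyV_01 k P Y 0 l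
  · constructor <;> norm_num

/-- NA4: values in `[0,1]` and periodicity -/
theorem Lf_01 (p : Prm k) (X : ℕ) (u : Vec k) (l : ℕ) (q : ℤ × ℤ × ℤ) :
    0 ≤ Lf p X u l q ∧ Lf p X u l q ≤ 1 := by
  unfold Lf
  refine na4_mul (na4_mul ?_ (na4_prod fun j _ => ?_)) (na4_prod fun j _ => ?_)
  · split_ifs <;> constructor <;> norm_num
  · split_ifs
    · exact na4_wdE k _ _ l
    · constructor <;> norm_num
  · split_ifs
    · constructor <;> norm_num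
    · exact wyV_01 k _ _ _ l
    · constructor <;> norm_num

/-- NA4 -/
theorem Ef_01 (p : Prm k) (X : ℕ) (f : ℕ × ℕ) (l : ℕ) (q : ℤ × ℤ × ℤ) :
    0 ≤ Ef p X f l q ∧ Ef p X f l q ≤ 1 :=
  na4_mul (na4_E1 k _ _ _ l _) (na4_E1 k _ _ _ l _)

/-- NA4 -/
theorem PW_01 {ι : Type} (s : Finset ι) (v : ι → ℤ × ℤ) (b : ι → ℝ)
    (hb : ∀ i ∈ s, 0 ≤ b i ∧ b i ≤ 1) (l : ℕ) (q : ℤ × ℤ × ℤ) :
    0 ≤ PW s v b l q ∧ PW s v b l q ≤ 1 := by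
  unfold PW
  apply na4_prod
  intro i hi
  split_ifs
  · exact hb i hi
  · constructor <;> norm_num

/-- NA4 -/
theorem Iv_01 (p : Prm k) (X : ℕ) (u : Vec k) (l : ℕ) (q : ℤ × ℤ × ℤ) :
    0 ≤ Iv p X u l q ∧ Iv p X u l q ≤ 1 :=
  PW_01 _ _ _ (fun _ _ => wyV_01 k _ _ _ l) l q

/-- NA4: the values of `W`, `wend`, `gk` -/
theorem W_01 (p : Prm k) (X : ℕ) (q : ℤ × ℤ × ℤ) (u : Vec k) :
    0 ≤ W p X q u ∧ W p X q u ≤ 1 := by
  unfold W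
  split_ifs
  · refine na4_mul (na4_prod fun j _ => ?_) (na4_prod fun j _ => ?_)
    · exact na4_cm (fun l => na4_wdE k _ _ l) _
    · exact na4_cm (fun l => wyV_01 k _ _ _ l) _
  · constructor <;> norm_num

/-- NA4 -/
theorem wend_01 (p : Prm k) (X : ℕ) (q : ℤ × ℤ × ℤ) (f : ℕ × ℕ) :
    0 ≤ wend p X q f ∧ wend p X q f ≤ 1 := by
  unfold wend
  split_ifs
  · exact na4_mul (na4_mul (na4_cm (fun l => na4_wdE k _ _ l) _) (na4_cm (fun l => na4_wdE k _ _ l) _))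
      (na4_mul (na4_cm (fun l => wyV_01 k _ _ _ l) _) (na4_cm (fun l => wyV_01 k _ _ _ l) _))
  · constructor <;> norm_num

theorem na4_MV {m : ℕ} {h : ℤ × ℤ × ℤ → ℝ} (hh : ∀ v, 0 ≤ h v ∧ h v ≤ 1) :
    0 ≤ MV m h ∧ MV m h ≤ 1 := by
  unfold MV
  constructor
  · exact div_nonneg (sum_nonneg fun v _ => (hh v).1) (Nat.cast_nonneg _)
  · apply div_le_one_of_le₀ _ (Nat.cast_nonneg _)
    calc ∑ v ∈ V3 m, h v ≤ ∑ _v ∈ V3 m, (1 : ℝ) := sum_le_sum fun v _ => (hh v).2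
      _ = ((V3 m).card : ℝ) := by simp

/-- NA4 (`MV` of a function with values in `[0,1]` is in `[0,1]`) -/
theorem gk_01 (p : Prm k) (X P00 : ℕ) (q : ℤ × ℤ × ℤ) (u : Vec k) :
    0 ≤ gk p X P00 q u ∧ gk p X P00 q u ≤ 1 := by
  unfold gk okf gD gS
  refine na4_mul ?_ (na4_mul (na4_prod fun l hl => ?_) (na4_prod fun l _ => ?_))
  · split_ifs <;> constructor <;> norm_num
  · have h1 : (1 : ℝ) ≤ l := by
      have := (Nat.prime_of_mem_primeFactors hl).one_lt.le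
      exact_mod_cast this
    refine na4_mul ⟨by positivity, ?_⟩ ?_
    · rw [div_le_one (by linarith)]
      linarith
    · split_ifs <;> constructor <;> norm_num
  · exact na4_MV fun v => Iv_01 p X u l v

end Pool.Agent.AQ.NC
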