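import Pool.Agent.Lib_helper8.AQ.NCDefs

/-!
# AQ, NC: a set of primes (helper88)
-/

set_option autoImplicit false

namespace Pool.Agent.AQ.NC

open Finset

variable [Cst]

open Classical in
/-- the split primes in `(A, B]` (real bounds) -/
noncomputable def prS (A B : ℝ) : Finset ℕ :=
  (Icc 1 ⌊B⌋₊).filter (fun l => Sp l ∧ A < (l : ℝ))

end Pool.Agent.AQ.NC
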