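import Pool.Agent.Lib_helper88.AQN.SQ

/-! AQ, NC, block NL3: squares (port of helper8's block; `MV_pow2` by a direct count; helper88) -/

set_option autoImplicit false

namespace Pool.Agent.AQ.NC

open Finset Pool.Agent.PENT Pool.Agent.PENT.EQ

variable [Cst]

omit [Cst] in
theorem nl3_lin {p : ℕ} [Fact p.Prime] (a m : ZMod p) (ha : a ≠ 0) :
    (∑ c : ZMod p, if a * c = m then (1 : ℕ) else 0) = 1 := by
  rw [← Finset.card_filter, Finset.card_eq_one]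
  refine ⟨a⁻¹ * m, ?_⟩
  ext c
  simp only [mem_filter, mem_univ, true_and, mem_singleton]
  constructor
  · intro h
    rw [← h, ← mul_assoc, inv_mul_cancel₀ ha, one_mul]
  · intro h
    rw [h, ← mul_assoc, mul_inv_cancel₀ ha, one_mul]

omit [Cst] in
theorem nl3_lin3 {p : ℕ} [Fact p.Prime] (a b c m : ZMod p) (h : a ≠ 0 ∨ b ≠ 0 ∨ c ≠ 0) :
    (univ.filter (fun t : ZMod p × ZMod p × ZMod p =>
      a * t.1 + b * t.2.1 + c * t.2.2 = m)).card = p ^ 2 := by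
  rw [Finset.card_filter, Fintype.sum_prod_type]
  simp only [Fintype.sum_prod_type]
  rcases h with h | h | h
  · have e : ∀ x y z : ZMod p, (a * x + b * y + c * z = m) ↔ (a * x = m - b * y - c * z) := by
      intro x y z
      constructor
      · intro h; linear_combination h
      · intro h; linear_combination h
    rw [Finset.sum_comm]
    have e2 : ∀ y : ZMod p, (∑ x : ZMod p, ∑ z : ZMod p,
        if a * x + b * y + c * z = m then (1 : ℕ) else 0) = p := by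
      intro y
      rw [Finset.sum_comm]
      simp only [e]
      simp only [nl3_lin a _ h]
      simp [ZMod.card]
    simp only [e2]
    rw [Finset.sum_const, Finset.card_univ, ZMod.card, smul_eq_mul]
    ring
  · have e : ∀ x y z : ZMod p, (a * x + b * y + c * z = m) ↔ (b * y = m - a * x - c * z) := by
      intro x y z
      constructor
      · intro h; linear_combination h
      · intro h; linear_combination h
    have e2 : ∀ x : ZMod p, (∑ y : ZMod p, ∑ z : ZMod p,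
        if a * x + b * y + c * z = m then (1 : ℕ) else 0) = p := by
      intro x
      rw [Finset.sum_comm]
      simp only [e]
      simp only [nl3_lin b _ h]
      simp [ZMod.card]
    simp only [e2]
    rw [Finset.sum_const, Finset.card_univ, ZMod.card, smul_eq_mul]
    ring
  · have e : ∀ x y z : ZMod p, (a * x + b * y + c * z = m) ↔ (c * z = m - a * x - b * y) := by
      intro x y z
      constructor
      · intro h; linear_combination h
      · intro h; linear_combination h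
    have e2 : ∀ x : ZMod p, (∑ y : ZMod p, ∑ z : ZMod p,
        if a * x + b * y + c * z = m then (1 : ℕ) else 0) = p := by
      intro x
      simp only [e]
      simp only [nl3_lin c _ h]
      simp [ZMod.card]
    simp only [e2]
    rw [Finset.sum_const, Finset.card_univ, ZMod.card, smul_eq_mul]
    ring

/-- reduction modulo `l` -/
def nl3_red (l : ℕ) (v : ℤ × ℤ × ℤ) : ℤ × ℤ × ℤ :=
  (v.1 % (l : ℤ), v.2.1 % (l : ℤ), v.2.2 % (l : ℤ))

theorem nl3_fiber {l : ℕ} (hl : l.Prime) (h2 : ¬ l ∣ R) {w : ℤ × ℤ × ℤ} (hw : w ∈ V3 l) :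
    ((V3 (l ^ 2)).filter (fun v => nl3_red l v = w)).card = l ^ 2 := by
  classical
  have : Fact l.Prime := ⟨hl⟩
  have hl0 : (0 : ℤ) < l := by exact_mod_cast hl.pos
  unfold V3 at hw
  rw [mem_filter, mem_product, mem_product, mem_Ico, mem_Ico, mem_Ico] at hw
  obtain ⟨⟨w1, w2, w3⟩, k, hk⟩ := hw
  have hne : ((w.2.2 : ℤ) : ZMod l) ≠ 0 ∨ ((-2 * w.2.1 : ℤ) : ZMod l) ≠ 0 ∨
      ((w.1 : ℤ) : ZMod l) ≠ 0 := by
    by_contra hcon
    push Not at hcon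
    obtain ⟨c1, c2, c3⟩ := hcon
    rw [ZMod.intCast_zmod_eq_zero_iff_dvd] at c1 c2 c3
    have hlp : Prime (l : ℤ) := Nat.prime_iff_prime_int.1 hl
    have c4 : (l : ℤ) ∣ w.2.1 := by
      rcases hlp.dvd_or_dvd c2 with h | h
      · exfalso
        have h' : (l : ℤ) ∣ 2 := by rwa [← dvd_neg]
        have h3 : l ∣ 2 := by exact_mod_cast h'
        have h4 : l = 2 := (Nat.prime_dvd_prime_iff_eq hl Nat.prime_two).1 h3
        exact h2 (h4 ▸ two_dvd_R)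
      · exact h
    apply h2
    apply prime_dvd_D hl
    have e : D = w.1 * w.2.2 - w.2.1 ^ 2 - (l : ℤ) * k := by rw [← hk]; ring
    rw [e]
    exact dvd_sub (dvd_sub (c3.mul_right _) (dvd_pow c4 two_ne_zero)) (dvd_mul_right _ _)
  refine Eq.trans ?_ (nl3_lin3 ((w.2.2 : ℤ) : ZMod l) ((-2 * w.2.1 : ℤ) : ZMod l)
    ((w.1 : ℤ) : ZMod l) ((-k : ℤ) : ZMod l) hne)
  have hcast : ∀ x : ℤ, (l : ℤ) ∣ x ↔ (x : ZMod l) = 0 := fun x =>
    (ZMod.intCast_zmod_eq_zero_iff_dvd x l).symm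
  have hlt : ∀ x y : ℤ, 0 ≤ x → x < l → 0 ≤ y → y < l → x + l * y < ((l ^ 2 : ℕ) : ℤ) := by
    intro x y _ x1 _ y1
    push_cast
    nlinarith
  -- membership of `w + l t`
  have hmem : ∀ t1 t2 t3 : ℤ, (0 ≤ t1 ∧ t1 < l) → (0 ≤ t2 ∧ t2 < l) → (0 ≤ t3 ∧ t3 < l) →
      (((w.1 + l * t1, w.2.1 + l * t2, w.2.2 + l * t3) : ℤ × ℤ × ℤ) ∈ V3 (l ^ 2) ↔
        (w.2.2 : ZMod l) * (t1 : ZMod l) + ((-2 * w.2.1 : ℤ) : ZMod l) * (t2 : ZMod l) +
          (w.1 : ZMod l) * (t3 : ZMod l) = ((-k : ℤ) : ZMod l)) := by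
    intro t1 t2 t3 b1 b2 b3
    unfold V3
    rw [mem_filter, mem_product, mem_product, mem_Ico, mem_Ico, mem_Ico]
    have hbd : (0 ≤ w.1 + l * t1 ∧ w.1 + l * t1 < ((l ^ 2 : ℕ) : ℤ)) ∧
        (0 ≤ w.2.1 + l * t2 ∧ w.2.1 + l * t2 < ((l ^ 2 : ℕ) : ℤ)) ∧
        (0 ≤ w.2.2 + l * t3 ∧ w.2.2 + l * t3 < ((l ^ 2 : ℕ) : ℤ)) := by
      refine ⟨⟨?_, hlt _ _ w1.1 w1.2 b1.1 b1.2⟩, ⟨?_, hlt _ _ w2.1 w2.2 b2.1 b2.2⟩,
        ⟨?_, hlt _ _ w3.1 w3.2 b3.1 b3.2⟩⟩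
      · have := mul_nonneg hl0.le b1.1; linarith [w1.1]
      · have := mul_nonneg hl0.le b2.1; linarith [w2.1]
      · have := mul_nonneg hl0.le b3.1; linarith [w3.1]
    have e : (w.1 + l * t1) * (w.2.2 + l * t3) - (w.2.1 + l * t2) ^ 2 - D =
        (l : ℤ) * (k + w.2.2 * t1 - 2 * w.2.1 * t2 + w.1 * t3) +
          ((l : ℤ) ^ 2) * (t1 * t3 - t2 ^ 2) := by
      linear_combination hk
    constructor
    · rintro ⟨_, h⟩
      have h' : ((l ^ 2 : ℕ) : ℤ) ∣ (w.1 + l * t1) * (w.2.2 + l * t3) -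
          (w.2.1 + l * t2) ^ 2 - D := h
      rw [e] at h'
      push_cast at h'
      have h3 : ((l : ℤ)) ^ 2 ∣ (l : ℤ) * (k + w.2.2 * t1 - 2 * w.2.1 * t2 + w.1 * t3) :=
        (Int.dvd_add_left (dvd_mul_right _ _)).1 h'
      rw [sq] at h3
      have h4 := Int.dvd_of_mul_dvd_mul_left hl0.ne' h3
      rw [hcast] at h4
      push_cast at h4 ⊢
      linear_combination h4
    · intro h
      refine ⟨hbd, ?_⟩
      show ((l ^ 2 : ℕ) : ℤ) ∣ (w.1 + l * t1) * (w.2.2 + l * t3) - (w.2.1 + l * t2) ^ 2 - D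
      rw [e]
      push_cast
      have h4 : (l : ℤ) ∣ k + w.2.2 * t1 - 2 * w.2.1 * t2 + w.1 * t3 := by
        rw [hcast]
        push_cast at h ⊢
        linear_combination h
      refine dvd_add ?_ (dvd_mul_right _ _)
      rw [sq]
      exact mul_dvd_mul_left _ h4
  have hval : ∀ s : ZMod l, ((s.val : ℤ) : ZMod l) = s := fun s => by
    rw [Int.cast_natCast, ZMod.natCast_zmod_val]
  have hv0 : ∀ s : ZMod l, 0 ≤ (s.val : ℤ) ∧ (s.val : ℤ) < l := fun s =>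
    ⟨by positivity, by exact_mod_cast ZMod.val_lt s⟩
  have hmod : ∀ x t : ℤ, 0 ≤ x → x < l → (x + l * t) % (l : ℤ) = x := by
    intro x t x0 x1
    rw [Int.add_mul_emod_self_left, Int.emod_eq_of_lt x0 x1]
  have hdiv : ∀ x t : ℤ, 0 ≤ x → x < l → (x + l * t) / (l : ℤ) = t := by
    intro x t x0 x1
    rw [Int.add_mul_ediv_left _ _ hl0.ne', Int.ediv_eq_zero_of_lt x0 x1, zero_add]
  have hdlt : ∀ x : ℤ, 0 ≤ x → x < ((l ^ 2 : ℕ) : ℤ) → 0 ≤ x / (l : ℤ) ∧ x / (l : ℤ) < l := by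
    intro x x0 x1
    refine ⟨Int.ediv_nonneg x0 hl0.le, ?_⟩
    apply Int.ediv_lt_of_lt_mul hl0
    push_cast at x1
    nlinarith
  have hinv : ∀ x : ℤ, 0 ≤ x → x < l → (((x : ZMod l)).val : ℤ) = x := fun x x0 x1 => by
    rw [ZMod.val_intCast, Int.emod_eq_of_lt x0 x1]
  refine Finset.card_nbij' (fun v => (((v.1 / (l : ℤ) : ℤ) : ZMod l),
      ((v.2.1 / (l : ℤ) : ℤ) : ZMod l), ((v.2.2 / (l : ℤ) : ℤ) : ZMod l)))
    (fun t => (w.1 + l * (t.1.val : ℤ), w.2.1 + l * (t.2.1.val : ℤ),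
      w.2.2 + l * (t.2.2.val : ℤ))) ?_ ?_ ?_ ?_
  · intro v hv
    rw [mem_coe, mem_filter] at hv
    obtain ⟨hv1, hv2⟩ := hv
    have hv3 := hv1
    unfold V3 at hv3
    rw [mem_filter, mem_product, mem_product, mem_Ico, mem_Ico, mem_Ico] at hv3
    obtain ⟨⟨a1, a2, a3⟩, _⟩ := hv3
    unfold nl3_red at hv2
    rw [mem_coe, mem_filter]
    refine ⟨mem_univ _, ?_⟩
    have f1 : w.1 + l * (v.1 / (l : ℤ)) = v.1 := by
      rw [← hv2]; exact Int.emod_add_mul_ediv _ _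
    have f2 : w.2.1 + l * (v.2.1 / (l : ℤ)) = v.2.1 := by
      rw [← hv2]; exact Int.emod_add_mul_ediv _ _
    have f3 : w.2.2 + l * (v.2.2 / (l : ℤ)) = v.2.2 := by
      rw [← hv2]; exact Int.emod_add_mul_ediv _ _
    have := (hmem _ _ _ (hdlt _ a1.1 a1.2) (hdlt _ a2.1 a2.2) (hdlt _ a3.1 a3.2)).1
      (by rw [f1, f2, f3]; exact hv1)
    exact this
  · intro t ht
    rw [mem_coe, mem_filter] at ht
    rw [mem_coe, mem_filter]
    refine ⟨(hmem _ _ _ (hv0 _) (hv0 _) (hv0 _)).2 ?_, ?_⟩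
    · simp only [hval]
      exact ht.2
    · unfold nl3_red
      simp only [hmod _ _ w1.1 w1.2, hmod _ _ w2.1 w2.2, hmod _ _ w3.1 w3.2]
  · intro v hv
    rw [mem_coe, mem_filter] at hv
    obtain ⟨hv1, hv2⟩ := hv
    unfold V3 at hv1
    rw [mem_filter, mem_product, mem_product, mem_Ico, mem_Ico, mem_Ico] at hv1
    obtain ⟨⟨a1, a2, a3⟩, _⟩ := hv1
    unfold nl3_red at hv2
    have g1 := hdlt _ a1.1 a1.2
    have g2 := hdlt _ a2.1 a2.2
    have g3 := hdlt _ a3.1 a3.2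
    simp only [hinv _ g1.1 g1.2, hinv _ g2.1 g2.2, hinv _ g3.1 g3.2]
    rw [← hv2]
    simp only [Int.emod_add_mul_ediv]
  · intro t _
    simp only [hdiv _ _ w1.1 w1.2, hdiv _ _ w2.1 w2.2, hdiv _ _ w3.1 w3.2, hval]

theorem nl3_red_mem {l : ℕ} (hl : l.Prime) {v : ℤ × ℤ × ℤ} (hv : v ∈ V3 (l ^ 2)) :
    nl3_red l v ∈ V3 l := by
  have hl0 : (0 : ℤ) < l := by exact_mod_cast hl.pos
  unfold V3 at hv ⊢
  rw [mem_filter] at hv
  rw [mem_filter, mem_product, mem_product, mem_Ico, mem_Ico, mem_Ico]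
  unfold nl3_red
  refine ⟨⟨⟨Int.emod_nonneg _ hl0.ne', Int.emod_lt_of_pos _ hl0⟩,
    ⟨Int.emod_nonneg _ hl0.ne', Int.emod_lt_of_pos _ hl0⟩,
    ⟨Int.emod_nonneg _ hl0.ne', Int.emod_lt_of_pos _ hl0⟩⟩, ?_⟩
  have h1 : (l : ℤ) ∣ v.1 * v.2.2 - v.2.1 ^ 2 - D := by
    refine dvd_trans ?_ hv.2
    push_cast
    exact dvd_pow_self _ two_ne_zero
  have e1 : (l : ℤ) ∣ v.1 - v.1 % (l : ℤ) := Int.dvd_self_sub_emod
  have e2 : (l : ℤ) ∣ v.2.1 - v.2.1 % (l : ℤ) := Int.dvd_self_sub_emod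
  have e3 : (l : ℤ) ∣ v.2.2 - v.2.2 % (l : ℤ) := Int.dvd_self_sub_emod
  show (l : ℤ) ∣ v.1 % (l : ℤ) * (v.2.2 % (l : ℤ)) - (v.2.1 % (l : ℤ)) ^ 2 - D
  have e : v.1 % (l : ℤ) * (v.2.2 % (l : ℤ)) - (v.2.1 % (l : ℤ)) ^ 2 - D =
      (v.1 * v.2.2 - v.2.1 ^ 2 - D) - ((v.1 - v.1 % (l : ℤ)) * v.2.2 +
        (v.1 % (l : ℤ)) * (v.2.2 - v.2.2 % (l : ℤ))) +
        (v.2.1 - v.2.1 % (l : ℤ)) * (v.2.1 + v.2.1 % (l : ℤ)) := by ring
  rw [e]
  exact dvd_add (dvd_sub h1 (dvd_add (e1.mul_right _) (e3.mul_left _))) (e2.mul_right _)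

theorem nl3_sum {l : ℕ} (hl : l.Prime) (h2 : ¬ l ∣ R) (h : ℤ × ℤ × ℤ → ℝ) (hh : Per3 l h) :
    ∑ v ∈ V3 (l ^ 2), h v = ((l : ℝ) ^ 2) * ∑ w ∈ V3 l, h w := by
  classical
  rw [← Finset.sum_fiberwise_of_maps_to (fun v hv => nl3_red_mem hl hv), mul_sum]
  apply sum_congr rfl
  intro w hw
  have e : ∀ v ∈ (V3 (l ^ 2)).filter (fun v => nl3_red l v = w), h v = h w := by
    intro v hv
    rw [mem_filter] at hv
    rw [← hv.2]
    unfold nl3_red
    exact hh _ _ Int.dvd_self_sub_emod Int.dvd_self_sub_emod Int.dvd_self_sub_emod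
  rw [sum_congr rfl e, sum_const, nl3_fiber hl h2 hw, nsmul_eq_mul]
  push_cast
  ring

/-- NL3: functions modulo `l` have the same mean modulo `l ^ 2` -/
theorem MV_pow2 {l : ℕ} (hl : l.Prime) (h2 : ¬ l ∣ R) (h : ℤ × ℤ × ℤ → ℝ) (hh : Per3 l h) :
    MV (l ^ 2) h = MV l h := by
  unfold MV
  have h1 := nl3_sum hl h2 h hh
  have h3 := nl3_sum hl h2 (fun _ => 1) (fun _ _ _ _ _ => rfl)
  have hl0 : (0 : ℝ) < (l : ℝ) ^ 2 := by
    have : (0 : ℝ) < l := by exact_mod_cast hl.pos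
    positivity
  rw [sum_const, sum_const, nsmul_eq_mul, nsmul_eq_mul, mul_one, mul_one] at h3
  rw [h1, h3, mul_div_mul_left _ _ hl0.ne']

/-- NL3 (helper8's `MV_sq`, block `ya`) -/
theorem MV_sq' {l : ℕ} (hl : l.Prime) (h4 : Sp l) (u : ℤ × ℤ)
    (hu : ¬ ((l : ℤ) ∣ u.1 ∧ (l : ℤ) ∣ u.2)) :
    MV (l ^ 2) (fun q => if ((l : ℤ) ^ 2) ∣ fv q u then 1 else 0) ≤ 4 / (l : ℝ) ^ 2 :=
  MV_sq_pr hl h4 u hu

/-- the triples with `l² ∣ a`, `l ∣ Q(z)` -/
noncomputable def nl3_bad (l : ℕ) : Finset (ℤ × ℤ × ℤ) :=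
  (V3 (l ^ 2)).filter (fun q => ((l : ℤ) ^ 2) ∣ q.1 ∧ (l : ℤ) ∣ fv q z)

/-- the triples with `l ∣ a`, `l² ∣ Q(z)` -/
noncomputable def nl3_bad' (l : ℕ) : Finset (ℤ × ℤ × ℤ) :=
  (V3 (l ^ 2)).filter (fun q => (l : ℤ) ∣ q.1 ∧ ((l : ℤ) ^ 2) ∣ fv q z)

theorem nl3_card {l : ℕ} (hl : l.Prime) (h4 : Sp l) (hz : ¬ (l : ℤ) ∣ z.2) :
    (nl3_bad l).card ≤ l * 2 := by
  classical
  have hpI : Prime (l : ℤ) := Nat.prime_iff_prime_int.1 hl
  have hl0 : (0 : ℤ) < l := by exact_mod_cast hl.pos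
  have hl2 : (0 : ℤ) < (l : ℤ) ^ 2 := by positivity
  have hcopy : ∀ x : ℤ, (l : ℤ) ^ 2 ∣ z.2 ^ 2 * x → (l : ℤ) ^ 2 ∣ x := by
    intro x hx
    exact ((IsCoprime.pow_left (IsCoprime.pow_right
      ((Prime.coprime_iff_not_dvd hpI).2 hz)))).dvd_of_dvd_mul_left hx
  have hcard : (nl3_bad l).card ≤ ((Ico (0 : ℤ) l) ×ˢ (ya_rt l)).card := by
    apply Finset.card_le_card_of_injOn (fun q => ((fv q z % (l : ℤ) ^ 2) / (l : ℤ), q.2.1))
    · intro q hq
      have hq' : q ∈ nl3_bad l := hq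
      unfold nl3_bad V3 at hq'
      rw [mem_filter, mem_filter, mem_product, mem_product, mem_Ico, mem_Ico, mem_Ico] at hq'
      obtain ⟨⟨⟨h1, h2, h3⟩, hdet⟩, hq1, hq2⟩ := hq'
      have hgoal : ((fv q z % (l : ℤ) ^ 2) / (l : ℤ), q.2.1) ∈
          (Ico (0 : ℤ) l) ×ˢ (ya_rt l) := by
        rw [mem_product]
        constructor
        · rw [mem_Ico]
          refine ⟨Int.ediv_nonneg (Int.emod_nonneg _ hl2.ne') hl0.le, ?_⟩
          apply Int.ediv_lt_of_lt_mul hl0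
          have := Int.emod_lt_of_pos (fv q z) hl2
          nlinarith
        · unfold ya_rt
          rw [mem_filter, mem_Ico]
          refine ⟨h2, ?_⟩
          have hdet' : ((l ^ 2 : ℕ) : ℤ) ∣ q.1 * q.2.2 - q.2.1 ^ 2 - D := hdet
          have e : q.2.1 ^ 2 + D = q.1 * q.2.2 - (q.1 * q.2.2 - q.2.1 ^ 2 - D) := by ring
          change ((l ^ 2 : ℕ) : ℤ) ∣ q.2.1 ^ 2 + D
          rw [e]
          refine dvd_sub ?_ hdet'
          push_cast
          exact hq1.mul_right _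
      exact hgoal
    · intro q hq w hw heq
      have hq' : q ∈ nl3_bad l := hq
      have hw' : w ∈ nl3_bad l := hw
      unfold nl3_bad V3 at hq' hw'
      rw [mem_filter, mem_filter, mem_product, mem_product, mem_Ico, mem_Ico, mem_Ico] at hq' hw'
      obtain ⟨⟨⟨h1, h2, h3⟩, hdet⟩, hq1, hq2⟩ := hq'
      obtain ⟨⟨⟨k1, k2, k3⟩, kdet⟩, kq1, kq2⟩ := hw'
      have heq' : ((fv q z % (l : ℤ) ^ 2) / (l : ℤ), q.2.1) =
        ((fv w z % (l : ℤ) ^ 2) / (l : ℤ), w.2.1) := heq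
      rw [Prod.mk.injEq] at heq'
      have e1 : q.1 = 0 := by
        have := h1.2
        push_cast at this
        exact Int.eq_zero_of_dvd_of_nonneg_of_lt h1.1 this hq1
      have e2 : w.1 = 0 := by
        have := k1.2
        push_cast at this
        exact Int.eq_zero_of_dvd_of_nonneg_of_lt k1.1 this kq1
      have hd : ∀ x : ℤ, (l : ℤ) ∣ x → (l : ℤ) ∣ x % (l : ℤ) ^ 2 := by
        intro x hx
        rw [Int.emod_def]
        exact dvd_sub hx ((dvd_pow_self _ two_ne_zero).mul_right _)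
      have e3 : fv q z % (l : ℤ) ^ 2 = fv w z % (l : ℤ) ^ 2 := by
        rw [← Int.ediv_mul_cancel (hd _ hq2), ← Int.ediv_mul_cancel (hd _ kq2), heq'.1]
      have e4 : (l : ℤ) ^ 2 ∣ fv q z - fv w z :=
        Int.dvd_of_emod_eq_zero (Int.emod_eq_emod_iff_emod_sub_eq_zero.1 e3)
      have e5 : fv q z - fv w z = z.2 ^ 2 * (q.2.2 - w.2.2) := by
        unfold fv qf
        rw [e1, e2, heq'.2]
        ring
      rw [e5] at e4
      have e6 : q.2.2 = w.2.2 := ya_eq h3.1 h3.2 k3.1 k3.2 (by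
        push_cast
        exact hcopy _ e4)
      exact Prod.ext (e1.trans e2.symm) (Prod.ext heq'.2 e6)
  refine hcard.trans ?_
  rw [card_product, Int.card_Ico, sub_zero, Int.toNat_natCast]
  exact Nat.mul_le_mul_left _ (ya_rt_card hl h4)

theorem nl3_card' {l : ℕ} (hl : l.Prime) (h4 : Sp l) (hz : ¬ (l : ℤ) ∣ z.2) :
    (nl3_bad' l).card ≤ l * 2 := by
  classical
  have hpI : Prime (l : ℤ) := Nat.prime_iff_prime_int.1 hl
  have hl0 : (0 : ℤ) < l := by exact_mod_cast hl.pos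
  set m : ℤ := ((l ^ 2 : ℕ) : ℤ) with hm
  have hm' : m = (l : ℤ) ^ 2 := by rw [hm]; push_cast; rfl
  have hpos : (0 : ℤ) < m := by
    rw [hm']; positivity
  have hcop : IsCoprime (z.2) m := by
    rw [hm']
    exact (IsCoprime.pow_left ((Prime.coprime_iff_not_dvd hpI).2 hz)).symm
  obtain ⟨w, w', hw⟩ := hcop
  have hcopy : ∀ x : ℤ, m ∣ z.2 * x → m ∣ x := by
    intro x hx
    have : x = w * (z.2 * x) + m * (w' * x) := by linear_combination (-x) * hw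
    rw [this]
    exact dvd_add (Dvd.dvd.mul_left hx _) (dvd_mul_right _ _)
  have hcard : (nl3_bad' l).card ≤ ((Ico (0 : ℤ) l) ×ˢ (ya_rt l)).card := by
    apply Finset.card_le_card_of_injOn
      (fun v => (v.1 / (l : ℤ), (v.1 * z.1 + v.2.1 * z.2) * w % m))
    · intro v hv
      have hv' : v ∈ nl3_bad' l := hv
      unfold nl3_bad' V3 at hv'
      rw [mem_filter, mem_filter, mem_product, mem_product, mem_Ico, mem_Ico, mem_Ico] at hv'
      obtain ⟨⟨⟨h1, h2, h3⟩, hdet⟩, hq1, hq⟩ := hv'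
      have hgoal : (v.1 / (l : ℤ), (v.1 * z.1 + v.2.1 * z.2) * w % m) ∈
          (Ico (0 : ℤ) l) ×ˢ (ya_rt l) := by
        rw [mem_product]
        refine ⟨mem_Ico.2 ⟨Int.ediv_nonneg h1.1 hl0.le, ?_⟩, ?_⟩
        · apply Int.ediv_lt_of_lt_mul hl0
          have := h1.2
          push_cast at this
          nlinarith
        unfold ya_rt
        rw [mem_filter, mem_Ico]
        refine ⟨⟨Int.emod_nonneg _ hpos.ne', Int.emod_lt_of_pos _ hpos⟩, ?_⟩
        change m ∣ ((v.1 * z.1 + v.2.1 * z.2) * w % m) ^ 2 + D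
        set s := v.1 * z.1 + v.2.1 * z.2 with hs
        have e1 : m ∣ s ^ 2 + D * z.2 ^ 2 := by
          have hq' : m ∣ fv v z := by rw [hm']; exact hq
          have hdet' : m ∣ v.1 * v.2.2 - v.2.1 ^ 2 - D := hdet
          have e : s ^ 2 + D * z.2 ^ 2 = v.1 * fv v z - z.2 ^ 2 * (v.1 * v.2.2 - v.2.1 ^ 2 - D) := by
            rw [hs]; unfold fv qf; ring
          rw [e]
          exact dvd_sub (Dvd.dvd.mul_left hq' _) (Dvd.dvd.mul_left hdet' _)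
        have e2 : m ∣ (s * w) ^ 2 + D := by
          have e : (s * w) ^ 2 + D = w ^ 2 * (s ^ 2 + D * z.2 ^ 2) +
              m * (D * (w' * (1 + w * z.2))) := by
            linear_combination (-(D * (1 + w * z.2))) * hw
          rw [e]
          exact dvd_add (Dvd.dvd.mul_left e1 _) (dvd_mul_right _ _)
        have e3 : m ∣ (s * w) - (s * w) % m := Int.dvd_self_sub_emod
        have e : ((s * w) % m) ^ 2 + D = ((s * w) ^ 2 + D) -
            ((s * w) - (s * w) % m) * ((s * w) + (s * w) % m) := by ring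
        rw [e]
        exact dvd_sub e2 (Dvd.dvd.mul_right e3 _)
      exact hgoal
    · intro v hv v' hv' heq
      have hv1 : v ∈ nl3_bad' l := hv
      have hv2 : v' ∈ nl3_bad' l := hv'
      unfold nl3_bad' V3 at hv1 hv2
      rw [mem_filter, mem_filter, mem_product, mem_product, mem_Ico, mem_Ico, mem_Ico] at hv1 hv2
      obtain ⟨⟨⟨h1, h2, h3⟩, hdet⟩, hq1, hq⟩ := hv1
      obtain ⟨⟨⟨k1, k2, k3⟩, kdet⟩, kq1, kq⟩ := hv2
      have heq' : (v.1 / (l : ℤ), (v.1 * z.1 + v.2.1 * z.2) * w % m) =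
        (v'.1 / (l : ℤ), (v'.1 * z.1 + v'.2.1 * z.2) * w % m) := heq
      rw [Prod.mk.injEq] at heq'
      obtain ⟨ea', et⟩ := heq'
      have ea : v.1 = v'.1 := by
        rw [← Int.ediv_mul_cancel hq1, ← Int.ediv_mul_cancel kq1, ea']
      have hb : m ∣ v.2.1 - v'.2.1 := by
        have e3 : m ∣ ((v.1 * z.1 + v.2.1 * z.2) * w) - ((v'.1 * z.1 + v'.2.1 * z.2) * w) := by
          exact Int.dvd_of_emod_eq_zero (Int.emod_eq_emod_iff_emod_sub_eq_zero.1 et)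
        have e : v.2.1 - v'.2.1 = (((v.1 * z.1 + v.2.1 * z.2) * w) -
            ((v'.1 * z.1 + v'.2.1 * z.2) * w)) + m * (w' * (v.2.1 - v'.2.1)) := by
          rw [ea]
          linear_combination (-(v.2.1 - v'.2.1)) * hw
        rw [e]
        exact dvd_add e3 (dvd_mul_right _ _)
      have hbe : v.2.1 = v'.2.1 := ya_eq h2.1 h2.2 k2.1 k2.2 hb
      have hc : m ∣ v.2.2 - v'.2.2 := by
        apply hcopy
        apply hcopy
        have e : z.2 * (z.2 * (v.2.2 - v'.2.2)) = fv v z - fv v' z := by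
          unfold fv qf
          rw [ea, hbe]; ring
        rw [e, hm']
        exact dvd_sub hq kq
      have hce : v.2.2 = v'.2.2 := ya_eq h3.1 h3.2 k3.1 k3.2 hc
      exact Prod.ext ea (Prod.ext hbe hce)
  refine hcard.trans ?_
  rw [card_product, Int.card_Ico, sub_zero, Int.toNat_natCast]
  exact Nat.mul_le_mul_left _ (ya_rt_card hl h4)

theorem nl3_le {l : ℕ} (hl : l.Prime) {n : ℕ} (hn : n ≤ l * 2) :
    (n : ℝ) / ((V3 (l ^ 2)).card : ℝ) ≤ 4 / (l : ℝ) ^ 3 := by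
  have hV := ya_V3_card hl
  have hp2 : (2 : ℝ) ≤ l := by exact_mod_cast hl.two_le
  have hp0 : (0 : ℝ) < l := by linarith
  have hVr : (l : ℝ) ^ 2 * (l * (l - 1)) ≤ ((V3 (l ^ 2)).card : ℝ) := by
    have h1 : 1 ≤ l := hl.one_lt.le
    have := (Nat.cast_le (α := ℝ)).2 hV
    push_cast [Nat.cast_sub h1] at this
    exact this
  have hVpos : (0 : ℝ) < (l : ℝ) ^ 2 * (l * (l - 1)) := by
    have : (0 : ℝ) < l - 1 := by linarith
    positivity
  have hnr : (n : ℝ) ≤ l * 2 := by exact_mod_cast hn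
  calc (n : ℝ) / ((V3 (l ^ 2)).card : ℝ)
      ≤ (l * 2) / ((l : ℝ) ^ 2 * (l * (l - 1))) := by
        apply div_le_div₀ (by positivity) hnr hVpos hVr
    _ ≤ 4 / (l : ℝ) ^ 3 := by
        rw [div_le_div_iff₀ hVpos (by positivity)]
        nlinarith [pow_pos hp0 2, pow_pos hp0 3, pow_pos hp0 4,
          mul_nonneg (pow_pos hp0 3).le (by linarith : (0 : ℝ) ≤ l - 2)]

/-- NL3: direct count -/
theorem MV_sq2 {l : ℕ} (hl : l.Prime) (h4 : Sp l) (hz : ¬ (l : ℤ) ∣ z.2) :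
    MV (l ^ 2) (fun q => if ((l : ℤ) ^ 2) ∣ q.1 ∧ (l : ℤ) ∣ fv q z then 1 else 0) ≤
      4 / (l : ℝ) ^ 3 ∧
    MV (l ^ 2) (fun q => if (l : ℤ) ∣ q.1 ∧ ((l : ℤ) ^ 2) ∣ fv q z then 1 else 0) ≤
      4 / (l : ℝ) ^ 3 := by
  classical
  constructor
  · unfold MV
    have hs : (∑ q ∈ V3 (l ^ 2), if ((l : ℤ) ^ 2) ∣ q.1 ∧ (l : ℤ) ∣ fv q z then (1 : ℝ) else 0) =
        ((nl3_bad l).card : ℝ) := by
      rw [Finset.sum_boole]
      unfold nl3_bad
      congr!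
    rw [hs]
    exact nl3_le hl (nl3_card hl h4 hz)
  · unfold MV
    have hs : (∑ q ∈ V3 (l ^ 2), if (l : ℤ) ∣ q.1 ∧ ((l : ℤ) ^ 2) ∣ fv q z then (1 : ℝ) else 0) =
        ((nl3_bad' l).card : ℝ) := by
      rw [Finset.sum_boole]
      unfold nl3_bad'
      congr!
    rw [hs]
    exact nl3_le hl (nl3_card' hl h4 hz)

end Pool.Agent.AQ.NC
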