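import Pool.Agent.Lib_helper8.AQ.NCDefs
import Pool.Agent.Lib_helper88.AQN.NL2
import Pool.Agent.Lib_helper88.AQN.NL3
import Pool.Agent.Lib_helper88.AQN.PrS

/-!
# NC, block NE2 (helper20)
-/

set_option autoImplicit false

namespace Pool.Agent.AQ.NC

open Finset Pool.Agent.PENT Pool.Agent.PENT.EQ

variable [Cst] {k : ℕ}

/-- one modulus -/
lemma ne2_avg (O : Finset (ℤ × ℤ × ℤ)) (D R : ℝ) (hE : EqFam O (fun v => v) D R) (m : ℕ)
    (hm : Nat.Coprime m Pool.Agent.AQ.R) (hD : (m : ℝ) ≤ D) (h : ℤ × ℤ × ℤ → ℝ) (hp : Per3 m h)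
    (h01 : ∀ v, 0 ≤ h v ∧ h v ≤ 1) (B : ℝ) (hB : MV m h ≤ B) :
    ∑ q ∈ O, h q ≤ (O.card : ℝ) * B + R := by
  have h1 := hE {m} (by simpa using hm) (by simp) (by simpa using hD) (fun _ => h)
    (by simpa using hp) (by simpa using h01)
  simp only [Finset.prod_singleton] at h1
  have h2 := (abs_le.mp h1).2
  have h3 : (O.card : ℝ) * MV m h ≤ (O.card : ℝ) * B :=
    mul_le_mul_of_nonneg_left hB (Nat.cast_nonneg _)
  linarith

/-- sums of inverse squares -/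
lemma ne2_sq (P : ℝ) (hP : 1 ≤ P) (S : Finset ℕ) (hS : ∀ l ∈ S, P < (l : ℝ)) :
    ∑ l ∈ S, 1 / (l : ℝ) ^ 2 ≤ 2 / P := by
  have hn0 : 1 ≤ ⌊P⌋₊ := Nat.le_floor (by simpa using hP)
  have hsub : S ⊆ Ioc ⌊P⌋₊ (⌊P⌋₊ + S.sup id) := by
    intro l hl
    rw [mem_Ioc]
    refine ⟨(Nat.floor_lt (by linarith)).mpr (hS l hl), ?_⟩
    have : l ≤ S.sup id := Finset.le_sup (f := id) hl
    omega
  calc ∑ l ∈ S, 1 / (l : ℝ) ^ 2 ≤ ∑ l ∈ Ioc ⌊P⌋₊ (⌊P⌋₊ + S.sup id), 1 / (l : ℝ) ^ 2 :=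
        Finset.sum_le_sum_of_subset_of_nonneg hsub (fun _ _ _ => by positivity)
    _ = ∑ l ∈ Ioc ⌊P⌋₊ (⌊P⌋₊ + S.sup id), ((l : ℝ) ^ 2)⁻¹ := by simp [one_div]
    _ ≤ (⌊P⌋₊ : ℝ)⁻¹ - ((⌊P⌋₊ + S.sup id : ℕ) : ℝ)⁻¹ :=
        sum_Ioc_inv_sq_le_sub (by omega) (by omega)
    _ ≤ (⌊P⌋₊ : ℝ)⁻¹ := by
        have : (0 : ℝ) ≤ ((⌊P⌋₊ + S.sup id : ℕ) : ℝ)⁻¹ := by positivity
        linarith
    _ ≤ 2 / P := by
        have h1 : P < ⌊P⌋₊ + 1 := Nat.lt_floor_add_one P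
        have h2 : (1 : ℝ) ≤ (⌊P⌋₊ : ℝ) := by exact_mod_cast hn0
        rw [inv_eq_one_div, div_le_div_iff₀ (by linarith) (by linarith)]
        linarith

/-- the power of the logarithm is absorbed -/
lemma ne2_asym (C' K ε c : ℝ) (hε : 0 < ε) (hc : 0 < c) :
    ∃ X₀ : ℕ, 3 ≤ X₀ ∧ ∀ X : ℕ, X₀ ≤ X → (z.2.natAbs : ℝ) < PP X ∧
      Real.log X ^ C' * (K / PP X * X + (X : ℝ) ^ (1 - c)) ≤ ε * X := by
  have hL : Filter.Tendsto (fun X : ℕ => Real.log (X : ℝ)) Filter.atTop Filter.atTop :=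
    Real.tendsto_log_atTop.comp tendsto_natCast_atTop_atTop
  have hL1 : Filter.Tendsto (fun X : ℕ => Real.log (X : ℝ) ^ (1 / 100 : ℝ)) Filter.atTop
      Filter.atTop := (tendsto_rpow_atTop (by norm_num)).comp hL
  have h1 : Filter.Tendsto (fun X : ℕ => Real.log (X : ℝ) ^ C' * Real.exp (-c * Real.log (X : ℝ)))
      Filter.atTop (nhds 0) :=
    (tendsto_rpow_mul_exp_neg_mul_atTop_nhds_zero C' c hc).comp hL
  have h2 : Filter.Tendsto (fun X : ℕ => (Real.log (X : ℝ) ^ (1 / 100 : ℝ)) ^ (100 * C') *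
      Real.exp (-1 * (Real.log (X : ℝ) ^ (1 / 100 : ℝ)))) Filter.atTop (nhds 0) :=
    (tendsto_rpow_mul_exp_neg_mul_atTop_nhds_zero (100 * C') 1 one_pos).comp hL1
  have h3 : Filter.Tendsto (fun X : ℕ => K * ((Real.log (X : ℝ) ^ (1 / 100 : ℝ)) ^ (100 * C') *
      Real.exp (-1 * (Real.log (X : ℝ) ^ (1 / 100 : ℝ)))) +
      Real.log (X : ℝ) ^ C' * Real.exp (-c * Real.log (X : ℝ))) Filter.atTop (nhds 0) := by
    have := (h2.const_mul K).add h1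
    simpa using this
  have h0 : Filter.Tendsto (fun X : ℕ => Real.exp (Real.log (X : ℝ) ^ (1 / 100 : ℝ)))
      Filter.atTop Filter.atTop := Real.tendsto_exp_atTop.comp hL1
  have h4 := (h3.eventually (gt_mem_nhds hε)).and ((Filter.eventually_ge_atTop (3 : ℕ)).and
    (h0.eventually_gt_atTop (z.2.natAbs : ℝ)))
  obtain ⟨X₀, hX₀⟩ := Filter.eventually_atTop.mp h4
  refine ⟨max X₀ 3, le_max_right _ _, fun X hX => ?_⟩
  obtain ⟨h5, h6, h7⟩ := hX₀ X (le_trans (le_max_left _ _) hX)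
  refine ⟨h7, ?_⟩
  have hX3 : (3 : ℝ) ≤ X := by exact_mod_cast h6
  have hX0 : (0 : ℝ) < X := by linarith
  have hlog : 0 < Real.log (X : ℝ) := Real.log_pos (by linarith)
  have e1 : (Real.log (X : ℝ) ^ (1 / 100 : ℝ)) ^ (100 * C') = Real.log (X : ℝ) ^ C' := by
    rw [← Real.rpow_mul hlog.le]
    congr 1
    ring
  have e2 : (X : ℝ) ^ (1 - c) = X * Real.exp (-c * Real.log (X : ℝ)) := by
    rw [Real.rpow_sub hX0, Real.rpow_one, Real.rpow_def_of_pos hX0, div_eq_mul_inv, ← Real.exp_neg]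
    congr 2
    ring
  have e3 : K / PP X = K * Real.exp (-1 * (Real.log (X : ℝ) ^ (1 / 100 : ℝ))) := by
    rw [PP, div_eq_mul_inv, ← Real.exp_neg]
    congr 2
    ring
  rw [e2, e3]
  rw [e1] at h5
  have := mul_le_mul_of_nonneg_right h5.le hX0.le
  calc _ = (K * (Real.log (X : ℝ) ^ C' * Real.exp (-1 * (Real.log (X : ℝ) ^ (1 / 100 : ℝ)))) +
      Real.log (X : ℝ) ^ C' * Real.exp (-c * Real.log (X : ℝ))) * X := by ring
    _ ≤ _ := this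

/-- the pair event modulo `l` -/
lemma ne2_per (l : ℕ) : Per3 l (fun q : ℤ × ℤ × ℤ =>
    if (l : ℤ) ∣ q.1 ∧ (l : ℤ) ∣ fv q z then (1 : ℝ) else 0) := by
  intro v w h1 h2 h3
  have e : (l : ℤ) ∣ fv v z ↔ (l : ℤ) ∣ fv w z := by
    apply dvd_iff_dvd_of_dvd_sub
    have : fv v z - fv w z = (v.1 - w.1) * z.1 ^ 2 + (v.2.1 - w.2.1) * (2 * z.1 * z.2) +
        (v.2.2 - w.2.2) * z.2 ^ 2 := by
      simp only [fv, qf]
      ring
    rw [this]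
    exact dvd_add (dvd_add (h1.mul_right _) (h2.mul_right _)) (h3.mul_right _)
  simp only [dvd_iff_dvd_of_dvd_sub h1, e]

/-- the mean of the pair event -/
lemma ne2_mean {l : ℕ} (hl : l.Prime) (h4 : Sp l) (hz : z.2.natAbs < l) :
    MV l (fun q : ℤ × ℤ × ℤ => if (l : ℤ) ∣ q.1 ∧ (l : ℤ) ∣ fv q z then (1 : ℝ) else 0) ≤
      2 * (1 / (l : ℝ) ^ 2) := by
  have hl0 : (0 : ℝ) < l := by exact_mod_cast hl.pos
  have h := MV_line2 hl h4 (1, 0) z (by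
    simp only [dt]
    intro h
    have h2 : (l : ℤ) ∣ z.2 := by simpa using h
    have h3 : l ∣ z.2.natAbs := Int.natCast_dvd.mp h2
    have h4 : 0 < z.2.natAbs := Int.natAbs_pos.mpr z_two.ne'
    exact absurd (Nat.le_of_dvd h4 h3) (by omega))
  have e : (fun q : ℤ × ℤ × ℤ => if (l : ℤ) ∣ q.1 ∧ (l : ℤ) ∣ fv q z then (1 : ℝ) else 0) =
      (fun q => if (l : ℤ) ∣ fv q (1, 0) ∧ (l : ℤ) ∣ fv q z then 1 else 0) := by
    funext q
    have e1 : fv q (1, 0) = q.1 := by simp [fv, qf]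
    rw [e1]
  rw [e, h]
  rw [show 2 * (1 / (l : ℝ) ^ 2) = 2 / (l : ℝ) ^ 2 by ring]
  apply div_le_div_of_nonneg_left (by norm_num) (by positivity)
  nlinarith

/-- the square event modulo `l²` -/
lemma ne2_per2 (l : ℕ) (v0 : ℤ × ℤ) : Per3 (l ^ 2) (fun q : ℤ × ℤ × ℤ =>
    if ((l : ℤ) ^ 2) ∣ fv q v0 then (1 : ℝ) else 0) := by
  intro v w h1 h2 h3
  have e : ((l : ℤ) ^ 2) ∣ fv v v0 ↔ ((l : ℤ) ^ 2) ∣ fv w v0 := by
    apply dvd_iff_dvd_of_dvd_sub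
    push_cast at h1 h2 h3
    have : fv v v0 - fv w v0 = (v.1 - w.1) * v0.1 ^ 2 + (v.2.1 - w.2.1) * (2 * v0.1 * v0.2) +
        (v.2.2 - w.2.2) * v0.2 ^ 2 := by
      simp only [fv, qf]
      ring
    rw [this]
    exact dvd_add (dvd_add (h1.mul_right _) (h2.mul_right _)) (h3.mul_right _)
  simp only [e]

open Classical in
/-- NE2: the square terms and the common primes, on average (as NX8; `MV_sq'`, `MV_line2`) -/
theorem end_sq {p : Prm k} (c C₂ ε : ℝ) (hc : 0 < c) (hε : 0 < ε) (hta : 0 < p.ta)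
    (hta2 : p.ta ≤ c / 4) : ∃ X₀ : ℕ, ∀ X ≥ X₀, ∀ O : Finset (ℤ × ℤ × ℤ),
    (O.card : ℝ) ≤ C₂ * X → EqFam O (fun v => v) ((X : ℝ) ^ c) ((X : ℝ) ^ (1 - c)) →
    ∑ q ∈ O, (∑ l ∈ prS (PP X) (p.Y X), ((if ((l : ℤ) ^ 2) ∣ q.1 then (1 : ℝ) else 0) +
        (if ((l : ℤ) ^ 2) ∣ fv q z then (1 : ℝ) else 0) +
        (if (l : ℤ) ∣ q.1 ∧ (l : ℤ) ∣ fv q z then (1 : ℝ) else 0))) ≤ ε * X := by
  obtain ⟨X₀, hX3, hX₀⟩ := ne2_asym 0 (20 / 3 * C₂) (ε / 3) (3 / 4 * c) (by linarith)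
    (by linarith)
  refine ⟨X₀, fun X hX O hO hE => ?_⟩
  obtain ⟨hzP, hfin⟩ := hX₀ X hX
  have hXX : (3 : ℝ) ≤ X := by exact_mod_cast le_trans hX3 hX
  have hX0 : (0 : ℝ) < X := by linarith
  have hX1 : (1 : ℝ) ≤ X := by linarith
  have hlog : 0 < Real.log (X : ℝ) := Real.log_pos (by linarith)
  have hP1 : 1 ≤ PP X := by
    rw [PP]
    exact Real.one_le_exp (Real.rpow_nonneg hlog.le _)
  have hY0 : 0 ≤ p.Y X := by rw [Prm.Y]; positivity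
  have hYc : p.Y X ≤ (X : ℝ) ^ (c / 4) := Real.rpow_le_rpow_of_exponent_le hX1 hta2
  set L : Finset ℕ := prS (PP X) (p.Y X) with hLdef
  have hL : ∀ l ∈ L, Sp l ∧ PP X < (l : ℝ) ∧ (l : ℝ) ≤ p.Y X := by
    intro l hl
    rw [hLdef, prS, mem_filter, mem_Icc] at hl
    exact ⟨hl.2.1, hl.2.2, (Nat.le_floor_iff hY0).mp hl.1.2⟩
  have hlD : ∀ l ∈ L, (l : ℝ) ≤ (X : ℝ) ^ c := fun l hl =>
    (hL l hl).2.2.trans (hYc.trans (Real.rpow_le_rpow_of_exponent_le hX1 (by linarith)))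
  have hlD2 : ∀ l ∈ L, ((l ^ 2 : ℕ) : ℝ) ≤ (X : ℝ) ^ c := by
    intro l hl
    push_cast
    calc (l : ℝ) ^ 2 ≤ ((X : ℝ) ^ (c / 4)) ^ 2 :=
          pow_le_pow_left₀ (Nat.cast_nonneg _) ((hL l hl).2.2.trans hYc) 2
      _ = (X : ℝ) ^ (c / 2) := by
          rw [← Real.rpow_natCast, ← Real.rpow_mul hX0.le]
          congr 1
          push_cast
          ring
      _ ≤ (X : ℝ) ^ c := Real.rpow_le_rpow_of_exponent_le hX1 (by linarith)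
  have h01 : ∀ (P : Prop) [Decidable P], (0 : ℝ) ≤ (if P then (1 : ℝ) else 0) ∧
      (if P then (1 : ℝ) else 0) ≤ 1 := by
    intro P _
    split_ifs <;> norm_num
  have hsq : ∀ l ∈ L, ∀ v0 : ℤ × ℤ, ¬ ((l : ℤ) ∣ v0.1 ∧ (l : ℤ) ∣ v0.2) →
      ∑ q ∈ O, (if ((l : ℤ) ^ 2) ∣ fv q v0 then (1 : ℝ) else 0) ≤
      (O.card : ℝ) * (4 * (1 / (l : ℝ) ^ 2)) + (X : ℝ) ^ (1 - c) := by
    intro l hl v0 hv0
    obtain ⟨hl4, _, _⟩ := hL l hl
    have hlp := hl4.prime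
    have ho : Nat.Coprime (l ^ 2) Pool.Agent.AQ.R :=
      Nat.Coprime.pow_left 2 ((Nat.Prime.coprime_iff_not_dvd hlp).mpr hl4.ndvd)
    refine ne2_avg O _ _ hE (l ^ 2) ho (hlD2 l hl) _ (ne2_per2 l v0) (fun v => h01 _) _ ?_
    exact (MV_sq' hlp hl4 v0 hv0).trans (le_of_eq (by ring))
  have hone : ∀ l ∈ L, ∑ q ∈ O, ((if ((l : ℤ) ^ 2) ∣ q.1 then (1 : ℝ) else 0) +
        (if ((l : ℤ) ^ 2) ∣ fv q z then (1 : ℝ) else 0) +
        (if (l : ℤ) ∣ q.1 ∧ (l : ℤ) ∣ fv q z then (1 : ℝ) else 0)) ≤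
      (O.card : ℝ) * (10 * (1 / (l : ℝ) ^ 2)) + 3 * (X : ℝ) ^ (1 - c) := by
    intro l hl
    obtain ⟨hl4, hlP, _⟩ := hL l hl
    have hlp := hl4.prime
    have hlz : z.2.natAbs < l := by exact_mod_cast hzP.trans hlP
    have hn1 : ¬ (l : ℤ) ∣ 1 := by
      intro h
      have h3 : l ∣ 1 := by exact_mod_cast h
      exact hlp.one_lt.ne' (Nat.dvd_one.mp h3)
    have a1 := hsq l hl (1, 0) (fun h => hn1 h.1)
    have a2 := hsq l hl z (fun h => hn1 (by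
      obtain ⟨x, y, hxy⟩ := z_cop
      rw [← hxy]
      exact dvd_add (h.1.mul_left _) (h.2.mul_left _)))
    have a3 := ne2_avg O _ _ hE l ((Nat.Prime.coprime_iff_not_dvd hlp).mpr hl4.ndvd) (hlD l hl) _
      (ne2_per l) (fun v => h01 _) _ (ne2_mean hlp hl4 hlz)
    have e1 : ∀ q : ℤ × ℤ × ℤ, fv q (1, 0) = q.1 := fun q => by simp [fv, qf]
    simp only [e1] at a1
    rw [Finset.sum_add_distrib, Finset.sum_add_distrib]
    linarith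
  have hcard : (L.card : ℝ) ≤ (X : ℝ) ^ (c / 4) := by
    refine le_trans ?_ hYc
    refine le_trans ?_ (Nat.floor_le hY0)
    have h1 : L.card ≤ (Icc 1 ⌊p.Y X⌋₊).card := Finset.card_filter_le _ _
    rw [Nat.card_Icc] at h1
    exact_mod_cast h1
  have hS : ∑ l ∈ L, 1 / (l : ℝ) ^ 2 ≤ 2 / PP X :=
    ne2_sq _ hP1 _ fun l hl => (hL l hl).2.1
  rw [Real.rpow_zero, one_mul] at hfin
  calc _ = ∑ l ∈ L, ∑ q ∈ O, ((if ((l : ℤ) ^ 2) ∣ q.1 then (1 : ℝ) else 0) +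
        (if ((l : ℤ) ^ 2) ∣ fv q z then (1 : ℝ) else 0) +
        (if (l : ℤ) ∣ q.1 ∧ (l : ℤ) ∣ fv q z then (1 : ℝ) else 0)) := Finset.sum_comm
    _ ≤ ∑ l ∈ L, ((O.card : ℝ) * (10 * (1 / (l : ℝ) ^ 2)) + 3 * (X : ℝ) ^ (1 - c)) :=
        Finset.sum_le_sum hone
    _ = (O.card : ℝ) * (10 * ∑ l ∈ L, 1 / (l : ℝ) ^ 2) + 3 * (L.card * (X : ℝ) ^ (1 - c)) := by
        rw [Finset.sum_add_distrib, ← Finset.mul_sum, ← Finset.mul_sum]
        simp only [Finset.sum_const, nsmul_eq_mul]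
        ring
    _ ≤ (O.card : ℝ) * (10 * (2 / PP X)) + 3 * ((X : ℝ) ^ (c / 4) * (X : ℝ) ^ (1 - c)) := by
        apply add_le_add
        · exact mul_le_mul_of_nonneg_left (by linarith) (Nat.cast_nonneg _)
        · exact mul_le_mul_of_nonneg_left
            (mul_le_mul_of_nonneg_right hcard (Real.rpow_nonneg hX0.le _)) (by norm_num)
    _ ≤ (C₂ * X) * (10 * (2 / PP X)) + 3 * (X : ℝ) ^ (1 - 3 / 4 * c) := by
        apply add_le_add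
        · exact mul_le_mul_of_nonneg_right hO (by positivity)
        · rw [← Real.rpow_add hX0]
          exact le_of_eq (by congr 2; ring)
    _ = 3 * (20 / 3 * C₂ / PP X * X + (X : ℝ) ^ (1 - 3 / 4 * c)) := by ring
    _ ≤ ε * X := by linarith

end Pool.Agent.AQ.NC
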