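import Pool.Agent.Lib_helper8.AQ.NCDefs
import Pool.Agent.Lib_helper8.PENT.BH
import Pool.Agent.Lib_helper88.AQN.NL1

/-! NC, block NS1 (helper8): the sharp sieve over the forms -/

set_option autoImplicit false

namespace Pool.Agent.AQ.NC

open Finset Pool.Agent.PENT Pool.Agent.PENT.EQ

variable [Cst]

theorem ns1_per_sub {m : ℕ} {h : ℤ × ℤ × ℤ → ℝ} (hh : Per3 m h) :
    Per3 m (fun v => 1 - h v) := by
  intro v w h1 h2 h3
  show 1 - h v = 1 - h w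
  rw [hh v w h1 h2 h3]

theorem ns1_eq (O : Finset (ℤ × ℤ × ℤ)) (L E : ℝ) (hE : EqFam O (fun v => v) L E)
    (m0 : ℕ) (Z T : Finset ℕ) (h0 : ℤ × ℤ × ℤ → ℝ) (h : ℕ → ℤ × ℤ × ℤ → ℝ)
    (hm0 : Nat.Coprime m0 R) (hZ : ∀ l ∈ Z ∪ T, l.Prime ∧ ¬ l ∣ R ∧ Nat.Coprime m0 l) (hd : Disjoint Z T)
    (hD : ((m0 * (∏ l ∈ Z, l) * ∏ l ∈ T, l : ℕ) : ℝ) ≤ L) (hp0 : Per3 m0 h0)
    (h01 : ∀ v, 0 ≤ h0 v ∧ h0 v ≤ 1)
    (hp : ∀ l ∈ Z ∪ T, Per3 l (h l) ∧ ∀ v, 0 ≤ h l v ∧ h l v ≤ 1) :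
    |∑ q ∈ O, (h0 q * ∏ l ∈ Z, h l q) * ∏ l ∈ T, (1 - h l q) -
      ((O.card : ℝ) * MV m0 h0 * ∏ l ∈ Z, MV l (h l)) * ∏ l ∈ T, (1 - MV l (h l))| ≤ E := by
  classical
  have hne : ∀ l ∈ Z ∪ T, l ≠ m0 := by
    intro l hl he
    obtain ⟨h1, -, h3⟩ := hZ l hl
    rw [← he, Nat.coprime_self] at h3
    exact h1.one_lt.ne' h3
  have hm0n : m0 ∉ Z ∪ T := fun hh => hne m0 hh rfl
  have hTZ : ∀ l ∈ T, l ∉ Z := fun l hl hl' => Finset.disjoint_left.1 hd hl' hl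
  set h' : ℕ → ℤ × ℤ × ℤ → ℝ := fun m => if m = m0 then h0 else if m ∈ Z then h m
    else fun v => 1 - h m v with hh'
  have e0 : h' m0 = h0 := by rw [hh']; simp only [if_true]
  have eZ : ∀ l ∈ Z, h' l = h l := by
    intro l hl
    simp only [hh']
    rw [if_neg (hne l (mem_union_left _ hl)), if_pos hl]
  have eT : ∀ l ∈ T, h' l = fun v => 1 - h l v := by
    intro l hl
    simp only [hh']
    rw [if_neg (hne l (mem_union_right _ hl)), if_neg (hTZ l hl)]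
  have hprod : ∏ m ∈ insert m0 (Z ∪ T), m = m0 * (∏ l ∈ Z, l) * ∏ l ∈ T, l := by
    rw [Finset.prod_insert hm0n, Finset.prod_union hd]
    ring
  have key := hE (insert m0 (Z ∪ T)) ?_ ?_ ?_ h' ?_ ?_
  · have e1 : ∀ q : ℤ × ℤ × ℤ, ∏ m ∈ insert m0 (Z ∪ T), h' m q =
        (h0 q * ∏ l ∈ Z, h l q) * ∏ l ∈ T, (1 - h l q) := by
      intro q
      rw [Finset.prod_insert hm0n, Finset.prod_union hd, e0,
        Finset.prod_congr rfl (fun l hl => by rw [eZ l hl]),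
        Finset.prod_congr (s₁ := T) rfl (fun l hl => by rw [eT l hl])]
      ring
    have e2 : ∏ m ∈ insert m0 (Z ∪ T), MV m (h' m) =
        (MV m0 h0 * ∏ l ∈ Z, MV l (h l)) * ∏ l ∈ T, (1 - MV l (h l)) := by
      rw [Finset.prod_insert hm0n, Finset.prod_union hd, e0,
        Finset.prod_congr rfl (fun l hl => by rw [eZ l hl])]
      have e3 : ∏ l ∈ T, MV l (h' l) = ∏ l ∈ T, (1 - MV l (h l)) := by
        refine Finset.prod_congr rfl (fun l hl => ?_)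
        rw [eT l hl, MV_sub', MV_const' (hZ l (mem_union_right _ hl)).1.pos]
      rw [e3]
      ring
    simp only [e1] at key
    rw [e2] at key
    convert key using 3
    ring
  · intro m hm
    rcases Finset.mem_insert.1 hm with rfl | hm
    · exact hm0
    · obtain ⟨h1, h2, -⟩ := hZ m hm
      exact (h1.coprime_iff_not_dvd).2 h2
  · intro m hm m' hm' hmm
    rcases Finset.mem_insert.1 hm with hm1 | hm1
    · rcases Finset.mem_insert.1 hm' with hm2 | hm2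
      · exact absurd (hm1.trans hm2.symm) hmm
      · rw [hm1]; exact (hZ m' hm2).2.2
    · rcases Finset.mem_insert.1 hm' with hm2 | hm2
      · rw [hm2]; exact (hZ m hm1).2.2.symm
      · exact (Nat.coprime_primes (hZ m hm1).1 (hZ m' hm2).1).2 hmm
  · rw [hprod]; exact hD
  · intro m hm
    rcases Finset.mem_insert.1 hm with rfl | hm
    · rw [e0]; exact hp0
    · rcases Finset.mem_union.1 hm with hl | hl
      · rw [eZ m hl]; exact (hp m hm).1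
      · rw [eT m hl]; exact ns1_per_sub (hp m hm).1
  · intro m hm v
    rcases Finset.mem_insert.1 hm with rfl | hm
    · rw [e0]; exact h01 v
    · rcases Finset.mem_union.1 hm with hl | hl
      · rw [eZ m hl]; exact (hp m hm).2 v
      · rw [eT m hl]
        have := (hp m hm).2 v
        constructor
        · show 0 ≤ 1 - h m v
          linarith [this.2]
        · show 1 - h m v ≤ 1
          linarith [this.1]

/-- NS1: the sharp sieve over the forms.  `brun_primes_sharp κ 2 δ` with `W q = h0 q ∏_Z h`,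
`x q l = 1 - h l q`, `g l = 1 - MV l (h l)`; the hypothesis on `T ⊆ S` is `EqFam` for the moduli
`{m0} ∪ Z ∪ T` -/
theorem sieve_q (κ δ : ℝ) (hκ : 0 ≤ κ) (hδ : 0 < δ) (hδ1 : δ ≤ 1) : ∃ ks : ℕ,
    ∀ (O : Finset (ℤ × ℤ × ℤ)) (L E : ℝ), EqFam O (fun v => v) L E → 0 ≤ E →
    ∀ (Y m0 : ℕ) (Z S : Finset ℕ) (h0 : ℤ × ℤ × ℤ → ℝ) (h : ℕ → ℤ × ℤ × ℤ → ℝ),
    1 ≤ Y → Nat.Coprime m0 R → (∀ l ∈ Z ∪ S, l.Prime ∧ ¬ l ∣ R ∧ Nat.Coprime m0 l) → (∀ l ∈ S, l ≤ Y) →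
    Disjoint Z S → ((m0 * ∏ l ∈ Z, l : ℕ) : ℝ) * (Y : ℝ) ^ ks ≤ L → Per3 m0 h0 →
    (∀ v, 0 ≤ h0 v ∧ h0 v ≤ 1) → (∀ l ∈ Z ∪ S, Per3 l (h l) ∧ ∀ v, 0 ≤ h l v ∧ h l v ≤ 1) →
    (∀ l ∈ S, 1 - MV l (h l) ≤ κ / l ∧ 1 - MV l (h l) ≤ 1 / 2) →
    |∑ q ∈ O, h0 q * ∏ l ∈ Z ∪ S, h l q -
        (O.card : ℝ) * MV m0 h0 * ∏ l ∈ Z ∪ S, MV l (h l)| ≤
      δ * ((O.card : ℝ) * MV m0 h0 * ∏ l ∈ Z ∪ S, MV l (h l)) + (Y : ℝ) ^ ks * E := by
  obtain ⟨ks, hks⟩ := Pool.Agent.PENT.brun_primes_sharp κ 2 δ hκ (by norm_num) hδ hδ1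
  refine ⟨ks, ?_⟩
  intro O L E hE hR Y m0 Z S h0 h hY hm0 hZS hSY hdis hD hp0 h01 hp hg
  have hM : ∀ l ∈ Z ∪ S, 0 ≤ MV l (h l) ∧ MV l (h l) ≤ 1 := fun l hl => MV_01 (hp l hl).2
  have hX : 0 ≤ (O.card : ℝ) * MV m0 h0 * ∏ l ∈ Z, MV l (h l) :=
    mul_nonneg (mul_nonneg (Nat.cast_nonneg _) (MV_01 h01).1)
      (Finset.prod_nonneg (fun l hl => (hM l (mem_union_left _ hl)).1))
  have key := hks (ℤ × ℤ × ℤ) O (fun q => h0 q * ∏ l ∈ Z, h l q) (fun q l => 1 - h l q) S Y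
    (fun l => 1 - MV l (h l)) ((O.card : ℝ) * MV m0 h0 * ∏ l ∈ Z, MV l (h l)) E hY
    (fun q _ => mul_nonneg (h01 q).1
      (Finset.prod_nonneg (fun l hl => ((hp l (mem_union_left _ hl)).2 q).1)))
    (fun q _ l hl => ⟨by linarith [((hp l (mem_union_right _ hl)).2 q).2],
      by linarith [((hp l (mem_union_right _ hl)).2 q).1]⟩)
    (fun l hl => ⟨(hZS l (mem_union_right _ hl)).1, hSY l hl⟩)
    (fun l hl => ⟨by linarith [(hM l (mem_union_right _ hl)).2],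
      by linarith [(hg l hl).2], (hg l hl).1⟩) hX hR ?_
  · have e1 : ∀ q : ℤ × ℤ × ℤ, (h0 q * ∏ l ∈ Z, h l q) * ∏ l ∈ S, (1 - (1 - h l q)) =
        h0 q * ∏ l ∈ Z ∪ S, h l q := by
      intro q
      rw [Finset.prod_union hdis]
      simp only [sub_sub_cancel]
      ring
    have e2 : (O.card : ℝ) * MV m0 h0 * (∏ l ∈ Z, MV l (h l)) *
        ∏ l ∈ S, (1 - (1 - MV l (h l))) = (O.card : ℝ) * MV m0 h0 *
        ∏ l ∈ Z ∪ S, MV l (h l) := by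
      rw [Finset.prod_union hdis]
      simp only [sub_sub_cancel]
      ring
    simp only [e1] at key
    rw [e2] at key
    rw [abs_le]
    constructor
    · linarith [key.1]
    · linarith [key.2]
  · intro T hT hTk
    refine ns1_eq O L E hE m0 Z T h0 h hm0 (fun l hl => ?_) ?_ ?_ hp0 h01 (fun l hl => ?_)
    · rcases Finset.mem_union.1 hl with hl | hl
      · exact hZS l (mem_union_left _ hl)
      · exact hZS l (mem_union_right _ (hT hl))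
    · exact Finset.disjoint_of_subset_right hT hdis
    · refine le_trans ?_ hD
      rw [Nat.cast_mul (m0 * ∏ l ∈ Z, l)]
      refine mul_le_mul_of_nonneg_left ?_ (Nat.cast_nonneg _)
      have : ((∏ p ∈ T, p : ℕ) : ℝ) ≤ ((Y ^ ks : ℕ) : ℝ) := Nat.cast_le.2 hTk
      rwa [Nat.cast_pow] at this
    · rcases Finset.mem_union.1 hl with hl | hl
      · exact hp l (mem_union_left _ hl)
      · exact hp l (mem_union_right _ (hT hl))

end Pool.Agent.AQ.NC
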