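import Pool.Agent.Lib_helper8.AQ.NCDefs
import Pool.Agent.Lib_helper15.AQ.Mer4
import Pool.Agent.Lib_helper88.AQN.NL1
import Pool.Agent.Lib_helper88.AQN.NL2
import Pool.Agent.Lib_helper88.AQN.NS1
import Pool.Agent.Lib_helper88.AQN.PrS

set_option autoImplicit false

namespace Pool.Agent.AQ.NC

open Finset Pool.Agent.PENT Pool.Agent.PENT.EQ

variable [Cst] {k : ℕ}

/-- the local weight -/
noncomputable def ne4_h (v : ℤ × ℤ) (l : ℕ) (q : ℤ × ℤ × ℤ) : ℝ :=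
  if (l : ℤ) ∣ fv q v then 5 / 8 else 1

theorem ne4_h01 (v : ℤ × ℤ) (l : ℕ) (q : ℤ × ℤ × ℤ) : 0 ≤ ne4_h v l q ∧ ne4_h v l q ≤ 1 := by
  unfold ne4_h
  split_ifs <;> norm_num

theorem ne4_per (v : ℤ × ℤ) (l : ℕ) : Per3 l (ne4_h v l) := by
  intro q q' h1 h2 h3
  have h : (l : ℤ) ∣ fv q v - fv q' v := by
    have e : fv q v - fv q' v = (q.1 - q'.1) * v.1 ^ 2 + (q.2.1 - q'.2.1) * (2 * v.1 * v.2) +
        (q.2.2 - q'.2.2) * v.2 ^ 2 := by
      unfold fv qf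
      ring
    rw [e]
    exact dvd_add (dvd_add (h1.mul_right _) (h2.mul_right _)) (h3.mul_right _)
  have h4 : (l : ℤ) ∣ fv q v ↔ (l : ℤ) ∣ fv q' v := dvd_iff_dvd_of_dvd_sub h
  unfold ne4_h
  simp only [h4]

theorem ne4_sp_iff {l : ℕ} : Sp l ↔ l.Prime ∧ ¬ l ∣ R ∧ IsSquare ((-D : ℤ) : ZMod l) := by
  unfold Sp
  refine and_congr_right (fun hl => and_congr_right (fun hR => ?_))
  haveI : Fact l.Prime := ⟨hl⟩
  constructor
  · rintro ⟨t, ht⟩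
    refine ⟨(t : ZMod l), ?_⟩
    have h1 := (ZMod.intCast_zmod_eq_zero_iff_dvd _ l).2 ht
    push_cast at h1 ⊢
    linear_combination -h1
  · rintro ⟨s, hs⟩
    refine ⟨(s.val : ℤ), ?_⟩
    rw [← ZMod.intCast_zmod_eq_zero_iff_dvd]
    have h4 : ((s.val : ℤ) : ZMod l) = s := by
      rw [Int.cast_natCast]
      exact ZMod.natCast_zmod_val s
    push_cast at h4 hs ⊢
    rw [h4]
    linear_combination -hs

theorem ne4_mert : ∃ C : ℝ, 0 ≤ C ∧ ∀ z : ℝ, 2 ≤ z →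
    |ssp z - 1 / 2 * Real.log (Real.log z)| ≤ C := by
  obtain ⟨C, hC, h⟩ := Pool.Agent.AQM.mertens_ssp (D := -D) (a0 := R) R_pos D_ns (by
    intro p hp hpd
    have hpp : Prime (p : ℤ) := Nat.prime_iff_prime_int.1 hp
    rcases hpp.dvd_or_dvd hpd with h1 | h1
    · have h2 : p ∣ 2 := by exact_mod_cast h1
      exact h2.trans two_dvd_R
    · exact prime_dvd_D hp ((dvd_neg).1 h1))
  refine ⟨C, hC, fun z hz => ?_⟩
  have e : ssp z = Pool.Agent.AQM.ssp (-D) R z := by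
    classical
    unfold ssp Pool.Agent.AQM.ssp
    refine Finset.sum_congr ?_ (fun _ _ => rfl)
    ext l
    rw [Finset.mem_filter, Finset.mem_filter, ne4_sp_iff]
  rw [e]
  exact h z hz

theorem ne4_mean {l : ℕ} (hl : l.Prime) (h4 : Sp l) (v : ℤ × ℤ)
    (hv : ¬ ((l : ℤ) ∣ v.1 ∧ (l : ℤ) ∣ v.2)) :
    MV l (ne4_h v l) = 1 - 3 / 4 / ((l : ℝ) + 1) := by
  have e : ne4_h v l = fun q => (1 : ℝ) - 3 / 8 * (if (l : ℤ) ∣ fv q v then 1 else 0) := by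
    funext q
    unfold ne4_h
    split_ifs <;> norm_num
  rw [e, MV_sub' (fun _ => (1 : ℝ)) (fun q => 3 / 8 * (if (l : ℤ) ∣ fv q v then 1 else 0)),
    MV_const' hl.pos, MV_smul', MV_line hl h4 v hv]
  ring

theorem ne4_prS {A B : ℝ} {l : ℕ} (h : l ∈ prS A B) :
    Sp l ∧ A < (l : ℝ) ∧ l ≤ ⌊B⌋₊ := by
  classical
  unfold prS at h
  rw [Finset.mem_filter, Finset.mem_Icc] at h
  exact ⟨h.2.1, h.2.2, h.1.2⟩

theorem ne4_tel (n : ℕ) : ∑ l ∈ Finset.Icc 1 n, (1 / (l : ℝ) - 1 / ((l : ℝ) + 1)) =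
    1 - 1 / ((n : ℝ) + 1) := by
  induction n with
  | zero => simp
  | succ n ih =>
    rw [Finset.sum_Icc_succ_top (by omega), ih]
    push_cast
    ring

theorem ne4_sum {A B : ℝ} : ssp B - ssp A - 1 ≤ ∑ l ∈ prS A B, 1 / ((l : ℝ) + 1) := by
  have h1 : ssp B ≤ ∑ l ∈ prS A B, 1 / (l : ℝ) + ssp A := by
    classical
    unfold ssp
    rw [← Finset.sum_filter_add_sum_filter_not
      ((Finset.Icc 1 ⌊B⌋₊).filter (fun p => Sp p)) (fun l : ℕ => A < (l : ℝ))]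
    refine add_le_add ?_ ?_
    · refine Finset.sum_le_sum_of_subset_of_nonneg ?_ (fun i _ _ => by positivity)
      intro l hl
      rw [Finset.mem_filter, Finset.mem_filter] at hl
      unfold prS
      rw [Finset.mem_filter]
      exact ⟨hl.1.1, hl.1.2, hl.2⟩
    · refine Finset.sum_le_sum_of_subset_of_nonneg ?_ (fun i _ _ => by positivity)
      intro l hl
      rw [Finset.mem_filter, Finset.mem_filter, Finset.mem_Icc] at hl
      rw [Finset.mem_filter, Finset.mem_Icc]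
      exact ⟨⟨hl.1.1.1, Nat.le_floor (not_lt.mp hl.2)⟩, hl.1.2⟩
  have h2 : ∑ l ∈ prS A B, (1 / (l : ℝ) - 1 / ((l : ℝ) + 1)) ≤ 1 := by
    classical
    have h3 : ∑ l ∈ prS A B, (1 / (l : ℝ) - 1 / ((l : ℝ) + 1)) ≤
        ∑ l ∈ Finset.Icc 1 ⌊B⌋₊, (1 / (l : ℝ) - 1 / ((l : ℝ) + 1)) := by
      refine Finset.sum_le_sum_of_subset_of_nonneg (Finset.filter_subset _ _) (fun i hi _ => ?_)
      rw [Finset.mem_Icc] at hi
      have hi0 : (0 : ℝ) < i := by exact_mod_cast hi.1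
      have : 1 / ((i : ℝ) + 1) ≤ 1 / (i : ℝ) := one_div_le_one_div_of_le hi0 (by linarith)
      linarith
    rw [ne4_tel] at h3
    have : (0 : ℝ) ≤ 1 / ((⌊B⌋₊ : ℝ) + 1) := by positivity
    linarith
  rw [Finset.sum_sub_distrib] at h2
  linarith

theorem ne4_prod (S : Finset ℕ) :
    ∏ l ∈ S, (1 - 3 / 4 / ((l : ℝ) + 1)) ≤ Real.exp (-(3 / 4 * ∑ l ∈ S, 1 / ((l : ℝ) + 1))) := by
  have e : -(3 / 4 * ∑ l ∈ S, 1 / ((l : ℝ) + 1)) = ∑ l ∈ S, (-(3 / 4 / ((l : ℝ) + 1))) := by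
    rw [Finset.sum_neg_distrib, Finset.mul_sum]
    congr 1
    refine Finset.sum_congr rfl (fun l _ => ?_)
    ring
  rw [e, Real.exp_sum]
  refine Finset.prod_le_prod (fun l _ => ?_) (fun l _ => ?_)
  · have h1 : (0 : ℝ) ≤ l := Nat.cast_nonneg l
    have h2 : 3 / 4 / ((l : ℝ) + 1) ≤ 1 := by
      rw [div_le_one (by positivity)]
      linarith
    linarith
  · have := Real.add_one_le_exp (-(3 / 4 / ((l : ℝ) + 1)))
    linarith

theorem end_small (c : ℝ) (hc : 0 < c) : ∃ C τ₀ : ℝ, 0 < C ∧ 0 < τ₀ ∧ ∀ (k : ℕ) (p : Prm k)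
    (C₂ : ℝ), 0 < C₂ → 0 < p.em → p.em ≤ p.ta → p.ta ≤ τ₀ → ∃ X₀ : ℕ, ∀ X ≥ X₀,
    ∀ O : Finset (ℤ × ℤ × ℤ), (O.card : ℝ) ≤ C₂ * X →
    EqFam O (fun v => v) ((X : ℝ) ^ c) ((X : ℝ) ^ (1 - c)) →
    ∑ q ∈ O, ((∏ l ∈ prS ((X : ℝ) ^ p.em) (p.Y X), if (l : ℤ) ∣ q.1 then (5 / 8 : ℝ) else 1) +
        ∏ l ∈ prS ((X : ℝ) ^ p.em) (p.Y X), if (l : ℤ) ∣ fv q z then (5 / 8 : ℝ) else 1) ≤
      C * C₂ * (p.em / p.ta) ^ (3 / 8 : ℝ) * X := by
  obtain ⟨ks, hs⟩ := sieve_q (3 / 4) 1 (by norm_num) one_pos le_rfl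
  obtain ⟨C0, hC0, hM⟩ := ne4_mert
  set K : ℝ := Real.exp (3 / 4 * (2 * C0 + 1)) with hK
  have hK0 : 0 < K := Real.exp_pos _
  refine ⟨4 * K + 2, c / (2 * ((ks : ℝ) + 1)), by positivity, by positivity, ?_⟩
  intro k p C₂ hC₂ hem hemta hta
  have hta0 : 0 < p.ta := lt_of_lt_of_le hem hemta
  have hratio : 0 < (p.em / p.ta) ^ (3 / 8 : ℝ) := Real.rpow_pos_of_pos (div_pos hem hta0) _
  set ρ : ℝ := (p.em / p.ta) ^ (3 / 8 : ℝ) with hρ
  have hks : p.ta * ks ≤ c / 2 := by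
    have h1 : (0 : ℝ) < (ks : ℝ) + 1 := by positivity
    have h2 : p.ta * ((ks : ℝ) + 1) ≤ c / 2 := by
      calc p.ta * ((ks : ℝ) + 1) ≤ c / (2 * ((ks : ℝ) + 1)) * ((ks : ℝ) + 1) :=
            mul_le_mul_of_nonneg_right hta h1.le
        _ = c / 2 := by field_simp
    nlinarith
  -- the size of `X`
  obtain ⟨X₁, hX₁⟩ : ∃ X₁ : ℕ, ∀ X ≥ X₁, (2 : ℝ) ≤ (X : ℝ) ^ p.em := by
    have h1 := (tendsto_rpow_atTop hem).comp (tendsto_natCast_atTop_atTop (R := ℝ))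
    exact Filter.eventually_atTop.mp (h1.eventually_ge_atTop 2)
  obtain ⟨X₂, hX₂⟩ : ∃ X₂ : ℕ, ∀ X ≥ X₂, 1 / (C₂ * ρ) ≤ (X : ℝ) ^ (c / 2) := by
    have h1 := (tendsto_rpow_atTop (half_pos hc)).comp (tendsto_natCast_atTop_atTop (R := ℝ))
    exact Filter.eventually_atTop.mp (h1.eventually_ge_atTop (1 / (C₂ * ρ)))
  refine ⟨max (max X₁ X₂) 2, ?_⟩
  intro X hX O hO hE
  have hX1 : (2 : ℝ) ≤ (X : ℝ) ^ p.em := hX₁ X (le_trans (le_max_left _ _ |>.trans (le_max_left _ _)) hX)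
  have hX2 : 1 / (C₂ * ρ) ≤ (X : ℝ) ^ (c / 2) :=
    hX₂ X (le_trans (le_max_right _ _ |>.trans (le_max_left _ _)) hX)
  have hX3 : (2 : ℝ) ≤ (X : ℝ) := by exact_mod_cast le_trans (le_max_right _ _) hX
  have hXp : (0 : ℝ) < X := by linarith
  have hX1' : (1 : ℝ) ≤ X := by linarith
  set S : Finset ℕ := prS ((X : ℝ) ^ p.em) (p.Y X) with hS
  have hYdef : p.Y X = (X : ℝ) ^ p.ta := rfl
  have hYge : (X : ℝ) ^ p.em ≤ (X : ℝ) ^ p.ta := Real.rpow_le_rpow_of_exponent_le hX1' hemta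
  have hY2 : (2 : ℝ) ≤ p.Y X := by rw [hYdef]; exact hX1.trans hYge
  have hY1 : 1 ≤ ⌊p.Y X⌋₊ := Nat.le_floor (by push_cast; linarith)
  have hYks : ((⌊p.Y X⌋₊ : ℕ) : ℝ) ^ ks ≤ (X : ℝ) ^ (c / 2) := by
    calc ((⌊p.Y X⌋₊ : ℕ) : ℝ) ^ ks ≤ (p.Y X) ^ ks :=
          pow_le_pow_left₀ (Nat.cast_nonneg _) (Nat.floor_le (by linarith)) _
      _ = (X : ℝ) ^ (p.ta * ks) := by
          rw [hYdef, Real.rpow_mul hXp.le, Real.rpow_natCast]
      _ ≤ (X : ℝ) ^ (c / 2) := Real.rpow_le_rpow_of_exponent_le hX1' hks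
  -- the sum over the primes
  have hsum : 1 / 2 * Real.log (p.ta / p.em) - 2 * C0 - 1 ≤ ∑ l ∈ S, 1 / ((l : ℝ) + 1) := by
    have h1 := @ne4_sum _ ((X : ℝ) ^ p.em) (p.Y X)
    have h2 := hM ((X : ℝ) ^ p.em) hX1
    have h3 := hM (p.Y X) hY2
    have hlogX : 0 < Real.log X := Real.log_pos (by linarith)
    have h4 : Real.log (Real.log (p.Y X)) - Real.log (Real.log ((X : ℝ) ^ p.em)) =
        Real.log (p.ta / p.em) := by
      rw [hYdef, Real.log_rpow hXp, Real.log_rpow hXp, Real.log_mul hta0.ne' hlogX.ne',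
        Real.log_mul hem.ne' hlogX.ne', Real.log_div hta0.ne' hem.ne']
      ring
    have h5 := (abs_le.mp h2).2
    have h6 := (abs_le.mp h3).1
    rw [hS]
    linarith
  have hprod : ∏ l ∈ S, (1 - 3 / 4 / ((l : ℝ) + 1)) ≤ K * ρ := by
    refine (ne4_prod S).trans ?_
    have h1 : -(3 / 4 * ∑ l ∈ S, 1 / ((l : ℝ) + 1)) ≤
        3 / 4 * (2 * C0 + 1) + Real.log (p.em / p.ta) * (3 / 8) := by
      have h2 : Real.log (p.em / p.ta) = - Real.log (p.ta / p.em) := by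
        rw [← Real.log_inv, inv_div]
      rw [h2]
      linarith
    calc Real.exp (-(3 / 4 * ∑ l ∈ S, 1 / ((l : ℝ) + 1)))
        ≤ Real.exp (3 / 4 * (2 * C0 + 1) + Real.log (p.em / p.ta) * (3 / 8)) :=
          Real.exp_le_exp.mpr h1
      _ = K * ρ := by
          rw [Real.exp_add, hρ, Real.rpow_def_of_pos (div_pos hem hta0)]
  -- the sieve for one vector
  have hone : ∀ v : ℤ × ℤ, (v = (1, 0) ∨ v = z) →
      ∑ q ∈ O, ∏ l ∈ S, ne4_h v l q ≤ (2 * K + 1) * C₂ * ρ * X := by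
    intro v hv
    have hv' : ∀ l : ℕ, l.Prime → ¬ ((l : ℤ) ∣ v.1 ∧ (l : ℤ) ∣ v.2) := by
      intro l hl h
      have h1 : ¬ ((l : ℤ) ∣ 1) := by
        intro h1
        have h4 : l ∣ 1 := by exact_mod_cast h1
        exact hl.one_lt.ne' (Nat.dvd_one.mp h4)
      rcases hv with hv | hv
      · rw [hv] at h
        exact h1 h.1
      · rw [hv] at h
        obtain ⟨a, b, hab⟩ := z_cop
        exact h1 (hab ▸ dvd_add (h.1.mul_left a) (h.2.mul_left b))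
    have hmean : ∀ l ∈ S, MV l (ne4_h v l) = 1 - 3 / 4 / ((l : ℝ) + 1) := by
      intro l hl
      obtain ⟨h1, h2, _⟩ := ne4_prS hl
      exact ne4_mean h1.prime h1 v (hv' l h1.prime)
    have hR : (0 : ℝ) ≤ (X : ℝ) ^ (1 - c) := Real.rpow_nonneg hXp.le _
    have happ := hs O _ _ hE hR ⌊p.Y X⌋₊ 1 ∅ S (fun _ => 1) (fun l => ne4_h v l) hY1
      (Nat.coprime_one_left _) (by
        intro l hl
        rw [Finset.empty_union] at hl
        obtain ⟨h1, h2, _⟩ := ne4_prS hl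
        exact ⟨h1.prime, h1.ndvd, Nat.coprime_one_left _⟩) (fun l hl => (ne4_prS hl).2.2) (Finset.disjoint_empty_left _) (by
        simp only [Finset.prod_empty, mul_one, Nat.cast_one, one_mul]
        exact hYks.trans (Real.rpow_le_rpow_of_exponent_le hX1' (by linarith)))
      (fun _ _ _ _ _ => rfl) (fun _ => ⟨zero_le_one, le_rfl⟩)
      (fun l _ => ⟨ne4_per v l, fun q => ne4_h01 v l q⟩) (by
        intro l hl
        rw [hmean l hl]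
        have h0 : (1 : ℝ) ≤ l := by exact_mod_cast (ne4_prS hl).1.prime.one_lt.le
        constructor
        · have h1 : 3 / 4 / ((l : ℝ) + 1) ≤ 3 / 4 / (l : ℝ) :=
            div_le_div_of_nonneg_left (by norm_num) (by linarith) (by linarith)
          linarith
        · have h1 : 3 / 4 / ((l : ℝ) + 1) ≤ 1 / 2 := by
            rw [div_le_iff₀ (by linarith)]
            linarith
          linarith)
    simp only [Finset.empty_union, one_mul] at happ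
    rw [MV_const' one_pos, mul_one] at happ
    have hprodeq : ∏ l ∈ S, MV l (ne4_h v l) = ∏ l ∈ S, (1 - 3 / 4 / ((l : ℝ) + 1)) :=
      Finset.prod_congr rfl hmean
    rw [hprodeq] at happ
    have h1 := (abs_le.mp happ).2
    have h2 : (O.card : ℝ) * ∏ l ∈ S, (1 - 3 / 4 / ((l : ℝ) + 1)) ≤ C₂ * X * (K * ρ) := by
      have h3 : 0 ≤ ∏ l ∈ S, (1 - 3 / 4 / ((l : ℝ) + 1)) := by
        refine Finset.prod_nonneg (fun l _ => ?_)
        have h1 : (0 : ℝ) ≤ l := Nat.cast_nonneg l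
        have h2 : 3 / 4 / ((l : ℝ) + 1) ≤ 1 := by
          rw [div_le_one (by positivity)]
          linarith
        linarith
      exact mul_le_mul hO hprod h3 (by positivity)
    have h3 : ((⌊p.Y X⌋₊ : ℕ) : ℝ) ^ ks * (X : ℝ) ^ (1 - c) ≤ C₂ * ρ * X := by
      have h4 : (X : ℝ) ^ (c / 2) * (X : ℝ) ^ (1 - c) ≤ C₂ * ρ * X := by
        rw [← Real.rpow_add hXp]
        have h5 : (X : ℝ) = (X : ℝ) ^ (c / 2 + (1 - c)) * (X : ℝ) ^ (c / 2) := by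
          rw [← Real.rpow_add hXp]
          have : c / 2 + (1 - c) + c / 2 = 1 := by ring
          rw [this, Real.rpow_one]
        have h6 : 1 ≤ C₂ * ρ * (X : ℝ) ^ (c / 2) := by
          have h7 : 0 < C₂ * ρ := mul_pos hC₂ hratio
          rw [div_le_iff₀ h7] at hX2
          linarith
        calc (X : ℝ) ^ (c / 2 + (1 - c)) = (X : ℝ) ^ (c / 2 + (1 - c)) * 1 := (mul_one _).symm
          _ ≤ (X : ℝ) ^ (c / 2 + (1 - c)) * (C₂ * ρ * (X : ℝ) ^ (c / 2)) :=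
              mul_le_mul_of_nonneg_left h6 (Real.rpow_nonneg hXp.le _)
          _ = C₂ * ρ * ((X : ℝ) ^ (c / 2 + (1 - c)) * (X : ℝ) ^ (c / 2)) := by ring
          _ = C₂ * ρ * X := by rw [← h5]
      exact (mul_le_mul_of_nonneg_right hYks hR).trans h4
    have h4 : ∑ q ∈ O, ∏ l ∈ S, ne4_h v l q ≤ 2 * (C₂ * X * (K * ρ)) + C₂ * ρ * X := by
      linarith
    calc ∑ q ∈ O, ∏ l ∈ S, ne4_h v l q ≤ 2 * (C₂ * X * (K * ρ)) + C₂ * ρ * X := h4
      _ = (2 * K + 1) * C₂ * ρ * X := by ring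
  have h1 := hone (1, 0) (Or.inl rfl)
  have h2 := hone z (Or.inr rfl)
  have e1 : ∀ q : ℤ × ℤ × ℤ, (∏ l ∈ S, if (l : ℤ) ∣ q.1 then (5 / 8 : ℝ) else 1) =
      ∏ l ∈ S, ne4_h (1, 0) l q := by
    intro q
    refine Finset.prod_congr rfl (fun l _ => ?_)
    have : fv q (1, 0) = q.1 := by
      unfold fv qf
      ring
    unfold ne4_h
    rw [this]
  have e2 : ∀ q : ℤ × ℤ × ℤ, (∏ l ∈ S, if (l : ℤ) ∣ fv q z then (5 / 8 : ℝ) else 1) =
      ∏ l ∈ S, ne4_h z l q := by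
    intro q
    rfl
  calc ∑ q ∈ O, ((∏ l ∈ S, if (l : ℤ) ∣ q.1 then (5 / 8 : ℝ) else 1) +
        ∏ l ∈ S, if (l : ℤ) ∣ fv q z then (5 / 8 : ℝ) else 1)
      = ∑ q ∈ O, ∏ l ∈ S, ne4_h (1, 0) l q + ∑ q ∈ O, ∏ l ∈ S, ne4_h z l q := by
        rw [← Finset.sum_add_distrib]
        refine Finset.sum_congr rfl (fun q _ => ?_)
        rw [e1, e2]
    _ ≤ (2 * K + 1) * C₂ * ρ * X + (2 * K + 1) * C₂ * ρ * X := add_le_add h1 h2
    _ = (4 * K + 2) * C₂ * ρ * X := by ring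

end Pool.Agent.AQ.NC
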