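import Mathlib
import Pool.Agent.Lib_helper8.AQ.NCDefs
import Pool.Agent.Lib_helper88.AQN.NA1
import Pool.Agent.Lib_helper88.AQN.NA2

set_option autoImplicit false

namespace Pool.Agent.AQ.NC

open Finset Pool.Agent.PENT Pool.Agent.PENT.EQ

variable [Cst] {k : ℕ}

theorem na3_dE (u : Vec k) (i : ℕ) (h1 : 1 ≤ i) (h2 : i ≤ k) :
    dE u i = (dt (u ⟨i - 1, by omega⟩) (u ⟨i, by omega⟩)).natAbs := by
  unfold dE
  rw [dif_pos ⟨h1, h2⟩]

theorem na3_sgn (i j : ℕ) (x : ℝ) : sgn i j * x ≤ |x| := by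
  unfold sgn
  split_ifs
  · rw [neg_one_mul]; exact neg_le_abs x
  · rw [one_mul]; exact le_abs_self x

theorem na3_nmz : (1 : ℤ) ≤ nm z := by
  have h1 := z1_pos
  have h2 := z_two
  unfold nm
  omega

theorem na3_first {p : Prm k} {X : ℕ} {u : Vec k} (hu : GP p X u) (hc : 0 < p.c1)
    (j : Fin (k + 1)) (h1 : j.val = 1) : (nm (u j) : ℝ) ≤ (X : ℝ) ^ p.ep / p.c1 := by
  have hk : 1 ≤ k := by have := j.isLt; omega
  have hs := hu.sep 0 j (by rw [Fin.lt_def, h1]; exact Nat.one_pos)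
  have e0 : (⟨1 - 1, by omega⟩ : Fin (k + 1)) = 0 := rfl
  have e1 : (⟨1, by omega⟩ : Fin (k + 1)) = j := Fin.ext h1.symm
  have hd : dE u 1 = ((u j).2).natAbs := by
    rw [na3_dE u 1 le_rfl hk, e0, e1, hu.first]
    simp [dt]
  have hh := hu.e1.hi
  rw [hd] at hh
  have hs' := hs.trans (na3_sgn _ _ _)
  rw [hu.first] at hs'
  have e2 : dt ((1 : ℤ), (0 : ℤ)) (u j) = (u j).2 := by simp [dt]
  have e3 : nm ((1 : ℤ), (0 : ℤ)) = 1 := rfl
  rw [e2, e3, Int.cast_one, one_mul] at hs'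
  have h3 : |((u j).2 : ℝ)| = (((u j).2.natAbs : ℕ) : ℝ) := by
    rw [Nat.cast_natAbs, Int.cast_abs]
  rw [le_div_iff₀ hc]
  linarith

theorem na3_last {p : Prm k} {X : ℕ} {u : Vec k} (hu : GP p X u) (hc : 0 < p.c1)
    (j : Fin (k + 1)) (h0 : 1 ≤ j.val) (h1 : j.val + 1 = k) :
    (nm (u j) : ℝ) ≤ (X : ℝ) ^ p.ep / p.c1 := by
  have hk : 1 ≤ k := by omega
  have hs := hu.sep j (Fin.last k) (by rw [Fin.lt_def, Fin.val_last]; omega)
  have e0 : (⟨k - 1, by omega⟩ : Fin (k + 1)) = j := Fin.ext (by simp only; omega)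
  have e1 : (⟨k, by omega⟩ : Fin (k + 1)) = Fin.last k := rfl
  have hd : dE u k = (dt (u j) z).natAbs := by
    rw [na3_dE u k hk le_rfl, e0, e1, hu.last]
  have hh := hu.e2.hi
  rw [hd] at hh
  have hs' := hs.trans (na3_sgn _ _ _)
  rw [hu.last] at hs'
  have h3 : |(dt (u j) z : ℝ)| = (((dt (u j) z).natAbs : ℕ) : ℝ) := by
    rw [Nat.cast_natAbs, Int.cast_abs]
  have hpos := hu.pos j h0 (by omega)
  have hn : (0 : ℝ) < (nm (u j) : ℝ) := by
    have : 0 < nm (u j) := by unfold nm; omega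
    exact_mod_cast this
  have hz : (1 : ℝ) ≤ (nm z : ℝ) := by exact_mod_cast na3_nmz
  rw [le_div_iff₀ hc]
  have h4 : p.c1 * (nm (u j) : ℝ) ≤ p.c1 * ((nm (u j) : ℝ) * (nm z : ℝ)) := by
    apply mul_le_mul_of_nonneg_left _ hc.le
    nlinarith
  linarith

/-- all coordinates -/
theorem na3_coord {p : Prm k} {X : ℕ} {u : Vec k} (hu : GP p X u) (hc : 0 < p.c1) (B : ℝ)
    (hB1 : 1 ≤ B) (hBz : (nm z : ℝ) ≤ B) (hB2 : (X : ℝ) ^ p.ep / p.c1 ≤ B)
    (hB3 : ∀ j : Fin (k + 1), 2 ≤ j.val → j.val + 2 ≤ k → (X : ℝ) ^ (p.e j + p.ew) ≤ B)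
    (j : Fin (k + 1)) : |((u j).1 : ℝ)| ≤ B ∧ |((u j).2 : ℝ)| ≤ B := by
  by_cases h0 : j.val = 0
  · have : j = 0 := Fin.ext h0
    rw [this, hu.first]
    simp only [Int.cast_one, abs_one, Int.cast_zero, abs_zero]
    exact ⟨hB1, zero_le_one.trans hB1⟩
  by_cases hk : j.val = k
  · have : j = Fin.last k := Fin.ext hk
    rw [this, hu.last]
    have hz1 := z1_pos
    have hz2 := z_two
    have e1 : |(z.1 : ℝ)| ≤ (nm z : ℝ) := by
      rw [abs_of_pos (by exact_mod_cast hz1)]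
      have : z.1 ≤ nm z := by unfold nm; omega
      exact_mod_cast this
    have e2 : |(z.2 : ℝ)| ≤ (nm z : ℝ) := by
      rw [abs_of_pos (by exact_mod_cast hz2)]
      have : z.2 ≤ nm z := by unfold nm; omega
      exact_mod_cast this
    exact ⟨e1.trans hBz, e2.trans hBz⟩
  have hlt := j.isLt
  have hpos := hu.pos j (by omega) (by omega)
  have hnm : (nm (u j) : ℝ) ≤ B := by
    by_cases h1 : j.val = 1
    · exact (na3_first hu hc j h1).trans hB2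
    by_cases h2 : j.val + 1 = k
    · exact (na3_last hu hc j (by omega) h2).trans hB2
    · exact (hu.upp j (by omega) (by omega)).trans (hB3 j (by omega) (by omega))
  have a1 : (0 : ℝ) < (u j).1 := by exact_mod_cast hpos.1
  have a2 : (0 : ℝ) < (u j).2 := by exact_mod_cast hpos.2
  have e : (nm (u j) : ℝ) = (u j).1 + (u j).2 := by
    unfold nm
    push_cast
    rfl
  rw [abs_of_pos a1, abs_of_pos a2]
  constructor <;> linarith

/-- the exponents -/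
theorem na3_exp {p : Prm k} (hp : p.Ok 1) (hk : 4 ≤ k) :
    0 < p.ep ∧ ∀ j : Fin (k + 1), 2 ≤ j.val → j.val + 2 ≤ k → 0 < p.e j ∧
      p.e j + p.ew ≤ 2 * p.ep := by
  have h1 := hp.em_ta
  have h2 := hp.ta_ep
  have hw := hp.ew0
  have key : ∀ j : Fin (k + 1), 2 ≤ j.val → j.val + 2 ≤ k → 0 < p.e j ∧ p.e j ≤ p.ep ∧
      p.ew ≤ p.e j := by
    intro j hj1 hj2
    have h3 := hp.ew1 j hj1 hj2
    by_cases he : Even j.val
    · have h4 := hp.even j hj1 hj2 he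
      refine ⟨by linarith, by linarith, by linarith⟩
    · have h4 := hp.odd j hj1 hj2 he
      refine ⟨by linarith, h4.le, by linarith⟩
  refine ⟨?_, fun j hj1 hj2 => ?_⟩
  · obtain ⟨a, b, c⟩ := key ⟨2, by omega⟩ le_rfl (by simp only; omega)
    linarith
  · obtain ⟨a, b, c⟩ := key j hj1 hj2
    exact ⟨a, by linarith⟩

/-- the coordinates are at most `X ^ (2 ep)` -/
theorem na3_two {p : Prm k} (hp : p.Ok 1) (hk : 4 ≤ k) {X : ℕ} (hX : 1 ≤ X)
    (h1 : 1 / p.c1 + (nm z : ℝ) ≤ (X : ℝ) ^ p.ep) {u : Vec k} (hu : GP p X u) (j : Fin (k + 1)) :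
    |((u j).1 : ℝ)| ≤ (X : ℝ) ^ (2 * p.ep) ∧ |((u j).2 : ℝ)| ≤ (X : ℝ) ^ (2 * p.ep) := by
  obtain ⟨he, hj⟩ := na3_exp hp hk
  have hX1 : (1 : ℝ) ≤ X := by exact_mod_cast hX
  have hX0 : (0 : ℝ) < X := by linarith
  have hz : (1 : ℝ) ≤ (nm z : ℝ) := by exact_mod_cast na3_nmz
  have hc0 : 0 < 1 / p.c1 := one_div_pos.2 hp.c10
  refine na3_coord hu hp.c10 _ (Real.one_le_rpow hX1 (by linarith)) ?_ ?_ ?_ j
  · have e : (X : ℝ) ^ p.ep ≤ (X : ℝ) ^ (2 * p.ep) :=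
      Real.rpow_le_rpow_of_exponent_le hX1 (by linarith)
    linarith
  · have e : (X : ℝ) ^ (2 * p.ep) = (X : ℝ) ^ p.ep * (X : ℝ) ^ p.ep := by
      rw [← Real.rpow_add hX0, two_mul]
    rw [e, div_eq_mul_one_div]
    exact mul_le_mul_of_nonneg_left (by linarith) (Real.rpow_nonneg hX0.le _)
  · intro j h2 h3
    exact Real.rpow_le_rpow_of_exponent_le hX1 (hj j h2 h3).2

theorem na3_dEle {p : Prm k} (hp : p.Ok 1) (hk : 4 ≤ k) {X : ℕ} (hX : 1 ≤ X)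
    (h1 : 1 / p.c1 + (nm z : ℝ) ≤ (X : ℝ) ^ p.ep) (h2 : 9 ≤ (X : ℝ) ^ p.ep) {u : Vec k} (hu : GP p X u)
    (i : ℕ) (hi : i ∈ Icc 1 k) : (dE u i : ℝ) ≤ (X : ℝ) ^ (5 * p.ep) := by
  have hX1 : (1 : ℝ) ≤ X := by exact_mod_cast hX
  have hX0 : (0 : ℝ) < X := by linarith
  rw [mem_Icc] at hi
  rw [na3_dE u i hi.1 hi.2]
  set a := u ⟨i - 1, by omega⟩ with ha
  set b := u ⟨i, by omega⟩ with hb
  have ha' := na3_two hp hk hX h1 hu ⟨i - 1, by omega⟩
  have hb' := na3_two hp hk hX h1 hu ⟨i, by omega⟩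
  rw [← ha] at ha'
  rw [← hb] at hb'
  have hc : (((dt a b).natAbs : ℕ) : ℝ) = |(a.1 : ℝ) * b.2 - a.2 * b.1| := by
    rw [Nat.cast_natAbs, Int.cast_abs]
    unfold dt
    push_cast
    rfl
  rw [hc]
  set Z := (X : ℝ) ^ (2 * p.ep) with hZ
  have hZ0 : 0 ≤ Z := Real.rpow_nonneg hX0.le _
  have h3 : |(a.1 : ℝ) * b.2 - a.2 * b.1| ≤ Z * Z + Z * Z := by
    refine (abs_sub _ _).trans ?_
    rw [abs_mul, abs_mul]
    exact add_le_add (mul_le_mul ha'.1 hb'.2 (abs_nonneg _) hZ0)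
      (mul_le_mul ha'.2 hb'.1 (abs_nonneg _) hZ0)
  have e : (X : ℝ) ^ (5 * p.ep) = Z * Z * (X : ℝ) ^ p.ep := by
    rw [hZ, ← Real.rpow_add hX0, ← Real.rpow_add hX0]
    ring_nf
  rw [e]
  nlinarith [mul_nonneg hZ0 hZ0]

/-- NA3: sizes. -/
theorem GP.sizes {p : Prm k} (hp : p.Ok 1) (hk : 4 ≤ k) : ∃ X₀ : ℕ, ∀ X ≥ X₀, ∀ u : Vec k,
    GP p X u → (∀ j, |((u j).1 : ℝ)| ≤ (X : ℝ) ^ (2 * p.ep) ∧
      |((u j).2 : ℝ)| ≤ (X : ℝ) ^ (2 * p.ep)) ∧
    (Dall u : ℝ) ≤ (X : ℝ) ^ (5 * k * p.ep) ∧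
    ((Dall u).primeFactors.card : ℝ) ≤ Real.log X ∧ 2 ≤ Dint u := by
  obtain ⟨he, hj⟩ := na3_exp hp hk
  have he2 := (hj ⟨2, by omega⟩ le_rfl (by simp only; omega)).1
  have t1 : Filter.Tendsto (fun X : ℕ => (X : ℝ) ^ p.ep) Filter.atTop Filter.atTop :=
    (tendsto_rpow_atTop he).comp tendsto_natCast_atTop_atTop
  have t2 : Filter.Tendsto (fun X : ℕ => (X : ℝ) ^ p.e ⟨2, by omega⟩) Filter.atTop
      Filter.atTop := (tendsto_rpow_atTop he2).comp tendsto_natCast_atTop_atTop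
  have t3 : Filter.Tendsto (fun X : ℕ => Real.log X ^ (1 / 100 : ℝ)) Filter.atTop
      Filter.atTop := (tendsto_rpow_atTop (by norm_num)).comp
        (Real.tendsto_log_atTop.comp tendsto_natCast_atTop_atTop)
  have ev := (((Filter.eventually_ge_atTop 3).and (t1.eventually_ge_atTop (1 / p.c1 + (nm z : ℝ)))).and
    ((t1.eventually_ge_atTop 9).and (t2.eventually_ge_atTop (2 / p.c1)))).and
      (t3.eventually_ge_atTop (5 * k * p.ep))
  obtain ⟨X₀, hX₀⟩ := Filter.eventually_atTop.mp ev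
  refine ⟨X₀, fun X hX u hu => ?_⟩
  obtain ⟨⟨⟨hX3, hc1⟩, h9, h2c⟩, hlg⟩ := hX₀ X hX
  have hX1' : 1 ≤ X := by omega
  have hX1 : (1 : ℝ) ≤ X := by exact_mod_cast hX1'
  have hX0 : (0 : ℝ) < X := by linarith
  have hD : (Dall u : ℝ) ≤ (X : ℝ) ^ (5 * k * p.ep) := by
    unfold Dall
    push_cast
    calc ∏ i ∈ Icc 1 k, (dE u i : ℝ) ≤ ∏ i ∈ Icc 1 k, (X : ℝ) ^ (5 * p.ep) :=
          Finset.prod_le_prod (fun i _ => Nat.cast_nonneg _)
            (fun i hi => na3_dEle hp hk hX1' hc1 h9 hu i hi)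
      _ = (X : ℝ) ^ (5 * k * p.ep) := by
          rw [Finset.prod_const, Nat.card_Icc, Nat.add_sub_cancel, ← Real.rpow_natCast,
            ← Real.rpow_mul hX0.le]
          ring_nf
  obtain ⟨hDeq, hDsq, hDpos⟩ := hu.Dall_eq (by omega)
  refine ⟨fun j => na3_two hp hk hX1' hc1 hu j, hD, ?_, ?_⟩
  · -- the prime factors
    have hL : 0 < Real.log X := Real.log_pos (by
      have : (3 : ℝ) ≤ X := by exact_mod_cast hX3
      linarith)
    have hLp : 0 < Real.log X ^ (1 / 100 : ℝ) := Real.rpow_pos_of_pos hL _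
    have h1 : ∏ l ∈ (Dall u).primeFactors, l ≤ Dall u :=
      Nat.le_of_dvd hDpos (Nat.prod_primeFactors_dvd _)
    have h2 : ∑ l ∈ (Dall u).primeFactors, Real.log (l : ℝ) ≤ 5 * k * p.ep * Real.log X := by
      rw [← Real.log_prod (s := (Dall u).primeFactors) (f := fun l : ℕ => (l : ℝ))
        (fun l hl => by exact_mod_cast (Nat.prime_of_mem_primeFactors hl).ne_zero)]
      have h3 : (∏ l ∈ (Dall u).primeFactors, (l : ℝ)) ≤ (X : ℝ) ^ (5 * k * p.ep) := by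
        refine le_trans ?_ hD
        have h1' : ((∏ l ∈ (Dall u).primeFactors, l : ℕ) : ℝ) ≤ (Dall u : ℝ) := Nat.cast_le.mpr h1
        rwa [Nat.cast_prod] at h1'
      have h4 : 0 < ∏ l ∈ (Dall u).primeFactors, (l : ℝ) := Finset.prod_pos fun l hl => by
        exact_mod_cast (Nat.prime_of_mem_primeFactors hl).pos
      calc Real.log (∏ l ∈ (Dall u).primeFactors, (l : ℝ))
          ≤ Real.log ((X : ℝ) ^ (5 * k * p.ep)) := Real.log_le_log h4 h3
        _ = _ := Real.log_rpow hX0 _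
    have h3 : (Dall u).primeFactors.card * Real.log X ^ (1 / 100 : ℝ) ≤
        ∑ l ∈ (Dall u).primeFactors, Real.log (l : ℝ) := by
      rw [← nsmul_eq_mul]
      apply Finset.card_nsmul_le_sum
      intro l hl
      have h4 := (hu.prime_Dall (Nat.prime_of_mem_primeFactors hl)
        (Nat.dvd_of_mem_primeFactors hl)).2
      unfold PP at h4
      have h5 := Real.log_lt_log (Real.exp_pos _) h4
      rw [Real.log_exp] at h5
      exact h5.le
    have h4 : (Dall u).primeFactors.card * Real.log X ^ (1 / 100 : ℝ) ≤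
        Real.log X * Real.log X ^ (1 / 100 : ℝ) := by
      calc (Dall u).primeFactors.card * Real.log X ^ (1 / 100 : ℝ)
          ≤ 5 * k * p.ep * Real.log X := h3.trans h2
        _ ≤ Real.log X ^ (1 / 100 : ℝ) * Real.log X :=
            mul_le_mul_of_nonneg_right hlg hL.le
        _ = _ := mul_comm _ _
    exact le_of_mul_le_mul_right h4 hLp
  · -- `Dint`
    have hI : 0 < Dint u := by
      rcases Nat.eq_zero_or_pos (Dint u) with h | h
      · rw [h, mul_zero] at hDeq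
        omega
      · exact h
    have h1 : dE u 2 ∣ Dint u := by
      unfold Dint
      exact Finset.dvd_prod_of_mem _ (by rw [mem_Icc]; omega)
    refine le_trans ?_ (Nat.le_of_dvd hI h1)
    have hs := hu.sep ⟨1, by omega⟩ ⟨2, by omega⟩ (by rw [Fin.lt_def]; simp only; omega)
    have hl := hu.low ⟨2, by omega⟩ le_rfl (by simp only; omega)
    have hpos := hu.pos ⟨1, by omega⟩ le_rfl (by simp only; omega)
    have hn1 : (1 : ℝ) ≤ (nm (u ⟨1, by omega⟩) : ℝ) := by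
      have : 1 ≤ nm (u ⟨1, by omega⟩) := by
        unfold nm
        omega
      exact_mod_cast this
    have hc := hp.c10
    have h3 : (2 : ℝ) ≤ p.c1 * (X : ℝ) ^ p.e ⟨2, by omega⟩ := by
      rw [div_le_iff₀ hc] at h2c
      linarith
    have h4 : p.c1 * (X : ℝ) ^ p.e ⟨2, by omega⟩ ≤
        p.c1 * ((nm (u ⟨1, by omega⟩) : ℝ) * (nm (u ⟨2, by omega⟩) : ℝ)) := by
      apply mul_le_mul_of_nonneg_left _ hc.le
      calc (X : ℝ) ^ p.e ⟨2, by omega⟩ ≤ (nm (u ⟨2, by omega⟩) : ℝ) := hl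
        _ = 1 * (nm (u ⟨2, by omega⟩) : ℝ) := (one_mul _).symm
        _ ≤ _ := mul_le_mul_of_nonneg_right hn1
          ((Real.rpow_nonneg hX0.le _).trans hl)
    have h5 : (2 : ℝ) ≤ |(dt (u ⟨1, by omega⟩) (u ⟨2, by omega⟩) : ℝ)| :=
      h3.trans (h4.trans (hs.trans (na3_sgn _ _ _)))
    have h6 : (2 : ℤ) ≤ |dt (u ⟨1, by omega⟩) (u ⟨2, by omega⟩)| := by exact_mod_cast h5
    rw [na3_dE u 2 (by norm_num) (by omega)]
    have e1 : (⟨2 - 1, by omega⟩ : Fin (k + 1)) = ⟨1, by omega⟩ := rfl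
    rw [e1]
    have h7 : (2 : ℤ) ≤ ((dt (u ⟨1, by omega⟩) (u ⟨2, by omega⟩)).natAbs : ℤ) := by
      rw [Int.natCast_natAbs]; exact h6
    exact_mod_cast h7

/-- NA3: the number of paths -/
theorem GS_card {p : Prm k} (hp : p.Ok 1) (hk : 4 ≤ k) : ∃ X₀ : ℕ, ∀ X ≥ X₀,
    ((GS p X).card : ℝ) ≤ (X : ℝ) ^ (5 * (k + 1) * p.ep) := by
  obtain ⟨he, hj⟩ := na3_exp hp hk
  have t1 : Filter.Tendsto (fun X : ℕ => (X : ℝ) ^ p.ep) Filter.atTop Filter.atTop :=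
    (tendsto_rpow_atTop he).comp tendsto_natCast_atTop_atTop
  have ev := ((Filter.eventually_ge_atTop 3).and (t1.eventually_ge_atTop (1 / p.c1 + (nm z : ℝ)))).and
    (t1.eventually_ge_atTop 9)
  obtain ⟨X₀, hX₀⟩ := Filter.eventually_atTop.mp ev
  refine ⟨X₀, fun X hX => ?_⟩
  obtain ⟨⟨hX3, hc1⟩, h9⟩ := hX₀ X hX
  have hX1' : 1 ≤ X := by omega
  have hX1 : (1 : ℝ) ≤ X := by exact_mod_cast hX1'
  have hX0 : (0 : ℝ) < X := by linarith
  set Z := (X : ℝ) ^ (2 * p.ep) with hZ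
  have hZ1 : 1 ≤ Z := Real.one_le_rpow hX1 (by linarith)
  set N : ℕ := ⌊Z⌋₊ with hN
  have hNZ : (N : ℝ) ≤ Z := Nat.floor_le (by linarith)
  have hsub : GS p X ⊆ Fintype.piFinset (fun _ : Fin (k + 1) =>
      (Icc (-(N : ℤ)) N) ×ˢ (Icc (-(N : ℤ)) N)) := by
    intro u hu
    rw [mem_GS hp.c10] at hu
    rw [Fintype.mem_piFinset]
    intro j
    have h1 := na3_two hp hk hX1' hc1 hu j
    have h2 : ∀ y : ℤ, |(y : ℝ)| ≤ Z → -(N : ℤ) ≤ y ∧ y ≤ N := by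
      intro y hy
      have h3 : y.natAbs ≤ N := by
        apply Nat.le_floor
        rw [Nat.cast_natAbs, Int.cast_abs]
        exact hy
      omega
    rw [mem_product, mem_Icc, mem_Icc]
    exact ⟨h2 _ h1.1, h2 _ h1.2⟩
  have hcard : ((GS p X).card : ℝ) ≤ (((2 * N + 1) * (2 * N + 1) : ℕ) : ℝ) ^ (k + 1) := by
    have h1 := card_le_card hsub
    rw [Fintype.card_piFinset] at h1
    simp only [card_product, Int.card_Icc, prod_const, card_univ, Fintype.card_fin] at h1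
    have h2 : ((N : ℤ) + 1 - -(N : ℤ)).toNat = 2 * N + 1 := by omega
    rw [h2] at h1
    exact_mod_cast h1
  refine hcard.trans ?_
  have h3 : (((2 * N + 1) * (2 * N + 1) : ℕ) : ℝ) ≤ (X : ℝ) ^ (5 * p.ep) := by
    push_cast
    have h4 : (2 * (N : ℝ) + 1) ≤ 3 * Z := by linarith
    have e : (X : ℝ) ^ (5 * p.ep) = Z * Z * (X : ℝ) ^ p.ep := by
      rw [hZ, ← Real.rpow_add hX0, ← Real.rpow_add hX0]
      ring_nf
    rw [e]
    calc (2 * (N : ℝ) + 1) * (2 * N + 1) ≤ (3 * Z) * (3 * Z) :=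
          mul_le_mul h4 h4 (by positivity) (by positivity)
      _ = Z * Z * 9 := by ring
      _ ≤ Z * Z * (X : ℝ) ^ p.ep := mul_le_mul_of_nonneg_left h9 (by positivity)
  calc (((2 * N + 1) * (2 * N + 1) : ℕ) : ℝ) ^ (k + 1) ≤ ((X : ℝ) ^ (5 * p.ep)) ^ (k + 1) :=
        pow_le_pow_left₀ (Nat.cast_nonneg _) h3 _
    _ = (X : ℝ) ^ (5 * (k + 1) * p.ep) := by
        rw [← Real.rpow_natCast, ← Real.rpow_mul hX0.le]
        push_cast
        ring_nf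

end Pool.Agent.AQ.NC
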