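import Pool.Agent.Lib_helper8.AQ.NCDefs
import Pool.Agent.Lib_helper88.AQN.NA2
import Pool.Agent.Lib_helper88.AQN.NA3

set_option autoImplicit false

namespace Pool.Agent.AQ.NC

open Finset Pool.Agent.PENT Pool.Agent.PENT.EQ

variable [Cst] {k : ℕ}

theorem ns4_pos {p : Prm k} {τ : ℝ} (hk4 : 4 ≤ k) (hτ : 0 < τ) (hp : p.Ok τ) :
    (∀ j : Fin (k + 1), 2 ≤ j.val → j.val + 2 ≤ k → 0 < p.e j) ∧ 0 < p.em ∧ 0 < p.ta ∧
      0 < p.ep := by
  have he : ∀ j : Fin (k + 1), 2 ≤ j.val → j.val + 2 ≤ k → 0 < p.e j := by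
    intro j h1 h2
    have h3 := hp.ew1 j h1 h2
    have h4 := hp.ew0
    by_contra hcon
    have h5 : τ * p.e j ≤ 0 := mul_nonpos_of_nonneg_of_nonpos hτ.le (not_lt.1 hcon)
    linarith
  have hstep : ∀ a b : ℝ, 0 < a → a ≤ τ * b → 0 < b := by
    intro a b ha hab
    by_contra hcon
    have h5 : τ * b ≤ 0 := mul_nonpos_of_nonneg_of_nonpos hτ.le (not_lt.1 hcon)
    linarith
  have hem : 0 < p.em := by
    have h1 : (2 : ℕ) < k + 1 := by omega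
    exact hstep _ _ (he ⟨2, h1⟩ le_rfl (by show 2 + 2 ≤ k; omega))
      (hp.even ⟨2, h1⟩ le_rfl (by show 2 + 2 ≤ k; omega) (show Even 2 from even_two))
  have hta : 0 < p.ta := hstep _ _ hem hp.em_ta
  exact ⟨he, hem, hta, hstep _ _ hta hp.ta_ep⟩

theorem ns4_mono {p : Prm k} {τ τ' : ℝ} (hk4 : 4 ≤ k) (hτ : 0 < τ) (hττ : τ ≤ τ') (hp : p.Ok τ) :
    p.Ok τ' := by
  obtain ⟨he, hem, hta, hep⟩ := ns4_pos hk4 hτ hp
  refine ⟨hp.ew0, fun j h1 h2 => ?_, fun i j h1 h2 h3 h4 => ?_, fun j h1 h2 h3 => ?_, hp.odd, ?_, ?_,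
    hp.ep1.trans hττ, hp.c10, hp.c11.trans hττ⟩
  · exact (hp.ew1 j h1 h2).trans (mul_le_mul_of_nonneg_right hττ (he j h1 h2).le)
  · exact (hp.low i j h1 h2 h3 h4).trans (mul_le_mul_of_nonneg_right hττ (he j h1 (by omega)).le)
  · exact (hp.even j h1 h2 h3).trans (mul_le_mul_of_nonneg_right hττ hem.le)
  · exact hp.em_ta.trans (mul_le_mul_of_nonneg_right hττ hta.le)
  · exact hp.ta_ep.trans (mul_le_mul_of_nonneg_right hττ hep.le)

theorem ns4_ev {a : ℝ} (ha : 0 < a) (B : ℝ) : ∃ X₀ : ℕ, 1 ≤ X₀ ∧ ∀ X ≥ X₀, B ≤ (X : ℝ) ^ a := by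
  have h1 := (tendsto_rpow_atTop ha).comp (tendsto_natCast_atTop_atTop (R := ℝ))
  obtain ⟨N, hN⟩ := Filter.eventually_atTop.1 (h1.eventually_ge_atTop B)
  exact ⟨max N 1, le_max_right _ _, fun X hX => hN X ((le_max_left _ _).trans hX)⟩

theorem ns4_PP {a : ℝ} (ha : 0 < a) : ∃ X₀ : ℕ, ∀ X ≥ X₀, PP X ≤ (X : ℝ) ^ a := by
  -- `log X ≥ (1/a)^(100/99)` suffices
  have h1 := Real.tendsto_log_atTop.comp (tendsto_natCast_atTop_atTop (R := ℝ))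
  set B : ℝ := max 1 ((1 / a) ^ (100 / 99 : ℝ)) with hB
  obtain ⟨N, hN⟩ := Filter.eventually_atTop.1 (h1.eventually_ge_atTop B)
  refine ⟨max N 2, fun X hX => ?_⟩
  have hX2 : 2 ≤ X := (le_max_right _ _).trans hX
  have hX0 : (0 : ℝ) < X := by exact_mod_cast (by omega : 0 < X)
  have h2 : B ≤ Real.log X := hN X ((le_max_left _ _).trans hX)
  have hL1 : 1 ≤ Real.log X := (le_max_left _ _).trans h2
  have hL0 : 0 < Real.log X := by linarith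
  have h3 : (1 / a) ^ (100 / 99 : ℝ) ≤ Real.log X := (le_max_right _ _).trans h2
  have h4 : 1 / a ≤ Real.log X ^ (99 / 100 : ℝ) := by
    have h5 := Real.rpow_le_rpow (by positivity) h3 (show (0 : ℝ) ≤ 99 / 100 by norm_num)
    rwa [← Real.rpow_mul (by positivity), show (100 / 99 * (99 / 100) : ℝ) = 1 by norm_num,
      Real.rpow_one] at h5
  unfold PP
  rw [Real.rpow_def_of_pos hX0]
  apply Real.exp_le_exp.2
  have h6 : Real.log X = Real.log X ^ (1 / 100 : ℝ) * Real.log X ^ (99 / 100 : ℝ) := by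
    rw [← Real.rpow_add hL0]; norm_num
  have h7 : 1 ≤ Real.log X ^ (99 / 100 : ℝ) * a := by
    rwa [div_le_iff₀ ha] at h4
  calc Real.log X ^ (1 / 100 : ℝ) = Real.log X ^ (1 / 100 : ℝ) * 1 := (mul_one _).symm
    _ ≤ Real.log X ^ (1 / 100 : ℝ) * (Real.log X ^ (99 / 100 : ℝ) * a) :=
        mul_le_mul_of_nonneg_left h7 (by positivity)
    _ = Real.log X * a := by
        conv_rhs => rw [h6]
        ring

/-- NS4: the levels -/
theorem levels (hk4 : 4 ≤ k) (c : ℝ) (hc : 0 < c) (ks : ℕ) : ∃ τ₀ : ℝ, 0 < τ₀ ∧ τ₀ ≤ 1 ∧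
    ∀ p : Prm k, p.Ok τ₀ → ∀ P00 : ℕ, ∃ X₀ : ℕ, ∀ X ≥ X₀, ∀ u u' : Vec k, GP p X u → GP p X u' →
      ((R0 P00 * ∏ l ∈ (Dall u * Dall u').primeFactors, l : ℕ) : ℝ) *
          ((⌊p.Y X⌋₊ : ℕ) : ℝ) ^ (ks + 2) ≤ (X : ℝ) ^ c ∧
      ((⌊p.Y X⌋₊ : ℕ) : ℝ) ^ (ks + 2) * (X : ℝ) ^ (1 - c) ≤ 1 / 100 * (X : ℝ) ^ (1 - c / 2) ∧
      3 ≤ p.Y X ∧ PP X ≤ p.Y X ∧ p.Y X ≤ X := by
  set M : ℝ := 10 * k + (ks + 2) with hM
  have hM0 : 0 < M := by positivity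
  refine ⟨min 1 (c / (4 * M)), lt_min one_pos (by positivity), min_le_left _ _, fun p hp P00 => ?_⟩
  set τ := min 1 (c / (4 * M)) with hτ
  have hτ0 : 0 < τ := lt_min one_pos (by positivity)
  have hτ1 : τ ≤ 1 := min_le_left _ _
  have hτM : τ * M ≤ c / 4 := by
    have h1 : τ ≤ c / (4 * M) := min_le_right _ _
    calc τ * M ≤ c / (4 * M) * M := mul_le_mul_of_nonneg_right h1 hM0.le
      _ = c / 4 := by field_simp
  obtain ⟨_, hem, hta, hep⟩ := ns4_pos hk4 hτ0 hp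
  have hp1 : p.Ok 1 := ns4_mono hk4 hτ0 hτ1 hp
  have hepτ : p.ep ≤ τ := hp.ep1
  have htaτ : p.ta ≤ τ := by
    calc p.ta ≤ τ * p.ep := hp.ta_ep
      _ ≤ τ * 1 := mul_le_mul_of_nonneg_left (hepτ.trans hτ1) hτ0.le
      _ = τ := mul_one τ
  obtain ⟨X1, hX1⟩ := GP.sizes hp1 hk4
  obtain ⟨X2, hX2, hX2'⟩ := ns4_ev (show 0 < c / 2 by positivity) (R0 P00 : ℝ)
  obtain ⟨X3, _, hX3'⟩ := ns4_ev (show 0 < c / 4 by positivity) 100
  obtain ⟨X4, _, hX4'⟩ := ns4_ev hta 3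
  obtain ⟨X5, hX5⟩ := ns4_PP hta
  refine ⟨max X1 (max X2 (max X3 (max X4 X5))), fun X hX u u' hu hu' => ?_⟩
  have hXX := hX
  simp only [ge_iff_le, max_le_iff] at hXX
  obtain ⟨g1, g2, g3, g4, g5⟩ := hXX
  have hX1r : (1 : ℝ) ≤ X := by exact_mod_cast hX2.trans g2
  have hX0 : (0 : ℝ) < X := by linarith
  have hfl : ((⌊p.Y X⌋₊ : ℕ) : ℝ) ^ (ks + 2) ≤ (X : ℝ) ^ (p.ta * (ks + 2)) := by
    have h1 : ((⌊p.Y X⌋₊ : ℕ) : ℝ) ≤ (X : ℝ) ^ p.ta :=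
      Nat.floor_le (show 0 ≤ (X : ℝ) ^ p.ta by positivity)
    calc ((⌊p.Y X⌋₊ : ℕ) : ℝ) ^ (ks + 2) ≤ ((X : ℝ) ^ p.ta) ^ (ks + 2) :=
          pow_le_pow_left₀ (Nat.cast_nonneg _) h1 _
      _ = (X : ℝ) ^ (p.ta * (ks + 2)) := by
          rw [← Real.rpow_natCast, ← Real.rpow_mul hX0.le]
          push_cast
          rfl
  have hfl2 : (X : ℝ) ^ (p.ta * (ks + 2)) ≤ (X : ℝ) ^ (c / 4) := by
    apply Real.rpow_le_rpow_of_exponent_le hX1r
    calc p.ta * (ks + 2) ≤ τ * M := by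
          apply mul_le_mul htaτ _ (by positivity) hτ0.le
          rw [hM]
          have : (0 : ℝ) ≤ 10 * k := by positivity
          linarith
      _ ≤ c / 4 := hτM
  refine ⟨?_, ?_, hX4' X g4, hX5 X g5, ?_⟩
  · -- the product of the primes
    have hD : ∀ w : Vec k, GP p X w → (Dall w : ℝ) ≤ (X : ℝ) ^ (5 * k * p.ep) :=
      fun w hw => (hX1 X g1 w hw).2.1
    have hDp : ∀ w : Vec k, GP p X w → 0 < Dall w := fun w hw => by
      have := (GP.Dall_eq hw (by omega)).2.2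
      exact this
    have h1 : ((∏ l ∈ (Dall u * Dall u').primeFactors, l : ℕ) : ℝ) ≤
        (X : ℝ) ^ (10 * k * p.ep) := by
      have h2 : ∏ l ∈ (Dall u * Dall u').primeFactors, l ≤ Dall u * Dall u' :=
        Nat.le_of_dvd (Nat.mul_pos (hDp u hu) (hDp u' hu')) (Nat.prod_primeFactors_dvd _)
      calc ((∏ l ∈ (Dall u * Dall u').primeFactors, l : ℕ) : ℝ) ≤ ((Dall u * Dall u' : ℕ) : ℝ) := by
            exact_mod_cast h2
        _ = (Dall u : ℝ) * Dall u' := by push_cast; ring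
        _ ≤ (X : ℝ) ^ (5 * k * p.ep) * (X : ℝ) ^ (5 * k * p.ep) :=
            mul_le_mul (hD u hu) (hD u' hu') (Nat.cast_nonneg _) (by positivity)
        _ = (X : ℝ) ^ (10 * k * p.ep) := by
            rw [← Real.rpow_add hX0]; congr 1; ring
    rw [Nat.cast_mul]
    calc (R0 P00 : ℝ) * ((∏ l ∈ (Dall u * Dall u').primeFactors, l : ℕ) : ℝ) *
          ((⌊p.Y X⌋₊ : ℕ) : ℝ) ^ (ks + 2)
        ≤ (X : ℝ) ^ (c / 2) * (X : ℝ) ^ (10 * k * p.ep) * (X : ℝ) ^ (p.ta * (ks + 2)) := by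
          apply mul_le_mul (mul_le_mul (hX2' X g2) h1 (Nat.cast_nonneg _) (by positivity)) hfl
            (by positivity) (by positivity)
      _ = (X : ℝ) ^ (c / 2 + 10 * k * p.ep + p.ta * (ks + 2)) := by
          rw [← Real.rpow_add hX0, ← Real.rpow_add hX0]
      _ ≤ (X : ℝ) ^ c := by
          apply Real.rpow_le_rpow_of_exponent_le hX1r
          have h3 : 10 * (k : ℝ) * p.ep ≤ 10 * k * τ :=
            mul_le_mul_of_nonneg_left hepτ (by positivity)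
          have h4 : p.ta * ((ks : ℝ) + 2) ≤ τ * (ks + 2) :=
            mul_le_mul_of_nonneg_right htaτ (by positivity)
          have h5 : τ * M = 10 * k * τ + τ * (ks + 2) := by rw [hM]; ring
          linarith
  · calc ((⌊p.Y X⌋₊ : ℕ) : ℝ) ^ (ks + 2) * (X : ℝ) ^ (1 - c)
        ≤ (X : ℝ) ^ (c / 4) * (X : ℝ) ^ (1 - c) :=
          mul_le_mul_of_nonneg_right (hfl.trans hfl2) (by positivity)
      _ ≤ (1 / 100 * (X : ℝ) ^ (c / 4)) * ((X : ℝ) ^ (c / 4) * (X : ℝ) ^ (1 - c)) := by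
          have h1 : (1 : ℝ) ≤ 1 / 100 * (X : ℝ) ^ (c / 4) := by
            have := hX3' X g3
            linarith
          exact le_mul_of_one_le_left (by positivity) h1
      _ = 1 / 100 * ((X : ℝ) ^ (c / 4) * ((X : ℝ) ^ (c / 4) * (X : ℝ) ^ (1 - c))) := by ring
      _ = 1 / 100 * (X : ℝ) ^ (1 - c / 2) := by
          rw [← Real.rpow_add hX0, ← Real.rpow_add hX0]
          congr 2
          ring
  · unfold Prm.Y
    calc (X : ℝ) ^ p.ta ≤ (X : ℝ) ^ (1 : ℝ) :=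
          Real.rpow_le_rpow_of_exponent_le hX1r (htaτ.trans hτ1)
      _ = X := Real.rpow_one _

end Pool.Agent.AQ.NC
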