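import Pool.Agent.Lib_helper8.AQ.NCDefs
import Pool.Agent.Lib_helper88.AQN.NE1
import Pool.Agent.Lib_helper88.AQN.NE2
import Pool.Agent.Lib_helper88.AQN.NE3
import Pool.Agent.Lib_helper88.AQN.NE4
import Pool.Agent.Lib_helper88.AQN.NS4

set_option autoImplicit false

namespace Pool.Agent.AQ.NC

open Finset Pool.Agent.PENT Pool.Agent.PENT.EQ

variable [Cst] {k : ℕ}

/-- NE5: **(END)** -/
theorem end_mean (hk4 : 4 ≤ k) (C1 C₂ c δ : ℝ) (hC1 : 1 ≤ C1) (hC2 : 0 < C₂) (hc : 0 < c)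
    (hδ : 0 < δ) : ∃ τ₀ : ℝ, 0 < τ₀ ∧ ∀ p : Prm k, p.Ok τ₀ → ∃ X₀ : ℕ, ∀ X ≥ X₀,
    ∀ O ⊆ AW C1 X, (O.card : ℝ) ≤ C₂ * X →
    EqFam O (fun v => v) ((X : ℝ) ^ c) ((X : ℝ) ^ (1 - c)) →
    ∑ q ∈ O, (1 - av p X q) ≤ δ * X := by
  classical
  obtain ⟨Cb, hCb, hbig⟩ := end_big
  obtain ⟨Cs, τs, hCs, hτs, hsmall⟩ := end_small c hc
  set a1 : ℝ := δ / (3 * (Cb * C₂)) with ha1
  set a2 : ℝ := (δ / (3 * (Cs * C₂))) ^ (8 / 3 : ℝ) with ha2
  have ha1p : 0 < a1 := by positivity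
  have ha2p : 0 < a2 := by positivity
  have hc4 : 0 < c / 4 := by positivity
  set τ : ℝ := min 1 (min (c / 4) (min τs (min a1 a2))) with hτ
  have hτ0 : 0 < τ := lt_min one_pos (lt_min hc4 (lt_min hτs (lt_min ha1p ha2p)))
  have t1 : τ ≤ 1 := min_le_left _ _
  have t2 : τ ≤ c / 4 := (min_le_right _ _).trans (min_le_left _ _)
  have t3 : τ ≤ τs := (min_le_right _ _).trans ((min_le_right _ _).trans (min_le_left _ _))
  have t4 : τ ≤ a1 := (min_le_right _ _).trans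
    ((min_le_right _ _).trans ((min_le_right _ _).trans (min_le_left _ _)))
  have t5 : τ ≤ a2 := (min_le_right _ _).trans
    ((min_le_right _ _).trans ((min_le_right _ _).trans (min_le_right _ _)))
  refine ⟨τ, hτ0, fun p hp => ?_⟩
  obtain ⟨_, hem, hta, hep⟩ := ns4_pos hk4 hτ0 hp
  have hp1 : p.Ok 1 := ns4_mono hk4 hτ0 t1 hp
  have htaτ : p.ta ≤ τ := by
    calc p.ta ≤ τ * p.ep := hp.ta_ep
      _ ≤ τ * 1 := mul_le_mul_of_nonneg_left (hp.ep1.trans t1) hτ0.le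
      _ = τ := mul_one τ
  have hemta : p.em ≤ p.ta := by
    calc p.em ≤ τ * p.ta := hp.em_ta
      _ ≤ 1 * p.ta := mul_le_mul_of_nonneg_right t1 hta.le
      _ = p.ta := one_mul _
  obtain ⟨X1, hX1⟩ := end_sq (p := p) c C₂ (δ / 3) hc (by positivity) hta (htaτ.trans t2)
  obtain ⟨X2, hX2⟩ := hbig k p c C₂ hc hC2 hta (htaτ.trans t2) hep
  obtain ⟨X3, hX3⟩ := hsmall k p C₂ hC2 hem hemta (htaτ.trans t3)
  obtain ⟨X4, hX4⟩ := ns4_PP hem
  refine ⟨max X1 (max X2 (max X3 (max X4 3))), fun X hX O hO hcard hEq => ?_⟩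
  simp only [ge_iff_le, max_le_iff] at hX
  obtain ⟨g1, g2, g3, g4, g5⟩ := hX
  have hXn : (0 : ℝ) ≤ X := Nat.cast_nonneg X
  have b1 := hX1 X g1 O hcard hEq
  have b2 := hX2 X g2 O hcard hEq
  have b3 := hX3 X g3 O hcard hEq
  have hpt : ∀ q ∈ O, q.1 * q.2.2 - q.2.1 ^ 2 = D := by
    intro q hq
    have h1 := hO hq
    unfold AW at h1
    rw [Finset.mem_filter] at h1
    exact h1.2.1
  have hsum := Finset.sum_le_sum fun q hq => av_low hp1 hk4 g5 (hX4 X g4) (hpt q hq)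
  rw [Finset.sum_add_distrib, Finset.sum_add_distrib] at hsum
  refine hsum.trans ?_
  have e2 : Cb * C₂ * (p.ta / p.ep) * X ≤ δ / 3 * X := by
    apply mul_le_mul_of_nonneg_right _ hXn
    have h1 : p.ta / p.ep ≤ a1 := by
      rw [div_le_iff₀ hep]
      exact hp.ta_ep.trans (mul_le_mul_of_nonneg_right t4 hep.le)
    calc Cb * C₂ * (p.ta / p.ep) ≤ Cb * C₂ * a1 := mul_le_mul_of_nonneg_left h1 (by positivity)
      _ = δ / 3 := by rw [ha1]; field_simp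
  have e3 : Cs * C₂ * (p.em / p.ta) ^ (3 / 8 : ℝ) * X ≤ δ / 3 * X := by
    apply mul_le_mul_of_nonneg_right _ hXn
    have h1 : p.em / p.ta ≤ a2 := by
      rw [div_le_iff₀ hta]
      exact hp.em_ta.trans (mul_le_mul_of_nonneg_right t5 hta.le)
    have h2 : (p.em / p.ta) ^ (3 / 8 : ℝ) ≤ δ / (3 * (Cs * C₂)) := by
      have h3 := Real.rpow_le_rpow (by positivity) h1 (show (0 : ℝ) ≤ 3 / 8 by norm_num)
      rwa [ha2, ← Real.rpow_mul (by positivity), show (8 / 3 * (3 / 8) : ℝ) = 1 by norm_num,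
        Real.rpow_one] at h3
    calc Cs * C₂ * (p.em / p.ta) ^ (3 / 8 : ℝ) ≤ Cs * C₂ * (δ / (3 * (Cs * C₂))) :=
          mul_le_mul_of_nonneg_left h2 (by positivity)
      _ = δ / 3 := by field_simp
  have b2' := b2.trans e2
  have b3' := b3.trans e3
  linarith

end Pool.Agent.AQ.NC
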