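import Pool.Agent.Lib_helper8.AQ.NCDefs

/-!
# NC, block NL0: the local factors as products of line factors (helper24)
-/

set_option autoImplicit false

namespace Pool.Agent.AQ.NC

open Finset Pool.Agent.PENT Pool.Agent.PENT.EQ

variable [Cst] {k : ℕ}

theorem nl0_dE {u : Vec k} {l : ℕ} (hl : l.Prime) (h : ¬ l ∣ Dall u) (i : ℕ) : ¬ l ∣ dE u i := by
  intro hd
  by_cases hi : 1 ≤ i ∧ i ≤ k
  · exact h (hd.trans (dvd_prod_of_mem (dE u) (mem_Icc.mpr hi)))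
  · rw [dE, dif_neg hi] at hd
    exact hl.one_lt.ne' (Nat.dvd_one.mp hd)

/-- NL0 (`l ∤ D(u)`: `l` divides no `dE u i`, `i ≥ 1`, and `dE u 0 = dE u (k+1) = 1`) -/
theorem Lf_out (p : Prm k) (X : ℕ) (u : Vec k) {l : ℕ} (hl : l.Prime) (h : ¬ l ∣ Dall u)
    (q : ℤ × ℤ × ℤ) :
    Lf p X u l q = PW univ u (fun j => wyV k (PP X) (p.Y X) j.val l) l q := by
  have h1 : l ∣ Dall u → (l : ℤ) ∣ fv q (Lv u l) := fun hd => absurd hd h
  have h2 : (∏ j : Fin k, if l ∣ dE u (j.val + 1) then wdE k (p.Y X) j.val l else 1) = 1 :=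
    prod_eq_one fun j _ => if_neg (nl0_dE hl h _)
  rw [Lf, if_pos h1, h2, one_mul, one_mul, PW]
  refine prod_congr rfl fun j _ => ?_
  have h3 : ¬ l ∣ dE u j.val * dE u (j.val + 1) := fun hd =>
    ((Nat.Prime.dvd_mul hl).mp hd).elim (nl0_dE hl h _) (nl0_dE hl h _)
  rw [if_neg h3]

theorem nl0_last (hk : Even k) {P Y : ℝ} {l : ℕ} (h2 : ¬ l ∣ R) :
    wyV k P Y k l = wyV k P Y 0 l := by
  simp only [wyV, if_neg h2, boV, beV, if_pos hk, if_pos Even.zero, true_or, or_true, if_true]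

/-- NL0 -/
theorem Lf_out' (hk : Even k) (hk4 : 4 ≤ k) (p : Prm k) (X : ℕ) {u : Vec k} (hu : GP p X u)
    {l : ℕ} (hl : l.Prime) (h2 : ¬ l ∣ R) (h : ¬ l ∣ Dall u) (q : ℤ × ℤ × ℤ) :
    Lf p X u l q = Ev p X l q * Iv p X u l q := by
  rw [Lf_out p X u hl h q, Iv, Ev, PW, PW, PW]
  have hne : (0 : Fin (k + 1)) ≠ Fin.last k := by
    intro h
    have := congrArg Fin.val h
    rw [Fin.val_zero, Fin.val_last] at this
    omega
  have hu1 : (univ : Finset (Fin (k + 1))) = insert 0 (insert (Fin.last k) (ivx k)) := by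
    ext j
    simp only [mem_univ, mem_insert, ivx, mem_filter, true_and, true_iff]
    by_cases h0 : j = 0
    · exact Or.inl h0
    · by_cases h1 : j = Fin.last k
      · exact Or.inr (Or.inl h1)
      · have h3 : j.val ≠ 0 := fun h => h0 (Fin.ext h)
        have h4 : j.val ≠ k := fun h => h1 (Fin.ext h)
        have := j.isLt
        exact Or.inr (Or.inr ⟨by omega, by omega⟩)
  have hn1 : Fin.last k ∉ ivx k := by
    simp only [ivx, mem_filter, mem_univ, true_and, Fin.val_last, not_and]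
    intro _
    omega
  have hn0 : (0 : Fin (k + 1)) ∉ insert (Fin.last k) (ivx k) := by
    simp only [ivx, mem_insert, mem_filter, mem_univ, true_and, Fin.val_zero, not_or, not_and]
    exact ⟨hne, fun h => by omega⟩
  rw [hu1, prod_insert hn0, prod_insert hn1]
  rw [Fintype.prod_bool]
  simp only [if_true, Bool.false_eq_true, if_false, hu.first, hu.last, Fin.val_zero, Fin.val_last,
    nl0_last hk h2]
  ring

theorem nl0_fv1 (q : ℤ × ℤ × ℤ) : fv q (1, 0) = q.1 := by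
  simp [fv, qf]

theorem nl0_fv2 (q : ℤ × ℤ × ℤ) : fv q (0, 1) = q.2.2 := by
  simp [fv, qf]

/-- NL0 -/
theorem Ef_out (p : Prm k) (X : ℕ) (f : ℕ × ℕ) {l : ℕ} (h : ¬ l ∣ f.1 * f.2) (hl : l.Prime)
    (q : ℤ × ℤ × ℤ) : Ef p X f l q = Ev p X l q := by
  have h1 : ¬ l ∣ f.1 := fun hd => h (hd.mul_right _)
  have h2 : ¬ l ∣ f.2 := fun hd => h (hd.mul_left _)
  rw [Ef, E1, E1, if_neg h1, if_neg h2, Ev, PW, Fintype.prod_bool]
  simp only [if_true, Bool.false_eq_true, if_false, nl0_fv1, nl0_fv2]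

theorem nl0_one {P Y : ℝ} {l : ℕ} (hY : Y < l) (hP : P < l) (j : ℕ) : wyV k P Y j l = 1 := by
  simp only [wyV, if_neg (not_le.mpr hY), if_neg (not_le.mpr hP), ite_self]

theorem nl0_PW {ι : Type} (s : Finset ι) (v : ι → ℤ × ℤ) (b : ι → ℝ) (hb : ∀ i ∈ s, b i = 1)
    (l : ℕ) (q : ℤ × ℤ × ℤ) : PW s v b l q = 1 := by
  refine prod_eq_one fun i hi => ?_
  rw [hb i hi, ite_self]

/-- NL0: for `l > Y` not dividing `D(u)` all factors are `1` -/
theorem out_one (p : Prm k) (X : ℕ) (u : Vec k) {l : ℕ} (hl : l.Prime) (h : ¬ l ∣ Dall u)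
    (hY : p.Y X < l) (hP : PP X < l) (q : ℤ × ℤ × ℤ) :
    Lf p X u l q = 1 ∧ Ev p X l q = 1 ∧ Iv p X u l q = 1 := by
  refine ⟨?_, nl0_PW _ _ _ (fun _ _ => nl0_one hY hP _) _ _,
    nl0_PW _ _ _ (fun _ _ => nl0_one hY hP _) _ _⟩
  rw [Lf_out p X u hl h q]
  exact nl0_PW _ _ _ (fun _ _ => nl0_one hY hP _) _ _

/-- NL0: products of two `PW` -/
theorem PW_mul {ι ι' : Type} (s : Finset ι) (s' : Finset ι') (v : ι → ℤ × ℤ) (v' : ι' → ℤ × ℤ)
    (b : ι → ℝ) (b' : ι' → ℝ) (l : ℕ) (q : ℤ × ℤ × ℤ) :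
    PW s v b l q * PW s' v' b' l q =
      PW (s.disjSum s') (Sum.elim v v') (Sum.elim b b') l q := by
  unfold PW
  rw [prod_disjSum]
  rfl

end Pool.Agent.AQ.NC
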