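import Pool.Agent.Lib_helper8.AQ.NCDefs
import Pool.Agent.Lib_helper88.AQN.NL1
import Pool.Agent.Lib_helper88.AQN.NL2

/-! NC block NL4 (helper53) -/

set_option autoImplicit false

namespace Pool.Agent.AQ.NC

open Finset Pool.Agent.PENT Pool.Agent.PENT.EQ

variable [Cst] {k : ℕ}

theorem nl4_prod {ι : Type} (s : Finset ι) (c x : ι → ℝ)
    (h : ∀ i ∈ s, 0 ≤ c i ∧ c i ≤ 1 ∧ 1 - x i ≤ c i ∧ 0 ≤ x i) :
    0 ≤ ∏ i ∈ s, c i ∧ ∏ i ∈ s, c i ≤ 1 ∧ 1 - ∑ i ∈ s, x i ≤ ∏ i ∈ s, c i := by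
  classical
  induction s using Finset.induction_on with
  | empty => simp
  | insert a s ha ih =>
    obtain ⟨h1, h2, h3⟩ := ih (fun i hi => h i (Finset.mem_insert_of_mem hi))
    obtain ⟨c0, c1, c2, c3⟩ := h a (Finset.mem_insert_self a s)
    rw [Finset.prod_insert ha, Finset.sum_insert ha]
    refine ⟨mul_nonneg c0 h1, mul_le_one₀ c1 h1 h2, ?_⟩
    nlinarith [mul_le_mul_of_nonneg_right c2 h1, mul_le_mul_of_nonneg_left h2 c3]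

/-- NL4: `1 - ∏ ≤ ∑ [l ∣ q(v_i)]` -/
theorem PW_ge {ι : Type} (s : Finset ι) (v : ι → ℤ × ℤ) (b : ι → ℝ)
    (hb : ∀ i ∈ s, 0 ≤ b i ∧ b i ≤ 1) {l : ℕ} (hl : l.Prime) (h4 : Sp l)
    (hv : ∀ i ∈ s, ¬ ((l : ℤ) ∣ (v i).1 ∧ (l : ℤ) ∣ (v i).2)) :
    1 - 2 * (s.card : ℝ) / l ≤ MV l (PW s v b l) := by
  classical
  have hl0 : (0 : ℝ) < l := by exact_mod_cast hl.pos
  have h1 : ∀ q : ℤ × ℤ × ℤ, 1 - ∑ i ∈ s, (if (l : ℤ) ∣ fv q (v i) then (1 : ℝ) else 0) ≤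
      PW s v b l q := by
    intro q
    unfold PW
    refine (nl4_prod s _ _ ?_).2.2
    intro i hi
    obtain ⟨b0, b1⟩ := hb i hi
    split_ifs
    · exact ⟨b0, b1, by linarith, by norm_num⟩
    · exact ⟨by norm_num, le_refl _, by norm_num, le_refl _⟩
  have h2 := MV_mono' (m := l) h1
  rw [MV_sub', MV_const' hl.pos, MV_sum'] at h2
  have h3 : ∑ i ∈ s, MV l (fun q => if (l : ℤ) ∣ fv q (v i) then (1 : ℝ) else 0) =
      ∑ i ∈ s, 2 / ((l : ℝ) + 1) :=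
    Finset.sum_congr rfl (fun i hi => MV_line hl h4 (v i) (hv i hi))
  rw [h3, Finset.sum_const, nsmul_eq_mul] at h2
  refine le_trans ?_ h2
  have h5 : 2 / ((l : ℝ) + 1) ≤ 2 / l :=
    div_le_div_of_nonneg_left (by norm_num) hl0 (by linarith)
  have h6 : (s.card : ℝ) * (2 / ((l : ℝ) + 1)) ≤ s.card * (2 / l) :=
    mul_le_mul_of_nonneg_left h5 (Nat.cast_nonneg _)
  have h7 : (s.card : ℝ) * (2 / l) = 2 * (s.card : ℝ) / l := by ring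
  linarith

end Pool.Agent.AQ.NC
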