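import Pool.Agent.Lib_helper8.AQ.NCDefs
import Pool.Agent.Lib_helper88.AQN.NL1
import Pool.Agent.Lib_helper88.AQN.NL2

/-!
# NC, block NL5: the covariance of two products of line factors (helper24)
-/

set_option autoImplicit false

namespace Pool.Agent.AQ.NC

open Finset Pool.Agent.PENT Pool.Agent.PENT.EQ

variable [Cst] {k : ℕ}

theorem nl5_01 {ι : Type} (s : Finset ι) (v : ι → ℤ × ℤ) (b : ι → ℝ)
    (hb : ∀ i ∈ s, 0 ≤ b i ∧ b i ≤ 1) (l : ℕ) (q : ℤ × ℤ × ℤ) :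
    0 ≤ PW s v b l q ∧ PW s v b l q ≤ 1 := by
  unfold PW
  refine ⟨prod_nonneg fun i hi => ?_, prod_le_one (fun i hi => ?_) fun i hi => ?_⟩
  · split_ifs
    · exact (hb i hi).1
    · exact zero_le_one
  · split_ifs
    · exact (hb i hi).1
    · exact zero_le_one
  · split_ifs
    · exact (hb i hi).2
    · exact le_rfl

theorem nl5_le {ι : Type} (s : Finset ι) (v : ι → ℤ × ℤ) (b : ι → ℝ)
    (hb : ∀ i ∈ s, 0 ≤ b i ∧ b i ≤ 1) (l : ℕ) (q : ℤ × ℤ × ℤ) :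
    1 - PW s v b l q ≤ ∑ i ∈ s, (if (l : ℤ) ∣ fv q (v i) then (1 : ℝ) else 0) := by
  have h01 := nl5_01 s v b hb l q
  have h0 : ∀ i ∈ s, (0 : ℝ) ≤ (if (l : ℤ) ∣ fv q (v i) then (1 : ℝ) else 0) := by
    intro i _
    split_ifs
    · exact zero_le_one
    · exact le_rfl
  by_cases h : ∃ i ∈ s, (l : ℤ) ∣ fv q (v i)
  · obtain ⟨i, hi, hd⟩ := h
    have h1 := single_le_sum h0 hi
    rw [if_pos hd] at h1
    linarith [h01.1]
  · have h1 : PW s v b l q = 1 := by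
      unfold PW
      refine prod_eq_one fun i hi => ?_
      rw [if_neg fun hd => h ⟨i, hi, hd⟩]
    rw [h1, sub_self]
    exact sum_nonneg h0

/-- the mean of the product of two sums of indicators -/
theorem nl5_two {ι ι' : Type} (s : Finset ι) (s' : Finset ι') (v : ι → ℤ × ℤ)
    (v' : ι' → ℤ × ℤ) (l : ℕ) (c : ℝ)
    (h : ∀ i ∈ s, ∀ j ∈ s',
      MV l (fun q => if (l : ℤ) ∣ fv q (v i) ∧ (l : ℤ) ∣ fv q (v' j) then 1 else 0) ≤ c) :
    MV l (fun q => (∑ i ∈ s, (if (l : ℤ) ∣ fv q (v i) then (1 : ℝ) else 0)) *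
      ∑ j ∈ s', (if (l : ℤ) ∣ fv q (v' j) then (1 : ℝ) else 0)) ≤ (s.card : ℝ) * s'.card * c := by
  have e : (fun q : ℤ × ℤ × ℤ => (∑ i ∈ s, (if (l : ℤ) ∣ fv q (v i) then (1 : ℝ) else 0)) *
      ∑ j ∈ s', (if (l : ℤ) ∣ fv q (v' j) then (1 : ℝ) else 0)) =
      fun q => ∑ i ∈ s, ∑ j ∈ s',
        (if (l : ℤ) ∣ fv q (v i) ∧ (l : ℤ) ∣ fv q (v' j) then (1 : ℝ) else 0) := by
    funext q
    rw [sum_mul_sum]
    refine sum_congr rfl fun i _ => sum_congr rfl fun j _ => ?_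
    by_cases h1 : (l : ℤ) ∣ fv q (v i)
    · by_cases h2 : (l : ℤ) ∣ fv q (v' j)
      · rw [if_pos h1, if_pos h2, if_pos ⟨h1, h2⟩, mul_one]
      · rw [if_neg h2, if_neg fun h : (l : ℤ) ∣ fv q (v i) ∧ (l : ℤ) ∣ fv q (v' j) => h2 h.2,
          mul_zero]
    · rw [if_neg h1, if_neg fun h : (l : ℤ) ∣ fv q (v i) ∧ (l : ℤ) ∣ fv q (v' j) => h1 h.1,
        zero_mul]
  rw [e, MV_sum']
  calc _ = ∑ i ∈ s, ∑ j ∈ s',
        MV l (fun q => if (l : ℤ) ∣ fv q (v i) ∧ (l : ℤ) ∣ fv q (v' j) then 1 else 0) :=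
        sum_congr rfl fun i _ => MV_sum' s' _
    _ ≤ ∑ _i ∈ s, ∑ _j ∈ s', c := sum_le_sum fun i hi => sum_le_sum fun j hj => h i hi j hj
    _ = _ := by
        rw [sum_const, sum_const, nsmul_eq_mul, nsmul_eq_mul]
        ring

/-- the mean of a sum of indicators -/
theorem nl5_one {ι : Type} (s : Finset ι) (v : ι → ℤ × ℤ) {l : ℕ} (hl : l.Prime)
    (h4 : Sp l) (hv : ∀ i ∈ s, ¬ ((l : ℤ) ∣ (v i).1 ∧ (l : ℤ) ∣ (v i).2)) :
    MV l (fun q => ∑ i ∈ s, (if (l : ℤ) ∣ fv q (v i) then (1 : ℝ) else 0)) ≤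
      (s.card : ℝ) * (2 / (l : ℝ)) := by
  have hl0 : (0 : ℝ) < l := by exact_mod_cast hl.pos
  rw [MV_sum']
  calc _ = ∑ _i ∈ s, 2 / ((l : ℝ) + 1) := sum_congr rfl fun i hi => MV_line hl h4 (v i) (hv i hi)
    _ = (s.card : ℝ) * (2 / ((l : ℝ) + 1)) := by rw [sum_const, nsmul_eq_mul]
    _ ≤ _ := by
        refine mul_le_mul_of_nonneg_left ?_ (Nat.cast_nonneg _)
        exact div_le_div_of_nonneg_left (by norm_num) hl0 (by linarith)

theorem PW_cov {ι ι' : Type} (s : Finset ι) (s' : Finset ι') (v : ι → ℤ × ℤ)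
    (v' : ι' → ℤ × ℤ)
    (b : ι → ℝ) (b' : ι' → ℝ) (hb : ∀ i ∈ s, 0 ≤ b i ∧ b i ≤ 1)
    (hb' : ∀ i ∈ s', 0 ≤ b' i ∧ b' i ≤ 1) {l : ℕ} (hl : l.Prime) (h4 : Sp l)
    (hv : ∀ i ∈ s, ¬ ((l : ℤ) ∣ (v i).1 ∧ (l : ℤ) ∣ (v i).2))
    (hv' : ∀ i ∈ s', ¬ ((l : ℤ) ∣ (v' i).1 ∧ (l : ℤ) ∣ (v' i).2)) :
    |MV l (fun q => PW s v b l q * PW s' v' b' l q) - MV l (PW s v b l) * MV l (PW s' v' b' l)| ≤
      (s.card : ℝ) * s'.card * (6 / (l : ℝ) ^ 2) ∨
    ((∃ i ∈ s, ∃ j ∈ s', (l : ℤ) ∣ dt (v i) (v' j)) ∧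
      |MV l (fun q => PW s v b l q * PW s' v' b' l q) -
        MV l (PW s v b l) * MV l (PW s' v' b' l)| ≤ (s.card : ℝ) * s'.card * (4 / (l : ℝ))) := by
  have hl0 : (0 : ℝ) < l := by exact_mod_cast hl.pos
  have hl2 : (2 : ℝ) ≤ l := by exact_mod_cast hl.two_le
  have hcc : (0 : ℝ) ≤ (s.card : ℝ) * s'.card := by positivity
  -- the complements
  set x : ℤ × ℤ × ℤ → ℝ := fun q => 1 - PW s v b l q with hx
  set y : ℤ × ℤ × ℤ → ℝ := fun q => 1 - PW s' v' b' l q with hy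
  have hx0 : ∀ q, 0 ≤ x q := fun q => by
    have := (nl5_01 s v b hb l q).2
    simp only [hx]
    linarith
  have hy0 : ∀ q, 0 ≤ y q := fun q => by
    have := (nl5_01 s' v' b' hb' l q).2
    simp only [hy]
    linarith
  have c1 : MV l (fun _ => (1 : ℝ)) = 1 := MV_const' hl.pos 1
  have ex : MV l x = 1 - MV l (PW s v b l) := by
    rw [hx, MV_sub' (fun _ => (1 : ℝ)) (PW s v b l), c1]
  have ey : MV l y = 1 - MV l (PW s' v' b' l) := by
    rw [hy, MV_sub' (fun _ => (1 : ℝ)) (PW s' v' b' l), c1]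
  have exy : MV l (fun q => PW s v b l q * PW s' v' b' l q) =
      1 - MV l x - MV l y + MV l (fun q => x q * y q) := by
    have e : (fun q => PW s v b l q * PW s' v' b' l q) =
        fun q => ((1 - x q) - y q) + x q * y q := by
      funext q
      simp only [hx, hy]
      ring
    rw [e, MV_add' (fun q => (1 - x q) - y q) (fun q => x q * y q),
      MV_sub' (fun q => 1 - x q) y, MV_sub' (fun _ => (1 : ℝ)) x, c1]
  have cov : MV l (fun q => PW s v b l q * PW s' v' b' l q) -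
      MV l (PW s v b l) * MV l (PW s' v' b' l) =
      MV l (fun q => x q * y q) - MV l x * MV l y := by
    rw [exy, ex, ey]
    ring
  have c0 : MV l (fun _ => (0 : ℝ)) = 0 := MV_const' hl.pos 0
  have px : 0 ≤ MV l x := by
    rw [← c0]
    exact MV_mono' hx0
  have py : 0 ≤ MV l y := by
    rw [← c0]
    exact MV_mono' hy0
  have pxy : 0 ≤ MV l (fun q => x q * y q) := by
    rw [← c0]
    exact MV_mono' fun q => mul_nonneg (hx0 q) (hy0 q)
  have ux : MV l x ≤ (s.card : ℝ) * (2 / (l : ℝ)) :=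
    (MV_mono' fun q => nl5_le s v b hb l q).trans (nl5_one s v hl h4 hv)
  have uy : MV l y ≤ (s'.card : ℝ) * (2 / (l : ℝ)) :=
    (MV_mono' fun q => nl5_le s' v' b' hb' l q).trans (nl5_one s' v' hl h4 hv')
  have uu : MV l x * MV l y ≤ (s.card : ℝ) * s'.card * (4 / (l : ℝ) ^ 2) := by
    calc _ ≤ ((s.card : ℝ) * (2 / (l : ℝ))) * ((s'.card : ℝ) * (2 / (l : ℝ))) :=
          mul_le_mul ux uy py (by positivity)
      _ = _ := by
          field_simp
          ring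
  have uxy : ∀ c : ℝ, (∀ i ∈ s, ∀ j ∈ s',
      MV l (fun q => if (l : ℤ) ∣ fv q (v i) ∧ (l : ℤ) ∣ fv q (v' j) then 1 else 0) ≤ c) →
      MV l (fun q => x q * y q) ≤ (s.card : ℝ) * s'.card * c := by
    intro c hc
    refine (MV_mono' fun q => ?_).trans (nl5_two s s' v v' l c hc)
    exact mul_le_mul (nl5_le s v b hb l q) (nl5_le s' v' b' hb' l q) (hy0 q)
      ((hx0 q).trans (nl5_le s v b hb l q))
  rw [cov]
  have habs : |MV l (fun q => x q * y q) - MV l x * MV l y| ≤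
      MV l (fun q => x q * y q) + MV l x * MV l y := by
    have := mul_nonneg px py
    rw [abs_le]
    constructor <;> linarith
  by_cases h : ∃ i ∈ s, ∃ j ∈ s', (l : ℤ) ∣ dt (v i) (v' j)
  · right
    refine ⟨h, habs.trans ?_⟩
    have h1 := uxy (2 / (l : ℝ)) fun i hi j hj => by
      calc _ ≤ MV l (fun q => if (l : ℤ) ∣ fv q (v i) then 1 else 0) := MV_mono' fun q => by
            by_cases h1 : (l : ℤ) ∣ fv q (v i)
            · rw [if_pos h1]
              split_ifs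
              · exact le_rfl
              · exact zero_le_one
            · rw [if_neg h1, if_neg fun h : (l : ℤ) ∣ fv q (v i) ∧ (l : ℤ) ∣ fv q (v' j) => h1 h.1]
        _ = 2 / ((l : ℝ) + 1) := MV_line hl h4 (v i) (hv i hi)
        _ ≤ _ := div_le_div_of_nonneg_left (by norm_num) hl0 (by linarith)
    have h2 : 4 / (l : ℝ) ^ 2 ≤ 2 / (l : ℝ) := by
      rw [div_le_div_iff₀ (by positivity) hl0]
      nlinarith
    calc _ ≤ (s.card : ℝ) * s'.card * (2 / (l : ℝ)) + (s.card : ℝ) * s'.card * (2 / (l : ℝ)) :=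
          add_le_add h1 (uu.trans (mul_le_mul_of_nonneg_left h2 hcc))
      _ = _ := by ring
  · left
    refine habs.trans ?_
    have h1 := uxy (2 / (l : ℝ) ^ 2) fun i hi j hj => by
      rw [MV_line2 hl h4 (v i) (v' j) fun hd => h ⟨i, hi, j, hj, hd⟩]
      refine div_le_div_of_nonneg_left (by norm_num) (by positivity) ?_
      nlinarith
    calc _ ≤ (s.card : ℝ) * s'.card * (2 / (l : ℝ) ^ 2) +
          (s.card : ℝ) * s'.card * (4 / (l : ℝ) ^ 2) := add_le_add h1 uu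
      _ = _ := by ring

end Pool.Agent.AQ.NC
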