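import Pool.Agent.Lib_helper8.AQ.NCDefs
import Pool.Agent.Lib_helper88.AQN.NA2
import Pool.Agent.Lib_helper88.AQN.NA4
import Pool.Agent.Lib_helper88.AQN.NL0
import Pool.Agent.Lib_helper88.AQN.NL1
import Pool.Agent.Lib_helper88.AQN.NL2
import Pool.Agent.Lib_helper88.AQN.NL4

/-!
# NC, block NL7 (helper72)
-/

set_option autoImplicit false

namespace Pool.Agent.AQ.NC

open Finset Pool.Agent.PENT Pool.Agent.PENT.EQ

variable [Cst] {k : ℕ}

theorem nl7_ind {ι : Type} (s : Finset ι) (v : ι → ℤ × ℤ) (b : ι → ℝ)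
    (hb : ∀ i ∈ s, 0 ≤ b i ∧ b i ≤ 1) (l : ℕ) (q : ℤ × ℤ × ℤ) :
    1 - ∑ i ∈ s, (if (l : ℤ) ∣ fv q (v i) then (1 : ℝ) else 0) ≤ PW s v b l q := by
  classical
  induction s using Finset.induction_on with
  | empty => simp [PW]
  | insert i s hi ih =>
    have hb' : ∀ j ∈ s, 0 ≤ b j ∧ b j ≤ 1 := fun j hj => hb j (Finset.mem_insert_of_mem hj)
    have h1 := ih hb'
    have h2 := PW_01 s v b hb' l q
    have hbi := hb i (Finset.mem_insert_self i s)
    have h3 : PW (insert i s) v b l q =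
        (if (l : ℤ) ∣ fv q (v i) then b i else 1) * PW s v b l q := by
      unfold PW
      rw [Finset.prod_insert hi]
    rw [h3, Finset.sum_insert hi]
    by_cases hc : (l : ℤ) ∣ fv q (v i)
    · rw [if_pos hc, if_pos hc]
      nlinarith [mul_nonneg hbi.1 h2.1]
    · rw [if_neg hc, if_neg hc]
      linarith

theorem nl7_mean {ι : Type} (s : Finset ι) (v : ι → ℤ × ℤ) (b : ι → ℝ)
    (hb : ∀ i ∈ s, 0 ≤ b i ∧ b i ≤ 1) {l : ℕ} (hl : l.Prime) (h4 : Sp l) (a : ℤ × ℤ)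
    (ha : ¬ ((l : ℤ) ∣ a.1 ∧ (l : ℤ) ∣ a.2)) (hv : ∀ i ∈ s, ¬ (l : ℤ) ∣ dt a (v i)) :
    2 / ((l : ℝ) + 1) * (1 - (s.card : ℝ) / l) ≤
      MV l (fun q => (if (l : ℤ) ∣ fv q a then (1 : ℝ) else 0) * PW s v b l q) := by
  have hpos : (0 : ℝ) < l := by exact_mod_cast hl.pos
  have h1 : MV l (fun q => (if (l : ℤ) ∣ fv q a then (1 : ℝ) else 0) -
      ∑ i ∈ s, (if (l : ℤ) ∣ fv q a ∧ (l : ℤ) ∣ fv q (v i) then (1 : ℝ) else 0)) ≤
      MV l (fun q => (if (l : ℤ) ∣ fv q a then (1 : ℝ) else 0) * PW s v b l q) := by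
    apply MV_mono'
    intro q
    by_cases hc : (l : ℤ) ∣ fv q a
    · have h2 := nl7_ind s v b hb l q
      have h3 : ∑ i ∈ s, (if (l : ℤ) ∣ fv q a ∧ (l : ℤ) ∣ fv q (v i) then (1 : ℝ) else 0) =
          ∑ i ∈ s, (if (l : ℤ) ∣ fv q (v i) then (1 : ℝ) else 0) := by
        apply Finset.sum_congr rfl
        intro i _
        by_cases hd : (l : ℤ) ∣ fv q (v i)
        · rw [if_pos ⟨hc, hd⟩, if_pos hd]
        · rw [if_neg (fun h => hd h.2), if_neg hd]
      rw [if_pos hc, h3]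
      linarith
    · have h3 : ∑ i ∈ s, (if (l : ℤ) ∣ fv q a ∧ (l : ℤ) ∣ fv q (v i) then (1 : ℝ) else 0) = 0 := by
        apply Finset.sum_eq_zero
        intro i _
        rw [if_neg (fun h => hc h.1)]
      rw [if_neg hc, h3]
      linarith
  rw [MV_sub', MV_sum', MV_line hl h4 a ha] at h1
  have h5 : ∑ i ∈ s, MV l (fun q =>
      if (l : ℤ) ∣ fv q a ∧ (l : ℤ) ∣ fv q (v i) then (1 : ℝ) else 0) =
      ∑ i ∈ s, 2 / ((l : ℝ) * (l + 1)) :=
    Finset.sum_congr rfl (fun i hi => MV_line2 hl h4 a (v i) (hv i hi))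
  rw [h5, Finset.sum_const, nsmul_eq_mul] at h1
  refine le_trans (le_of_eq ?_) h1
  field_simp

omit [Cst] in
theorem nl7_dvd {u : Vec k} {i l : ℕ} (h1 : 1 ≤ i) (h2 : i ≤ k) (h : l ∣ dE u i) :
    l ∣ Dall u :=
  h.trans (Finset.dvd_prod_of_mem _ (Finset.mem_Icc.2 ⟨h1, h2⟩))

omit [Cst] in
theorem nl7_ends {u : Vec k} {l : ℕ} (hk : 1 ≤ k) (hl : l.Prime) (h : ¬ l ∣ Dall u) :
    ¬ l ∣ (fE u).1 * (fE u).2 := by
  intro h1
  rcases (hl.dvd_mul).1 h1 with h2 | h2
  · exact h (nl7_dvd le_rfl hk h2)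
  · exact h (nl7_dvd hk le_rfl h2)

theorem nl7_uniq {p : Prm k} {X : ℕ} {u : Vec k} (hu : GP p X u) {l i j : ℕ} (hl : l.Prime)
    (hi1 : 1 ≤ i) (hik : i ≤ k) (hj1 : 1 ≤ j) (hjk : j ≤ k) (h1 : l ∣ dE u i)
    (h2 : l ∣ dE u j) : i = j := by
  by_contra hne
  rcases lt_or_gt_of_ne hne with h | h
  · have := Nat.dvd_gcd h1 h2
    rw [(hu.cop i j hi1 h hjk)] at this
    exact hl.one_lt.ne' (Nat.dvd_one.1 this)
  · have := Nat.dvd_gcd h2 h1
    rw [(hu.cop j i hj1 h hik)] at this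
    exact hl.one_lt.ne' (Nat.dvd_one.1 this)

theorem nl7_prim {p : Prm k} {X : ℕ} {u : Vec k} (hu : GP p X u) (hk : 2 ≤ k) {l : ℕ}
    (hl : l.Prime) (j : Fin (k + 1)) : ¬ ((l : ℤ) ∣ (u j).1 ∧ (l : ℤ) ∣ (u j).2) := by
  intro h
  have h1 := hu.prim hk j
  have h2 : IsUnit (l : ℤ) := h1.isUnit_of_dvd' h.1 h.2
  have h3 := Int.isUnit_iff.1 h2
  have h4 := hl.one_lt
  omega

/-- the local factor at a prime of an interior `d_j` -/
theorem nl7_Lf (hk4 : 4 ≤ k) (p : Prm k) (X : ℕ) {u : Vec k} (hu : GP p X u) {l : ℕ}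
    (hl : l.Prime) (h : l ∣ Dint u) :
    ∃ (a : ℤ × ℤ) (T : Finset (Fin (k + 1))), ¬ ((l : ℤ) ∣ a.1 ∧ (l : ℤ) ∣ a.2) ∧
      (∀ j ∈ T, ¬ (l : ℤ) ∣ dt a (u j)) ∧ ¬ (l : ℤ) ∣ dt a (1, 0) ∧ ¬ (l : ℤ) ∣ dt a z ∧
      (∀ q, Lf p X u l q = (if (l : ℝ) ≤ p.Y X then 1 / 4 else 1) *
        ((if (l : ℤ) ∣ fv q a then (1 : ℝ) else 0) *
          PW T u (fun j => wyV k (PP X) (p.Y X) j.val l) l q)) ∧
      ¬ l ∣ (fE u).1 * (fE u).2 := by
  classical
  have h1 : ∃ i ∈ Icc 2 (k - 1), l ∣ dE u i := (hl.prime.dvd_finsetProd_iff _).1 h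
  obtain ⟨i, hi, hli⟩ := h1
  rw [Finset.mem_Icc] at hi
  have hik : i ≤ k := by omega
  have hi1 : 1 ≤ i := by omega
  -- the edge
  set j0 : Fin k := ⟨i - 1, by omega⟩ with hj0
  have hj0v : j0.val + 1 = i := by
    rw [hj0]; simp only; omega
  have hlj : l ∣ dE u (j0.val + 1) := by rw [hj0v]; exact hli
  have huniq : ∀ j : Fin k, l ∣ dE u (j.val + 1) → j = j0 := by
    intro j hj
    have := nl7_uniq hu hl (i := j.val + 1) (j := j0.val + 1) (by omega)
      (by have := j.isLt; omega) (by omega) (by have := j0.isLt; omega) hj hlj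
    apply Fin.ext
    omega
  have hnice : ∀ j : Fin (k + 1), j ≠ j0.castSucc → j ≠ j0.succ →
      ¬ (l : ℤ) ∣ dt (u j0.castSucc) (u j) := by
    intro j h2 h3 h4
    have h5 := hu.nice j0 j h2 h3
    have h6 : l ∣ (dt (u j0.castSucc) (u j)).natAbs := Int.natCast_dvd.1 h4
    have h7 := Nat.dvd_gcd hlj h6
    rw [h5] at h7
    exact hl.one_lt.ne' (Nat.dvd_one.1 h7)
  refine ⟨u j0.castSucc, univ.filter (fun j : Fin (k + 1) => ¬ l ∣ dE u j.val * dE u (j.val + 1)),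
    nl7_prim hu (by omega) hl _, ?_, ?_, ?_, ?_, ?_⟩
  · intro j hj
    rw [Finset.mem_filter] at hj
    apply hnice
    · intro he
      apply hj.2
      rw [he]
      exact Dvd.dvd.mul_left hlj _
    · intro he
      apply hj.2
      rw [he]
      exact Dvd.dvd.mul_right (by simpa using hlj) _
  · have := hnice 0 (by
      intro he
      have := congrArg Fin.val he
      simp only [Fin.val_zero, Fin.val_castSucc] at this
      omega) (by
      intro he
      have := congrArg Fin.val he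
      simp only [Fin.val_zero, Fin.val_succ] at this
      omega)
    rwa [hu.first] at this
  · have := hnice (Fin.last k) (by
      intro he
      have := congrArg Fin.val he
      simp only [Fin.val_last, Fin.val_castSucc] at this
      omega) (by
      intro he
      have := congrArg Fin.val he
      simp only [Fin.val_last, Fin.val_succ] at this
      omega)
    rwa [hu.last] at this
  · intro q
    have hDall : l ∣ Dall u := nl7_dvd hi1 hik hli
    have hLv : Lv u l = u j0.castSucc := by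
      have hex : ∃ j : Fin k, l ∣ dE u (j.val + 1) := ⟨j0, hlj⟩
      unfold Lv
      rw [dif_pos hex, huniq _ hex.choose_spec]
    have e1 : (if l ∣ Dall u → (l : ℤ) ∣ fv q (Lv u l) then (1 : ℝ) else 0) =
        if (l : ℤ) ∣ fv q (u j0.castSucc) then (1 : ℝ) else 0 := by
      rw [hLv]
      by_cases hc : (l : ℤ) ∣ fv q (u j0.castSucc)
      · rw [if_pos (fun _ => hc), if_pos hc]
      · rw [if_neg (fun h => hc (h hDall)), if_neg hc]
    have e2 : (∏ j : Fin k, if l ∣ dE u (j.val + 1) then wdE k (p.Y X) j.val l else 1) =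
        if (l : ℝ) ≤ p.Y X then 1 / 4 else 1 := by
      rw [Finset.prod_eq_single j0]
      · rw [if_pos hlj]
        unfold wdE alE
        rw [if_neg (show ¬ (j0.val = 0 ∨ j0.val + 1 = k) by omega)]
      · intro j _ hj
        rw [if_neg (fun h => hj (huniq j h))]
      · intro h; exact absurd (Finset.mem_univ _) h
    have e3 : (∏ j : Fin (k + 1), if l ∣ dE u j.val * dE u (j.val + 1) then (1 : ℝ)
        else if (l : ℤ) ∣ fv q (u j) then wyV k (PP X) (p.Y X) j.val l else 1) =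
        PW (univ.filter (fun j : Fin (k + 1) => ¬ l ∣ dE u j.val * dE u (j.val + 1))) u
          (fun j => wyV k (PP X) (p.Y X) j.val l) l q := by
      unfold PW
      rw [Finset.prod_filter]
      apply Finset.prod_congr rfl
      intro j _
      by_cases hc : l ∣ dE u j.val * dE u (j.val + 1)
      · rw [if_pos hc, if_neg (fun h => h hc)]
      · rw [if_neg hc, if_pos hc]
    unfold Lf
    rw [e1, e2, e3]
    ring
  · intro h2
    rcases (hl.dvd_mul).1 h2 with h3 | h3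
    · have := nl7_uniq hu hl (i := 1) (j := i) le_rfl (by omega) hi1 hik h3 hli
      omega
    · have := nl7_uniq hu hl (i := k) (j := i) (by omega) le_rfl hi1 hik h3 hli
      omega

theorem nl7_vb {l : ℕ} (hl : l.Prime) (i : Bool) :
    ¬ ((l : ℤ) ∣ ((if i then ((1, 0) : ℤ × ℤ) else z)).1 ∧
      (l : ℤ) ∣ ((if i then ((1, 0) : ℤ × ℤ) else z)).2) := by
  have h1 : ¬ (l : ℤ) ∣ 1 := by
    intro h
    have := Int.le_of_dvd one_pos h
    have := hl.one_lt
    omega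
  cases i
  · intro h
    have h2 : (l : ℤ) ∣ z.1 ∧ (l : ℤ) ∣ z.2 := by simpa using h
    have h3 : IsUnit (l : ℤ) := z_cop.isUnit_of_dvd' h2.1 h2.2
    exact h1 h3.dvd
  · intro h; exact h1 (by simpa using h.1)

theorem nl7_Ev_01 (p : Prm k) (X l : ℕ) (q : ℤ × ℤ × ℤ) :
    0 ≤ Ev p X l q ∧ Ev p X l q ≤ 1 := by
  unfold Ev
  exact PW_01 _ _ _ (fun _ _ => wyV_01 _ _ _ _ _) _ _

/-- the means of the products of end and interior factors -/
theorem nl7_EE (p : Prm k) (X : ℕ) {l : ℕ} (hl : l.Prime) (h4 : Sp l) :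
    1 - 8 / (l : ℝ) ≤ MV l (fun q => Ev p X l q * Ev p X l q) := by
  have h1 := PW_ge ((univ : Finset Bool).disjSum (univ : Finset Bool))
    (Sum.elim (fun i => if i then ((1, 0) : ℤ × ℤ) else z)
      (fun i => if i then ((1, 0) : ℤ × ℤ) else z))
    (Sum.elim (fun _ => wyV k (PP X) (p.Y X) 0 l) (fun _ => wyV k (PP X) (p.Y X) 0 l))
    (by rintro (i | i) _ <;> exact wyV_01 _ _ _ _ _) hl h4
    (by rintro (i | i) _ <;> exact nl7_vb hl i)
  have h2 : (fun q => Ev p X l q * Ev p X l q) =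
      PW ((univ : Finset Bool).disjSum (univ : Finset Bool))
        (Sum.elim (fun i => if i then ((1, 0) : ℤ × ℤ) else z)
          (fun i => if i then ((1, 0) : ℤ × ℤ) else z))
        (Sum.elim (fun _ => wyV k (PP X) (p.Y X) 0 l) (fun _ => wyV k (PP X) (p.Y X) 0 l)) l := by
    funext q
    unfold Ev
    rw [PW_mul]
  rw [h2]
  refine le_trans (le_of_eq ?_) h1
  rw [Finset.card_disjSum]
  simp only [Finset.card_univ, Fintype.card_bool]
  norm_num

theorem nl7_I (p : Prm k) (X : ℕ) {u : Vec k} (hu : GP p X u) (hk : 2 ≤ k) {l : ℕ}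
    (hl : l.Prime) (h4 : Sp l) :
    1 - 2 * ((k : ℝ) + 1) / (l : ℝ) ≤ MV l (Iv p X u l) := by
  have hpos : (0 : ℝ) < l := by exact_mod_cast hl.pos
  have h1 := PW_ge (ivx k) u (fun j => wyV k (PP X) (p.Y X) j.val l)
    (fun _ _ => wyV_01 _ _ _ _ _) hl h4 (fun j _ => nl7_prim hu hk hl j)
  have h2 : ((ivx k).card : ℝ) ≤ (k : ℝ) + 1 := by
    have : (ivx k).card ≤ k + 1 := by
      refine le_trans (Finset.card_le_univ _) ?_
      simp
    exact_mod_cast this
  have h3 : 2 * ((ivx k).card : ℝ) / l ≤ 2 * ((k : ℝ) + 1) / l := by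
    apply div_le_div_of_nonneg_right _ hpos.le
    linarith
  unfold Iv
  linarith

theorem nl7_EIE (p : Prm k) (X : ℕ) {u : Vec k} (hu : GP p X u) (hk : 2 ≤ k) {l : ℕ}
    (hl : l.Prime) (h4 : Sp l) :
    1 - (8 + 2 * ((k : ℝ) + 1)) / (l : ℝ) ≤
      MV l (fun q => Ev p X l q * Iv p X u l q * Ev p X l q) := by
  have hpos : (0 : ℝ) < l := by exact_mod_cast hl.pos
  have h1 := nl7_EE p X hl h4
  have h2 := nl7_I p X hu hk hl h4
  have h3 : MV l (fun q => (Ev p X l q * Ev p X l q + Iv p X u l q) - 1) ≤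
      MV l (fun q => Ev p X l q * Iv p X u l q * Ev p X l q) := by
    apply MV_mono'
    intro q
    have a1 := nl7_Ev_01 p X l q
    have a2 := Iv_01 p X u l q
    have a3 : Ev p X l q * Ev p X l q ≤ 1 := mul_le_one₀ a1.2 a1.1 a1.2
    nlinarith [mul_nonneg (sub_nonneg.2 a3) (sub_nonneg.2 a2.2)]
  have h4' : MV l (fun _ : ℤ × ℤ × ℤ => (1 : ℝ)) = 1 := MV_const' hl.pos 1
  rw [MV_sub' (fun q => Ev p X l q * Ev p X l q + Iv p X u l q) (fun _ => 1), MV_add', h4'] at h3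
  have h5 : (8 + 2 * ((k : ℝ) + 1)) / (l : ℝ) = 8 / l + 2 * ((k : ℝ) + 1) / l := by
    rw [add_div]
  rw [h5]
  have h6 : MV l (fun v => Iv p X u l v) = MV l (Iv p X u l) := rfl
  linarith

/-- the lower bound for the mean at a prime of an interior `d_j` -/
theorem nl7_low (hk4 : 4 ≤ k) (p : Prm k) (X : ℕ) {u : Vec k} (hu : GP p X u) {l : ℕ}
    (hl : l.Prime) (h4 : Sp l) (h : l ∣ Dint u) :
    2 / ((l : ℝ) + 1) * (if (l : ℝ) ≤ p.Y X then 1 / 4 else 1) * (1 - ((k : ℝ) + 3) / l) ≤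
      MV l (fun q => Lf p X u l q * Ev p X l q) := by
  classical
  have hpos : (0 : ℝ) < l := by exact_mod_cast hl.pos
  obtain ⟨a, T, ha, hT, h10, h01, hLf, -⟩ := nl7_Lf hk4 p X hu hl h
  have h1 := nl7_mean (T.disjSum (univ : Finset Bool))
    (Sum.elim u (fun i => if i then ((1, 0) : ℤ × ℤ) else z))
    (Sum.elim (fun j : Fin (k + 1) => wyV k (PP X) (p.Y X) j.val l)
      (fun _ => wyV k (PP X) (p.Y X) 0 l))
    (by rintro (i | i) _ <;> exact wyV_01 _ _ _ _ _) hl h4 a ha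
    (by
      rintro (i | i) hi
      · exact hT i (by simpa using hi)
      · cases i
        · exact h01
        · exact h10)
  have h2 : (fun q => Lf p X u l q * Ev p X l q) = fun q =>
      (if (l : ℝ) ≤ p.Y X then 1 / 4 else 1) * ((if (l : ℤ) ∣ fv q a then (1 : ℝ) else 0) *
        PW (T.disjSum (univ : Finset Bool))
          (Sum.elim u (fun i => if i then ((1, 0) : ℤ × ℤ) else z))
          (Sum.elim (fun j : Fin (k + 1) => wyV k (PP X) (p.Y X) j.val l)
            (fun _ => wyV k (PP X) (p.Y X) 0 l)) l q) := by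
    funext q
    rw [hLf q, ← PW_mul]
    unfold Ev
    ring
  rw [h2, MV_smul']
  have h3 : (0 : ℝ) ≤ (if (l : ℝ) ≤ p.Y X then 1 / 4 else 1) := by split_ifs <;> norm_num
  have h5 : ((T.disjSum (univ : Finset Bool)).card : ℝ) ≤ (k : ℝ) + 3 := by
    rw [Finset.card_disjSum]
    have : T.card ≤ k + 1 := by
      refine le_trans (Finset.card_le_univ _) ?_
      simp
    have h6 : (T.card : ℝ) ≤ (k : ℝ) + 1 := by exact_mod_cast this
    push_cast
    simp only [Finset.card_univ, Fintype.card_bool]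
    push_cast
    linarith
  have h6 : 2 / ((l : ℝ) + 1) * (1 - ((k : ℝ) + 3) / l) ≤
      2 / ((l : ℝ) + 1) * (1 - ((T.disjSum (univ : Finset Bool)).card : ℝ) / l) := by
    apply mul_le_mul_of_nonneg_left _ (by positivity)
    have := div_le_div_of_nonneg_right h5 hpos.le
    linarith
  calc 2 / ((l : ℝ) + 1) * (if (l : ℝ) ≤ p.Y X then 1 / 4 else 1) * (1 - ((k : ℝ) + 3) / l)
      = (if (l : ℝ) ≤ p.Y X then 1 / 4 else 1) *
        (2 / ((l : ℝ) + 1) * (1 - ((k : ℝ) + 3) / l)) := by ring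
    _ ≤ _ := mul_le_mul_of_nonneg_left (h6.trans h1) h3

/-- the upper bound for the mean at a prime of an interior `d_j` -/
theorem nl7_upp (hk4 : 4 ≤ k) (p : Prm k) (X : ℕ) {u : Vec k} (hu : GP p X u) {l : ℕ}
    (hl : l.Prime) (h4 : Sp l) (h : l ∣ Dint u) (g : ℤ × ℤ × ℤ → ℝ)
    (hg : ∀ q, 0 ≤ g q ∧ g q ≤ 1) :
    MV l (fun q => Lf p X u l q * g q) ≤
      2 / ((l : ℝ) + 1) * (if (l : ℝ) ≤ p.Y X then 1 / 4 else 1) := by
  obtain ⟨a, T, ha, hT, h10, h01, hLf, -⟩ := nl7_Lf hk4 p X hu hl h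
  have h3 : (0 : ℝ) ≤ (if (l : ℝ) ≤ p.Y X then 1 / 4 else 1) := by split_ifs <;> norm_num
  have h1 : MV l (fun q => Lf p X u l q * g q) ≤
      MV l (fun q => (if (l : ℝ) ≤ p.Y X then 1 / 4 else 1) *
        (if (l : ℤ) ∣ fv q a then (1 : ℝ) else 0)) := by
    apply MV_mono'
    intro q
    rw [hLf q]
    have h5 := PW_01 T u (fun j => wyV k (PP X) (p.Y X) j.val l)
      (fun _ _ => wyV_01 _ _ _ _ _) l q
    have h6 : (0 : ℝ) ≤ (if (l : ℤ) ∣ fv q a then (1 : ℝ) else 0) := by split_ifs <;> norm_num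
    have h7 : PW T u (fun j => wyV k (PP X) (p.Y X) j.val l) l q * g q ≤ 1 :=
      mul_le_one₀ h5.2 (hg q).1 (hg q).2
    calc _ = ((if (l : ℝ) ≤ p.Y X then 1 / 4 else 1) *
          (if (l : ℤ) ∣ fv q a then (1 : ℝ) else 0)) *
          (PW T u (fun j => wyV k (PP X) (p.Y X) j.val l) l q * g q) := by ring
      _ ≤ ((if (l : ℝ) ≤ p.Y X then 1 / 4 else 1) *
          (if (l : ℤ) ∣ fv q a then (1 : ℝ) else 0)) * 1 :=
          mul_le_mul_of_nonneg_left h7 (mul_nonneg h3 h6)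
      _ = _ := mul_one _
  rw [MV_smul', MV_line hl h4 a ha] at h1
  linarith

theorem nl7_gl_in {p : Prm k} {X : ℕ} {u : Vec k} {l : ℕ} (h : l ∣ Dint u) :
    gl p X u l = 2 / ((l : ℝ) + 1) * (if (l : ℝ) ≤ p.Y X then 1 / 4 else 1) := by
  unfold gl
  rw [if_pos h]

theorem nl7_gl_out {p : Prm k} {X : ℕ} {u : Vec k} {l : ℕ} (h : ¬ l ∣ Dint u)
    (h' : ¬ l ∣ Dall u) : gl p X u l = MV l (Iv p X u l) := by
  unfold gl
  rw [if_neg h, if_neg h']

omit [Cst] in
/-- the numbers -/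
theorem nl7_num {K l : ℝ} (hK : 5 ≤ K) (hl : 100 * K ^ 2 ≤ l) {x y : ℝ} (hx : 1 - 8 / l ≤ x)
    (hy : 1 - 2 * K / l ≤ y) (hx1 : x ≤ 1) (hy1 : y ≤ 1) :
    0 < x ∧ 0 < y ∧ 1 ≤ (1 + (16 + 4 * K) / l) * (x * y) := by
  have hl0 : 0 < l := by nlinarith
  have a1 : 8 / l ≤ 1 / 4 := by
    rw [div_le_div_iff₀ hl0 (by norm_num)]; nlinarith
  have a2 : 2 * K / l ≤ 1 / 4 := by
    rw [div_le_div_iff₀ hl0 (by norm_num)]; nlinarith
  have b1 : 0 ≤ 8 / l := by positivity
  have b2 : 0 ≤ 2 * K / l := by positivity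
  refine ⟨by linarith, by linarith, ?_⟩
  have h1 : 1 - (8 / l + 2 * K / l) ≤ x * y := by
    nlinarith [mul_nonneg (sub_nonneg.2 hx1) (sub_nonneg.2 hy1)]
  have h2 : (16 + 4 * K) / l = 2 * (8 / l + 2 * K / l) := by ring
  rw [h2]
  set e := 8 / l + 2 * K / l with he
  have he0 : 0 ≤ e := by positivity
  have he1 : e ≤ 1 / 2 := by linarith
  have h3 : (1 + 2 * e) * (1 - e) ≤ (1 + 2 * e) * (x * y) :=
    mul_le_mul_of_nonneg_left h1 (by linarith)
  nlinarith

theorem nl7_tl {K : ℝ} (hK : 0 ≤ K) {u u' : Vec k} {l : ℕ} (hl : 0 < l)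
    (h : l ∣ Dall u * Dall u') : K / (l : ℝ) ≤ tl K u u' l := by
  unfold tl
  rw [if_pos (Or.inl h)]
  have : 0 ≤ K / (l : ℝ) ^ 2 := by positivity
  linarith

/-- NL7 -/
theorem loc_int (hk : Even k) (hk4 : 4 ≤ k) : ∃ C : ℝ, 0 < C ∧ ∀ (p : Prm k) (X P00 : ℕ),
    pB k ≤ P00 → (P00 : ℝ) ≤ PP X → ∀ u u' : Vec k, GP p X u → GP p X u' →
    C0 u u' → ∀ l ∈ Sall p X P00 u u', l ∣ Dint u * Dint u' →
      0 < GLo p X u u' l ∧ GLo p X u u' l ≤ 1 ∧
      MV l (fun q => Lf p X u l q * Lf p X u' l q) ≤ (1 + tl C u u' l) * GLo p X u u' l ∧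
      (1 - tl C u u' l) * GLo p X u u' l ≤
        MV l (fun q => Lf p X u l q * Ef p X (fE u') l q) * gl p X u' l := by
  classical
  refine ⟨16 + 4 * ((k : ℝ) + 1), by positivity, ?_⟩
  intro p X P00 hP hPP u u' hu hu' hC l hlS hdvd
  have hk2 : 2 ≤ k := by omega
  have hD : Dint u ∣ Dall u := ⟨dE u 1 * dE u k, by rw [(hu.Dall_eq hk2).1]; ring⟩
  have hD' : Dint u' ∣ Dall u' := ⟨dE u' 1 * dE u' k, by rw [(hu'.Dall_eq hk2).1]; ring⟩
  -- `l` is prime
  have hlp : l.Prime := by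
    unfold Sall at hlS
    rcases Finset.mem_union.1 hlS with h | h
    · unfold Spr at h
      exact (Finset.mem_filter.1 h).2.1
    · exact Nat.prime_of_mem_primeFactors h
  have hall : l ∣ Dall u * Dall u' := by
    rcases (hlp.dvd_mul).1 hdvd with h | h
    · exact Dvd.dvd.mul_right (h.trans hD) _
    · exact Dvd.dvd.mul_left (h.trans hD') _
  have hl4 : Sp l ∧ PP X < (l : ℝ) := by
    rcases (hlp.dvd_mul).1 hall with h | h
    · exact hu.prime_Dall hlp h
    · exact hu'.prime_Dall hlp h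
  have hpos : (0 : ℝ) < l := by exact_mod_cast hlp.pos
  have hbig : 100 * ((k : ℝ) + 1) ^ 2 ≤ l := by
    have h0 : 100 * (k + 1) ^ 2 ≤ P00 := by
      refine le_trans ?_ hP
      unfold pB
      omega
    have h1 : (100 * ((k : ℝ) + 1) ^ 2) ≤ (P00 : ℝ) := by exact_mod_cast h0
    linarith [hl4.2]
  have hK : (5 : ℝ) ≤ (k : ℝ) + 1 := by
    have : (4 : ℝ) ≤ (k : ℝ) := by exact_mod_cast hk4
    linarith
  have htl := nl7_tl (K := 16 + 4 * ((k : ℝ) + 1)) (by positivity) hlp.pos hall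
  set t := tl (16 + 4 * ((k : ℝ) + 1)) u u' l with ht
  set al : ℝ := (if (l : ℝ) ≤ p.Y X then 1 / 4 else 1) with hal
  have hal0 : 0 < al := by rw [hal]; split_ifs <;> norm_num
  have hal1 : al ≤ 1 := by rw [hal]; split_ifs <;> norm_num
  have h2l : 0 < 2 / ((l : ℝ) + 1) := by positivity
  have h2l1 : 2 / ((l : ℝ) + 1) ≤ 1 := by
    rw [div_le_one (by positivity)]
    nlinarith
  have hg0 : 0 < 2 / ((l : ℝ) + 1) * al := by positivity
  have hg1 : 2 / ((l : ℝ) + 1) * al ≤ 1 := mul_le_one₀ h2l1 hal0.le hal1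
  -- the mean of the square of the end factor
  set E := MV l (fun q => Ev p X l q * Ev p X l q) with hE
  have hE1 := nl7_EE p X hlp hl4.1
  have hE2 : E ≤ 1 := by
    rw [hE]
    apply (MV_01 _).2
    intro q
    have a1 := nl7_Ev_01 p X l q
    exact ⟨mul_nonneg a1.1 a1.1, mul_le_one₀ a1.2 a1.1 a1.2⟩
  have hC1 : ∀ {v v' : Vec k}, Nat.Coprime (Dint v) (Dall v') → l ∣ Dint v → ¬ l ∣ Dall v' := by
    intro v v' h1 h2 h3
    have := Nat.dvd_gcd h2 h3
    rw [h1] at this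
    exact hlp.one_lt.ne' (Nat.dvd_one.1 this)
  have hIv : ∀ v : Vec k, MV l (Iv p X v l) ≤ 1 := fun v => (MV_01 (fun q => Iv_01 p X v l q)).2
  rcases (hlp.dvd_mul).1 hdvd with h | h
  · -- `l ∣ Dint u`
    have hn : ¬ l ∣ Dall u' := hC1 hC.1 h
    have hn' : ¬ l ∣ Dint u' := fun h1 => hn (h1.trans hD')
    obtain ⟨a, T, ha, hT, h10, h01, hLf, hfe⟩ := nl7_Lf hk4 p X hu hlp h
    have hI1 := nl7_I p X hu' hk2 hlp hl4.1
    have hI2 := hIv u'
    obtain ⟨hx, hy, hxy⟩ := nl7_num hK hbig hE1 hI1 hE2 hI2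
    have hG : GLo p X u u' l = E * (2 / ((l : ℝ) + 1) * al * MV l (Iv p X u' l)) := by
      unfold GLo
      rw [nl7_gl_in h, nl7_gl_out hn' hn]
      have : (fun q => Ef p X (fE u) l q * Ef p X (fE u') l q) =
          fun q => Ev p X l q * Ev p X l q := by
        funext q
        rw [Ef_out p X (fE u) hfe hlp q, Ef_out p X (fE u') (nl7_ends (by omega) hlp hn) hlp q]
      rw [this]
    have hG2 : GLo p X u u' l ≤ 2 / ((l : ℝ) + 1) * al * MV l (Iv p X u' l) := by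
      rw [hG]
      have : 0 ≤ 2 / ((l : ℝ) + 1) * al * MV l (Iv p X u' l) := by positivity
      nlinarith
    have hG0 : 0 < GLo p X u u' l := by rw [hG]; positivity
    refine ⟨hG0, ?_, ?_, ?_⟩
    · refine hG2.trans ?_
      exact mul_le_one₀ hg1 hy.le hI2
    · have h5 := nl7_upp hk4 p X hu hlp hl4.1 h (fun q => Lf p X u' l q)
        (fun q => Lf_01 p X u' l q)
      refine h5.trans ?_
      rw [hG]
      have h6 : 1 ≤ (1 + t) * (E * MV l (Iv p X u' l)) := by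
        refine hxy.trans ?_
        apply mul_le_mul_of_nonneg_right _ (by positivity)
        linarith
      calc 2 / ((l : ℝ) + 1) * al = 2 / ((l : ℝ) + 1) * al * 1 := (mul_one _).symm
        _ ≤ 2 / ((l : ℝ) + 1) * al * ((1 + t) * (E * MV l (Iv p X u' l))) :=
          mul_le_mul_of_nonneg_left h6 hg0.le
        _ = _ := by ring
    · have h5 := nl7_low hk4 p X hu hlp hl4.1 h
      have h7 : (fun q => Lf p X u l q * Ef p X (fE u') l q) =
          fun q => Lf p X u l q * Ev p X l q := by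
        funext q
        rw [Ef_out p X (fE u') (nl7_ends (by omega) hlp hn) hlp q]
      rw [h7, nl7_gl_out hn' hn]
      have h8 : ((k : ℝ) + 3) / l ≤ 1 := by
        rw [div_le_one hpos]; nlinarith
      have h9 : ((k : ℝ) + 3) / l ≤ t := by
        refine le_trans ?_ htl
        apply div_le_div_of_nonneg_right _ hpos.le
        linarith
      calc (1 - t) * GLo p X u u' l ≤ (1 - ((k : ℝ) + 3) / l) * GLo p X u u' l :=
            mul_le_mul_of_nonneg_right (by linarith) hG0.le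
        _ ≤ (1 - ((k : ℝ) + 3) / l) * (2 / ((l : ℝ) + 1) * al * MV l (Iv p X u' l)) :=
            mul_le_mul_of_nonneg_left hG2 (by linarith)
        _ = (2 / ((l : ℝ) + 1) * al * (1 - ((k : ℝ) + 3) / l)) * MV l (Iv p X u' l) := by ring
        _ ≤ _ := mul_le_mul_of_nonneg_right h5 hy.le
  · -- `l ∣ Dint u'`
    have hn : ¬ l ∣ Dall u := hC1 hC.2.symm h
    have hn' : ¬ l ∣ Dint u := fun h1 => hn (h1.trans hD)
    obtain ⟨a, T, ha, hT, h10, h01, hLf, hfe⟩ := nl7_Lf hk4 p X hu' hlp h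
    have hI1 := nl7_I p X hu hk2 hlp hl4.1
    have hI2 := hIv u
    obtain ⟨hx, hy, hxy⟩ := nl7_num hK hbig hE1 hI1 hE2 hI2
    have hG : GLo p X u u' l = E * (MV l (Iv p X u l) * (2 / ((l : ℝ) + 1) * al)) := by
      unfold GLo
      rw [nl7_gl_in h, nl7_gl_out hn' hn]
      have : (fun q => Ef p X (fE u) l q * Ef p X (fE u') l q) =
          fun q => Ev p X l q * Ev p X l q := by
        funext q
        rw [Ef_out p X (fE u') hfe hlp q, Ef_out p X (fE u) (nl7_ends (by omega) hlp hn) hlp q]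
      rw [this]
    have hG0 : 0 < GLo p X u u' l := by rw [hG]; positivity
    have hG2 : GLo p X u u' l ≤ 2 / ((l : ℝ) + 1) * al := by
      rw [hG]
      have h1 : E * MV l (Iv p X u l) ≤ 1 := mul_le_one₀ hE2 hy.le hI2
      calc E * (MV l (Iv p X u l) * (2 / ((l : ℝ) + 1) * al)) =
          (E * MV l (Iv p X u l)) * (2 / ((l : ℝ) + 1) * al) := by ring
        _ ≤ 1 * (2 / ((l : ℝ) + 1) * al) := mul_le_mul_of_nonneg_right h1 hg0.le
        _ = _ := one_mul _
    refine ⟨hG0, hG2.trans hg1, ?_, ?_⟩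
    · have h5 := nl7_upp hk4 p X hu' hlp hl4.1 h (fun q => Lf p X u l q)
        (fun q => Lf_01 p X u l q)
      have h5' : (fun q => Lf p X u l q * Lf p X u' l q) =
          fun q => Lf p X u' l q * Lf p X u l q := by funext q; ring
      rw [h5']
      refine h5.trans ?_
      rw [hG]
      have h6 : 1 ≤ (1 + t) * (E * MV l (Iv p X u l)) := by
        refine hxy.trans ?_
        apply mul_le_mul_of_nonneg_right _ (by positivity)
        linarith
      calc 2 / ((l : ℝ) + 1) * al = 2 / ((l : ℝ) + 1) * al * 1 := (mul_one _).symm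
        _ ≤ 2 / ((l : ℝ) + 1) * al * ((1 + t) * (E * MV l (Iv p X u l))) :=
          mul_le_mul_of_nonneg_left h6 hg0.le
        _ = _ := by ring
    · have h7 : (fun q => Lf p X u l q * Ef p X (fE u') l q) =
          fun q => Ev p X l q * Iv p X u l q * Ev p X l q := by
        funext q
        rw [Ef_out p X (fE u') hfe hlp q,
          Lf_out' hk hk4 p X hu hlp hl4.1.ndvd hn q]
      rw [h7, nl7_gl_in h]
      have h8 := nl7_EIE p X hu hk2 hlp hl4.1
      have h9 : (8 + 2 * ((k : ℝ) + 1)) / l ≤ t := by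
        refine le_trans ?_ htl
        apply div_le_div_of_nonneg_right _ hpos.le
        linarith
      calc (1 - t) * GLo p X u u' l ≤ (1 - (8 + 2 * ((k : ℝ) + 1)) / l) * GLo p X u u' l :=
            mul_le_mul_of_nonneg_right (by linarith) hG0.le
        _ ≤ (1 - (8 + 2 * ((k : ℝ) + 1)) / l) * (2 / ((l : ℝ) + 1) * al) := by
            apply mul_le_mul_of_nonneg_left hG2
            have : (8 + 2 * ((k : ℝ) + 1)) / l ≤ 1 := by
              rw [div_le_one hpos]; nlinarith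
            linarith
        _ ≤ _ := mul_le_mul_of_nonneg_right h8 hg0.le

end Pool.Agent.AQ.NC
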