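import Pool.Agent.Lib_helper8.AQ.NCDefs
import Pool.Agent.Lib_helper88.AQN.NA2

set_option autoImplicit false

namespace Pool.Agent.AQ.NC

open Finset Pool.Agent.PENT Pool.Agent.PENT.EQ

variable [Cst] {k : ℕ}

/-! ### `cm` -/

theorem na5_cm_eq (g : ℕ → ℝ) (m : ℕ) (B : Finset ℕ) (hB : m.primeFactors ⊆ B) :
    cm g m = ∏ l ∈ B, g l ^ m.factorization l := by
  unfold cm
  exact Finsupp.prod_of_support_subset _ (by rw [Nat.support_factorization]; exact hB) _
    (fun i _ => pow_zero _)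

theorem na5_cm_01 {g : ℕ → ℝ} (hg : ∀ l, 0 ≤ g l ∧ g l ≤ 1) (m : ℕ) :
    0 ≤ cm g m ∧ cm g m ≤ 1 := by
  rw [na5_cm_eq g m _ subset_rfl]
  exact ⟨prod_nonneg fun l _ => pow_nonneg (hg l).1 _,
    prod_le_one (fun l _ => pow_nonneg (hg l).1 _) fun l _ => pow_le_one₀ (hg l).1 (hg l).2⟩

/-! ### the weights -/

theorem na5_wd01 (k : ℕ) (Y : ℝ) (j l : ℕ) : 0 ≤ wdE k Y j l ∧ wdE k Y j l ≤ 1 := by
  unfold wdE alE
  split_ifs <;> norm_num

theorem na5_wy01 (k : ℕ) (P Y : ℝ) (j l : ℕ) : 0 ≤ wyV k P Y j l ∧ wyV k P Y j l ≤ 1 := by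
  unfold wyV boV beV
  split_ifs <;> norm_num

/-- the true local factor -/
noncomputable def na5_T (p : Prm k) (X : ℕ) (q : ℤ × ℤ × ℤ) (u : Vec k) (l : ℕ) : ℝ :=
  (∏ j : Fin k, wdE k (p.Y X) j.val l ^ (dE u (j.val + 1)).factorization l) *
    ∏ j : Fin (k + 1), wyV k (PP X) (p.Y X) j.val l ^ (yv q u j).factorization l

theorem na5_T01 (p : Prm k) (X : ℕ) (q : ℤ × ℤ × ℤ) (u : Vec k) (l : ℕ) :
    0 ≤ na5_T p X q u l ∧ na5_T p X q u l ≤ 1 := by
  have h1 : 0 ≤ ∏ j : Fin k, wdE k (p.Y X) j.val l ^ (dE u (j.val + 1)).factorization l :=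
    prod_nonneg fun j _ => pow_nonneg (na5_wd01 _ _ _ _).1 _
  have h2 : ∏ j : Fin k, wdE k (p.Y X) j.val l ^ (dE u (j.val + 1)).factorization l ≤ 1 :=
    prod_le_one (fun j _ => pow_nonneg (na5_wd01 _ _ _ _).1 _) fun j _ =>
      pow_le_one₀ (na5_wd01 _ _ _ _).1 (na5_wd01 _ _ _ _).2
  have h3 : 0 ≤ ∏ j : Fin (k + 1), wyV k (PP X) (p.Y X) j.val l ^ (yv q u j).factorization l :=
    prod_nonneg fun j _ => pow_nonneg (na5_wy01 _ _ _ _ _).1 _
  have h4 : ∏ j : Fin (k + 1), wyV k (PP X) (p.Y X) j.val l ^ (yv q u j).factorization l ≤ 1 :=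
    prod_le_one (fun j _ => pow_nonneg (na5_wy01 _ _ _ _ _).1 _) fun j _ =>
      pow_le_one₀ (na5_wy01 _ _ _ _ _).1 (na5_wy01 _ _ _ _ _).2
  exact ⟨mul_nonneg h1 h3, mul_le_one₀ h2 h3 h4⟩

/-- all primes -/
noncomputable def na5_B (q : ℤ × ℤ × ℤ) (u : Vec k) : Finset ℕ :=
  (univ : Finset (Fin k)).biUnion (fun j => (dE u (j.val + 1)).primeFactors) ∪
    (univ : Finset (Fin (k + 1))).biUnion (fun j => (yv q u j).primeFactors)

theorem na5_B_prime {q : ℤ × ℤ × ℤ} {u : Vec k} {l : ℕ} (h : l ∈ na5_B q u) : l.Prime := by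
  unfold na5_B at h
  rw [mem_union, mem_biUnion, mem_biUnion] at h
  rcases h with ⟨j, _, h⟩ | ⟨j, _, h⟩
  · exact Nat.prime_of_mem_primeFactors h
  · exact Nat.prime_of_mem_primeFactors h

/-- the product formula -/
theorem na5_W_eq (p : Prm k) (X : ℕ) (q : ℤ × ℤ × ℤ) (u : Vec k) (hG : GD q u) (B : Finset ℕ)
    (hB : na5_B q u ⊆ B) : W p X q u = ∏ l ∈ B, na5_T p X q u l := by
  unfold W
  rw [if_pos hG]
  unfold alw yw na5_T
  rw [prod_mul_distrib, prod_comm, prod_comm (s := B)]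
  congr 1
  · refine prod_congr rfl fun j _ => na5_cm_eq _ _ _ (subset_trans ?_ hB)
    unfold na5_B
    exact subset_trans (subset_biUnion_of_mem (fun j : Fin k => (dE u (j.val + 1)).primeFactors)
      (mem_univ j)) subset_union_left
  · refine prod_congr rfl fun j _ => na5_cm_eq _ _ _ (subset_trans ?_ hB)
    unfold na5_B
    exact subset_trans (subset_biUnion_of_mem (fun j : Fin (k + 1) => (yv q u j).primeFactors)
      (mem_univ j)) subset_union_right

/-! ### the determinants -/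

theorem na5_dE_zero (u : Vec k) : dE u 0 = 1 := by
  unfold dE
  rw [dif_neg]
  omega

theorem na5_dE_last (u : Vec k) : dE u (k + 1) = 1 := by
  unfold dE
  rw [dif_neg]
  omega

theorem na5_dE_sq {p : Prm k} {X : ℕ} {u : Vec k} (hu : GP p X u) (i : ℕ) : Squarefree (dE u i) := by
  by_cases h : 1 ≤ i ∧ i ≤ k
  · exact (hu.dp i h.1 h.2).1
  · unfold dE
    rw [dif_neg h]
    exact squarefree_one

theorem na5_dE_ne {p : Prm k} {X : ℕ} {u : Vec k} (hu : GP p X u) (i : ℕ) : dE u i ≠ 0 :=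
  (na5_dE_sq hu i).ne_zero

theorem na5_dE_dvd {u : Vec k} {i l : ℕ} (hl : l.Prime) (h : l ∣ dE u i) :
    (1 ≤ i ∧ i ≤ k) ∧ l ∣ Dall u := by
  have hi : 1 ≤ i ∧ i ≤ k := by
    by_contra hc
    unfold dE at h
    rw [dif_neg hc] at h
    exact hl.one_lt.ne' (Nat.dvd_one.1 h)
  exact ⟨hi, h.trans (dvd_prod_of_mem _ (mem_Icc.2 hi))⟩

theorem na5_cop {p : Prm k} {X : ℕ} {u : Vec k} (hu : GP p X u) (j : ℕ) :
    Nat.Coprime (dE u j) (dE u (j + 1)) := by
  by_cases h : 1 ≤ j ∧ j + 1 ≤ k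
  · exact hu.cop j (j + 1) h.1 (by omega) h.2
  · by_cases h0 : j = 0
    · rw [h0, na5_dE_zero]
      exact Nat.coprime_one_left _
    · have h1 : dE u (j + 1) = 1 := by
        unfold dE
        rw [dif_neg]
        omega
      rw [h1]
      exact Nat.coprime_one_right _

theorem na5_dvd1 {q : ℤ × ℤ × ℤ} {u : Vec k} (hG : GD q u) (j : Fin (k + 1)) :
    dE u j.val ∣ (fv q (u j)).natAbs := by
  rw [← Int.natCast_dvd_natCast, Int.dvd_natAbs]
  by_cases h0 : j.val = 0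
  · rw [h0, na5_dE_zero]
    simp
  · have h1 := (hG ⟨j.val - 1, by have := j.2; omega⟩).2
    have h2 : (⟨j.val - 1, by have := j.2; omega⟩ : Fin k).succ = j := by
      ext
      simp
      omega
    rw [h2] at h1
    have h3 : j.val - 1 + 1 = j.val := by omega
    simp only [h3] at h1
    exact h1

theorem na5_dvd2 {q : ℤ × ℤ × ℤ} {u : Vec k} (hG : GD q u) (j : Fin (k + 1)) :
    dE u (j.val + 1) ∣ (fv q (u j)).natAbs := by
  rw [← Int.natCast_dvd_natCast, Int.dvd_natAbs]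
  by_cases h0 : j.val = k
  · rw [h0, na5_dE_last]
    simp
  · have h1 := (hG ⟨j.val, by have := j.2; omega⟩).1
    exact h1

theorem na5_dvd {p : Prm k} {X : ℕ} {q : ℤ × ℤ × ℤ} {u : Vec k} (hu : GP p X u) (hG : GD q u)
    (j : Fin (k + 1)) : dE u j.val * dE u (j.val + 1) ∣ (fv q (u j)).natAbs :=
  Nat.Coprime.mul_dvd_of_dvd_of_dvd (na5_cop hu j.val) (na5_dvd1 hG j) (na5_dvd2 hG j)

theorem na5_yv {p : Prm k} {X : ℕ} {q : ℤ × ℤ × ℤ} {u : Vec k} (hu : GP p X u) (hG : GD q u)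
    (j : Fin (k + 1)) :
    dE u j.val * dE u (j.val + 1) * yv q u j = (fv q (u j)).natAbs := by
  unfold yv
  exact Nat.mul_div_cancel' (na5_dvd hu hG j)

theorem na5_fv_ne {p : Prm k} {X : ℕ} {q : ℤ × ℤ × ℤ} {u : Vec k} (hk : 2 ≤ k) (hu : GP p X u)
    (hq : q.1 * q.2.2 - q.2.1 ^ 2 = D) (j : Fin (k + 1)) : fv q (u j) ≠ 0 := by
  intro h
  have h1 := hu.prim hk j
  have h2 : (q.1 * (u j).1 + q.2.1 * (u j).2) ^ 2 + D * (u j).2 ^ 2 = q.1 * fv q (u j) := by
    unfold fv qf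
    linear_combination (-(u j).2 ^ 2) * hq
  rw [h, mul_zero] at h2
  have h3 : (u j).2 = 0 := by
    by_contra h3
    have h7 : (u j).2 ^ 2 ∣ (q.1 * (u j).1 + q.2.1 * (u j).2) ^ 2 :=
      ⟨-D, by linear_combination h2⟩
    obtain ⟨t, ht⟩ := (Int.pow_dvd_pow_iff two_ne_zero).1 h7
    apply D_ns
    refine ⟨t, ?_⟩
    rw [ht] at h2
    have h8 : (u j).2 ^ 2 * (-D) = (u j).2 ^ 2 * (t * t) := by linear_combination -h2
    exact mul_left_cancel₀ (pow_ne_zero 2 h3) h8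
  have h4 : q.1 * (u j).1 = 0 := by
    rw [h3] at h2
    have h7 : (q.1 * (u j).1) ^ 2 = 0 := by linear_combination h2
    exact pow_eq_zero_iff (two_ne_zero) |>.1 h7
  have h5 : q.1 ≠ 0 := by
    intro h5
    rw [h5] at hq
    apply D_ns
    exact ⟨q.2.1, by rw [← hq]; ring⟩
  have h6 : (u j).1 = 0 := by
    rcases mul_eq_zero.1 h4 with h | h
    · exact absurd h h5
    · exact h
  rw [h3, h6] at h1
  obtain ⟨a, b, hab⟩ := h1
  simp at hab

theorem na5_yv_ne {p : Prm k} {X : ℕ} {q : ℤ × ℤ × ℤ} {u : Vec k} (hk : 2 ≤ k) (hu : GP p X u)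
    (hG : GD q u) (hq : q.1 * q.2.2 - q.2.1 ^ 2 = D) (j : Fin (k + 1)) : yv q u j ≠ 0 := by
  intro h
  have h1 := na5_yv hu hG j
  rw [h, mul_zero] at h1
  exact na5_fv_ne hk hu hq j (Int.natAbs_eq_zero.1 h1.symm)

/-- the exponents of a prime that does not divide the two determinants -/
theorem na5_fac {p : Prm k} {X : ℕ} {q : ℤ × ℤ × ℤ} {u : Vec k} (hk : 2 ≤ k) (hu : GP p X u)
    (hG : GD q u) (hq : q.1 * q.2.2 - q.2.1 ^ 2 = D) (j : Fin (k + 1)) (l : ℕ) :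
    (dE u j.val * dE u (j.val + 1)).factorization l + (yv q u j).factorization l =
      (fv q (u j)).natAbs.factorization l := by
  rw [← na5_yv hu hG j, Nat.factorization_mul
    (mul_ne_zero (na5_dE_ne hu _) (na5_dE_ne hu _)) (na5_yv_ne hk hu hG hq j)]
  rfl

theorem na5_T_le {p : Prm k} {X : ℕ} {q : ℤ × ℤ × ℤ} {u : Vec k} (hk : 2 ≤ k) (hu : GP p X u)
    (hG : GD q u) (hq : q.1 * q.2.2 - q.2.1 ^ 2 = D) {l : ℕ} (hl : l.Prime) :
    na5_T p X q u l ≤ Lf p X u l q := by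
  classical
  unfold na5_T Lf
  have h0 : l ∣ Dall u → (l : ℤ) ∣ fv q (Lv u l) := by
    intro h
    unfold Dall at h
    obtain ⟨i, hi, hi2⟩ := (Prime.dvd_finsetProd_iff hl.prime _).1 h
    rw [mem_Icc] at hi
    have h1 : ∃ j : Fin k, l ∣ dE u (j.val + 1) := by
      refine ⟨⟨i - 1, by omega⟩, ?_⟩
      have h3 : i - 1 + 1 = i := by omega
      simp only [h3]
      exact hi2
    unfold Lv
    rw [dif_pos h1]
    exact (Int.natCast_dvd_natCast.2 h1.choose_spec).trans (hG h1.choose).1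
  rw [if_pos h0, one_mul]
  refine mul_le_mul ?_ ?_ (prod_nonneg fun j _ => pow_nonneg (na5_wy01 _ _ _ _ _).1 _) ?_
  · refine prod_le_prod (fun j _ => pow_nonneg (na5_wd01 _ _ _ _).1 _) fun j _ => ?_
    split_ifs with h
    · have h1 : 1 ≤ (dE u (j.val + 1)).factorization l :=
        (hl.dvd_iff_one_le_factorization (na5_dE_ne hu _)).1 h
      exact pow_le_of_le_one (na5_wd01 _ _ _ _).1 (na5_wd01 _ _ _ _).2 (by omega)
    · exact pow_le_one₀ (na5_wd01 _ _ _ _).1 (na5_wd01 _ _ _ _).2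
  · refine prod_le_prod (fun j _ => pow_nonneg (na5_wy01 _ _ _ _ _).1 _) fun j _ => ?_
    split_ifs with h h1
    · exact pow_le_one₀ (na5_wy01 _ _ _ _ _).1 (na5_wy01 _ _ _ _ _).2
    · have h2 := na5_fac hk hu hG hq j l
      rw [Nat.factorization_eq_zero_of_not_dvd h, zero_add] at h2
      have h3 : 1 ≤ (fv q (u j)).natAbs.factorization l := by
        refine (hl.dvd_iff_one_le_factorization (Int.natAbs_ne_zero.2 (na5_fv_ne hk hu hq j))).1 ?_
        rw [← Int.natCast_dvd_natCast, Int.dvd_natAbs]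
        exact h1
      exact pow_le_of_le_one (na5_wy01 _ _ _ _ _).1 (na5_wy01 _ _ _ _ _).2 (by omega)
    · exact pow_le_one₀ (na5_wy01 _ _ _ _ _).1 (na5_wy01 _ _ _ _ _).2
  · refine prod_nonneg fun j _ => ?_
    split_ifs
    · exact (na5_wd01 _ _ _ _).1
    · exact zero_le_one

theorem na5_Lf0 (p : Prm k) (X : ℕ) (u : Vec k) (l : ℕ) (q : ℤ × ℤ × ℤ) : 0 ≤ Lf p X u l q := by
  classical
  unfold Lf
  refine mul_nonneg (mul_nonneg ?_ (prod_nonneg fun j _ => ?_)) (prod_nonneg fun j _ => ?_)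
  · split_ifs <;> norm_num
  · split_ifs
    · exact (na5_wd01 _ _ _ _).1
    · exact zero_le_one
  · split_ifs
    · exact zero_le_one
    · exact (na5_wy01 _ _ _ _ _).1
    · exact zero_le_one

/-- NA5: `W` from above.  `W = ∏ T_l` over all primes, `T_l ≤ Lf_l`, the true local factor `T_l` has
the exponents `v_l(y_j)`; `y_j` is an exact quotient (`d_(j-1)`, `d_j` are coprime divisors of
`Q(u_j)`), `Q(u_j) ≠ 0`; for `l ≤ P00`, `l = 1 mod 4`, `j` odd, `l ∣ Q(u_j)` the weight is `0`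
(`l ∤ D(u)` by `prime_Dall`) -/
theorem W_le {p : Prm k} {X P00 : ℕ} (hk : Even k) (hk2 : 4 ≤ k) (hP : (P00 : ℝ) ≤ PP X)
    {u : Vec k} (hu : GP p X u) {q : ℤ × ℤ × ℤ} (hq : q.1 * q.2.2 - q.2.1 ^ 2 = D)
    (S : Finset ℕ) (hS : ∀ l ∈ S, l.Prime ∧ P00 < l) :
    W p X q u ≤ okf P00 u q * ∏ l ∈ S, Lf p X u l q := by
  classical
  have hk' : 2 ≤ k := by omega
  have hL : 0 ≤ ∏ l ∈ S, Lf p X u l q := prod_nonneg fun l _ => na5_Lf0 p X u l q
  by_cases hG : GD q u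
  · unfold okf
    split_ifs with h
    · rw [one_mul, na5_W_eq p X q u hG (na5_B q u ∪ S) subset_union_left]
      calc ∏ l ∈ na5_B q u ∪ S, na5_T p X q u l ≤ ∏ l ∈ S, na5_T p X q u l := by
            rw [← prod_sdiff (subset_union_right : S ⊆ na5_B q u ∪ S)]
            exact mul_le_of_le_one_left (prod_nonneg fun l _ => (na5_T01 _ _ _ _ _).1)
              (prod_le_one (fun l _ => (na5_T01 _ _ _ _ _).1) fun l _ => (na5_T01 _ _ _ _ _).2)
        _ ≤ ∏ l ∈ S, Lf p X u l q :=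
            prod_le_prod (fun l _ => (na5_T01 _ _ _ _ _).1)
              fun l hl => na5_T_le hk' hu hG hq (hS l hl).1
    · rw [zero_mul]
      push Not at h
      obtain ⟨l, hsp, hlP, j, hj, hlj⟩ := h
      have hl := hsp.prime
      have hlP' : (l : ℝ) ≤ PP X := by
        have : (l : ℝ) ≤ P00 := by exact_mod_cast hlP
        linarith
      have hD : ¬ l ∣ Dall u := fun h => absurd (hu.prime_Dall hl h).2 (not_lt.2 hlP')
      have h1 : ¬ l ∣ dE u j.val * dE u (j.val + 1) := by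
        intro h
        rcases (hl.dvd_mul).1 h with h | h
        · exact hD (na5_dE_dvd hl h).2
        · exact hD (na5_dE_dvd hl h).2
      have h2 := na5_fac hk' hu hG hq j l
      rw [Nat.factorization_eq_zero_of_not_dvd h1, zero_add] at h2
      have h3 : 1 ≤ (fv q (u j)).natAbs.factorization l := by
        refine (hl.dvd_iff_one_le_factorization (Int.natAbs_ne_zero.2 (na5_fv_ne hk' hu hq j))).1 ?_
        rw [← Int.natCast_dvd_natCast, Int.dvd_natAbs]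
        exact hlj
      have h4 : wyV k (PP X) (p.Y X) j.val l = 0 := by
        unfold wyV boV
        rw [if_neg hsp.ndvd, if_pos hlP', if_neg hj]
      have h5 : na5_T p X q u l = 0 := by
        unfold na5_T
        rw [prod_eq_zero (i := j) (mem_univ _), mul_zero]
        rw [h4, zero_pow (by omega)]
      rw [na5_W_eq p X q u hG (insert l (na5_B q u)) (subset_insert _ _),
        prod_eq_zero (mem_insert_self _ _) h5]
  · unfold W
    rw [if_neg hG]
    refine mul_nonneg ?_ hL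
    unfold okf
    split_ifs <;> norm_num

end Pool.Agent.AQ.NC
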