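import Pool.Agent.Lib_helper8.AQ.NCDefs
import Pool.Agent.Lib_helper88.AQN.Bas

set_option autoImplicit false

namespace Pool.Agent.AQ.NC

open Finset Pool.Agent.PENT Pool.Agent.PENT.EQ

variable [Cst] {k : ℕ}

/-- the weight of one end -/
noncomputable def na7_w (k : ℕ) (P Y : ℝ) (d : ℕ) (a : ℤ) : ℝ :=
  if (d : ℤ) ∣ a then cm (wdE k Y 0) d * cm (wyV k P Y 0) (a.natAbs / d) else 0

theorem na7_wend (p : Prm k) (X : ℕ) (q : ℤ × ℤ × ℤ) (f : ℕ × ℕ) :
    wend p X q f = na7_w k (PP X) (p.Y X) f.1 q.1 * na7_w k (PP X) (p.Y X) f.2 (fv q z) := by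
  unfold wend na7_w
  by_cases h1 : (f.1 : ℤ) ∣ q.1
  · by_cases h2 : (f.2 : ℤ) ∣ fv q z
    · rw [if_pos ⟨h1, h2⟩, if_pos h1, if_pos h2]; ring
    · rw [if_neg (fun h => h2 h.2), if_neg h2, mul_zero]
  · rw [if_neg (fun h => h1 h.1), if_neg h1, zero_mul]

theorem na7_wd (k : ℕ) (Y : ℝ) (l : ℕ) : 0 ≤ wdE k Y 0 l ∧ wdE k Y 0 l ≤ 1 := by
  unfold wdE alE
  split_ifs <;> norm_num

theorem na7_wy (k : ℕ) (P Y : ℝ) (l : ℕ) : 0 ≤ wyV k P Y 0 l ∧ wyV k P Y 0 l ≤ 1 ∧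
    (wyV k P Y 0 l ≠ 1 → ¬ l ∣ R ∧ P < (l : ℝ) ∧ (l : ℝ) ≤ Y) := by
  unfold wyV boV beV
  by_cases h2 : l ∣ R
  · rw [if_pos h2]; norm_num
  rw [if_neg h2]
  by_cases hP : (l : ℝ) ≤ P
  · rw [if_pos hP]; norm_num
  rw [if_neg hP]
  by_cases hY : (l : ℝ) ≤ Y
  · rw [if_pos hY, if_pos (Or.inl rfl)]
    exact ⟨by norm_num, by norm_num, fun _ => ⟨h2, not_le.1 hP, hY⟩⟩
  · rw [if_neg hY]; norm_num

theorem na7_E1 (k : ℕ) (P Y : ℝ) (d l : ℕ) (a : ℤ) : 0 ≤ E1 k P Y d l a := by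
  unfold E1
  have h1 := (na7_wd k Y l).1
  have h2 := (na7_wy k P Y l).1
  split_ifs <;> first | exact h1 | exact h2 | norm_num

theorem na7_cm (g : ℕ → ℝ) {m : ℕ} {T : Finset ℕ} (hT : m.primeFactors ⊆ T) :
    cm g m = ∏ l ∈ T, g l ^ m.factorization l := by
  unfold cm
  rw [Nat.prod_factorization_eq_prod_primeFactors]
  apply Finset.prod_subset hT
  intro l _ hl
  rw [← Nat.support_factorization, Finsupp.notMem_support_iff] at hl
  rw [hl, pow_zero]

theorem na7_sqf {d l : ℕ} (hd : Squarefree d) (hl : l.Prime) :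
    d.factorization l = if l ∣ d then 1 else 0 := by
  split_ifs with h
  · have h1 := (Nat.squarefree_iff_factorization_le_one hd.ne_zero).1 hd l
    have h2 := hl.factorization_pos_of_dvd hd.ne_zero h
    omega
  · exact Nat.factorization_eq_zero_of_not_dvd h

/-- the local factor with multiplicities -/
noncomputable def na7_F (k : ℕ) (P Y : ℝ) (d m l : ℕ) : ℝ :=
  (if l ∣ d then wdE k Y 0 l else 1) * wyV k P Y 0 l ^ m.factorization l

theorem na7_F_prod {P Y : ℝ} {d : ℕ} {a : ℤ} (hd : Squarefree d) (hda : (d : ℤ) ∣ a)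
    {T : Finset ℕ} (hT : ∀ l ∈ T, l.Prime) (hT1 : d.primeFactors ⊆ T)
    (hT2 : (a.natAbs / d).primeFactors ⊆ T) :
    na7_w k P Y d a = ∏ l ∈ T, na7_F k P Y d (a.natAbs / d) l := by
  unfold na7_w na7_F
  rw [if_pos hda, Finset.prod_mul_distrib, na7_cm _ hT1, na7_cm _ hT2]
  congr 1
  apply Finset.prod_congr rfl
  intro l hl
  rw [na7_sqf hd (hT l hl)]
  split_ifs
  · rw [pow_one]
  · rw [pow_zero]

theorem na7_F_le (k : ℕ) (P Y : ℝ) (d m l : ℕ) : 0 ≤ na7_F k P Y d m l ∧ na7_F k P Y d m l ≤ 1 := by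
  unfold na7_F
  have h1 := na7_wd k Y l
  have h2 := na7_wy k P Y l
  have h3 : 0 ≤ wyV k P Y 0 l ^ m.factorization l := pow_nonneg h2.1 _
  have h4 : wyV k P Y 0 l ^ m.factorization l ≤ 1 := pow_le_one₀ h2.1 h2.2.1
  have h5 : 0 ≤ (if l ∣ d then wdE k Y 0 l else 1) ∧ (if l ∣ d then wdE k Y 0 l else 1) ≤ 1 := by
    split_ifs
    · exact h1
    · norm_num
  exact ⟨mul_nonneg h5.1 h3, mul_le_one₀ h5.2 h3 h4⟩

theorem na7_dvd {d l : ℕ} {a : ℤ} (hl : l.Prime) (hda : (d : ℤ) ∣ a) (hla : (l : ℤ) ∣ a)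
    (hld : ¬ l ∣ d) : l ∣ a.natAbs / d := by
  have h1 : d ∣ a.natAbs := Int.natCast_dvd.1 hda
  have h2 : l ∣ a.natAbs := Int.natCast_dvd.1 hla
  obtain ⟨m, hm⟩ := h1
  rcases Nat.eq_zero_or_pos d with rfl | hd
  · exact absurd (dvd_zero l) hld
  rw [hm, Nat.mul_div_cancel_left _ hd]
  rw [hm] at h2
  exact (hl.dvd_mul.1 h2).resolve_left hld

theorem na7_F_E1 {P Y : ℝ} {d l : ℕ} {a : ℤ} (hl : l.Prime) (ha : a ≠ 0) (hda : (d : ℤ) ∣ a) :
    na7_F k P Y d (a.natAbs / d) l ≤ E1 k P Y d l a := by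
  have h1 := na7_wd k Y l
  have h2 := na7_wy k P Y l
  unfold na7_F E1
  by_cases hld : l ∣ d
  · have hla : (l : ℤ) ∣ a := (Int.natCast_dvd_natCast.2 hld).trans hda
    rw [if_pos hld, if_pos hld, if_pos hla]
    exact mul_le_of_le_one_right h1.1 (pow_le_one₀ h2.1 h2.2.1)
  · rw [if_neg hld, if_neg hld, one_mul]
    by_cases hla : (l : ℤ) ∣ a
    · rw [if_pos hla]
      have h3 := na7_dvd hl hda hla hld
      have h4 : a.natAbs / d ≠ 0 := by
        have h5 : d ∣ a.natAbs := Int.natCast_dvd.1 hda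
        have h6 := Nat.div_pos (Nat.le_of_dvd (Int.natAbs_pos.2 ha) h5)
          (Nat.pos_of_ne_zero fun h0 => hld (h0 ▸ dvd_zero l))
        omega
      have h5 := hl.factorization_pos_of_dvd h4 h3
      calc wyV k P Y 0 l ^ (a.natAbs / d).factorization l ≤ wyV k P Y 0 l ^ 1 :=
            pow_le_pow_of_le_one h2.1 h2.2.1 h5
        _ = _ := pow_one _
    · rw [if_neg hla]
      exact pow_le_one₀ h2.1 h2.2.1

theorem na7_le {P Y : ℝ} {d : ℕ} {a : ℤ} (hd : Squarefree d) (ha : a ≠ 0) (S : Finset ℕ)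
    (hS : ∀ l ∈ S, l.Prime) : na7_w k P Y d a ≤ ∏ l ∈ S, E1 k P Y d l a := by
  classical
  by_cases hda : (d : ℤ) ∣ a
  · set T := S ∪ (d.primeFactors ∪ (a.natAbs / d).primeFactors) with hT
    have hTp : ∀ l ∈ T, l.Prime := by
      intro l hl
      rw [hT, Finset.mem_union, Finset.mem_union] at hl
      rcases hl with h | h | h
      · exact hS l h
      · exact (Nat.mem_primeFactors.1 h).1
      · exact (Nat.mem_primeFactors.1 h).1
    rw [na7_F_prod hd hda hTp (fun l hl => by simp [hT, Nat.mem_primeFactors.1 hl])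
      (fun l hl => by
        rw [hT, Finset.mem_union, Finset.mem_union]
        exact Or.inr (Or.inr hl))]
    rw [← Finset.prod_sdiff (show S ⊆ T from Finset.subset_union_left)]
    have h1 : ∏ l ∈ T \ S, na7_F k P Y d (a.natAbs / d) l ≤ 1 :=
      Finset.prod_le_one (fun l _ => (na7_F_le k P Y d _ l).1) fun l _ => (na7_F_le k P Y d _ l).2
    have h2 : ∏ l ∈ S, na7_F k P Y d (a.natAbs / d) l ≤ ∏ l ∈ S, E1 k P Y d l a :=
      Finset.prod_le_prod (fun l _ => (na7_F_le k P Y d _ l).1)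
        fun l hl => na7_F_E1 (hS l hl) ha hda
    have h3 : 0 ≤ ∏ l ∈ S, na7_F k P Y d (a.natAbs / d) l :=
      Finset.prod_nonneg fun l _ => (na7_F_le k P Y d _ l).1
    exact (mul_le_of_le_one_left h3 h1).trans h2
  · unfold na7_w
    rw [if_neg hda]
    exact Finset.prod_nonneg fun l _ => na7_E1 k P Y d l a

theorem na7_sp {q : ℤ × ℤ × ℤ} (hq : q.1 * q.2.2 - q.2.1 ^ 2 = D) {u : ℤ × ℤ}
    (hu : IsCoprime u.1 u.2) (l : ℕ) (hl : l.Prime) (hR : ¬ l ∣ R) (h : (l : ℤ) ∣ fv q u) :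
    Sp l := bas_sp hq hl hR (bas_prim hu hl) h

theorem na7_one (q : ℤ × ℤ × ℤ) : fv q (1, 0) = q.1 := by
  unfold fv qf
  ring

theorem na7_eq {P Y : ℝ} {P00 : ℕ} (hP : (P00 : ℝ) ≤ P) {d : ℕ} {a : ℤ}
    (h : ∀ l : ℕ, l.Prime → ¬ l ∣ R → (l : ℤ) ∣ a → Sp l) (hd : DP P d) (ha : a ≠ 0) (S : Finset ℕ)
    (hS : ∀ l ∈ S, l.Prime) (hS1 : d.primeFactors ⊆ S)
    (hS2 : Spr P00 Y ⊆ S)
    (he : ∀ l : ℕ, Sp l → P < (l : ℝ) → (l : ℝ) ≤ Y → ¬ ((l : ℤ) ^ 2) ∣ a) :
    na7_w k P Y d a = ∏ l ∈ S, E1 k P Y d l a := by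
  classical
  have hd0 : d ≠ 0 := hd.1.ne_zero
  by_cases hda : (d : ℤ) ∣ a
  · have hdn : d ∣ a.natAbs := Int.natCast_dvd.1 hda
    have hm0 : a.natAbs / d ≠ 0 := by
      have := Nat.div_pos (Nat.le_of_dvd (Int.natAbs_pos.2 ha) hdn) (Nat.pos_of_ne_zero hd0)
      omega
    have hmul : d * (a.natAbs / d) = a.natAbs := Nat.mul_div_cancel' hdn
    -- the weight of `y` is one except at the good primes
    have hbad : ∀ l : ℕ, l.Prime → (l : ℤ) ∣ a → wyV k P Y 0 l ≠ 1 →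
        Sp l ∧ P < (l : ℝ) ∧ (l : ℝ) ≤ Y ∧ l ∈ S ∧ ¬ l ^ 2 ∣ a.natAbs := by
      intro l hl hla hw
      obtain ⟨h2, h3, h4⟩ := (na7_wy k P Y l).2.2 hw
      have h5 : Sp l := h l hl h2 hla
      refine ⟨h5, h3, h4, ?_, ?_⟩
      · apply hS2
        unfold Spr
        rw [Finset.mem_filter, Finset.mem_Ioc]
        refine ⟨⟨?_, Nat.le_floor h4⟩, h5⟩
        have : (P00 : ℝ) < l := lt_of_le_of_lt hP h3
        exact_mod_cast this
      · intro h6
        apply he l h5 h3 h4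
        have : ((l ^ 2 : ℕ) : ℤ) ∣ a := Int.natCast_dvd.2 h6
        rwa [Nat.cast_pow] at this
    set T := S ∪ (a.natAbs / d).primeFactors with hT
    have hTp : ∀ l ∈ T, l.Prime := by
      intro l hl
      rw [hT, Finset.mem_union] at hl
      rcases hl with h | h
      · exact hS l h
      · exact (Nat.mem_primeFactors.1 h).1
    rw [na7_F_prod hd.1 hda hTp (hS1.trans Finset.subset_union_left) Finset.subset_union_right]
    rw [← Finset.prod_sdiff (show S ⊆ T from Finset.subset_union_left)]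
    have h1 : ∏ l ∈ T \ S, na7_F k P Y d (a.natAbs / d) l = 1 := by
      apply Finset.prod_eq_one
      intro l hl
      rw [Finset.mem_sdiff, hT, Finset.mem_union] at hl
      have hlm := hl.1.resolve_left hl.2
      rw [Nat.mem_primeFactors] at hlm
      have hld : ¬ l ∣ d := fun h5 => hl.2 (hS1 (Nat.mem_primeFactors.2 ⟨hlm.1, h5, hd0⟩))
      have hla : (l : ℤ) ∣ a := by
        apply Int.natCast_dvd.2
        rw [← hmul]
        exact hlm.2.1.mul_left d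
      have hw : wyV k P Y 0 l = 1 := by
        by_contra hw
        exact hl.2 (hbad l hlm.1 hla hw).2.2.2.1
      unfold na7_F
      rw [if_neg hld, hw, one_pow, one_mul]
    rw [h1, one_mul]
    apply Finset.prod_congr rfl
    intro l hlS
    have hl := hS l hlS
    unfold na7_F E1
    by_cases hld : l ∣ d
    · have hla : (l : ℤ) ∣ a := (Int.natCast_dvd_natCast.2 hld).trans hda
      rw [if_pos hld, if_pos hld, if_pos hla]
      by_cases hw : wyV k P Y 0 l = 1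
      · rw [hw, one_pow, mul_one]
      · have h5 := (hbad l hl hla hw).2.2.2.2
        have h6 : ¬ l ∣ a.natAbs / d := by
          intro h7
          apply h5
          rw [pow_two, ← hmul]
          exact mul_dvd_mul hld h7
        rw [Nat.factorization_eq_zero_of_not_dvd h6, pow_zero, mul_one]
    · rw [if_neg hld, if_neg hld, one_mul]
      by_cases hla : (l : ℤ) ∣ a
      · rw [if_pos hla]
        by_cases hw : wyV k P Y 0 l = 1
        · rw [hw, one_pow]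
        · have h5 := (hbad l hl hla hw).2.2.2.2
          have h6 := na7_dvd hl hda hla hld
          have h7 := hl.factorization_pos_of_dvd hm0 h6
          have h8 : (a.natAbs / d).factorization l < 2 := by
            by_contra hcon
            push Not at hcon
            apply h5
            rw [← hmul]
            exact ((hl.pow_dvd_iff_le_factorization hm0).2 hcon).mul_left d
          have h9 : (a.natAbs / d).factorization l = 1 := by omega
          rw [h9, pow_one]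
      · rw [if_neg hla]
        have h6 : ¬ l ∣ a.natAbs / d := by
          intro h7
          apply hla
          apply Int.natCast_dvd.2
          rw [← hmul]
          exact h7.mul_left d
        rw [Nat.factorization_eq_zero_of_not_dvd h6, pow_zero]
  · -- some prime of `d` does not divide `a`
    have hex : ∃ l : ℕ, l.Prime ∧ l ∣ d ∧ ¬ (l : ℤ) ∣ a := by
      by_contra hcon
      push Not at hcon
      apply hda
      apply Int.natCast_dvd.2
      have h1 : ∏ l ∈ d.primeFactors, l ∣ a.natAbs := by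
        apply Finset.prod_primes_dvd
        · intro l hl; exact (Nat.mem_primeFactors.1 hl).1.prime
        · intro l hl
          have h2 := Nat.mem_primeFactors.1 hl
          exact Int.natCast_dvd.1 (hcon l h2.1 h2.2.1)
      rwa [Nat.prod_primeFactors_of_squarefree hd.1] at h1
    obtain ⟨l, hl, hld, hla⟩ := hex
    unfold na7_w
    rw [if_neg hda]
    symm
    apply Finset.prod_eq_zero (hS1 (Nat.mem_primeFactors.2 ⟨hl, hld, hd0⟩))
    unfold E1
    rw [if_pos hld, if_neg hla]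

theorem na7_fac {p : Prm k} {X : ℕ} {f : ℕ × ℕ} (hf : f ∈ Fac p X) :
    DP (PP X) f.1 ∧ DP (PP X) f.2 := by
  classical
  unfold Fac at hf
  rw [Finset.mem_filter] at hf
  exact ⟨hf.2.1.dp, hf.2.2.1.dp⟩

/-- NA7: the end weight from above -/
theorem wend_le {p : Prm k} {X P00 : ℕ} (hP : (P00 : ℝ) ≤ PP X)
    {f : ℕ × ℕ} (hf : f ∈ Fac p X) {q : ℤ × ℤ × ℤ} (hq : q.1 * q.2.2 - q.2.1 ^ 2 = D)
    (S : Finset ℕ) (hS : ∀ l ∈ S, l.Prime ∧ P00 < l) :
    wend p X q f ≤ ∏ l ∈ S, Ef p X f l q := by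
  have ha1 : q.1 ≠ 0 := bas_q1_ne hq
  have ha2 : fv q z ≠ 0 := bas_fvz_ne hq
  obtain ⟨hf1, hf2⟩ := na7_fac hf
  rw [na7_wend]
  unfold Ef
  rw [Finset.prod_mul_distrib]
  have h1 := na7_le (k := k) (P := PP X) (Y := p.Y X) hf1.1 ha1 S fun l hl => (hS l hl).1
  have h2 := na7_le (k := k) (P := PP X) (Y := p.Y X) hf2.1 ha2 S fun l hl => (hS l hl).1
  have h3 : 0 ≤ na7_w k (PP X) (p.Y X) f.2 (fv q z) := by
    unfold na7_w
    split_ifs
    · refine mul_nonneg ?_ ?_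
      · rw [na7_cm _ (Finset.Subset.refl _)]
        exact Finset.prod_nonneg fun l _ => pow_nonneg (na7_wd k _ l).1 _
      · rw [na7_cm _ (Finset.Subset.refl _)]
        exact Finset.prod_nonneg fun l _ => pow_nonneg (na7_wy k _ _ l).1 _
    · exact le_rfl
  exact mul_le_mul h1 h2 h3 (Finset.prod_nonneg fun l _ => na7_E1 _ _ _ _ _ _)

/-- NA7: the end weight, exact formula -/
theorem wend_eq {p : Prm k} {X P00 : ℕ} (hP : (P00 : ℝ) ≤ PP X) (hP2 : pB k ≤ P00)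
    {f : ℕ × ℕ} (hf : f ∈ Fac p X) {q : ℤ × ℤ × ℤ} (hq : q.1 * q.2.2 - q.2.1 ^ 2 = D)
    (S : Finset ℕ) (hS : ∀ l ∈ S, l.Prime ∧ P00 < l) (hS1 : (f.1 * f.2).primeFactors ⊆ S)
    (hS2 : Spr P00 (p.Y X) ⊆ S)
    (he : ∀ l : ℕ, Sp l → PP X < (l : ℝ) → (l : ℝ) ≤ p.Y X →
      ¬ ((l : ℤ) ^ 2) ∣ q.1 ∧ ¬ ((l : ℤ) ^ 2) ∣ fv q z) :
    wend p X q f = ∏ l ∈ S, Ef p X f l q := by
  have ha1 : q.1 ≠ 0 := bas_q1_ne hq
  have ha2 : fv q z ≠ 0 := bas_fvz_ne hq
  obtain ⟨hf1, hf2⟩ := na7_fac hf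
  rw [Nat.primeFactors_mul hf1.1.ne_zero hf2.1.ne_zero] at hS1
  rw [na7_wend]
  unfold Ef
  rw [Finset.prod_mul_distrib]
  have g1 : ∀ l : ℕ, l.Prime → ¬ l ∣ R → (l : ℤ) ∣ q.1 → Sp l := by
    intro l h1 h2 h3
    rw [← na7_one q] at h3
    exact na7_sp hq isCoprime_one_left l h1 h2 h3
  have g2 : ∀ l : ℕ, l.Prime → ¬ l ∣ R → (l : ℤ) ∣ fv q z → Sp l := na7_sp hq z_cop
  rw [na7_eq (k := k) hP g1 hf1 ha1 S (fun l hl => (hS l hl).1)
      (Finset.subset_union_left.trans hS1) hS2 fun l h1 h2 h3 => (he l h1 h2 h3).1,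
    na7_eq (k := k) hP g2 hf2 ha2 S (fun l hl => (hS l hl).1)
      (Finset.subset_union_right.trans hS1) hS2 fun l h1 h2 h3 => (he l h1 h2 h3).2]

end Pool.Agent.AQ.NC
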