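import Pool.Agent.Lib_helper8.AQ.NCDefs

/-! NC, block NS2 (helper8): a square condition at one prime -/

set_option autoImplicit false

namespace Pool.Agent.AQ.NC

open Finset Pool.Agent.PENT Pool.Agent.PENT.EQ

variable [Cst]

theorem ns2_fv {m : ℤ} {q w : ℤ × ℤ × ℤ} (v : ℤ × ℤ) (h1 : m ∣ q.1 - w.1)
    (h2 : m ∣ q.2.1 - w.2.1) (h3 : m ∣ q.2.2 - w.2.2) : m ∣ fv q v - fv w v := by
  have e : fv q v - fv w v = (q.1 - w.1) * v.1 ^ 2 + (q.2.1 - w.2.1) * (2 * v.1 * v.2) +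
      (q.2.2 - w.2.2) * v.2 ^ 2 := by
    unfold fv qf
    ring
  rw [e]
  exact dvd_add (dvd_add (h1.mul_right _) (h2.mul_right _)) (h3.mul_right _)

/-- NS2: the same with a square condition at one prime, upper bound without sieve (`EqFam` for the
moduli `m0`, `l ∈ Z`, `l ≠ l0`, and `l0²`) -/
theorem sieve_sq (O : Finset (ℤ × ℤ × ℤ)) (L E : ℝ) (hE : EqFam O (fun v => v) L E)
    (m0 : ℕ) (Z : Finset ℕ) (h0 : ℤ × ℤ × ℤ → ℝ) (h : ℕ → ℤ × ℤ × ℤ → ℝ) (l0 : ℕ) (v : ℤ × ℤ)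
    (hm0 : Nat.Coprime m0 R) (hZ : ∀ l ∈ Z, l.Prime ∧ ¬ l ∣ R ∧ Nat.Coprime m0 l)
    (hl0 : l0.Prime ∧ ¬ l0 ∣ R ∧ Nat.Coprime m0 l0)
    (hD : ((m0 * (∏ l ∈ Z, l) * l0 ^ 2 : ℕ) : ℝ) ≤ L) (hp0 : Per3 m0 h0)
    (h01 : ∀ v, 0 ≤ h0 v ∧ h0 v ≤ 1) (hp : ∀ l ∈ Z, Per3 l (h l) ∧ ∀ v, 0 ≤ h l v ∧ h l v ≤ 1) :
    ∑ q ∈ O, h0 q * (∏ l ∈ Z, h l q) * (if ((l0 : ℤ) ^ 2) ∣ fv q v then 1 else 0) ≤
      (O.card : ℝ) * MV m0 h0 * (∏ l ∈ Z.erase l0, MV l (h l)) *
        MV (l0 ^ 2) (fun q => (if l0 ∈ Z then h l0 q else 1) *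
          (if ((l0 : ℤ) ^ 2) ∣ fv q v then 1 else 0)) + E := by
  classical
  have hne : ∀ l ∈ Z, l ≠ m0 := by
    intro l hl he
    obtain ⟨h1, -, h3⟩ := hZ l hl
    rw [← he, Nat.coprime_self] at h3
    exact h1.one_lt.ne' h3
  have hsq : ∀ l : ℕ, l.Prime → l ≠ l0 ^ 2 := by
    intro l hl he
    have : ¬ (l0 ^ 2).Prime := by
      rw [pow_two]
      exact Nat.not_prime_mul hl0.1.one_lt.ne' hl0.1.one_lt.ne'
    exact this (he ▸ hl)
  have hsq0 : l0 ^ 2 ≠ m0 := by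
    intro he
    have h3 := hl0.2.2
    rw [← he] at h3
    have := Nat.Coprime.coprime_mul_left (m := l0) (n := l0) (k := l0) (by rwa [pow_two] at h3)
    rw [Nat.coprime_self] at this
    exact hl0.1.one_lt.ne' this
  set E' := Z.erase l0 with hE1
  have hEZ : ∀ l ∈ E', l ∈ Z := fun l hl => Finset.mem_of_mem_erase hl
  have hm0E : m0 ∉ insert (l0 ^ 2) E' := by
    rw [Finset.mem_insert]
    rintro (hh | hh)
    · exact hsq0 hh.symm
    · exact hne m0 (hEZ _ hh) rfl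
  have hlE : l0 ^ 2 ∉ E' := fun hh => hsq _ (hZ _ (hEZ _ hh)).1 rfl
  set g : ℤ × ℤ × ℤ → ℝ := fun q => (if l0 ∈ Z then h l0 q else 1) *
    (if ((l0 : ℤ) ^ 2) ∣ fv q v then 1 else 0) with hg
  set h' : ℕ → ℤ × ℤ × ℤ → ℝ := fun m => if m = m0 then h0 else if m = l0 ^ 2 then g
    else h m with hh'
  have e0 : h' m0 = h0 := by rw [hh']; simp only [if_true]
  have e1 : h' (l0 ^ 2) = g := by
    simp only [hh']
    rw [if_neg hsq0]
    simp only [if_true]
  have eE : ∀ l ∈ E', h' l = h l := by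
    intro l hl
    simp only [hh']
    rw [if_neg (hne l (hEZ l hl)), if_neg (hsq l (hZ l (hEZ l hl)).1)]
  have hg01 : ∀ q, 0 ≤ g q ∧ g q ≤ 1 := by
    intro q
    have a1 : 0 ≤ (if l0 ∈ Z then h l0 q else 1 : ℝ) ∧ (if l0 ∈ Z then h l0 q else 1 : ℝ) ≤ 1 := by
      split_ifs with hz
      · exact (hp l0 hz).2 q
      · exact ⟨zero_le_one, le_rfl⟩
    have a2 : 0 ≤ (if ((l0 : ℤ) ^ 2) ∣ fv q v then 1 else 0 : ℝ) ∧
        (if ((l0 : ℤ) ^ 2) ∣ fv q v then 1 else 0 : ℝ) ≤ 1 := by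
      split_ifs
      · exact ⟨zero_le_one, le_rfl⟩
      · exact ⟨le_rfl, zero_le_one⟩
    exact ⟨mul_nonneg a1.1 a2.1, mul_le_one₀ a1.2 a2.1 a2.2⟩
  have hgper : Per3 (l0 ^ 2) g := by
    intro q w h1 h2 h3
    rw [Nat.cast_pow] at h1 h2 h3
    have b1 : (if l0 ∈ Z then h l0 q else 1 : ℝ) = (if l0 ∈ Z then h l0 w else 1 : ℝ) := by
      split_ifs with hz
      · have hd : (l0 : ℤ) ∣ (l0 : ℤ) ^ 2 := dvd_pow_self _ two_ne_zero
        exact (hp l0 hz).1 q w (hd.trans h1) (hd.trans h2) (hd.trans h3)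
      · rfl
    have b2 : (((l0 : ℤ) ^ 2) ∣ fv q v) ↔ (((l0 : ℤ) ^ 2) ∣ fv w v) := by
      have h4 := ns2_fv v h1 h2 h3
      constructor
      · intro h5
        have := dvd_sub h5 h4
        rwa [sub_sub_cancel] at this
      · intro h5
        have := dvd_add h4 h5
        rwa [sub_add_cancel] at this
    show (if l0 ∈ Z then h l0 q else 1 : ℝ) * (if ((l0 : ℤ) ^ 2) ∣ fv q v then 1 else 0) =
      (if l0 ∈ Z then h l0 w else 1 : ℝ) * (if ((l0 : ℤ) ^ 2) ∣ fv w v then 1 else 0)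
    rw [b1]
    simp only [b2]
  have key := hE (insert m0 (insert (l0 ^ 2) E')) ?_ ?_ ?_ h' ?_ ?_
  · have f1 : ∀ q : ℤ × ℤ × ℤ, ∏ m ∈ insert m0 (insert (l0 ^ 2) E'), h' m q =
        h0 q * (∏ l ∈ Z, h l q) * (if ((l0 : ℤ) ^ 2) ∣ fv q v then 1 else 0) := by
      intro q
      rw [Finset.prod_insert hm0E, Finset.prod_insert hlE, e0, e1,
        Finset.prod_congr rfl (fun l hl => by rw [eE l hl])]
      have f2 : (if l0 ∈ Z then h l0 q else 1 : ℝ) * ∏ l ∈ E', h l q = ∏ l ∈ Z, h l q := by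
        split_ifs with hz
        · exact Finset.mul_prod_erase Z (fun l => h l q) hz
        · rw [one_mul, hE1, Finset.erase_eq_of_notMem hz]
      simp only [hg]
      rw [← f2]
      ring
    have f3 : ∏ m ∈ insert m0 (insert (l0 ^ 2) E'), MV m (h' m) =
        MV m0 h0 * (∏ l ∈ E', MV l (h l)) * MV (l0 ^ 2) g := by
      rw [Finset.prod_insert hm0E, Finset.prod_insert hlE, e0, e1,
        Finset.prod_congr rfl (fun l hl => by rw [eE l hl])]
      ring
    simp only [f1] at key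
    rw [f3] at key
    have := (abs_le.1 key).2
    linarith
  · intro m hm
    rcases Finset.mem_insert.1 hm with rfl | hm
    · exact hm0
    · rcases Finset.mem_insert.1 hm with rfl | hm
      · exact Nat.Coprime.pow_left _ ((Nat.Prime.coprime_iff_not_dvd hl0.1).2 hl0.2.1)
      · exact (Nat.Prime.coprime_iff_not_dvd (hZ m (hEZ m hm)).1).2 (hZ m (hEZ m hm)).2.1
  · have c1 : ∀ l ∈ E', Nat.Coprime (l0 ^ 2) l := by
      intro l hl
      apply Nat.Coprime.pow_left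
      exact (Nat.coprime_primes hl0.1 (hZ l (hEZ l hl)).1).2 (Finset.ne_of_mem_erase hl).symm
    have c2 : Nat.Coprime m0 (l0 ^ 2) := Nat.Coprime.pow_right _ hl0.2.2
    intro m hm m' hm' hmm
    rcases Finset.mem_insert.1 hm with a1 | a1
    · rcases Finset.mem_insert.1 hm' with a2 | a2
      · exact absurd (a1.trans a2.symm) hmm
      · rcases Finset.mem_insert.1 a2 with a3 | a3
        · rw [a1, a3]; exact c2
        · rw [a1]; exact (hZ m' (hEZ m' a3)).2.2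
    · rcases Finset.mem_insert.1 hm' with a2 | a2
      · rcases Finset.mem_insert.1 a1 with a3 | a3
        · rw [a2, a3]; exact c2.symm
        · rw [a2]; exact (hZ m (hEZ m a3)).2.2.symm
      · rcases Finset.mem_insert.1 a1 with a3 | a3
        · rcases Finset.mem_insert.1 a2 with a4 | a4
          · exact absurd (a3.trans a4.symm) hmm
          · rw [a3]; exact c1 m' a4
        · rcases Finset.mem_insert.1 a2 with a4 | a4
          · rw [a4]; exact (c1 m a3).symm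
          · exact (Nat.coprime_primes (hZ m (hEZ m a3)).1 (hZ m' (hEZ m' a4)).1).2 hmm
  · refine le_trans ?_ hD
    rw [Finset.prod_insert hm0E, Finset.prod_insert hlE]
    apply Nat.cast_le.2
    rw [mul_assoc]
    apply Nat.mul_le_mul_left
    rw [mul_comm]
    apply Nat.mul_le_mul_right
    exact Finset.prod_le_prod_of_subset_of_one_le' (Finset.erase_subset _ _)
      (fun l hl _ => (hZ l hl).1.one_lt.le)
  · intro m hm
    rcases Finset.mem_insert.1 hm with rfl | hm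
    · rw [e0]; exact hp0
    · rcases Finset.mem_insert.1 hm with rfl | hm
      · rw [e1]; exact hgper
      · rw [eE m hm]; exact (hp m (hEZ m hm)).1
  · intro m hm w
    rcases Finset.mem_insert.1 hm with rfl | hm
    · rw [e0]; exact h01 w
    · rcases Finset.mem_insert.1 hm with rfl | hm
      · rw [e1]; exact hg01 w
      · rw [eE m hm]; exact (hp m (hEZ m hm)).2 w

end Pool.Agent.AQ.NC
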