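import Pool.Agent.Lib_helper8.AQ.NCDefs
import Pool.Agent.Lib_helper68.LEV.MRT

/-!
# NC, block NS3: products over primes and powers of the logarithm (helper44)
-/

set_option autoImplicit false

namespace Pool.Agent.AQ.NC

open Finset Pool.Agent.PENT Pool.Agent.PENT.EQ

variable [Cst] {k : ℕ}

/-- the product of the `1 + g l` -/
theorem ns3_prod {κ C0 : ℝ} (hκ : 0 ≤ κ)
    (hC : ∀ x : ℝ, 2 ≤ x → |∑ p ∈ (Finset.Icc 1 ⌊x⌋₊).filter Nat.Prime, 1 / (p : ℝ) -
      Real.log (Real.log x)| ≤ C0) (Y : ℝ) (S : Finset ℕ) (g : ℕ → ℝ) (hY : 3 ≤ Y)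
    (hS : ∀ l ∈ S, l.Prime ∧ (l : ℝ) ≤ Y) (hg : ∀ l ∈ S, 0 ≤ g l ∧ g l ≤ κ / l) :
    ∏ l ∈ S, (1 + g l) ≤ Real.exp (κ * C0) * Real.log Y ^ κ := by
  have hY0 : (0 : ℝ) < Y := by linarith
  have hlog : 0 < Real.log Y := Real.log_pos (by linarith)
  have h1 : ∏ l ∈ S, (1 + g l) ≤ Real.exp (∑ l ∈ S, g l) := by
    rw [Real.exp_sum]
    apply Finset.prod_le_prod
    · intro l hl
      have := (hg l hl).1
      linarith
    · intro l hl
      have := Real.add_one_le_exp (g l)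
      linarith
  have h2 : ∑ l ∈ S, g l ≤ κ * ∑ l ∈ S, 1 / (l : ℝ) := by
    rw [Finset.mul_sum]
    apply Finset.sum_le_sum
    intro l hl
    have := (hg l hl).2
    rwa [mul_one_div]
  have h3 : ∑ l ∈ S, 1 / (l : ℝ) ≤
      ∑ p ∈ (Finset.Icc 1 ⌊Y⌋₊).filter Nat.Prime, 1 / (p : ℝ) := by
    apply Finset.sum_le_sum_of_subset_of_nonneg
    · intro l hl
      obtain ⟨hp, hle⟩ := hS l hl
      rw [Finset.mem_filter, Finset.mem_Icc]
      exact ⟨⟨hp.one_lt.le, Nat.le_floor hle⟩, hp⟩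
    · intro l _ _
      positivity
  have h4 := (abs_le.1 (hC Y (by linarith))).2
  have h5 : ∑ l ∈ S, g l ≤ κ * (Real.log (Real.log Y) + C0) := by
    refine h2.trans (mul_le_mul_of_nonneg_left ?_ hκ)
    linarith
  refine h1.trans ((Real.exp_le_exp.2 h5).trans (le_of_eq ?_))
  rw [Real.rpow_def_of_pos hlog, ← Real.exp_add]
  congr 1
  ring

theorem prod_log (κ : ℝ) (hκ : 0 ≤ κ) : ∃ C : ℝ, 0 < C ∧ ∀ (Y : ℝ) (S : Finset ℕ) (g : ℕ → ℝ),
    3 ≤ Y → (∀ l ∈ S, l.Prime ∧ (l : ℝ) ≤ Y) → (∀ l ∈ S, 0 ≤ g l ∧ g l ≤ κ / l) →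
    ∏ l ∈ S, (1 + g l) ≤ C * Real.log Y ^ C ∧
    ((∀ l ∈ S, g l ≤ 1 / 2) → 1 / (C * Real.log Y ^ C) ≤ ∏ l ∈ S, (1 - g l)) := by
  obtain ⟨C0, hC0⟩ := Pool.Agent.LEV.mertens_two
  set C := Real.exp (2 * κ * C0) + 2 * κ with hC
  have hexp := Real.exp_pos (2 * κ * C0)
  have hCpos : 0 < C := by linarith
  refine ⟨C, hCpos, ?_⟩
  intro Y S g hY hS hg
  have hlog1 : 1 ≤ Real.log Y := by
    rw [Real.le_log_iff_exp_le (by linarith)]
    have := Real.exp_one_lt_d9
    linarith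
  have key : ∏ l ∈ S, (1 + 2 * g l) ≤ C * Real.log Y ^ C := by
    have h := ns3_prod (κ := 2 * κ) (by linarith) hC0 Y S (fun l => 2 * g l) hY hS (by
      intro l hl
      obtain ⟨a, b⟩ := hg l hl
      refine ⟨by linarith, ?_⟩
      rw [mul_div_assoc]
      linarith)
    refine h.trans ?_
    apply mul_le_mul
    · linarith
    · exact Real.rpow_le_rpow_of_exponent_le hlog1 (by linarith)
    · positivity
    · exact hCpos.le
  constructor
  · refine le_trans ?_ key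
    apply Finset.prod_le_prod
    · intro l hl
      have := (hg l hl).1
      linarith
    · intro l hl
      have := (hg l hl).1
      linarith
  · intro hh
    have hpos : ∀ l ∈ S, 0 < 1 + 2 * g l := by
      intro l hl
      have := (hg l hl).1
      linarith
    have h1 : (∏ l ∈ S, (1 + 2 * g l))⁻¹ ≤ ∏ l ∈ S, (1 - g l) := by
      rw [← Finset.prod_inv_distrib]
      apply Finset.prod_le_prod
      · intro l hl
        exact (inv_pos.2 (hpos l hl)).le
      · intro l hl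
        rw [inv_le_iff_one_le_mul₀ (hpos l hl)]
        have a := (hg l hl).1
        have b := hh l hl
        nlinarith
    refine le_trans ?_ h1
    rw [one_div]
    exact inv_anti₀ (Finset.prod_pos hpos) key

end Pool.Agent.AQ.NC
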