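import Pool.Agent.Lib_helper8.AQ.NCDefs
import Pool.Agent.Lib_helper88.AQN.NA2
import Pool.Agent.Lib_helper88.AQN.NA3
import Pool.Agent.Lib_helper88.AQN.NA4
import Pool.Agent.Lib_helper88.AQN.NA4b
import Pool.Agent.Lib_helper88.AQN.NA7
import Pool.Agent.Lib_helper88.AQN.NA9
import Pool.Agent.Lib_helper88.AQN.NL0
import Pool.Agent.Lib_helper88.AQN.NL1
import Pool.Agent.Lib_helper88.AQN.NL3
import Pool.Agent.Lib_helper88.AQN.NL4
import Pool.Agent.Lib_helper88.AQN.NS1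
import Pool.Agent.Lib_helper88.AQN.NS2
import Pool.Agent.Lib_helper88.AQN.NS3
import Pool.Agent.Lib_helper88.AQN.NS4

/-!
# NC, block NS7: GG, lower bound; the common core of NS7 and NS8 (helper97)
-/

set_option autoImplicit false

namespace Pool.Agent.AQ.NC

open Finset Pool.Agent.PENT Pool.Agent.PENT.EQ

variable [Cst] {k : ℕ}

/-- the parameters are monotone -/
theorem ns7_ok_mono (hk4 : 4 ≤ k) {p : Prm k} {τ τ' : ℝ} (hτ : 0 < τ) (h : τ ≤ τ')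
    (hp : p.Ok τ) : p.Ok τ' := by
  have he : ∀ j : Fin (k + 1), 2 ≤ j.val → j.val + 2 ≤ k → 0 < p.e j := by
    intro j h1 h2
    have h3 := hp.ew1 j h1 h2
    have h4 := hp.ew0
    by_contra h5
    push Not at h5
    nlinarith
  have hem : 0 < p.em := by
    have h1 := hp.even ⟨2, by omega⟩ (le_refl _) (by show 2 + 2 ≤ k; omega)
      (by show Even 2; exact even_two)
    have h2 := he ⟨2, by omega⟩ (le_refl _) (by show 2 + 2 ≤ k; omega)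
    by_contra h5
    push Not at h5
    nlinarith
  have hta : 0 < p.ta := by
    have h1 := hp.em_ta
    by_contra h5
    push Not at h5
    nlinarith
  have hep : 0 < p.ep := by
    have h1 := hp.ta_ep
    by_contra h5
    push Not at h5
    nlinarith
  exact
    { ew0 := hp.ew0
      ew1 := fun j h1 h2 => (hp.ew1 j h1 h2).trans
        (mul_le_mul_of_nonneg_right h (he j h1 h2).le)
      low := fun i j h1 h2 h3 h4 => (hp.low i j h1 h2 h3 h4).trans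
        (mul_le_mul_of_nonneg_right h (he j h1 (by omega)).le)
      even := fun j h1 h2 h3 => (hp.even j h1 h2 h3).trans (mul_le_mul_of_nonneg_right h hem.le)
      odd := hp.odd
      em_ta := hp.em_ta.trans (mul_le_mul_of_nonneg_right h hta.le)
      ta_ep := hp.ta_ep.trans (mul_le_mul_of_nonneg_right h hep.le)
      ep1 := hp.ep1.trans h
      c10 := hp.c10
      c11 := hp.c11.trans h }

/-- `PP X` is larger than every power of the logarithm -/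
theorem ns7_PP (A B : ℝ) : ∃ X₀ : ℕ, ∀ X ≥ X₀, A * Real.log X ^ B ≤ PP X := by
  have h1 := tendsto_exp_div_rpow_atTop (100 * B)
  have h2 : Filter.Tendsto (fun X : ℕ => Real.log X ^ (1 / 100 : ℝ)) Filter.atTop
      Filter.atTop :=
    (tendsto_rpow_atTop (by norm_num : (0 : ℝ) < 1 / 100)).comp
      (Real.tendsto_log_atTop.comp tendsto_natCast_atTop_atTop)
  have h3 := (h1.comp h2).eventually_ge_atTop A
  obtain ⟨X₀, hX₀⟩ := Filter.eventually_atTop.1 h3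
  refine ⟨max X₀ 3, fun X hX => ?_⟩
  have h4 := hX₀ X (le_trans (le_max_left _ _) hX)
  have h5 : (3 : ℝ) ≤ X := by exact_mod_cast le_trans (le_max_right _ _) hX
  have h6 : 0 < Real.log X := Real.log_pos (by linarith)
  simp only [Function.comp] at h4
  have h7 : (Real.log X ^ (1 / 100 : ℝ)) ^ (100 * B) = Real.log X ^ B := by
    rw [← Real.rpow_mul h6.le]
    congr 1
    ring
  rw [h7, le_div_iff₀ (Real.rpow_pos_of_pos h6 _)] at h4
  exact h4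

theorem ns7_PP_pos (X : ℕ) : 1 ≤ PP X := by
  unfold PP
  apply Real.one_le_exp
  apply Real.rpow_nonneg
  exact Real.log_natCast_nonneg X

/-- the sum over the squares -/
theorem ns7_sq (T : Finset ℕ) (P : ℝ) (hP : 1 ≤ P) (hT : ∀ l ∈ T, P < (l : ℝ)) :
    ∑ l ∈ T, 4 / (l : ℝ) ^ 2 ≤ 8 / P := by
  obtain ⟨N, hN⟩ : ∃ N : ℕ, ∀ l ∈ T, l < N := ⟨T.sup id + 1, fun l hl =>
    Nat.lt_succ_of_le (Finset.le_sup (f := id) hl)⟩
  have h1 : T ⊆ Ioo ⌊P⌋₊ N := by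
    intro l hl
    rw [mem_Ioo]
    refine ⟨?_, hN l hl⟩
    exact (Nat.floor_lt (by linarith)).2 (hT l hl)
  have h2 : ∑ l ∈ T, 4 / (l : ℝ) ^ 2 ≤ ∑ l ∈ Ioo ⌊P⌋₊ N, 4 / (l : ℝ) ^ 2 := by
    apply Finset.sum_le_sum_of_subset_of_nonneg h1
    intro i _ _
    positivity
  have h3 : ∑ l ∈ Ioo ⌊P⌋₊ N, 4 / (l : ℝ) ^ 2 = 4 * ∑ l ∈ Ioo ⌊P⌋₊ N, ((l : ℝ) ^ 2)⁻¹ := by
    rw [Finset.mul_sum]
    exact Finset.sum_congr rfl fun i _ => div_eq_mul_inv _ _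
  have h4 := sum_Ioo_inv_sq_le (α := ℝ) ⌊P⌋₊ N
  have h5 : P < (⌊P⌋₊ : ℝ) + 1 := Nat.lt_floor_add_one P
  have h6 : (2 : ℝ) / ((⌊P⌋₊ : ℝ) + 1) ≤ 2 / P := by
    apply div_le_div_of_nonneg_left (by norm_num) (by linarith) h5.le
  calc ∑ l ∈ T, 4 / (l : ℝ) ^ 2 ≤ 4 * ∑ l ∈ Ioo ⌊P⌋₊ N, ((l : ℝ) ^ 2)⁻¹ := by rw [← h3]; exact h2
    _ ≤ 4 * (2 / P) := by linarith
    _ = 8 / P := by ring

open Classical in
/-- one square event -/
theorem ns7_one {O : Finset (ℤ × ℤ × ℤ)} {L Er : ℝ} (hE : EqFam O (fun v => v) L Er) {m0 : ℕ}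
    {Z S : Finset ℕ} {h0 : ℤ × ℤ × ℤ → ℝ} {h : ℕ → ℤ × ℤ × ℤ → ℝ} (hm0 : Nat.Coprime m0 R)
    (hZS : ∀ l ∈ Z ∪ S, l.Prime ∧ ¬ l ∣ R ∧ Nat.Coprime m0 l) (hdisj : Disjoint Z S)
    (hp0 : Per3 m0 h0) (h01 : ∀ v, 0 ≤ h0 v ∧ h0 v ≤ 1)
    (hh : ∀ l ∈ Z ∪ S, Per3 l (h l) ∧ ∀ v, 0 ≤ h l v ∧ h l v ≤ 1) {l0 : ℕ}
    (hl0 : l0.Prime ∧ ¬ l0 ∣ R ∧ Nat.Coprime m0 l0) (h4 : Sp l0)
    (hD : ((m0 * (∏ l ∈ Z, l) * l0 ^ 2 : ℕ) : ℝ) ≤ L) {v : ℤ × ℤ}
    (hv : ¬ ((l0 : ℤ) ∣ v.1 ∧ (l0 : ℤ) ∣ v.2)) {C : ℝ}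
    (hsq : l0 ∈ Z → MV (l0 ^ 2) (fun q => h l0 q * (if ((l0 : ℤ) ^ 2) ∣ fv q v then 1 else 0)) ≤
      C / l0 * MV l0 (h l0)) :
    ∑ q ∈ O, (h0 q * ∏ l ∈ Z ∪ S, h l q) * (if ((l0 : ℤ) ^ 2) ∣ fv q v then 1 else 0) ≤
      ((O.card : ℝ) * MV m0 h0 * ∏ l ∈ Z, MV l (h l)) *
        ((if l0 ∈ Z then C / l0 else 0) + 4 / (l0 : ℝ) ^ 2) + Er := by
  have hZ : ∀ l ∈ Z, l.Prime ∧ ¬ l ∣ R ∧ Nat.Coprime m0 l := fun l hl =>
    hZS l (mem_union_left _ hl)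
  have hhZ : ∀ l ∈ Z, Per3 l (h l) ∧ ∀ v, 0 ≤ h l v ∧ h l v ≤ 1 := fun l hl =>
    hh l (mem_union_left _ hl)
  have h1 := sieve_sq O L Er hE m0 Z h0 h l0 v hm0 hZ hl0 hD hp0 h01 hhZ
  have hl0' : (0 : ℝ) < l0 := by exact_mod_cast hl0.1.pos
  have h2 : ∑ q ∈ O, (h0 q * ∏ l ∈ Z ∪ S, h l q) *
      (if ((l0 : ℤ) ^ 2) ∣ fv q v then 1 else 0) ≤
      ∑ q ∈ O, h0 q * (∏ l ∈ Z, h l q) * (if ((l0 : ℤ) ^ 2) ∣ fv q v then 1 else 0) := by
    apply Finset.sum_le_sum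
    intro q _
    apply mul_le_mul_of_nonneg_right
    · apply mul_le_mul_of_nonneg_left _ (h01 q).1
      rw [Finset.prod_union hdisj]
      have h3 : ∏ l ∈ S, h l q ≤ 1 := Finset.prod_le_one
        (fun l hl => ((hh l (mem_union_right _ hl)).2 q).1)
        (fun l hl => ((hh l (mem_union_right _ hl)).2 q).2)
      have h4 : 0 ≤ ∏ l ∈ Z, h l q := Finset.prod_nonneg fun l hl => ((hhZ l hl).2 q).1
      nlinarith
    · split_ifs <;> norm_num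
  refine h2.trans (h1.trans ?_)
  have hM0 : 0 ≤ MV m0 h0 := (MV_01 h01).1
  have hMZ : ∀ l ∈ Z, 0 ≤ MV l (h l) := fun l hl => (MV_01 (hhZ l hl).2).1
  have hO : (0 : ℝ) ≤ O.card := Nat.cast_nonneg _
  by_cases hc : l0 ∈ Z
  · simp only [if_pos hc]
    have h3 := hsq hc
    have h5 : ∏ l ∈ Z, MV l (h l) = (∏ l ∈ Z.erase l0, MV l (h l)) * MV l0 (h l0) :=
      (Finset.prod_erase_mul Z _ hc).symm
    have h6 : 0 ≤ ∏ l ∈ Z.erase l0, MV l (h l) :=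
      Finset.prod_nonneg fun l hl => hMZ l (Finset.mem_of_mem_erase hl)
    have h7 : 0 ≤ (O.card : ℝ) * MV m0 h0 * ∏ l ∈ Z.erase l0, MV l (h l) :=
      mul_nonneg (mul_nonneg hO hM0) h6
    have h8 : (O.card : ℝ) * MV m0 h0 * (∏ l ∈ Z.erase l0, MV l (h l)) *
        MV (l0 ^ 2) (fun q => h l0 q * (if ((l0 : ℤ) ^ 2) ∣ fv q v then 1 else 0)) ≤
        (O.card : ℝ) * MV m0 h0 * (∏ l ∈ Z.erase l0, MV l (h l)) *
          (C / l0 * MV l0 (h l0)) := mul_le_mul_of_nonneg_left h3 h7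
    have h9 : 0 ≤ (O.card : ℝ) * MV m0 h0 * (∏ l ∈ Z, MV l (h l)) * (4 / (l0 : ℝ) ^ 2) :=
      mul_nonneg (mul_nonneg (mul_nonneg hO hM0) (Finset.prod_nonneg hMZ)) (by positivity)
    have h10 : (O.card : ℝ) * MV m0 h0 * (∏ l ∈ Z.erase l0, MV l (h l)) *
          (C / l0 * MV l0 (h l0)) = (O.card : ℝ) * MV m0 h0 * (∏ l ∈ Z, MV l (h l)) *
          (C / l0) := by
      rw [h5]
      ring
    rw [mul_add]
    linarith
  · simp only [if_neg hc, Finset.erase_eq_of_notMem hc, one_mul, zero_add]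
    have h3 := MV_sq' hl0.1 h4 v hv
    have h6 := Finset.prod_nonneg hMZ
    have h7 : 0 ≤ (O.card : ℝ) * MV m0 h0 * ∏ l ∈ Z, MV l (h l) :=
      mul_nonneg (mul_nonneg hO hM0) h6
    have h8 := mul_le_mul_of_nonneg_left h3 h7
    linarith

open Classical in
/-- the sum outside of the square events -/
theorem ns7_abs {O : Finset (ℤ × ℤ × ℤ)} {L Er : ℝ} (hE : EqFam O (fun v => v) L Er) {m0 : ℕ}
    {Z S : Finset ℕ} {h0 : ℤ × ℤ × ℤ → ℝ} {h : ℕ → ℤ × ℤ × ℤ → ℝ} (hm0 : Nat.Coprime m0 R)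
    (hZS : ∀ l ∈ Z ∪ S, l.Prime ∧ ¬ l ∣ R ∧ Nat.Coprime m0 l) (hdisj : Disjoint Z S)
    (hp0 : Per3 m0 h0) (h01 : ∀ v, 0 ≤ h0 v ∧ h0 v ≤ 1)
    (hh : ∀ l ∈ Z ∪ S, Per3 l (h l) ∧ ∀ v, 0 ≤ h l v ∧ h l v ≤ 1) {E M : ℝ}
    (hs : M - E ≤ ∑ q ∈ O, h0 q * ∏ l ∈ Z ∪ S, h l q)
    {T : Finset ℕ} {P : ℝ} (hP : 1 ≤ P)
    (hT : ∀ l ∈ T, (l.Prime ∧ ¬ l ∣ R ∧ Nat.Coprime m0 l) ∧ Sp l ∧ P < (l : ℝ) ∧
      ((m0 * (∏ l ∈ Z, l) * l ^ 2 : ℕ) : ℝ) ≤ L) {V : Finset (ℤ × ℤ)}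
    (hV : ∀ v ∈ V, ∀ l : ℕ, l.Prime → ¬ ((l : ℤ) ∣ v.1 ∧ (l : ℤ) ∣ v.2)) {C : ℝ} (hC : 0 ≤ C)
    (hsq : ∀ l ∈ T, l ∈ Z → ∀ v ∈ V,
      MV (l ^ 2) (fun q => h l q * (if ((l : ℤ) ^ 2) ∣ fv q v then 1 else 0)) ≤
      C / l * MV l (h l)) :
    M - E - (V.card : ℝ) * (((O.card : ℝ) * MV m0 h0 * ∏ l ∈ Z, MV l (h l)) *
        ((Z.card : ℝ) * C / P + 8 / P) + (T.card : ℝ) * Er) ≤
      ∑ q ∈ O.filter (fun q => ∀ l ∈ T, ∀ v ∈ V, ¬ ((l : ℤ) ^ 2) ∣ fv q v),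
        h0 q * ∏ l ∈ Z ∪ S, h l q := by
  set F : ℤ × ℤ × ℤ → ℝ := fun q => h0 q * ∏ l ∈ Z ∪ S, h l q with hF
  have hF0 : ∀ q, 0 ≤ F q := fun q => mul_nonneg (h01 q).1
    (Finset.prod_nonneg fun l hl => ((hh l hl).2 q).1)
  have hhZ : ∀ l ∈ Z, Per3 l (h l) ∧ ∀ v, 0 ≤ h l v ∧ h l v ≤ 1 := fun l hl =>
    hh l (mem_union_left _ hl)
  have hM0 : 0 ≤ MV m0 h0 := (MV_01 h01).1
  have hMZ : ∀ l ∈ Z, 0 ≤ MV l (h l) := fun l hl => (MV_01 (hhZ l hl).2).1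
  have hMZ0 : 0 ≤ (O.card : ℝ) * MV m0 h0 * ∏ l ∈ Z, MV l (h l) :=
    mul_nonneg (mul_nonneg (Nat.cast_nonneg _) hM0) (Finset.prod_nonneg hMZ)
  set MZ := (O.card : ℝ) * MV m0 h0 * ∏ l ∈ Z, MV l (h l) with hMZd
  have h1 : ∑ q ∈ O.filter (fun q => ¬ ∀ l ∈ T, ∀ v ∈ V, ¬ ((l : ℤ) ^ 2) ∣ fv q v), F q ≤
      ∑ v ∈ V, ∑ l ∈ T, ∑ q ∈ O, F q * (if ((l : ℤ) ^ 2) ∣ fv q v then 1 else 0) := by
    have h2 : ∑ v ∈ V, ∑ l ∈ T, ∑ q ∈ O, F q * (if ((l : ℤ) ^ 2) ∣ fv q v then 1 else 0) =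
        ∑ q ∈ O, F q * ∑ v ∈ V, ∑ l ∈ T, (if ((l : ℤ) ^ 2) ∣ fv q v then (1 : ℝ) else 0) := by
      rw [Finset.sum_congr rfl fun v _ => Finset.sum_comm, Finset.sum_comm]
      refine Finset.sum_congr rfl fun q _ => ?_
      rw [Finset.mul_sum]
      refine Finset.sum_congr rfl fun v _ => ?_
      rw [Finset.mul_sum]
    rw [h2]
    calc ∑ q ∈ O.filter (fun q => ¬ ∀ l ∈ T, ∀ v ∈ V, ¬ ((l : ℤ) ^ 2) ∣ fv q v), F q
        ≤ ∑ q ∈ O.filter (fun q => ¬ ∀ l ∈ T, ∀ v ∈ V, ¬ ((l : ℤ) ^ 2) ∣ fv q v),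
          F q * ∑ v ∈ V, ∑ l ∈ T, (if ((l : ℤ) ^ 2) ∣ fv q v then (1 : ℝ) else 0) := by
          apply Finset.sum_le_sum
          intro q hq
          have h3 := (mem_filter.1 hq).2
          push Not at h3
          obtain ⟨l, hl, v, hv, hd⟩ := h3
          have h4 : (1 : ℝ) ≤ ∑ v ∈ V, ∑ l ∈ T,
              (if ((l : ℤ) ^ 2) ∣ fv q v then (1 : ℝ) else 0) := by
            calc (1 : ℝ) = (if ((l : ℤ) ^ 2) ∣ fv q v then (1 : ℝ) else 0) := by rw [if_pos hd]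
              _ ≤ ∑ l ∈ T, (if ((l : ℤ) ^ 2) ∣ fv q v then (1 : ℝ) else 0) :=
                Finset.single_le_sum (f := fun l : ℕ =>
                  (if ((l : ℤ) ^ 2) ∣ fv q v then (1 : ℝ) else 0))
                  (fun i _ => by split_ifs <;> norm_num) hl
              _ ≤ _ := Finset.single_le_sum (f := fun v : ℤ × ℤ => ∑ l ∈ T,
                  (if ((l : ℤ) ^ 2) ∣ fv q v then (1 : ℝ) else 0))
                  (fun i _ => Finset.sum_nonneg fun j _ => by split_ifs <;> norm_num) hv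
          have h5 := hF0 q
          nlinarith
      _ ≤ _ := by
          apply Finset.sum_le_sum_of_subset_of_nonneg (Finset.filter_subset _ _)
          intro q _ _
          apply mul_nonneg (hF0 q)
          exact Finset.sum_nonneg fun i _ => Finset.sum_nonneg fun j _ => by
            split_ifs <;> norm_num
  have h2 : ∑ v ∈ V, ∑ l ∈ T, ∑ q ∈ O, F q * (if ((l : ℤ) ^ 2) ∣ fv q v then 1 else 0) ≤
      ∑ v ∈ V, (MZ * ((Z.card : ℝ) * C / P + 8 / P) + (T.card : ℝ) * Er) := by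
    apply Finset.sum_le_sum
    intro v hv
    have h3 : ∑ l ∈ T, ∑ q ∈ O, F q * (if ((l : ℤ) ^ 2) ∣ fv q v then 1 else 0) ≤
        ∑ l ∈ T, (MZ * ((if l ∈ Z then C / l else 0) + 4 / (l : ℝ) ^ 2) + Er) := by
      apply Finset.sum_le_sum
      intro l hl
      obtain ⟨h4, h5, h6, h7⟩ := hT l hl
      exact ns7_one hE hm0 hZS hdisj hp0 h01 hh h4 h5 h7 (hV v hv l h4.1)
        (fun hlZ => hsq l hl hlZ v hv)
    refine h3.trans ?_
    rw [Finset.sum_add_distrib, ← Finset.mul_sum, Finset.sum_add_distrib, Finset.sum_const,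
      nsmul_eq_mul]
    have h8 : ∑ l ∈ T, (if l ∈ Z then C / (l : ℝ) else 0) ≤ (Z.card : ℝ) * C / P := by
      rw [← Finset.sum_filter]
      calc ∑ l ∈ T.filter (fun l => l ∈ Z), C / (l : ℝ) ≤
          ∑ l ∈ T.filter (fun l => l ∈ Z), C / P := by
            apply Finset.sum_le_sum
            intro l hl
            have h9 := (hT l (mem_filter.1 hl).1).2.2.1
            exact div_le_div_of_nonneg_left hC (by linarith) h9.le
        _ = ((T.filter (fun l => l ∈ Z)).card : ℝ) * (C / P) := by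
            rw [Finset.sum_const, nsmul_eq_mul]
        _ ≤ (Z.card : ℝ) * (C / P) := by
            apply mul_le_mul_of_nonneg_right _ (by positivity)
            exact_mod_cast Finset.card_le_card fun l hl => (mem_filter.1 hl).2
        _ = (Z.card : ℝ) * C / P := by ring
    have h9 := ns7_sq T P hP (fun l hl => (hT l hl).2.2.1)
    have h10 : MZ * (∑ l ∈ T, (if l ∈ Z then C / (l : ℝ) else 0) + ∑ l ∈ T, 4 / (l : ℝ) ^ 2) ≤
        MZ * ((Z.card : ℝ) * C / P + 8 / P) :=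
      mul_le_mul_of_nonneg_left (add_le_add h8 h9) hMZ0
    linarith
  rw [Finset.sum_const, nsmul_eq_mul] at h2
  have h3 : ∑ q ∈ O, F q = ∑ q ∈ O.filter (fun q => ∀ l ∈ T, ∀ v ∈ V, ¬ ((l : ℤ) ^ 2) ∣ fv q v),
      F q + ∑ q ∈ O.filter (fun q => ¬ ∀ l ∈ T, ∀ v ∈ V, ¬ ((l : ℤ) ^ 2) ∣ fv q v), F q :=
    (Finset.sum_filter_add_sum_filter_not O _ F).symm
  have h4 : M - E ≤ ∑ q ∈ O, F q := hs
  linarith

/-- the square events of a family of vectors -/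
def ns7_ev {k : ℕ} (p : Prm k) (X : ℕ) (V : Finset (ℤ × ℤ)) (q : ℤ × ℤ × ℤ) : Prop :=
  ∀ l : ℕ, Sp l → PP X < (l : ℝ) → (l : ℝ) ≤ p.Y X →
    ∀ v ∈ V, ¬ ((l : ℤ) ^ 2) ∣ fv q v

theorem ns7_pB (k : ℕ) : 100 * (k + 1) ^ 2 ≤ pB k ∧ R ≤ pB k := by
  unfold pB
  constructor <;> omega

theorem ns7_ndvd {P00 l : ℕ} (hP : pB k ≤ P00) (h : P00 < l) : ¬ l ∣ R := fun hd => by
  have h1 := Nat.le_of_dvd R_pos hd
  have h2 := (ns7_pB k).2
  omega

theorem ns7_R0_copR (P00 : ℕ) : Nat.Coprime (R0 P00) R := by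
  classical
  unfold R0
  apply Nat.Coprime.prod_left
  intro r hr
  rw [Finset.mem_filter] at hr
  exact (hr.2.prime.coprime_iff_not_dvd).2 hr.2.ndvd

theorem ns7_R0_cop {P00 l : ℕ} (hl : l.Prime) (h : P00 < l) : Nat.Coprime (R0 P00) l := by
  classical
  unfold R0
  apply Nat.Coprime.prod_left
  intro m hm
  rw [mem_filter, mem_Icc] at hm
  exact (Nat.coprime_primes hm.2.prime hl).2 (by omega)

open Classical in
theorem ns7_Sall {p : Prm k} {X P00 : ℕ} {u u' : Vec k} (hk : 2 ≤ k) (hu : GP p X u)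
    (hu' : GP p X u') :
    (Dall u * Dall u').primeFactors ∪ (Spr P00 (p.Y X)).filter (fun l => ¬ l ∣ Dall u * Dall u') =
      Sall p X P00 u u' := by
  have h1 := (hu.Dall_eq hk).2.2
  have h2 := (hu'.Dall_eq hk).2.2
  ext l
  unfold Sall
  simp only [mem_union, mem_filter, Nat.mem_primeFactors]
  constructor
  · rintro (h | h)
    · exact Or.inr h
    · exact Or.inl h.1
  · rintro (h | h)
    · by_cases h3 : l ∣ Dall u * Dall u'
      · refine Or.inl ⟨?_, h3, (Nat.mul_pos h1 h2).ne'⟩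
        unfold Spr at h
        exact (mem_filter.1 h).2.prime
      · exact Or.inr ⟨h, h3⟩
    · exact Or.inl h

theorem ns7_mem_Sall {p : Prm k} {X P00 : ℕ} {u u' : Vec k}
    (hPP : (P00 : ℝ) ≤ PP X) (hu : GP p X u)
    (hu' : GP p X u') {l : ℕ} (hl : l ∈ Sall p X P00 u u') :
    l.Prime ∧ P00 < l ∧ Sp l := by
  classical
  unfold Sall at hl
  rw [mem_union] at hl
  rcases hl with h | h
  · unfold Spr at h
    rw [mem_filter, mem_Ioc] at h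
    exact ⟨h.2.prime, h.1.1, h.2⟩
  · have h1 := Nat.prime_of_mem_primeFactors h
    have h2 := Nat.dvd_of_mem_primeFactors h
    rcases (Nat.Prime.dvd_mul h1).1 h2 with h3 | h3
    · have h4 := hu.prime_Dall h1 h3
      exact ⟨h1, by exact_mod_cast lt_of_le_of_lt hPP h4.2, h4.1⟩
    · have h4 := hu'.prime_Dall h1 h3
      exact ⟨h1, by exact_mod_cast lt_of_le_of_lt hPP h4.2, h4.1⟩

/-- the numbers -/
theorem ns7_num {V K M MZ C3 LC L C P Zc δ : ℝ} (hV : V ≤ K + 1) (hV0 : 0 ≤ V) (hMZ : 0 ≤ MZ)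
    (hMM : MZ ≤ M * (C3 * LC)) (hM : 0 ≤ M) (hC3 : 0 ≤ C3) (hLC : 0 ≤ LC) (hC : 0 ≤ C)
    (hL : 1 ≤ L) (hP : 0 < P) (hZc : Zc ≤ 2 * L) (hZ0 : 0 ≤ Zc) (hδ : 0 < δ)
    (hbig : (K + 1) * C3 * (2 * C + 8) * (2 / δ) * (LC * L) ≤ P) :
    V * (MZ * (Zc * C / P + 8 / P)) ≤ δ / 2 * M := by
  have h2 : Zc * C / P + 8 / P ≤ (2 * C + 8) * L / P := by
    rw [← add_div]
    apply div_le_div_of_nonneg_right _ hP.le
    nlinarith
  have h3 : MZ * (Zc * C / P + 8 / P) ≤ (M * (C3 * LC)) * ((2 * C + 8) * L / P) :=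
    mul_le_mul hMM h2 (by positivity) (by positivity)
  have h4 : V * (MZ * (Zc * C / P + 8 / P)) ≤
      (K + 1) * ((M * (C3 * LC)) * ((2 * C + 8) * L / P)) :=
    mul_le_mul hV h3 (by positivity) (by linarith)
  refine h4.trans ?_
  have h6 : (K + 1) * ((M * (C3 * LC)) * ((2 * C + 8) * L / P)) =
      (δ / 2 * M) * (((K + 1) * C3 * (2 * C + 8) * (2 / δ) * (LC * L)) / P) := by
    field_simp
  rw [h6]
  calc (δ / 2 * M) * (((K + 1) * C3 * (2 * C + 8) * (2 / δ) * (LC * L)) / P) ≤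
      (δ / 2 * M) * 1 := by
        apply mul_le_mul_of_nonneg_left _ (by positivity)
        rw [div_le_one hP]
        exact hbig
    _ = δ / 2 * M := mul_one _

open Classical in
/-- the core -/
theorem ns7_core (hk4 : 4 ≤ k) {C : ℝ} (hC : 0 < C) (κ c δ : ℝ) (hκ : 0 ≤ κ) (hc : 0 < c)
    (hδ : 0 < δ) (hδ1 : δ ≤ 1) : ∃ τ₀ : ℝ, 0 < τ₀ ∧ τ₀ ≤ 1 ∧ ∀ p : Prm k, p.Ok τ₀ → ∀ P00 : ℕ,
    ∃ X₀ : ℕ, ∀ X ≥ X₀, pB k ≤ P00 → (P00 : ℝ) ≤ PP X →
    ∀ O : Finset (ℤ × ℤ × ℤ), EqFam O (fun v => v) ((X : ℝ) ^ c) ((X : ℝ) ^ (1 - c)) →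
    ∀ u u' : Vec k, GP p X u → GP p X u' → ∀ V : Finset (ℤ × ℤ), V.card ≤ k + 1 →
    (∀ v ∈ V, ∀ l : ℕ, l.Prime → ¬ ((l : ℤ) ∣ v.1 ∧ (l : ℤ) ∣ v.2)) →
    ∀ h0 : ℤ × ℤ × ℤ → ℝ, Per3 (R0 P00) h0 → (∀ v, 0 ≤ h0 v ∧ h0 v ≤ 1) →
    ∀ h : ℕ → ℤ × ℤ × ℤ → ℝ,
    (∀ l ∈ Sall p X P00 u u', Per3 l (h l) ∧ ∀ v, 0 ≤ h l v ∧ h l v ≤ 1) →
    (∀ l ∈ Sall p X P00 u u', ¬ l ∣ Dall u * Dall u' →
      1 - MV l (h l) ≤ κ / l ∧ 1 - MV l (h l) ≤ 1 / 2) →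
    (∀ l ∈ Sall p X P00 u u', l ∣ Dall u * Dall u' → ∀ v ∈ V,
      MV (l ^ 2) (fun q => h l q * (if ((l : ℤ) ^ 2) ∣ fv q v then 1 else 0)) ≤
      C / l * MV l (h l)) →
    (1 - δ) * ((O.card : ℝ) * MV (R0 P00) h0 * ∏ l ∈ Sall p X P00 u u', MV l (h l)) ≤
      ∑ q ∈ O.filter (fun q => ns7_ev p X V q), h0 q * ∏ l ∈ Sall p X P00 u u', h l q +
        (X : ℝ) ^ (1 - c / 2) := by
  obtain ⟨ks, hks⟩ := sieve_q κ (δ / 2) hκ (by linarith) (by linarith)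
  obtain ⟨τ₀, hτ, hτ1, hlev⟩ := levels hk4 c hc ks
  obtain ⟨C3, hC3, hpl⟩ := prod_log κ hκ
  refine ⟨τ₀, hτ, hτ1, fun p hp P00 => ?_⟩
  obtain ⟨X₁, hX₁⟩ := hlev p hp P00
  obtain ⟨X₂, hX₂⟩ := GP.sizes (ns7_ok_mono hk4 hτ hτ1 hp) hk4
  obtain ⟨X₃, hX₃⟩ := ns7_PP ((k + 1) * C3 * (2 * C + 8) * (2 / δ)) (C3 + 1)
  refine ⟨max (max X₁ X₂) (max X₃ 3), fun X hX hP00 hPP O hO u u' hu hu' V hV hVp h0 hp0 h01 h hh
    hS hsq => ?_⟩
  have hX1 : X ≥ X₁ := le_trans (le_trans (le_max_left _ _) (le_max_left _ _)) hX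
  have hX2 : X ≥ X₂ := le_trans (le_trans (le_max_right _ _) (le_max_left _ _)) hX
  have hX3 : X ≥ X₃ := le_trans (le_trans (le_max_left _ _) (le_max_right _ _)) hX
  have hX4 : 3 ≤ X := le_trans (le_trans (le_max_right _ _) (le_max_right _ _)) hX
  obtain ⟨hD, hR, hY3, hPY, hYX⟩ := hX₁ X hX1 u u' hu hu'
  have hpB := (ns7_pB k).1
  have hsz := (hX₂ X hX2 u hu).2.2.1
  have hsz' := (hX₂ X hX2 u' hu').2.2.1
  have hbig := hX₃ X hX3
  have hXr : (3 : ℝ) ≤ X := by exact_mod_cast hX4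
  have hlog : 1 ≤ Real.log X := by
    rw [Real.le_log_iff_exp_le (by linarith)]
    have := Real.exp_one_lt_d9
    linarith
  have hPP1 := ns7_PP_pos X
  have hk2 : 2 ≤ k := by omega
  set YN := ⌊p.Y X⌋₊ with hYN
  set Z := (Dall u * Dall u').primeFactors with hZ
  set S := (Spr P00 (p.Y X)).filter (fun l => ¬ l ∣ Dall u * Dall u') with hSd
  have hZS : Z ∪ S = Sall p X P00 u u' := ns7_Sall hk2 hu hu'
  have hY1 : 1 ≤ YN := by
    rw [hYN, Nat.one_le_floor_iff]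
    linarith
  have hYNP : P00 ≤ YN := by
    rw [hYN]
    apply Nat.le_floor
    linarith
  have hYNk : k + 1 ≤ YN := by nlinarith
  have hYNr : (1 : ℝ) ≤ YN := by exact_mod_cast hY1
  have hmem : ∀ l ∈ Z ∪ S, l.Prime ∧ ¬ l ∣ R ∧ Nat.Coprime (R0 P00) l := by
    intro l hl
    rw [hZS] at hl
    obtain ⟨h1, h2, h3⟩ := ns7_mem_Sall hPP hu hu' hl
    exact ⟨h1, ns7_ndvd hP00 h2, ns7_R0_cop h1 h2⟩
  have hdisj : Disjoint Z S := by
    rw [Finset.disjoint_left]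
    intro l h1 h2
    rw [hSd, mem_filter] at h2
    rw [hZ] at h1
    exact h2.2 (Nat.dvd_of_mem_primeFactors h1)
  have hSY : ∀ l ∈ S, l ≤ YN := by
    intro l hl
    rw [hSd, mem_filter] at hl
    unfold Spr at hl
    rw [mem_filter, mem_Ioc] at hl
    exact hl.1.1.2
  have hhZS : ∀ l ∈ Z ∪ S, Per3 l (h l) ∧ ∀ v, 0 ≤ h l v ∧ h l v ≤ 1 := by
    rw [hZS]
    exact hh
  have hSS : ∀ l ∈ S, 1 - MV l (h l) ≤ κ / l ∧ 1 - MV l (h l) ≤ 1 / 2 := by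
    intro l hl
    apply hS l
    · rw [← hZS]
      exact mem_union_right _ hl
    · rw [hSd, mem_filter] at hl
      exact hl.2
  have hR0 : (0 : ℝ) ≤ (X : ℝ) ^ (1 - c) := Real.rpow_nonneg (by linarith) _
  have hm0nn : (0 : ℝ) ≤ ((R0 P00 * ∏ l ∈ Z, l : ℕ) : ℝ) := Nat.cast_nonneg _
  have hpow : (YN : ℝ) ^ ks ≤ (YN : ℝ) ^ (ks + 2) := pow_le_pow_right₀ hYNr (by omega)
  have hpow2 : (YN : ℝ) ^ 2 ≤ (YN : ℝ) ^ (ks + 2) := pow_le_pow_right₀ hYNr (by omega)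
  have hs := hks O _ _ hO hR0 YN (R0 P00) Z S h0 h hY1 (ns7_R0_copR P00) hmem hSY hdisj
    ((mul_le_mul_of_nonneg_left hpow hm0nn).trans hD) hp0 h01 hhZS hSS
  set M := (O.card : ℝ) * MV (R0 P00) h0 * ∏ l ∈ Z ∪ S, MV l (h l) with hM
  set Er := (X : ℝ) ^ (1 - c) with hRd
  have hM0 : 0 ≤ MV (R0 P00) h0 := (MV_01 h01).1
  have hMVn : ∀ l ∈ Z ∪ S, 0 ≤ MV l (h l) := fun l hl => (MV_01 (hhZS l hl).2).1
  have hMn : 0 ≤ M := mul_nonneg (mul_nonneg (Nat.cast_nonneg _) hM0) (Finset.prod_nonneg hMVn)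
  set T := (Icc 1 YN).filter (fun l : ℕ => Sp l ∧ PP X < (l : ℝ)) with hT
  have hTm : ∀ l ∈ T, (l.Prime ∧ ¬ l ∣ R ∧ Nat.Coprime (R0 P00) l) ∧ Sp l ∧ PP X < (l : ℝ) ∧
      ((R0 P00 * (∏ l ∈ Z, l) * l ^ 2 : ℕ) : ℝ) ≤ (X : ℝ) ^ c := by
    intro l hl
    rw [hT, mem_filter, mem_Icc] at hl
    obtain ⟨⟨h1, h2⟩, h4, h5⟩ := hl
    have h3 := h4.prime
    have h6 : P00 < l := by exact_mod_cast lt_of_le_of_lt hPP h5
    refine ⟨⟨h3, ns7_ndvd hP00 h6, ns7_R0_cop h3 h6⟩, h4, h5, ?_⟩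
    refine le_trans ?_ hD
    rw [Nat.cast_mul, Nat.cast_pow]
    apply mul_le_mul_of_nonneg_left _ hm0nn
    refine le_trans ?_ hpow2
    have h7 : (l : ℝ) ≤ YN := by exact_mod_cast h2
    exact pow_le_pow_left₀ (Nat.cast_nonneg _) h7 2
  have hsT : ∀ l ∈ T, l ∈ Z → ∀ v ∈ V,
      MV (l ^ 2) (fun q => h l q * (if ((l : ℤ) ^ 2) ∣ fv q v then 1 else 0)) ≤
      C / l * MV l (h l) := by
    intro l _ hlZ v hv
    apply hsq l _ _ v hv
    · rw [← hZS]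
      exact mem_union_left _ hlZ
    · rw [hZ] at hlZ
      exact Nat.dvd_of_mem_primeFactors hlZ
  have hab := (abs_le.1 hs).1
  have h1 := ns7_abs hO (ns7_R0_copR P00) hmem hdisj hp0 h01 hhZS (M := M)
    (E := δ / 2 * M + (YN : ℝ) ^ ks * Er) (by linarith) hPP1 hTm hVp hC.le hsT
  have hfil : O.filter (fun q => ∀ l ∈ T, ∀ v ∈ V, ¬ ((l : ℤ) ^ 2) ∣ fv q v) =
      O.filter (fun q => ns7_ev p X V q) := by
    apply Finset.filter_congr
    intro q _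
    unfold ns7_ev
    constructor
    · intro h2 l h4 h5 h6 v hv
      apply h2 l _ v hv
      rw [hT, mem_filter, mem_Icc]
      exact ⟨⟨h4.prime.one_le, Nat.le_floor h6⟩, h4, h5⟩
    · intro h2 l hl v hv
      rw [hT, mem_filter, mem_Icc] at hl
      exact h2 l hl.2.1 hl.2.2
        ((Nat.le_floor_iff (by linarith)).1 hl.1.2) v hv
  rw [hfil] at h1
  rw [hZS] at h1 hM
  -- the size of the events
  set MZ := (O.card : ℝ) * MV (R0 P00) h0 * ∏ l ∈ Z, MV l (h l) with hMZ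
  have hMZn : 0 ≤ MZ := mul_nonneg (mul_nonneg (Nat.cast_nonneg _) hM0)
    (Finset.prod_nonneg fun l hl => hMVn l (mem_union_left _ hl))
  have hlY : 0 < Real.log (p.Y X) := Real.log_pos (by linarith)
  have hlYX : Real.log (p.Y X) ≤ Real.log X := Real.log_le_log (by linarith) hYX
  have hMMZ : MZ ≤ M * (C3 * Real.log X ^ C3) := by
    have h2 := (hpl (p.Y X) S (fun l => 1 - MV l (h l)) hY3
      (fun l hl => ⟨(hmem l (mem_union_right _ hl)).1,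
        (Nat.le_floor_iff (by linarith)).1 (hSY l hl)⟩)
      (fun l hl => ⟨by
        have h8 : MV l (h l) ≤ 1 := (MV_01 (hhZS l (mem_union_right _ hl)).2).2
        linarith, (hSS l hl).1⟩)).2 (fun l hl => (hSS l hl).2)
    simp only [sub_sub_cancel] at h2
    have h3 : 0 < C3 * Real.log (p.Y X) ^ C3 := mul_pos hC3 (Real.rpow_pos_of_pos hlY _)
    have h4 : C3 * Real.log (p.Y X) ^ C3 ≤ C3 * Real.log X ^ C3 :=
      mul_le_mul_of_nonneg_left (Real.rpow_le_rpow hlY.le hlYX hC3.le) hC3.le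
    have h5 : M = MZ * ∏ l ∈ S, MV l (h l) := by
      rw [hM, ← hZS, Finset.prod_union hdisj, hMZ]
      ring
    have h6 : 1 ≤ (∏ l ∈ S, MV l (h l)) * (C3 * Real.log (p.Y X) ^ C3) := by
      rw [div_le_iff₀ h3] at h2
      exact h2
    have h7 : 0 ≤ ∏ l ∈ S, MV l (h l) :=
      Finset.prod_nonneg fun l hl => hMVn l (mem_union_right _ hl)
    calc MZ = MZ * 1 := (mul_one _).symm
      _ ≤ MZ * ((∏ l ∈ S, MV l (h l)) * (C3 * Real.log (p.Y X) ^ C3)) :=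
        mul_le_mul_of_nonneg_left h6 hMZn
      _ = M * (C3 * Real.log (p.Y X) ^ C3) := by
        rw [h5]
        ring
      _ ≤ M * (C3 * Real.log X ^ C3) := mul_le_mul_of_nonneg_left h4 hMn
  have hVr : (V.card : ℝ) ≤ k + 1 := by exact_mod_cast hV
  have hZc : (Z.card : ℝ) ≤ 2 * Real.log X := by
    have h2 : Z ⊆ (Dall u).primeFactors ∪ (Dall u').primeFactors := by
      rw [hZ, Nat.primeFactors_mul (hu.Dall_eq hk2).2.2.ne' (hu'.Dall_eq hk2).2.2.ne']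
    have h3 : Z.card ≤ (Dall u).primeFactors.card + (Dall u').primeFactors.card :=
      (Finset.card_le_card h2).trans (Finset.card_union_le _ _)
    have h4 : (Z.card : ℝ) ≤ ((Dall u).primeFactors.card : ℝ) + (Dall u').primeFactors.card := by
      exact_mod_cast h3
    linarith
  have hTc : (T.card : ℝ) ≤ YN := by
    have h2 : T.card ≤ (Icc 1 YN).card := Finset.card_filter_le _ _
    rw [Nat.card_Icc] at h2
    exact_mod_cast (by omega : T.card ≤ YN)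
  have hPPp : 0 < PP X := by linarith
  have hterm : (V.card : ℝ) * (MZ * ((Z.card : ℝ) * C / PP X + 8 / PP X)) ≤ δ / 2 * M := by
    have h5 : Real.log X ^ (C3 + 1) = Real.log X ^ C3 * Real.log X := by
      rw [Real.rpow_add (by linarith), Real.rpow_one]
    rw [h5] at hbig
    exact ns7_num hVr (Nat.cast_nonneg _) hMZn hMMZ hMn hC3.le
      (Real.rpow_nonneg (by linarith) _) hC.le hlog hPPp hZc (Nat.cast_nonneg _) hδ hbig
  have herr : (YN : ℝ) ^ ks * Er + (V.card : ℝ) * ((T.card : ℝ) * Er) ≤ (X : ℝ) ^ (1 - c / 2) := by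
    have h2 : (V.card : ℝ) * (T.card : ℝ) ≤ (YN : ℝ) ^ (ks + 2) := by
      refine le_trans ?_ hpow2
      have h3 : (V.card : ℝ) ≤ YN := by
        have : ((k + 1 : ℕ) : ℝ) ≤ YN := by exact_mod_cast hYNk
        push_cast at this
        linarith
      calc (V.card : ℝ) * (T.card : ℝ) ≤ (YN : ℝ) * YN :=
            mul_le_mul h3 hTc (Nat.cast_nonneg _) (Nat.cast_nonneg _)
        _ = (YN : ℝ) ^ 2 := by ring
    have h4 : (YN : ℝ) ^ ks * Er ≤ (YN : ℝ) ^ (ks + 2) * Er := mul_le_mul_of_nonneg_right hpow hR0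
    have h5 : (V.card : ℝ) * ((T.card : ℝ) * Er) ≤ (YN : ℝ) ^ (ks + 2) * Er := by
      rw [← mul_assoc]
      exact mul_le_mul_of_nonneg_right h2 hR0
    have h6 : 0 ≤ (X : ℝ) ^ (1 - c / 2) := Real.rpow_nonneg (by linarith) _
    linarith
  have hfin : (V.card : ℝ) * (MZ * ((Z.card : ℝ) * C / PP X + 8 / PP X) + (T.card : ℝ) * Er) =
      (V.card : ℝ) * (MZ * ((Z.card : ℝ) * C / PP X + 8 / PP X)) +
        (V.card : ℝ) * ((T.card : ℝ) * Er) := by ring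
  rw [hfin] at h1
  have hMS : (O.card : ℝ) * MV (R0 P00) h0 * ∏ l ∈ Sall p X P00 u u', MV l (h l) = M := by
    rw [hM]
  rw [hMS]
  linarith

theorem ns7_okf_01 (P00 : ℕ) (u : Vec k) (q : ℤ × ℤ × ℤ) : 0 ≤ okf P00 u q := by
  unfold okf
  split_ifs <;> norm_num

theorem ns7_Mp_nn (p : Prm k) (X P00 : ℕ) (q : ℤ × ℤ × ℤ) (f : ℕ × ℕ) : 0 ≤ Mp p X P00 q f :=
  Finset.sum_nonneg fun u _ => (gk_01 p X P00 q u).1

theorem ns7_kap_01 (p : Prm k) (X P00 : ℕ) (m : ℝ) (u u' : Vec k) (q : ℤ × ℤ × ℤ) :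
    0 ≤ kap p X P00 m u u' q ∧ kap p X P00 m u u' q ≤ 1 := by
  unfold kap
  refine ⟨le_min zero_le_one ?_, min_le_left _ _⟩
  exact mul_nonneg (sq_nonneg _) (div_nonneg (mul_nonneg (ns7_okf_01 _ _ _) (ns7_okf_01 _ _ _))
    (mul_nonneg (ns7_Mp_nn _ _ _ _ _) (ns7_Mp_nn _ _ _ _ _)))

theorem ns7_gl_01 (p : Prm k) (X : ℕ) (u : Vec k) {l : ℕ} (hl : l.Prime) :
    0 ≤ gl p X u l ∧ gl p X u l ≤ 1 := by
  have h1 : (1 : ℝ) ≤ l := by exact_mod_cast hl.one_le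
  unfold gl
  split_ifs with h2 h3 h4
  · constructor
    · positivity
    · rw [div_mul_div_comm, div_le_one (by positivity)]
      linarith
  · constructor
    · positivity
    · rw [mul_one, div_le_one (by positivity)]
      linarith
  · norm_num
  · exact MV_01 (Iv_01 p X u l)

theorem ns7_Sall_symm (p : Prm k) (X P00 : ℕ) (u u' : Vec k) :
    Sall p X P00 u' u = Sall p X P00 u u' := by
  unfold Sall
  rw [mul_comm]

theorem ns7_per_mul {l : ℕ} {a b : ℤ × ℤ × ℤ → ℝ} (ha : Per3 l a) (hb : Per3 l b) :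
    Per3 l (fun q => a q * b q) := by
  intro v w h1 h2 h3
  show a v * b v = a w * b w
  rw [ha v w h1 h2 h3, hb v w h1 h2 h3]

theorem ns7_01_mul {a b : ℤ × ℤ × ℤ → ℝ} (ha : ∀ q, 0 ≤ a q ∧ a q ≤ 1)
    (hb : ∀ q, 0 ≤ b q ∧ b q ≤ 1) : ∀ q, 0 ≤ a q * b q ∧ a q * b q ≤ 1 := fun q =>
  ⟨mul_nonneg (ha q).1 (hb q).1, mul_le_one₀ (ha q).2 (hb q).1 (hb q).2⟩

theorem ns7_e12 {l : ℕ} (hl : l.Prime) {v : ℤ × ℤ} (hv : v = (1, 0) ∨ v = z) :
    ¬ ((l : ℤ) ∣ v.1 ∧ (l : ℤ) ∣ v.2) := by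
  have h1 : ¬ ((l : ℤ) ∣ 1) := by
    intro h
    have h2 : l ∣ 1 := by exact_mod_cast h
    exact hl.one_lt.ne' (Nat.dvd_one.1 h2)
  rcases hv with rfl | rfl
  · exact fun h => h1 h.1
  · exact fun h => h1 (z_cop.isUnit_of_dvd' h.1 h.2).dvd

theorem ns7_not_dvd {p : Prm k} {X : ℕ} {u u' : Vec k} (hk2 : 2 ≤ k) (hu : GP p X u)
    (hu' : GP p X u') {l : ℕ} (h : ¬ l ∣ Dall u * Dall u') :
    ¬ l ∣ Dall u ∧ ¬ l ∣ Dall u' ∧ ¬ l ∣ (fE u).1 * (fE u).2 ∧ ¬ l ∣ (fE u').1 * (fE u').2 := by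
  have h1 : ¬ l ∣ Dall u := fun h1 => h (h1.mul_right _)
  have h2 : ¬ l ∣ Dall u' := fun h1 => h (h1.mul_left _)
  refine ⟨h1, h2, fun h3 => h1 ?_, fun h3 => h2 ?_⟩
  · rw [(hu.Dall_eq hk2).1]
    exact h3.mul_right _
  · rw [(hu'.Dall_eq hk2).1]
    exact h3.mul_right _

theorem ns7_fE_primes {p : Prm k} {X : ℕ} {u : Vec k} (hk2 : 2 ≤ k) (hu : GP p X u) :
    ((fE u).1 * (fE u).2).primeFactors ⊆ (Dall u).primeFactors := by
  apply Nat.primeFactors_mono _ (hu.Dall_eq hk2).2.2.ne'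
  rw [(hu.Dall_eq hk2).1]
  exact dvd_mul_right _ _

open Classical in
/-- NS7 -/
theorem GG_low (hk : Even k) (hk4 : 4 ≤ k) {C : ℝ} (hC : Loc k C) (c δ : ℝ) (hc : 0 < c)
    (hδ : 0 < δ) (hδ1 : δ ≤ 1) : ∃ τ₀ : ℝ, 0 < τ₀ ∧ ∀ p : Prm k, p.Ok τ₀ → ∀ P00 : ℕ,
    ∃ X₀ : ℕ, ∀ X ≥ X₀, ∀ (m : ℝ) (O : Finset (ℤ × ℤ × ℤ)), Sit p X P00 m c O →
    ∀ u u' : Vec k, GP p X u → GP p X u' → C0 u u' →
      (1 - δ) * GM p X P00 m O u u' ≤
        m ^ 2 * ∑ q ∈ O, Gn p X P00 q u * Gn p X P00 q u' + (X : ℝ) ^ (1 - c / 2) := by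
  obtain ⟨τ₀, hτ, hτ1, H⟩ := ns7_core hk4 hC.pos 8 c δ (by norm_num) hc hδ hδ1
  refine ⟨τ₀, hτ, fun p hp P00 => ?_⟩
  obtain ⟨X₀, hX₀⟩ := H p hp P00
  refine ⟨max X₀ 1, fun X hX m O hS u u' hu hu' hC0 => ?_⟩
  have hk2 : 2 ≤ k := by omega
  have hX1 : X ≥ X₀ := le_trans (le_max_left _ _) hX
  have hP2 : pB k ≤ P00 := hS.hP
  have hpB := (ns7_pB k).1
  set V : Finset (ℤ × ℤ) := {((1 : ℤ), (0 : ℤ)), z} with hV
  have hVc : V.card ≤ k + 1 := by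
    have h1 : V.card ≤ 2 := by
      rw [hV]
      exact Finset.card_le_two
    omega
  have hVm : ∀ v ∈ V, v = (1, 0) ∨ v = z := by
    intro v hv
    rw [hV, mem_insert, mem_singleton] at hv
    exact hv
  have hmem := fun l (hl : l ∈ Sall p X P00 u u') => ns7_mem_Sall hS.hPP hu hu' hl
  have h1 := hX₀ X hX1 hS.hP hS.hPP O hS.eq u u' hu hu' V hVc
    (fun v hv l hl => ns7_e12 hl (hVm v hv)) (kap p X P00 m u u') (per_kap p X P00 m u u')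
    (ns7_kap_01 p X P00 m u u') (fun l q => Ef p X (fE u) l q * Ef p X (fE u') l q)
    (fun l hl => ⟨ns7_per_mul (per_Ef _ _ _ _) (per_Ef _ _ _ _),
      ns7_01_mul (Ef_01 _ _ _ _) (Ef_01 _ _ _ _)⟩)
    (by
      intro l hl hd
      obtain ⟨h1, h2, h3, h4⟩ := ns7_not_dvd hk2 hu hu' hd
      obtain ⟨hlp, hlP, hl4⟩ := hmem l hl
      have h5 : (fun q => Ef p X (fE u) l q * Ef p X (fE u') l q) =
          PW ((univ : Finset Bool).disjSum (univ : Finset Bool))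
            (Sum.elim (fun i => if i then ((1, 0) : ℤ × ℤ) else z)
              (fun i => if i then ((1, 0) : ℤ × ℤ) else z))
            (Sum.elim (fun _ => wyV k (PP X) (p.Y X) 0 l) (fun _ => wyV k (PP X) (p.Y X) 0 l))
            l := by
        funext q
        rw [Ef_out p X _ h3 hlp, Ef_out p X _ h4 hlp]
        unfold Ev
        exact PW_mul _ _ _ _ _ _ _ _
      have h6 := PW_ge ((univ : Finset Bool).disjSum (univ : Finset Bool))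
            (Sum.elim (fun i => if i then ((1, 0) : ℤ × ℤ) else z)
              (fun i => if i then ((1, 0) : ℤ × ℤ) else z))
            (Sum.elim (fun _ => wyV k (PP X) (p.Y X) 0 l) (fun _ => wyV k (PP X) (p.Y X) 0 l))
            (by
              intro i _
              rcases i with i | i
              · exact wyV_01 _ _ _ _ _
              · exact wyV_01 _ _ _ _ _) hlp hl4
            (by
              intro i _
              rcases i with i | i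
              · apply ns7_e12 hlp
                cases i
                · exact Or.inr rfl
                · exact Or.inl rfl
              · apply ns7_e12 hlp
                cases i
                · exact Or.inr rfl
                · exact Or.inl rfl)
      show 1 - MV l (fun q => Ef p X (fE u) l q * Ef p X (fE u') l q) ≤ 8 / l ∧
        1 - MV l (fun q => Ef p X (fE u) l q * Ef p X (fE u') l q) ≤ 1 / 2
      rw [h5]
      have h7 : (((univ : Finset Bool).disjSum (univ : Finset Bool)).card : ℝ) = 4 := by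
        rw [Finset.card_disjSum]
        norm_num
      rw [h7] at h6
      have h8 : (16 : ℝ) ≤ l := by
        have h9 : 16 ≤ l := by
          have := hS.hP
          nlinarith
        exact_mod_cast h9
      have h9 : 2 * (4 : ℝ) / l ≤ 1 / 2 := by
        rw [div_le_iff₀ (by linarith)]
        linarith
      have h10 : 2 * (4 : ℝ) / l = 8 / l := by norm_num
      constructor
      · rw [← h10]
        linarith
      · linarith)
    (fun l hl hd v hv => hC.sg p X P00 hS.hP hS.hPP u u' hu hu' hC0 l hl hd v (hVm v hv))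
  set G := ∏ l ∈ Sall p X P00 u u', (gl p X u l * gl p X u' l) with hG
  have hG0 : 0 ≤ G := Finset.prod_nonneg fun l hl =>
    mul_nonneg (ns7_gl_01 p X u (hmem l hl).1).1 (ns7_gl_01 p X u' (hmem l hl).1).1
  have hG1 : G ≤ 1 := Finset.prod_le_one (fun l hl =>
    mul_nonneg (ns7_gl_01 p X u (hmem l hl).1).1 (ns7_gl_01 p X u' (hmem l hl).1).1)
    (fun l hl => mul_le_one₀ (ns7_gl_01 p X u (hmem l hl).1).2
      (ns7_gl_01 p X u' (hmem l hl).1).1 (ns7_gl_01 p X u' (hmem l hl).1).2)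
  have hGM : GM p X P00 m O u u' = ((O.card : ℝ) * MV (R0 P00) (kap p X P00 m u u') *
      ∏ l ∈ Sall p X P00 u u', MV l (fun q => Ef p X (fE u) l q * Ef p X (fE u') l q)) * G := by
    unfold GM
    rw [hG, mul_assoc ((O.card : ℝ) * MV (R0 P00) (kap p X P00 m u u')), ← Finset.prod_mul_distrib]
    rfl
  have hpt : ∀ q ∈ O.filter (fun q => ns7_ev p X V q),
      (kap p X P00 m u u' q * ∏ l ∈ Sall p X P00 u u',
        (Ef p X (fE u) l q * Ef p X (fE u') l q)) * G =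
      m ^ 2 * (Gn p X P00 q u * Gn p X P00 q u') := by
    intro q hq
    rw [mem_filter] at hq
    obtain ⟨hqO, hev⟩ := hq
    have hdisc := hS.disc q hqO
    have hsub : (Dall u).primeFactors ⊆ Sall p X P00 u u' := by
      intro l hl
      unfold Sall
      apply mem_union_right
      rw [Nat.primeFactors_mul (hu.Dall_eq hk2).2.2.ne' (hu'.Dall_eq hk2).2.2.ne']
      exact mem_union_left _ hl
    have hsub' : (Dall u').primeFactors ⊆ Sall p X P00 u u' := by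
      intro l hl
      unfold Sall
      apply mem_union_right
      rw [Nat.primeFactors_mul (hu.Dall_eq hk2).2.2.ne' (hu'.Dall_eq hk2).2.2.ne']
      exact mem_union_right _ hl
    have hsubS : Spr P00 (p.Y X) ⊆ Sall p X P00 u u' := by
      intro l hl
      unfold Sall
      exact mem_union_left _ hl
    have he : ∀ l : ℕ, Sp l → PP X < (l : ℝ) → (l : ℝ) ≤ p.Y X →
        ¬ ((l : ℤ) ^ 2) ∣ q.1 ∧ ¬ ((l : ℤ) ^ 2) ∣ fv q z := by
      intro l h3 h4 h5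
      constructor
      · have h6 := hev l h3 h4 h5 (1, 0) (by rw [hV]; simp)
        have h7 : fv q (1, 0) = q.1 := by
          unfold fv qf
          ring
        rwa [h7] at h6
      · exact hev l h3 h4 h5 z (by rw [hV]; simp)
    have hw := wend_eq hS.hPP hP2 (hu.fE_mem hk2) hdisc (Sall p X P00 u u')
      (fun l hl => ⟨(hmem l hl).1, (hmem l hl).2.1⟩)
      ((ns7_fE_primes hk2 hu).trans hsub) hsubS he
    have hw' := wend_eq hS.hPP hP2 (hu'.fE_mem hk2) hdisc (Sall p X P00 u u')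
      (fun l hl => ⟨(hmem l hl).1, (hmem l hl).2.1⟩)
      ((ns7_fE_primes hk2 hu').trans hsub') hsubS he
    have hg := gk_eq hk4 hS.hPP hP2 hu hu' q
    have hg' := gk_eq hk4 hS.hPP hP2 hu' hu q
    rw [ns7_Sall_symm] at hg'
    have hκ := kap_eq hp.c10 hk4 hS.m0 (fun f hf => hS.hM f hf q hdisc) hu hu'
    unfold Gn
    rw [hκ, hw, hw', hg, hg', hG, Finset.prod_mul_distrib, Finset.prod_mul_distrib]
    ring
  have hsum : m ^ 2 * ∑ q ∈ O, Gn p X P00 q u * Gn p X P00 q u' ≥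
      (∑ q ∈ O.filter (fun q => ns7_ev p X V q), kap p X P00 m u u' q *
        ∏ l ∈ Sall p X P00 u u', (Ef p X (fE u) l q * Ef p X (fE u') l q)) * G := by
    rw [Finset.sum_mul, Finset.sum_congr rfl hpt, ← Finset.mul_sum]
    apply mul_le_mul_of_nonneg_left _ (sq_nonneg _)
    apply Finset.sum_le_sum_of_subset_of_nonneg (Finset.filter_subset _ _)
    intro q _ _
    have hGn : ∀ w : Vec k, 0 ≤ Gn p X P00 q w := fun w =>
      div_nonneg (mul_nonneg (wend_01 p X q _).1 (gk_01 p X P00 q w).1) (ns7_Mp_nn _ _ _ _ _)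
    exact mul_nonneg (hGn u) (hGn u')
  have hXn : 0 ≤ (X : ℝ) ^ (1 - c / 2) := Real.rpow_nonneg (Nat.cast_nonneg _) _
  have h2 := mul_le_mul_of_nonneg_right h1 hG0
  rw [hGM]
  have h3 : (X : ℝ) ^ (1 - c / 2) * G ≤ (X : ℝ) ^ (1 - c / 2) := by
    calc (X : ℝ) ^ (1 - c / 2) * G ≤ (X : ℝ) ^ (1 - c / 2) * 1 :=
          mul_le_mul_of_nonneg_left hG1 hXn
      _ = _ := mul_one _
  rw [add_mul] at h2
  have h4 : (1 - δ) * (((O.card : ℝ) * MV (R0 P00) (kap p X P00 m u u') *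
      ∏ l ∈ Sall p X P00 u u', MV l (fun q => Ef p X (fE u) l q * Ef p X (fE u') l q)) * G) =
      (1 - δ) * ((O.card : ℝ) * MV (R0 P00) (kap p X P00 m u u') *
      ∏ l ∈ Sall p X P00 u u', MV l (fun q => Ef p X (fE u) l q * Ef p X (fE u') l q)) * G := by
    ring
  rw [h4]
  linarith

end Pool.Agent.AQ.NC
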