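import Pool.Agent.Lib_helper8.AQ.NCDefs
import Pool.Agent.Lib_helper88.AQN.NA2
import Pool.Agent.Lib_helper88.AQN.NA4
import Pool.Agent.Lib_helper88.AQN.NA5

set_option autoImplicit false

namespace Pool.Agent.AQ.NC

open Finset Pool.Agent.PENT Pool.Agent.PENT.EQ

variable [Cst] {k : ℕ}

/-! ### arithmetic of the form -/

theorem na6_prim_mod {u : ℤ × ℤ} (h : IsCoprime u.1 u.2) {l : ℕ} (hl : l.Prime)
    (h1 : (l : ℤ) ∣ u.1) (h2 : (l : ℤ) ∣ u.2) : False := by
  obtain ⟨a, b, hab⟩ := h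
  have h3 : (l : ℤ) ∣ 1 := by
    rw [← hab]
    exact dvd_add (h1.mul_left _) (h2.mul_left _)
  have h4 : l ∣ 1 := by exact_mod_cast h3
  exact hl.one_lt.ne' (Nat.dvd_one.1 h4)

theorem na6_three {q : ℤ × ℤ × ℤ} (hq : q.1 * q.2.2 - q.2.1 ^ 2 = D) {u : ℤ × ℤ}
    (h : IsCoprime u.1 u.2) {l : ℕ} (hl : l.Prime) (hlR : ¬ l ∣ R) (hd : (l : ℤ) ∣ fv q u) :
    Sp l := by
  have hp : Prime (l : ℤ) := Nat.prime_iff_prime_int.1 hl
  have h2 : (q.1 * u.1 + q.2.1 * u.2) ^ 2 + D * u.2 ^ 2 = q.1 * fv q u := by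
    unfold fv qf
    linear_combination (-u.2 ^ 2) * hq
  have h3 : (l : ℤ) ∣ (q.1 * u.1 + q.2.1 * u.2) ^ 2 + D * u.2 ^ 2 := by
    rw [h2]
    exact hd.mul_left _
  refine ⟨hl, hlR, ?_⟩
  by_cases h4 : (l : ℤ) ∣ u.2
  · have h5 : (l : ℤ) ∣ (q.1 * u.1 + q.2.1 * u.2) ^ 2 := by
      have h6 : (l : ℤ) ∣ D * u.2 ^ 2 := (h4.trans (dvd_pow_self _ two_ne_zero)).mul_left _
      exact (dvd_add_left h6).1 h3
    have h6 : (l : ℤ) ∣ q.1 * u.1 + q.2.1 * u.2 := hp.dvd_of_dvd_pow h5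
    have h7 : (l : ℤ) ∣ q.1 * u.1 := (dvd_add_left (h4.mul_left _)).1 h6
    have h8 : (l : ℤ) ∣ q.1 := by
      rcases hp.dvd_or_dvd h7 with h9 | h9
      · exact h9
      · exact (na6_prim_mod h hl h9 h4).elim
    refine ⟨q.2.1, ?_⟩
    have h9 : q.2.1 ^ 2 + D = q.1 * q.2.2 := by rw [← hq]; ring
    rw [h9]
    exact h8.mul_right _
  · have h5 : IsCoprime (u.2) (l : ℤ) := ((Prime.coprime_iff_not_dvd hp).2 h4).symm
    obtain ⟨a, b, hab⟩ := h5
    refine ⟨(q.1 * u.1 + q.2.1 * u.2) * a, ?_⟩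
    have h6 : ((q.1 * u.1 + q.2.1 * u.2) * a) ^ 2 + D =
        a ^ 2 * ((q.1 * u.1 + q.2.1 * u.2) ^ 2 + D * u.2 ^ 2) +
          (l : ℤ) * (D * b * (1 + a * u.2)) := by
      linear_combination (-D * (1 + a * u.2)) * hab
    rw [h6]
    exact dvd_add (h3.mul_left _) (dvd_mul_right _ _)

theorem na6_ndR {k P00 l : ℕ} (hP2 : pB k ≤ P00) (hlP : P00 < l) : ¬ l ∣ R := by
  intro h
  have h1 := Nat.le_of_dvd R_pos h
  have h2 : R ≤ pB k := by
    unfold pB
    omega
  omega

theorem na6_line {q : ℤ × ℤ × ℤ} {u v : ℤ × ℤ} (h : IsCoprime u.1 u.2) {l : ℕ} (hl : l.Prime)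
    (hd : (l : ℤ) ∣ dt u v) (hu : (l : ℤ) ∣ fv q u) : (l : ℤ) ∣ fv q v := by
  have hp : Prime (l : ℤ) := Nat.prime_iff_prime_int.1 hl
  have h1 : (l : ℤ) ∣ u.1 ^ 2 * fv q v := by
    have : u.1 ^ 2 * fv q v = v.1 ^ 2 * fv q u +
        dt u v * (2 * q.2.1 * u.1 * v.1 + q.2.2 * (u.1 * v.2 + u.2 * v.1)) := by
      unfold fv qf dt
      ring
    rw [this]
    exact dvd_add (hu.mul_left _) (hd.mul_right _)
  have h2 : (l : ℤ) ∣ u.2 ^ 2 * fv q v := by
    have : u.2 ^ 2 * fv q v = v.2 ^ 2 * fv q u +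
        dt u v * (-(q.1 * (u.1 * v.2 + u.2 * v.1) + 2 * q.2.1 * u.2 * v.2)) := by
      unfold fv qf dt
      ring
    rw [this]
    exact dvd_add (hu.mul_left _) (hd.mul_right _)
  rcases hp.dvd_or_dvd h1 with h3 | h3
  · rcases hp.dvd_or_dvd h2 with h4 | h4
    · exact absurd (hp.dvd_of_dvd_pow h4) fun h5 =>
        na6_prim_mod h hl (hp.dvd_of_dvd_pow h3) h5
    · exact h4
  · exact h3

theorem na6_dt_comm (u v : ℤ × ℤ) : dt v u = -dt u v := by
  unfold dt
  ring

theorem na6_dE (u : Vec k) (j : Fin k) :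
    dE u (j.val + 1) = (dt (u j.castSucc) (u j.succ)).natAbs := by
  unfold dE
  rw [dif_pos ⟨by omega, by have := j.2; omega⟩]
  rfl

/-- `P < Y` or there is no prime `≤ P` -/
theorem na6_PY {p : Prm k} {X : ℕ} {u : Vec k} (hu : GP p X u) (hem : 0 < p.em) {l : ℕ}
    (hl : l.Prime) (h1 : (l : ℝ) ≤ PP X) : (l : ℝ) ≤ p.Y X := by
  have hX : 2 ≤ X := by
    by_contra hc
    have h2 : PP X = 1 := by
      unfold PP
      have h3 : X = 0 ∨ X = 1 := by omega
      have h4 : Real.log X = 0 := by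
        rcases h3 with h3 | h3 <;> rw [h3] <;> simp
      rw [h4, Real.zero_rpow (by norm_num), Real.exp_zero]
    rw [h2] at h1
    have h3 : (2 : ℝ) ≤ l := by exact_mod_cast hl.two_le
    linarith
  have h2 : 1 < dE u 1 := by
    have h3 := hu.e1.lo
    have h4 : (1 : ℝ) < (X : ℝ) ^ p.em :=
      Real.one_lt_rpow (by exact_mod_cast hX) hem
    have h5 : (1 : ℝ) < (dE u 1 : ℝ) := by linarith
    exact_mod_cast h5
  obtain ⟨r, hr, hrd⟩ := Nat.exists_prime_and_dvd h2.ne'
  have h3 := (hu.e1.dp.2 r hr hrd).2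
  have h4 := hu.e1.sm r hr hrd
  linarith

theorem na6_pow01 {x : ℝ} {n : ℕ} (hx : x = 0 ∨ x = 1) (hn : 1 ≤ n) : x ^ n = x := by
  rcases hx with h | h
  · rw [h, zero_pow (by omega)]
  · rw [h, one_pow]

theorem na6_bo (j : ℕ) : boV j = 0 ∨ boV j = 1 := by
  unfold boV
  split_ifs
  · exact Or.inr rfl
  · exact Or.inl rfl

/-- the exponent in the case of no square event -/
theorem na6_exp {p : Prm k} {X : ℕ} {q : ℤ × ℤ × ℤ} {u : Vec k} (he : ¬ Ev2 p X u q)
    (hf : ∀ j, fv q (u j) ≠ 0) {l : ℕ} (hl : l.Prime) (hl1 : Sp l) (hlP : PP X < (l : ℝ))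
    (hlY : (l : ℝ) ≤ p.Y X) (j : Fin (k + 1)) : (fv q (u j)).natAbs.factorization l ≤ 1 := by
  by_contra hc
  refine he ⟨l, hl1, hlP, hlY, j, ?_⟩
  have h1 : l ^ 2 ∣ (fv q (u j)).natAbs :=
    (hl.pow_dvd_iff_le_factorization (Int.natAbs_ne_zero.2 (hf j))).2 (by omega)
  have h2 : ((l ^ 2 : ℕ) : ℤ) ∣ fv q (u j) := by
    rw [← Int.dvd_natAbs]
    exact Int.natCast_dvd_natCast.2 h1
  push_cast at h2
  exact h2

theorem na6_T_eq {p : Prm k} {X P00 : ℕ} {q : ℤ × ℤ × ℤ} {u : Vec k} (hk : 2 ≤ k)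
    (hP2 : pB k ≤ P00) (hu : GP p X u) (hG : GD q u) (hq : q.1 * q.2.2 - q.2.1 ^ 2 = D)
    (he : ¬ Ev2 p X u q) {l : ℕ} (hl : l.Prime) (hlP : P00 < l) :
    na5_T p X q u l = Lf p X u l q := by
  classical
  have hf := na5_fv_ne hk hu hq
  unfold na5_T Lf
  have h0 : l ∣ Dall u → (l : ℤ) ∣ fv q (Lv u l) := by
    intro h
    unfold Dall at h
    obtain ⟨i, hi, hi2⟩ := (Prime.dvd_finsetProd_iff hl.prime _).1 h
    rw [mem_Icc] at hi
    have h1 : ∃ j : Fin k, l ∣ dE u (j.val + 1) := by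
      refine ⟨⟨i - 1, by omega⟩, ?_⟩
      have h3 : i - 1 + 1 = i := by omega
      simp only [h3]
      exact hi2
    unfold Lv
    rw [dif_pos h1]
    exact (Int.natCast_dvd_natCast.2 h1.choose_spec).trans (hG h1.choose).1
  rw [if_pos h0, one_mul]
  congr 1
  · refine prod_congr rfl fun j _ => ?_
    split_ifs with h
    · have h1 : 1 ≤ (dE u (j.val + 1)).factorization l :=
        (hl.dvd_iff_one_le_factorization (na5_dE_ne hu _)).1 h
      have h2 : (dE u (j.val + 1)).factorization l ≤ 1 :=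
        (na5_dE_sq hu _).natFactorization_le_one l
      have h3 : (dE u (j.val + 1)).factorization l = 1 := by omega
      rw [h3, pow_one]
    · rw [Nat.factorization_eq_zero_of_not_dvd h, pow_zero]
  · refine prod_congr rfl fun j _ => ?_
    have hfac := na5_fac hk hu hG hq j l
    split_ifs with h h1
    · -- `l` divides the determinants
      have hD : l ∣ Dall u := by
        rcases (hl.dvd_mul).1 h with h | h
        · exact (na5_dE_dvd hl h).2
        · exact (na5_dE_dvd hl h).2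
      obtain ⟨hl1, hlPP⟩ := hu.prime_Dall hl hD
      by_cases hlY : (l : ℝ) ≤ p.Y X
      · have h2 := na6_exp he hf hl hl1 hlPP hlY j
        have h3 : 1 ≤ (dE u j.val * dE u (j.val + 1)).factorization l :=
          (hl.dvd_iff_one_le_factorization
            (mul_ne_zero (na5_dE_ne hu _) (na5_dE_ne hu _))).1 h
        have h4 : (yv q u j).factorization l = 0 := by omega
        rw [h4, pow_zero]
      · have h2 : wyV k (PP X) (p.Y X) j.val l = 1 := by
          unfold wyV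
          rw [if_neg hl1.ndvd, if_neg (not_le.2 hlPP), if_neg hlY]
        rw [h2, one_pow]
    · rw [Nat.factorization_eq_zero_of_not_dvd h, zero_add] at hfac
      have h3 : 1 ≤ (fv q (u j)).natAbs.factorization l := by
        refine (hl.dvd_iff_one_le_factorization (Int.natAbs_ne_zero.2 (hf j))).1 ?_
        rw [← Int.natCast_dvd_natCast, Int.dvd_natAbs]
        exact h1
      have hl1 : Sp l := na6_three hq (hu.prim hk j) hl (na6_ndR hP2 hlP) h1
      by_cases hlPP : (l : ℝ) ≤ PP X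
      · refine na6_pow01 ?_ (by omega)
        unfold wyV
        rw [if_neg hl1.ndvd, if_pos hlPP]
        exact na6_bo _
      · by_cases hlY : (l : ℝ) ≤ p.Y X
        · have h2 := na6_exp he hf hl hl1 (not_le.1 hlPP) hlY j
          have h4 : (yv q u j).factorization l = 1 := by omega
          rw [h4, pow_one]
        · have h2 : wyV k (PP X) (p.Y X) j.val l = 1 := by
            unfold wyV
            rw [if_neg hl1.ndvd, if_neg hlPP, if_neg hlY]
          rw [h2, one_pow]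
    · rw [Nat.factorization_eq_zero_of_not_dvd h, zero_add] at hfac
      have h3 : ¬ l ∣ (fv q (u j)).natAbs := by
        intro h4
        apply h1
        rw [← Int.dvd_natAbs]
        exact Int.natCast_dvd_natCast.2 h4
      rw [Nat.factorization_eq_zero_of_not_dvd h3] at hfac
      rw [hfac, pow_zero]

/-- the local factor of a prime outside `S` -/
theorem na6_T_one {p : Prm k} {X P00 : ℕ} {q : ℤ × ℤ × ℤ} {u : Vec k} (hk : 2 ≤ k)
    (hP : (P00 : ℝ) ≤ PP X) (hem : 0 < p.em) (hu : GP p X u) (hG : GD q u)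
    (hq : q.1 * q.2.2 - q.2.1 ^ 2 = D)
    (hok : ∀ l : ℕ, Sp l → l ≤ P00 → ∀ j : Fin (k + 1), ¬ Even j.val →
      ¬ (l : ℤ) ∣ fv q (u j)) {l : ℕ} (hl : l.Prime) (hD : ¬ l ∣ Dall u)
    (hSp : l ∉ Spr P00 (p.Y X)) : na5_T p X q u l = 1 := by
  classical
  have hf := na5_fv_ne hk hu hq
  unfold na5_T
  rw [prod_eq_one, prod_eq_one, one_mul]
  · intro j _
    have hfac := na5_fac hk hu hG hq j l
    have h : ¬ l ∣ dE u j.val * dE u (j.val + 1) := by
      intro h
      rcases (hl.dvd_mul).1 h with h | h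
      · exact hD (na5_dE_dvd hl h).2
      · exact hD (na5_dE_dvd hl h).2
    rw [Nat.factorization_eq_zero_of_not_dvd h, zero_add] at hfac
    by_cases h1 : (l : ℤ) ∣ fv q (u j)
    · have h6 : wyV k (PP X) (p.Y X) j.val l = 1 := by
        unfold wyV
        by_cases h2 : l ∣ R
        · rw [if_pos h2]
        · rw [if_neg h2]
          have hl1 : Sp l := na6_three hq (hu.prim hk j) hl h2 h1
          by_cases h3 : l ≤ P00
          · have h4 : (l : ℝ) ≤ PP X := by
              have : (l : ℝ) ≤ P00 := by exact_mod_cast h3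
              linarith
            rw [if_pos h4]
            unfold boV
            rw [if_pos]
            by_contra hc
            exact hok l hl1 h3 j hc h1
          · have h4 : ¬ (l : ℝ) ≤ p.Y X := by
              intro h4
              apply hSp
              unfold Spr
              rw [mem_filter, mem_Ioc]
              exact ⟨⟨by omega, Nat.le_floor h4⟩, hl1⟩
            have h7 : ¬ (l : ℝ) ≤ PP X := fun h7 => h4 (na6_PY hu hem hl h7)
            rw [if_neg h7, if_neg h4]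
      rw [h6, one_pow]
    · have h3 : ¬ l ∣ (fv q (u j)).natAbs := by
        intro h4
        apply h1
        rw [← Int.dvd_natAbs]
        exact Int.natCast_dvd_natCast.2 h4
      rw [Nat.factorization_eq_zero_of_not_dvd h3] at hfac
      rw [hfac, pow_zero]
  · intro j _
    have h : ¬ l ∣ dE u (j.val + 1) := fun h => hD (na5_dE_dvd hl h).2
    rw [Nat.factorization_eq_zero_of_not_dvd h, pow_zero]

/-- a form that is not good has a vanishing local factor -/
theorem na6_notGD {p : Prm k} {X : ℕ} {q : ℤ × ℤ × ℤ} {u : Vec k} (hk : 2 ≤ k)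
    (hu : GP p X u) (hG : ¬ GD q u) :
    ∃ l ∈ (Dall u).primeFactors, Lf p X u l q = 0 := by
  classical
  unfold GD at hG
  push Not at hG
  obtain ⟨j, hj⟩ := hG
  -- a prime of `d_j`
  have hsq := na5_dE_sq hu (j.val + 1)
  have h1 : ∃ l : ℕ, l.Prime ∧ l ∣ dE u (j.val + 1) ∧ ¬ (l : ℤ) ∣ fv q (u j.castSucc) := by
    by_contra hc
    push Not at hc
    have h2 : ∀ v : ℤ × ℤ, (∀ l : ℕ, l.Prime → l ∣ dE u (j.val + 1) → (l : ℤ) ∣ fv q v) →
        (dE u (j.val + 1) : ℤ) ∣ fv q v := by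
      intro v hv
      rw [← Int.dvd_natAbs]
      refine Int.natCast_dvd_natCast.2 ?_
      rw [← Nat.prod_primeFactors_of_squarefree hsq]
      refine Finset.prod_primes_dvd _ (fun l hl => (Nat.prime_of_mem_primeFactors hl).prime) ?_
      intro l hl
      rw [← Int.natCast_dvd_natCast, Int.dvd_natAbs]
      exact hv l (Nat.prime_of_mem_primeFactors hl) (Nat.dvd_of_mem_primeFactors hl)
    refine hj (h2 _ hc) (h2 _ fun l hl hld => ?_)
    refine na6_line (hu.prim hk j.castSucc) hl ?_ (hc l hl hld)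
    rw [na6_dE] at hld
    rw [← Int.dvd_natAbs]
    exact Int.natCast_dvd_natCast.2 hld
  obtain ⟨l, hl, hld, hlj⟩ := h1
  have hD := (na5_dE_dvd hl hld).2
  refine ⟨l, Nat.mem_primeFactors.2 ⟨hl, hD, ?_⟩, ?_⟩
  · have := (hu.Dall_eq hk).2.2
    omega
  · unfold Lf
    rw [if_neg, zero_mul, zero_mul]
    intro h
    have h2 := h hD
    have h3 : ∃ j : Fin k, l ∣ dE u (j.val + 1) := ⟨j, hld⟩
    unfold Lv at h2
    rw [dif_pos h3] at h2
    have h4 : h3.choose = j := by
      have h5 := h3.choose_spec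
      by_contra hc
      have h6 : h3.choose.val ≠ j.val := fun h => hc (Fin.ext h)
      have ha := h3.choose.2
      have hb := j.2
      rcases lt_or_gt_of_ne h6 with h7 | h7
      · have h8 := hu.cop (h3.choose.val + 1) (j.val + 1) (by omega) (by omega) (by omega)
        exact hl.one_lt.ne' (Nat.dvd_one.1 (h8 ▸ Nat.dvd_gcd h5 hld))
      · have h8 := hu.cop (j.val + 1) (h3.choose.val + 1) (by omega) (by omega) (by omega)
        exact hl.one_lt.ne' (Nat.dvd_one.1 (h8 ▸ Nat.dvd_gcd hld h5))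
    rw [h4] at h2
    exact hlj h2

/-- NA6: the exact formula if there is no square event.  Primes `l ∤ R` dividing `Q(u_j)` are
split (`u_j` primitive, `a Q(u) = (a u.1 + b u.2)² + D u.2²`) -/
theorem W_eq {p : Prm k} {X P00 : ℕ} (hk : Even k) (hk2 : 4 ≤ k) (hP : (P00 : ℝ) ≤ PP X)
    (hP2 : pB k ≤ P00) (hem : 0 < p.em) {u : Vec k} (hu : GP p X u) {q : ℤ × ℤ × ℤ}
    (hq : q.1 * q.2.2 - q.2.1 ^ 2 = D) (S : Finset ℕ) (hS : ∀ l ∈ S, l.Prime ∧ P00 < l)
    (hS1 : (Dall u).primeFactors ⊆ S) (hS2 : Spr P00 (p.Y X) ⊆ S) (he : ¬ Ev2 p X u q) :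
    W p X q u = okf P00 u q * ∏ l ∈ S, Lf p X u l q := by
  classical
  have hk' : 2 ≤ k := by omega
  by_cases hG : GD q u
  · by_cases hok : ∀ l : ℕ, Sp l → l ≤ P00 → ∀ j : Fin (k + 1), ¬ Even j.val →
        ¬ (l : ℤ) ∣ fv q (u j)
    · have h1 : okf P00 u q = 1 := by
        unfold okf
        rw [if_pos hok]
      rw [h1, one_mul, na5_W_eq p X q u hG (na5_B q u ∪ S) subset_union_left,
        ← prod_sdiff (subset_union_right : S ⊆ na5_B q u ∪ S)]
      have h2 : ∏ l ∈ (na5_B q u ∪ S) \ S, na5_T p X q u l = 1 := by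
        refine prod_eq_one fun l hl => ?_
        rw [mem_sdiff, mem_union] at hl
        have hlB : l ∈ na5_B q u := hl.1.resolve_right hl.2
        have hlp := na5_B_prime hlB
        refine na6_T_one hk' hP hem hu hG hq hok hlp ?_ fun h => hl.2 (hS2 h)
        intro h
        refine hl.2 (hS1 (Nat.mem_primeFactors.2 ⟨hlp, h, ?_⟩))
        have := (hu.Dall_eq hk').2.2
        omega
      rw [h2, one_mul]
      exact prod_congr rfl fun l hl => na6_T_eq hk' hP2 hu hG hq he (hS l hl).1 (hS l hl).2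
    · have h1 : okf P00 u q = 0 := by
        unfold okf
        rw [if_neg hok]
      have h2 := W_le hk hk2 hP hu hq S hS
      rw [h1, zero_mul] at h2 ⊢
      exact le_antisymm h2 (W_01 p X q u).1
  · obtain ⟨l, hl, hl0⟩ := na6_notGD (p := p) (X := X) hk' hu hG
    rw [prod_eq_zero (hS1 hl) hl0, mul_zero]
    unfold W
    rw [if_neg hG]

end Pool.Agent.AQ.NC
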