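import Pool.Agent.Lib_helper8.AQ.NCDefs
import Pool.Agent.Lib_helper88.AQN.NA2
import Pool.Agent.Lib_helper88.AQN.NA4
import Pool.Agent.Lib_helper88.AQN.NA4b
import Pool.Agent.Lib_helper88.AQN.NA6
import Pool.Agent.Lib_helper88.AQN.NA7
import Pool.Agent.Lib_helper88.AQN.NA9
import Pool.Agent.Lib_helper88.AQN.NL0
import Pool.Agent.Lib_helper88.AQN.NL1
import Pool.Agent.Lib_helper88.AQN.NL4
import Pool.Agent.Lib_helper88.AQN.NS7

/-!
# NC, block NS8: FG, lower bound (helper97)
-/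

set_option autoImplicit false

namespace Pool.Agent.AQ.NC

open Finset Pool.Agent.PENT Pool.Agent.PENT.EQ

variable [Cst] {k : ℕ}

/-- `∏ (1 - t) ≥ 2 - ∏ (1 + t)` for `0 ≤ t ≤ 1` -/
theorem ns8_prod {ι : Type} (s : Finset ι) (t : ι → ℝ) (ht : ∀ i ∈ s, 0 ≤ t i ∧ t i ≤ 1) :
    2 - ∏ i ∈ s, (1 + t i) ≤ ∏ i ∈ s, (1 - t i) := by
  classical
  have h0 : ∀ i ∈ s, 0 ≤ 1 - t i := fun i hi => by linarith [(ht i hi).2]
  induction s using Finset.induction_on with
  | empty => norm_num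
  | insert a s ha ih =>
    rw [Finset.prod_insert ha, Finset.prod_insert ha]
    have h1 := ih (fun i hi => ht i (mem_insert_of_mem hi))
      (fun i hi => h0 i (mem_insert_of_mem hi))
    have h2 : 1 ≤ ∏ i ∈ s, (1 + t i) := by
      have := Finset.prod_le_prod (s := s) (f := fun _ => (1 : ℝ)) (g := fun i => 1 + t i)
        (fun i _ => zero_le_one) (fun i hi => by linarith [(ht i (mem_insert_of_mem hi)).1])
      simpa using this
    have h3 : ∏ i ∈ s, (1 - t i) ≤ 1 := Finset.prod_le_one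
      (fun i hi => h0 i (mem_insert_of_mem hi))
      (fun i hi => by linarith [(ht i (mem_insert_of_mem hi)).1])
    have h4 := ht a (mem_insert_self _ _)
    nlinarith

theorem ns8_em {p : Prm k} (hk4 : 4 ≤ k) {τ : ℝ} (hτ : 0 < τ) (hp : p.Ok τ) : 0 < p.em := by
  have h1 := hp.even ⟨2, by omega⟩ (le_refl _) (by show 2 + 2 ≤ k; omega)
    (by show Even 2; exact even_two)
  have h2 : 0 < p.e ⟨2, by omega⟩ := by
    have h3 := hp.ew1 ⟨2, by omega⟩ (le_refl _) (by show 2 + 2 ≤ k; omega)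
    have h4 := hp.ew0
    by_contra h5
    push Not at h5
    nlinarith
  by_contra h5
  push Not at h5
  nlinarith

theorem ns8_tl_nn {C : ℝ} (hC : 0 < C) (u u' : Vec k) (l : ℕ) : 0 ≤ tl C u u' l := by
  classical
  unfold tl
  split_ifs <;> positivity

theorem ns8_prim {p : Prm k} {X : ℕ} {u : Vec k} (hk2 : 2 ≤ k) (hu : GP p X u)
    (j : Fin (k + 1)) {l : ℕ} (hl : l.Prime) : ¬ ((l : ℤ) ∣ (u j).1 ∧ (l : ℤ) ∣ (u j).2) := by
  rintro ⟨h1, h2⟩
  have h3 := (hu.prim hk2 j).isUnit_of_dvd' h1 h2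
  have h4 := Int.natAbs_eq_iff_associated.2 (associated_one_iff_isUnit.2 h3)
  simp at h4
  exact hl.one_lt.ne' h4

open Classical in
/-- NS8 -/
theorem FG_low (hk : Even k) (hk4 : 4 ≤ k) {C : ℝ} (hC : Loc k C) (c δ : ℝ) (hc : 0 < c)
    (hδ : 0 < δ) (hδ1 : δ ≤ 1) : ∃ τ₀ : ℝ, 0 < τ₀ ∧ ∀ p : Prm k, p.Ok τ₀ → ∀ P00 : ℕ,
    ∃ X₀ : ℕ, ∀ X ≥ X₀, ∀ (m : ℝ) (O : Finset (ℤ × ℤ × ℤ)), Sit p X P00 m c O →
    ∀ u u' : Vec k, GP p X u → GP p X u' → C0 u u' → ¬ EC X u' u → ¬ EC X u u' →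
      (2 - Xi p X P00 C u u' - δ) * GM p X P00 m O u u' ≤
        m ^ 2 * ∑ q ∈ O, Fn p X P00 q u * Gn p X P00 q u' + (X : ℝ) ^ (1 - c / 2) := by
  obtain ⟨τ₀, hτ, hτ1, H⟩ := ns7_core hk4 hC.pos (2 * (k + 5)) c δ (by positivity) hc hδ hδ1
  refine ⟨τ₀, hτ, fun p hp P00 => ?_⟩
  obtain ⟨X₀, hX₀⟩ := H p hp P00
  refine ⟨max X₀ 1, fun X hX m O hS u u' hu hu' hC0 hE hE' => ?_⟩
  have hk2 : 2 ≤ k := by omega
  have hX1 : X ≥ X₀ := le_trans (le_max_left _ _) hX
  have hP2 : pB k ≤ P00 := hS.hP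
  have hpB := (ns7_pB k).1
  have hXn : 0 ≤ (X : ℝ) ^ (1 - c / 2) := Real.rpow_nonneg (Nat.cast_nonneg _) _
  have hmem := fun l (hl : l ∈ Sall p X P00 u u') => ns7_mem_Sall hS.hPP hu hu' hl
  have hGn : ∀ (q : ℤ × ℤ × ℤ) (w : Vec k), 0 ≤ Gn p X P00 q w := fun q w =>
    div_nonneg (mul_nonneg (wend_01 p X q _).1 (gk_01 p X P00 q w).1) (ns7_Mp_nn _ _ _ _ _)
  have hFn : ∀ (q : ℤ × ℤ × ℤ) (w : Vec k), 0 ≤ Fn p X P00 q w := fun q w =>
    div_nonneg (W_01 p X q w).1 (ns7_Mp_nn _ _ _ _ _)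
  have hsumn : 0 ≤ m ^ 2 * ∑ q ∈ O, Fn p X P00 q u * Gn p X P00 q u' :=
    mul_nonneg (sq_nonneg _) (Finset.sum_nonneg fun q _ => mul_nonneg (hFn q u) (hGn q u'))
  have hGlo : ∀ l ∈ Sall p X P00 u u', 0 < GLo p X u u' l := fun l hl =>
    (hC.g01 p X P00 hS.hP hS.hPP u u' hu hu' hC0 l hl).1
  have hGMn : 0 ≤ GM p X P00 m O u u' := by
    unfold GM
    exact mul_nonneg (mul_nonneg (Nat.cast_nonneg _) (MV_01 (ns7_kap_01 p X P00 m u u')).1)
      (Finset.prod_nonneg fun l hl => (hGlo l hl).le)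
  have htl : ∀ l, 0 ≤ tl C u u' l := fun l => ns8_tl_nn hC.pos u u' l
  by_cases hXi : 2 ≤ Xi p X P00 C u u'
  · have h1 : (2 - Xi p X P00 C u u' - δ) * GM p X P00 m O u u' ≤ 0 :=
      mul_nonpos_of_nonpos_of_nonneg (by linarith) hGMn
    linarith
  push Not at hXi
  have hXi1 : 1 ≤ Xi p X P00 C u u' := by
    unfold Xi
    have := Finset.prod_le_prod (s := Sall p X P00 u u') (f := fun _ => (1 : ℝ))
      (g := fun l => 1 + tl C u u' l) (fun i _ => zero_le_one)
      (fun i _ => by linarith [htl i])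
    simpa using this
  have ht1 : ∀ l ∈ Sall p X P00 u u', tl C u u' l ≤ 1 := by
    intro l hl
    have h1 : 1 + tl C u u' l ≤ Xi p X P00 C u u' := by
      unfold Xi
      rw [← Finset.mul_prod_erase _ _ hl]
      have h2 : (1 : ℝ) ≤ ∏ x ∈ (Sall p X P00 u u').erase l, (1 + tl C u u' x) := by
        have := Finset.prod_le_prod (s := (Sall p X P00 u u').erase l) (f := fun _ => (1 : ℝ))
          (g := fun l => 1 + tl C u u' l) (fun i _ => zero_le_one)
          (fun i _ => by linarith [htl i])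
        simpa using this
      have h3 : 0 ≤ 1 + tl C u u' l := by linarith [htl l]
      nlinarith
    linarith
  set V : Finset (ℤ × ℤ) := univ.image u with hV
  have hVc : V.card ≤ k + 1 := by
    rw [hV]
    exact Finset.card_image_le.trans (by simp)
  have h1 := hX₀ X hX1 hS.hP hS.hPP O hS.eq u u' hu hu' V hVc
    (by
      intro v hv l hl
      rw [hV, mem_image] at hv
      obtain ⟨j, _, rfl⟩ := hv
      exact ns8_prim hk2 hu j hl)
    (kap p X P00 m u u') (per_kap p X P00 m u u')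
    (ns7_kap_01 p X P00 m u u') (fun l q => Lf p X u l q * Ef p X (fE u') l q)
    (fun l hl => ⟨ns7_per_mul (per_Lf _ _ _ _) (per_Ef _ _ _ _),
      ns7_01_mul (Lf_01 _ _ _ _) (Ef_01 _ _ _ _)⟩)
    (by
      intro l hl hd
      obtain ⟨h1, h2, h3, h4⟩ := ns7_not_dvd hk2 hu hu' hd
      obtain ⟨hlp, hlP, hl4⟩ := hmem l hl
      have h5 : (fun q => Lf p X u l q * Ef p X (fE u') l q) =
          PW ((univ : Finset (Fin (k + 1))).disjSum (univ : Finset Bool))
            (Sum.elim u (fun i => if i then ((1, 0) : ℤ × ℤ) else z))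
            (Sum.elim (fun j : Fin (k + 1) => wyV k (PP X) (p.Y X) j.val l)
              (fun _ => wyV k (PP X) (p.Y X) 0 l))
            l := by
        funext q
        rw [Lf_out p X u hlp h1, Ef_out p X _ h4 hlp]
        unfold Ev
        exact PW_mul _ _ _ _ _ _ _ _
      have h6 := PW_ge ((univ : Finset (Fin (k + 1))).disjSum (univ : Finset Bool))
            (Sum.elim u (fun i => if i then ((1, 0) : ℤ × ℤ) else z))
            (Sum.elim (fun j : Fin (k + 1) => wyV k (PP X) (p.Y X) j.val l)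
              (fun _ => wyV k (PP X) (p.Y X) 0 l))
            (by
              intro i _
              rcases i with i | i
              · exact wyV_01 _ _ _ _ _
              · exact wyV_01 _ _ _ _ _) hlp hl4
            (by
              intro i _
              rcases i with i | i
              · exact ns8_prim hk2 hu i hlp
              · apply ns7_e12 hlp
                cases i
                · exact Or.inr rfl
                · exact Or.inl rfl)
      show 1 - MV l (fun q => Lf p X u l q * Ef p X (fE u') l q) ≤ 2 * (k + 5) / l ∧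
        1 - MV l (fun q => Lf p X u l q * Ef p X (fE u') l q) ≤ 1 / 2
      rw [h5]
      have h7 : (((univ : Finset (Fin (k + 1))).disjSum (univ : Finset Bool)).card : ℝ) =
          k + 3 := by
        rw [Finset.card_disjSum]
        simp
        ring
      rw [h7] at h6
      have h8 : (4 * (k + 5) : ℝ) ≤ l := by
        have h9 : 4 * (k + 5) ≤ l := by
          have := hS.hP
          nlinarith
        exact_mod_cast h9
      have hlr : (0 : ℝ) < l := by exact_mod_cast hlp.pos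
      have h9 : 2 * ((k : ℝ) + 3) / l ≤ 1 / 2 := by
        rw [div_le_iff₀ hlr]
        linarith
      have h10 : 2 * ((k : ℝ) + 3) / l ≤ 2 * (k + 5) / l := by
        apply div_le_div_of_nonneg_right _ hlr.le
        linarith
      constructor
      · linarith
      · linarith)
    (by
      intro l hl hd v hv
      rw [hV, mem_image] at hv
      obtain ⟨j, _, rfl⟩ := hv
      exact hC.sf p X P00 hS.hP hS.hPP u u' hu hu' hC0 hE hE' l hl hd j)
  set G := ∏ l ∈ Sall p X P00 u u', gl p X u' l with hG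
  have hG0 : 0 ≤ G := Finset.prod_nonneg fun l hl => (ns7_gl_01 p X u' (hmem l hl).1).1
  have hG1 : G ≤ 1 := Finset.prod_le_one (fun l hl => (ns7_gl_01 p X u' (hmem l hl).1).1)
    (fun l hl => (ns7_gl_01 p X u' (hmem l hl).1).2)
  have hpt : ∀ q ∈ O.filter (fun q => ns7_ev p X V q),
      (kap p X P00 m u u' q * ∏ l ∈ Sall p X P00 u u',
        (Lf p X u l q * Ef p X (fE u') l q)) * G =
      m ^ 2 * (Fn p X P00 q u * Gn p X P00 q u') := by
    intro q hq
    rw [mem_filter] at hq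
    obtain ⟨hqO, hev⟩ := hq
    have hdisc := hS.disc q hqO
    have hsub : (Dall u).primeFactors ⊆ Sall p X P00 u u' := by
      intro l hl
      unfold Sall
      apply mem_union_right
      rw [Nat.primeFactors_mul (hu.Dall_eq hk2).2.2.ne' (hu'.Dall_eq hk2).2.2.ne']
      exact mem_union_left _ hl
    have hsub' : (Dall u').primeFactors ⊆ Sall p X P00 u u' := by
      intro l hl
      unfold Sall
      apply mem_union_right
      rw [Nat.primeFactors_mul (hu.Dall_eq hk2).2.2.ne' (hu'.Dall_eq hk2).2.2.ne']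
      exact mem_union_right _ hl
    have hsubS : Spr P00 (p.Y X) ⊆ Sall p X P00 u u' := by
      intro l hl
      unfold Sall
      exact mem_union_left _ hl
    have hSm : ∀ l ∈ Sall p X P00 u u', l.Prime ∧ P00 < l := fun l hl =>
      ⟨(hmem l hl).1, (hmem l hl).2.1⟩
    have hne : ¬ Ev2 p X u q := by
      rintro ⟨l, h3, h4, h5, j, h6⟩
      exact hev l h3 h4 h5 (u j) (by rw [hV]; exact mem_image_of_mem u (mem_univ j)) h6
    have he : ∀ l : ℕ, Sp l → PP X < (l : ℝ) → (l : ℝ) ≤ p.Y X →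
        ¬ ((l : ℤ) ^ 2) ∣ q.1 ∧ ¬ ((l : ℤ) ^ 2) ∣ fv q z := by
      intro l h3 h4 h5
      constructor
      · have h6 := hev l h3 h4 h5 (u 0) (by rw [hV]; exact mem_image_of_mem u (mem_univ 0))
        have h7 : fv q (u 0) = q.1 := by
          rw [hu.first]
          unfold fv qf
          ring
        rwa [h7] at h6
      · have h6 := hev l h3 h4 h5 (u (Fin.last k))
          (by rw [hV]; exact mem_image_of_mem u (mem_univ (Fin.last k)))
        rwa [hu.last] at h6
    have hw := W_eq hk hk4 hS.hPP hP2 (ns8_em hk4 hτ hp) hu hdisc (Sall p X P00 u u') hSm hsub hsubS hne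
    have hw' := wend_eq hS.hPP hP2 (hu'.fE_mem hk2) hdisc (Sall p X P00 u u') hSm
      ((ns7_fE_primes hk2 hu').trans hsub') hsubS he
    have hg' := gk_eq hk4 hS.hPP hP2 hu' hu q
    rw [ns7_Sall_symm] at hg'
    have hκ := kap_eq hp.c10 hk4 hS.m0 (fun f hf => hS.hM f hf q hdisc) hu hu'
    unfold Gn Fn
    rw [hκ, hw, hw', hg', hG, Finset.prod_mul_distrib]
    ring
  have hsum : m ^ 2 * ∑ q ∈ O, Fn p X P00 q u * Gn p X P00 q u' ≥
      (∑ q ∈ O.filter (fun q => ns7_ev p X V q), kap p X P00 m u u' q *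
        ∏ l ∈ Sall p X P00 u u', (Lf p X u l q * Ef p X (fE u') l q)) * G := by
    rw [Finset.sum_mul, Finset.sum_congr rfl hpt, ← Finset.mul_sum]
    apply mul_le_mul_of_nonneg_left _ (sq_nonneg _)
    apply Finset.sum_le_sum_of_subset_of_nonneg (Finset.filter_subset _ _)
    intro q _ _
    exact mul_nonneg (hFn q u) (hGn q u')
  have h2 := mul_le_mul_of_nonneg_right h1 hG0
  have h3 : (X : ℝ) ^ (1 - c / 2) * G ≤ (X : ℝ) ^ (1 - c / 2) := by
    calc (X : ℝ) ^ (1 - c / 2) * G ≤ (X : ℝ) ^ (1 - c / 2) * 1 :=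
          mul_le_mul_of_nonneg_left hG1 hXn
      _ = _ := mul_one _
  rw [add_mul] at h2
  -- the comparison of the local products
  set M1 := (O.card : ℝ) * MV (R0 P00) (kap p X P00 m u u') with hM1
  have hM1n : 0 ≤ M1 := mul_nonneg (Nat.cast_nonneg _) (MV_01 (ns7_kap_01 p X P00 m u u')).1
  have h5 : (2 - Xi p X P00 C u u') * ∏ l ∈ Sall p X P00 u u', GLo p X u u' l ≤
      (∏ l ∈ Sall p X P00 u u', MV l (fun q => Lf p X u l q * Ef p X (fE u') l q)) * G := by
    have h6 : (2 - Xi p X P00 C u u') ≤ ∏ l ∈ Sall p X P00 u u', (1 - tl C u u' l) := by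
      unfold Xi
      exact ns8_prod _ _ fun l hl => ⟨htl l, ht1 l hl⟩
    calc (2 - Xi p X P00 C u u') * ∏ l ∈ Sall p X P00 u u', GLo p X u u' l ≤
        (∏ l ∈ Sall p X P00 u u', (1 - tl C u u' l)) * ∏ l ∈ Sall p X P00 u u', GLo p X u u' l :=
          mul_le_mul_of_nonneg_right h6 (Finset.prod_nonneg fun l hl => (hGlo l hl).le)
      _ = ∏ l ∈ Sall p X P00 u u', ((1 - tl C u u' l) * GLo p X u u' l) :=
          Finset.prod_mul_distrib.symm
      _ ≤ ∏ l ∈ Sall p X P00 u u',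
          (MV l (fun q => Lf p X u l q * Ef p X (fE u') l q) * gl p X u' l) := by
          apply Finset.prod_le_prod
          · intro l hl
            exact mul_nonneg (by linarith [ht1 l hl]) (hGlo l hl).le
          · intro l hl
            exact hC.fg p X P00 hS.hP hS.hPP u u' hu hu' hC0 hE hE' l hl
      _ = _ := by rw [Finset.prod_mul_distrib]
  have hprodn : 0 ≤ ∏ l ∈ Sall p X P00 u u', GLo p X u u' l :=
    Finset.prod_nonneg fun l hl => (hGlo l hl).le
  have h6 : (2 - Xi p X P00 C u u' - δ) * GM p X P00 m O u u' ≤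
      (1 - δ) * (M1 * ∏ l ∈ Sall p X P00 u u',
        MV l (fun q => Lf p X u l q * Ef p X (fE u') l q)) * G := by
    have h7 : GM p X P00 m O u u' = M1 * ∏ l ∈ Sall p X P00 u u', GLo p X u u' l := rfl
    rw [h7]
    have h8 : (2 - Xi p X P00 C u u' - δ) ≤ (1 - δ) * (2 - Xi p X P00 C u u') := by nlinarith
    calc (2 - Xi p X P00 C u u' - δ) * (M1 * ∏ l ∈ Sall p X P00 u u', GLo p X u u' l) ≤
        ((1 - δ) * (2 - Xi p X P00 C u u')) *
          (M1 * ∏ l ∈ Sall p X P00 u u', GLo p X u u' l) :=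
          mul_le_mul_of_nonneg_right h8 (mul_nonneg hM1n hprodn)
      _ = ((1 - δ) * M1) * ((2 - Xi p X P00 C u u') *
          ∏ l ∈ Sall p X P00 u u', GLo p X u u' l) := by ring
      _ ≤ ((1 - δ) * M1) * ((∏ l ∈ Sall p X P00 u u',
          MV l (fun q => Lf p X u l q * Ef p X (fE u') l q)) * G) :=
          mul_le_mul_of_nonneg_left h5 (mul_nonneg (by linarith) hM1n)
      _ = _ := by ring
  linarith

end Pool.Agent.AQ.NC
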