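import Pool.Agent.Lib_helper88.AQN.Bas
import Mathlib
import Pool.Agent.Lib_helper8.AQ.NCDefs
import Pool.Agent.Lib_helper88.AQN.NA2
import Pool.Agent.Lib_helper88.AQN.NA3
import Pool.Agent.Lib_helper88.AQN.NS3

set_option autoImplicit false

namespace Pool.Agent.AQ.NC

open Finset Pool.Agent.PENT Pool.Agent.PENT.EQ

variable [Cst] {k : ℕ}

theorem nx1_tl_nonneg {C : ℝ} (hC : 0 < C) (u u' : Vec k) (l : ℕ) : 0 ≤ tl C u u' l := by
  unfold tl
  split_ifs <;> positivity

theorem nx1_tl_le {C : ℝ} (hC : 0 < C) (u u' : Vec k) (l : ℕ) (hl : 1 ≤ l) :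
    tl C u u' l ≤ 2 * C / l := by
  have hl' : (1 : ℝ) ≤ l := by exact_mod_cast hl
  have h1 : C / (l : ℝ) ^ 2 ≤ C / l := by
    apply div_le_div_of_nonneg_left hC.le (by linarith)
    nlinarith
  have h2 : (0 : ℝ) ≤ C / l := by positivity
  have e : 2 * C / (l : ℝ) = C / l + C / l := by ring
  unfold tl
  rw [e]
  split_ifs
  · linarith
  · linarith

theorem nx1_one_le (s : Finset ℕ) (f : ℕ → ℝ) (h : ∀ l ∈ s, 1 ≤ f l) : 1 ≤ ∏ l ∈ s, f l := by
  classical
  induction s using Finset.induction_on with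
  | empty => simp
  | insert a s ha ih =>
    rw [Finset.prod_insert ha]
    have h1 := h a (Finset.mem_insert_self _ _)
    have h2 := ih (fun l hl => h l (Finset.mem_insert_of_mem hl))
    nlinarith

theorem nx1_growth : ∃ X₀ : ℕ, ∀ X : ℕ, X₀ ≤ X → Real.log X ≤ PP X := by
  have h1 : Filter.Tendsto (fun x : ℝ => x ^ 100 / Real.exp x) Filter.atTop (nhds 0) :=
    Real.tendsto_pow_mul_exp_neg_atTop_nhds_zero 100 |>.congr (fun x => by
      rw [Real.exp_neg, div_eq_mul_inv])
  have h2 : ∀ᶠ x : ℝ in Filter.atTop, x ^ 100 / Real.exp x < 1 :=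
    h1.eventually (gt_mem_nhds one_pos)
  have h3 : Filter.Tendsto (fun X : ℕ => Real.log (X : ℝ) ^ (1 / 100 : ℝ)) Filter.atTop
      Filter.atTop :=
    (tendsto_rpow_atTop (by norm_num)).comp
      (Real.tendsto_log_atTop.comp tendsto_natCast_atTop_atTop)
  obtain ⟨X₀, hX₀⟩ := Filter.eventually_atTop.mp (h3.eventually h2)
  refine ⟨max X₀ 1, fun X hX => ?_⟩
  have hx := hX₀ X ((le_max_left _ _).trans hX)
  have hX1 : 1 ≤ X := (le_max_right _ _).trans hX
  have hlog : 0 ≤ Real.log X := Real.log_nonneg (by exact_mod_cast hX1)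
  rw [div_lt_one (Real.exp_pos _)] at hx
  have e : (Real.log (X : ℝ) ^ (1 / 100 : ℝ)) ^ 100 = Real.log X := by
    rw [← Real.rpow_natCast, ← Real.rpow_mul hlog]
    norm_num
  rw [e] at hx
  exact hx.le

theorem Xi_crude (hk4 : 4 ≤ k) (C : ℝ) (hC : 0 < C) : ∃ C' : ℝ, 0 < C' ∧ ∀ p : Prm k, p.Ok 1 →
    ∀ P00 : ℕ, pB k ≤ P00 → ∃ X₀ : ℕ, ∀ X ≥ X₀, ∀ u u' : Vec k, GP p X u → GP p X u' →
      1 ≤ Xi p X P00 C u u' ∧ Xi p X P00 C u u' ≤ Real.log X ^ C' := by
  obtain ⟨C1, hC1, hprod⟩ := prod_log (2 * C) (by positivity)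
  refine ⟨C1 + 1, by linarith, fun p hp P00 hP00 => ?_⟩
  obtain ⟨Xa, hXa⟩ := GP.sizes hp hk4
  obtain ⟨Xb, hXb⟩ := nx1_growth
  have hlogt : Filter.Tendsto (fun X : ℕ => Real.log (X : ℝ)) Filter.atTop Filter.atTop :=
    Real.tendsto_log_atTop.comp tendsto_natCast_atTop_atTop
  obtain ⟨Xc, hXc⟩ := Filter.eventually_atTop.mp
    (hlogt.eventually_ge_atTop (C1 * Real.exp (4 * C) + 1))
  refine ⟨max (max Xa Xb) (max Xc 3), fun X hX u u' hu hu' => ?_⟩
  have hX1 : Xa ≤ X := (le_max_left _ _).trans ((le_max_left _ _).trans hX)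
  have hX2 : Xb ≤ X := (le_max_right _ _).trans ((le_max_left _ _).trans hX)
  have hX3 : Xc ≤ X := (le_max_left _ _).trans ((le_max_right _ _).trans hX)
  have hX4 : 3 ≤ X := (le_max_right _ _).trans ((le_max_right _ _).trans hX)
  have hXR : (3 : ℝ) ≤ X := by exact_mod_cast hX4
  have hL : C1 * Real.exp (4 * C) + 1 ≤ Real.log X := hXc X hX3
  have hLpos : 0 < Real.log X := by
    have : 0 < C1 * Real.exp (4 * C) := by positivity
    linarith
  have hPP : Real.log X ≤ PP X := hXb X hX2
  have hPPpos : 0 < PP X := Real.exp_pos _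
  have h0 : ∀ l, 0 ≤ tl C u u' l := nx1_tl_nonneg hC u u'
  constructor
  · unfold Xi
    exact nx1_one_le _ _ (fun l _ => by linarith [h0 l])
  · have hD : 0 < Dall u := (GP.Dall_eq hu (by omega)).2.2
    have hD' : 0 < Dall u' := (GP.Dall_eq hu' (by omega)).2.2
    set S1 := Spr P00 (p.Y X) with hS1
    set S2 := (Dall u * Dall u').primeFactors with hS2
    have hsplit : Xi p X P00 C u u' ≤ (∏ l ∈ S1, (1 + tl C u u' l)) *
        ∏ l ∈ S2, (1 + tl C u u' l) := by
      unfold Xi Sall
      rw [← hS1, ← hS2, ← Finset.prod_union_inter]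
      apply le_mul_of_one_le_right
      · exact Finset.prod_nonneg (fun l _ => by linarith [h0 l])
      · exact nx1_one_le _ _ (fun l _ => by linarith [h0 l])
    have hYX : p.Y X ≤ X := by
      unfold Prm.Y
      have hta : p.ta ≤ 1 := by
        have h1 := hp.ta_ep
        have h2 := hp.ep1
        linarith
      calc (X : ℝ) ^ p.ta ≤ (X : ℝ) ^ (1 : ℝ) :=
            Real.rpow_le_rpow_of_exponent_le (by linarith) hta
        _ = X := Real.rpow_one _
    have hY0 : 0 ≤ p.Y X := by
      unfold Prm.Y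
      positivity
    have hA : ∏ l ∈ S1, (1 + tl C u u' l) ≤ C1 * Real.log X ^ C1 := by
      apply (hprod X S1 (fun l => tl C u u' l) hXR ?_ ?_).1
      · intro l hl
        classical
        rw [hS1, Spr, Finset.mem_filter, Finset.mem_Ioc] at hl
        refine ⟨hl.2.prime, ?_⟩
        exact ((Nat.le_floor_iff hY0).mp hl.1.2).trans hYX
      · intro l hl
        classical
        rw [hS1, Spr, Finset.mem_filter, Finset.mem_Ioc] at hl
        exact ⟨h0 l, nx1_tl_le hC u u' l hl.2.prime.one_le⟩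
    have hB : ∏ l ∈ S2, (1 + tl C u u' l) ≤ Real.exp (4 * C) := by
      have hc : (S2.card : ℝ) ≤ 2 * Real.log X := by
        have h1 := (hXa X hX1 u hu).2.2.1
        have h2 := (hXa X hX1 u' hu').2.2.1
        have h3 : S2.card ≤ (Dall u).primeFactors.card + (Dall u').primeFactors.card := by
          rw [hS2, Nat.primeFactors_mul hD.ne' hD'.ne']
          exact Finset.card_union_le _ _
        have h3' : (S2.card : ℝ) ≤ (Dall u).primeFactors.card + (Dall u').primeFactors.card := by
          exact_mod_cast h3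
        linarith
      have hle : ∀ l ∈ S2, 1 + tl C u u' l ≤ Real.exp (2 * C / PP X) := by
        intro l hl
        rw [hS2, Nat.primeFactors_mul hD.ne' hD'.ne', Finset.mem_union, Nat.mem_primeFactors,
          Nat.mem_primeFactors] at hl
        have hlp : l.Prime ∧ PP X < (l : ℝ) := by
          rcases hl with hl | hl
          · exact ⟨hl.1, (GP.prime_Dall hu hl.1 hl.2.1).2⟩
          · exact ⟨hl.1, (GP.prime_Dall hu' hl.1 hl.2.1).2⟩
        have h1 := nx1_tl_le hC u u' l hlp.1.one_le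
        have h2 : 2 * C / (l : ℝ) ≤ 2 * C / PP X :=
          div_le_div_of_nonneg_left (by positivity) hPPpos hlp.2.le
        have h3 := Real.add_one_le_exp (2 * C / PP X)
        linarith
      calc ∏ l ∈ S2, (1 + tl C u u' l) ≤ ∏ l ∈ S2, Real.exp (2 * C / PP X) :=
            Finset.prod_le_prod (fun l _ => by linarith [h0 l]) hle
        _ = Real.exp (2 * C / PP X) ^ S2.card := by rw [Finset.prod_const]
        _ = Real.exp (S2.card * (2 * C / PP X)) := by rw [← Real.exp_nat_mul]
        _ ≤ Real.exp (4 * C) := by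
            apply Real.exp_le_exp.mpr
            have hpos : 0 ≤ 2 * C / PP X := by positivity
            calc (S2.card : ℝ) * (2 * C / PP X) ≤ (2 * Real.log X) * (2 * C / PP X) :=
                  mul_le_mul_of_nonneg_right hc hpos
              _ = 4 * C * (Real.log X / PP X) := by ring
              _ ≤ 4 * C * 1 := by
                  apply mul_le_mul_of_nonneg_left _ (by positivity)
                  exact (div_le_one hPPpos).mpr hPP
              _ = 4 * C := mul_one _
    have hA0 : 0 ≤ ∏ l ∈ S2, (1 + tl C u u' l) :=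
      Finset.prod_nonneg (fun l _ => by linarith [h0 l])
    calc Xi p X P00 C u u' ≤ _ := hsplit
      _ ≤ (C1 * Real.log X ^ C1) * Real.exp (4 * C) :=
          mul_le_mul hA hB hA0 (by positivity)
      _ = Real.log X ^ C1 * (C1 * Real.exp (4 * C)) := by ring
      _ ≤ Real.log X ^ C1 * Real.log X := by
          apply mul_le_mul_of_nonneg_left _ (by positivity)
          linarith
      _ = Real.log X ^ (C1 + 1) := by
          rw [Real.rpow_add hLpos, Real.rpow_one]

end Pool.Agent.AQ.NC
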