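import Pool.Agent.Lib_helper8.AQ.NCDefs
import Pool.Agent.Lib_helper88.AQN.NA2
import Pool.Agent.Lib_helper88.AQN.NA3
import Pool.Agent.Lib_helper88.AQN.NS3

/-!
# NC, block NX2: the fine bound for `Xi` (helper47)
-/

set_option autoImplicit false

namespace Pool.Agent.AQ.NC

open Finset Pool.Agent.PENT Pool.Agent.PENT.EQ

variable [Cst] {k : ℕ}

theorem nx2_large (K : ℝ) : ∃ X₀ : ℕ, ∀ X : ℕ, X ≥ X₀ → K ≤ Real.log X ∧ Real.log X ^ 3 ≤ PP X := by
  have h1 : Filter.Tendsto (fun X : ℕ => Real.log (X : ℝ)) Filter.atTop Filter.atTop :=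
    Real.tendsto_log_atTop.comp tendsto_natCast_atTop_atTop
  have h2 : Filter.Tendsto (fun X : ℕ => Real.log (X : ℝ) ^ (1 / 100 : ℝ)) Filter.atTop
      Filter.atTop := (tendsto_rpow_atTop (by norm_num)).comp h1
  have h3 := (Real.tendsto_pow_mul_exp_neg_atTop_nhds_zero 300).comp h2
  have h4 : ∀ᶠ X : ℕ in Filter.atTop, (Real.log (X : ℝ) ^ (1 / 100 : ℝ)) ^ 300 *
      Real.exp (-(Real.log (X : ℝ) ^ (1 / 100 : ℝ))) < 1 :=
    h3.eventually (gt_mem_nhds (by norm_num))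
  have h5 := (h1.eventually (Filter.eventually_ge_atTop (max K 0))).and h4
  obtain ⟨X₀, h6⟩ := Filter.eventually_atTop.1 h5
  refine ⟨X₀, fun X hX => ?_⟩
  obtain ⟨h7, h8⟩ := h6 X hX
  have h9 : 0 ≤ Real.log (X : ℝ) := (le_max_right K 0).trans h7
  refine ⟨(le_max_left K 0).trans h7, ?_⟩
  have e1 : (Real.log (X : ℝ) ^ (1 / 100 : ℝ)) ^ 300 = Real.log (X : ℝ) ^ 3 := by
    rw [← Real.rpow_natCast, ← Real.rpow_mul h9, ← Real.rpow_natCast]
    norm_num
  rw [e1, Real.exp_neg] at h8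
  unfold PP
  rw [← div_eq_mul_inv, div_lt_one (Real.exp_pos _)] at h8
  exact h8.le

/-- the coincidences of moderate size -/
theorem nx2_co (C : ℝ) (hC : 0 < C) : ∃ C₂ : ℝ, 0 < C₂ ∧ ∀ S : Finset ℕ,
    (∀ l ∈ S, l.Prime ∧ 3 ≤ l) →
    ∏ l ∈ S, (1 + C / (l : ℝ)) ≤ 1 + C₂ * ∑ l ∈ S, (l : ℝ) ^ (-(9 / 10) : ℝ) := by
  obtain ⟨C1, hC1, h⟩ := prod_log C hC.le
  refine ⟨C * C1 * (10 * C1) ^ C1, by positivity, ?_⟩
  intro S
  induction S using Finset.induction_on_max with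
  | empty => simp
  | insert a s ha ih =>
    intro hS
    have ha1 := hS a (Finset.mem_insert_self a s)
    have hs1 : ∀ l ∈ s, l.Prime ∧ 3 ≤ l := fun l hl => hS l (Finset.mem_insert_of_mem hl)
    have has : a ∉ s := fun hh => lt_irrefl a (ha a hh)
    have ih1 := ih hs1
    have ha3 : (3 : ℝ) ≤ a := by exact_mod_cast ha1.2
    have ha0 : (0 : ℝ) < a := by linarith
    obtain ⟨h1, -⟩ := h (a : ℝ) s (fun l => C / (l : ℝ)) ha3
      (fun l hl => ⟨(hs1 l hl).1, by exact_mod_cast (ha l hl).le⟩)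
      (fun l hl => ⟨by positivity, le_rfl⟩)
    have hlog0 : 0 ≤ Real.log (a : ℝ) := Real.log_nonneg (by linarith)
    have h2 : Real.log (a : ℝ) ^ C1 ≤ (10 * C1) ^ C1 * (a : ℝ) ^ (1 / 10 : ℝ) := by
      have h3 : Real.log (a : ℝ) ≤ (a : ℝ) ^ (1 / (10 * C1)) / (1 / (10 * C1)) :=
        Real.log_le_rpow_div ha0.le (by positivity)
      have h4 : (a : ℝ) ^ (1 / (10 * C1)) / (1 / (10 * C1)) =
          (10 * C1) * (a : ℝ) ^ (1 / (10 * C1)) := by
        rw [div_div_eq_mul_div, div_one, mul_comm]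
      rw [h4] at h3
      calc Real.log (a : ℝ) ^ C1 ≤ ((10 * C1) * (a : ℝ) ^ (1 / (10 * C1))) ^ C1 :=
            Real.rpow_le_rpow hlog0 h3 hC1.le
        _ = (10 * C1) ^ C1 * ((a : ℝ) ^ (1 / (10 * C1))) ^ C1 := by
            rw [Real.mul_rpow (by positivity) (by positivity)]
        _ = (10 * C1) ^ C1 * (a : ℝ) ^ (1 / 10 : ℝ) := by
            rw [← Real.rpow_mul ha0.le]
            congr 2
            field_simp
    have h5 : C / (a : ℝ) * ∏ l ∈ s, (1 + C / (l : ℝ)) ≤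
        C * C1 * (10 * C1) ^ C1 * (a : ℝ) ^ (-(9 / 10) : ℝ) := by
      have e1 : (a : ℝ) ^ (-(9 / 10) : ℝ) = (a : ℝ) ^ (1 / 10 : ℝ) / a := by
        rw [show (-(9 / 10) : ℝ) = 1 / 10 - 1 by norm_num, Real.rpow_sub ha0, Real.rpow_one]
      rw [e1]
      calc C / (a : ℝ) * ∏ l ∈ s, (1 + C / (l : ℝ)) ≤
            C / (a : ℝ) * (C1 * Real.log (a : ℝ) ^ C1) :=
            mul_le_mul_of_nonneg_left h1 (by positivity)
        _ ≤ C / (a : ℝ) * (C1 * ((10 * C1) ^ C1 * (a : ℝ) ^ (1 / 10 : ℝ))) := by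
            apply mul_le_mul_of_nonneg_left _ (by positivity)
            exact mul_le_mul_of_nonneg_left h2 hC1.le
        _ = _ := by
            field_simp
    rw [Finset.prod_insert has, Finset.sum_insert has]
    have e2 : (1 + C / (a : ℝ)) * ∏ l ∈ s, (1 + C / (l : ℝ)) =
        ∏ l ∈ s, (1 + C / (l : ℝ)) + C / (a : ℝ) * ∏ l ∈ s, (1 + C / (l : ℝ)) := by ring
    rw [e2, mul_add]
    linarith

theorem nx2_prod_exp (T : Finset ℕ) (f : ℕ → ℝ) (hf : ∀ l ∈ T, 0 ≤ f l) :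
    ∏ l ∈ T, (1 + f l) ≤ Real.exp (∑ l ∈ T, f l) := by
  rw [Real.exp_sum]
  apply Finset.prod_le_prod
  · intro l hl
    linarith [hf l hl]
  · intro l hl
    linarith [Real.add_one_le_exp (f l)]

theorem nx2_prod_card (C z : ℝ) (hC : 0 < C) (hz : 0 < z) (T : Finset ℕ) (n : ℝ)
    (hT : ∀ l ∈ T, z ≤ (l : ℝ)) (hn : (T.card : ℝ) ≤ n) :
    ∏ l ∈ T, (1 + C / (l : ℝ)) ≤ Real.exp (n * (C / z)) := by
  refine (nx2_prod_exp T (fun l => C / (l : ℝ)) (fun l hl => by positivity)).trans ?_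
  apply Real.exp_le_exp.2
  calc ∑ l ∈ T, C / (l : ℝ) ≤ ∑ _l ∈ T, C / z := by
        apply Finset.sum_le_sum
        intro l hl
        exact div_le_div_of_nonneg_left hC.le hz (hT l hl)
    _ = T.card * (C / z) := by rw [Finset.sum_const, nsmul_eq_mul]
    _ ≤ n * (C / z) := mul_le_mul_of_nonneg_right hn (by positivity)

theorem nx2_sq (P00 : ℕ) (hP : P00 ≠ 0) (T : Finset ℕ) (hT : ∀ l ∈ T, P00 < l) :
    ∑ l ∈ T, 1 / (l : ℝ) ^ 2 ≤ 1 / (P00 : ℝ) := by
  set M := max P00 (T.sup id) with hM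
  have h1 : T ⊆ Ioc P00 M := by
    intro l hl
    rw [Finset.mem_Ioc]
    exact ⟨hT l hl, (Finset.le_sup (f := id) hl).trans (le_max_right _ _)⟩
  have h2 : ∑ l ∈ T, 1 / (l : ℝ) ^ 2 ≤ ∑ l ∈ Ioc P00 M, 1 / (l : ℝ) ^ 2 :=
    Finset.sum_le_sum_of_subset_of_nonneg h1 fun l _ _ => by positivity
  have h3 := sum_Ioc_inv_sq_le_sub (α := ℝ) hP (le_max_left P00 (T.sup id))
  rw [← hM] at h3
  have h4 : (0 : ℝ) ≤ (M : ℝ)⁻¹ := by positivity
  have h5 : ∑ l ∈ Ioc P00 M, 1 / (l : ℝ) ^ 2 = ∑ l ∈ Ioc P00 M, ((l : ℝ) ^ 2)⁻¹ :=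
    Finset.sum_congr rfl fun l _ => one_div _
  rw [h5] at h2
  rw [one_div]
  linarith

/-- the number of primes dividing a number -/
theorem nx2_card (n : ℕ) (hn : n ≠ 0) (T : Finset ℕ) (hT : ∀ l ∈ T, l.Prime ∧ 3 ≤ l ∧ l ∣ n) :
    (T.card : ℝ) ≤ Real.log n := by
  have h1 : T ⊆ n.primeFactors := by
    intro l hl
    rw [Nat.mem_primeFactors]
    exact ⟨(hT l hl).1, (hT l hl).2.2, hn⟩
  have h2 : (∏ l ∈ T, l) ∣ n :=
    (Finset.prod_dvd_prod_of_subset _ _ _ h1).trans (Nat.prod_primeFactors_dvd n)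
  have h3 : (∏ l ∈ T, l) ≤ n := Nat.le_of_dvd (Nat.pos_of_ne_zero hn) h2
  have h4 : (0 : ℕ) < ∏ l ∈ T, l := Finset.prod_pos fun l hl => (hT l hl).1.pos
  have h5 : Real.log ((∏ l ∈ T, l : ℕ) : ℝ) ≤ Real.log n :=
    Real.log_le_log (by exact_mod_cast h4) (by exact_mod_cast h3)
  rw [Nat.cast_prod, Real.log_prod (fun l hl => by exact_mod_cast (hT l hl).1.ne_zero)] at h5
  refine le_trans ?_ h5
  have h6 : (T.card : ℝ) = ∑ _l ∈ T, (1 : ℝ) := by simp
  rw [h6]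
  apply Finset.sum_le_sum
  intro l hl
  have h7 : (3 : ℝ) ≤ l := by exact_mod_cast (hT l hl).2.1
  have h8 := Real.exp_one_lt_d9
  rw [← Real.log_exp 1]
  exact Real.log_le_log (Real.exp_pos 1) (by linarith)

theorem nx2_dt {u v : ℤ × ℤ} (hu : IsCoprime u.1 u.2) (hv : IsCoprime v.1 v.2) (hu1 : 0 < u.1)
    (hv1 : 0 < v.1) (h : dt u v = 0) : u = v := by
  unfold dt at h
  have h1 : u.1 ∣ v.1 := by
    exact hu.dvd_of_dvd_mul_left (z := v.1) ⟨v.2, by linarith⟩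
  have h2 : v.1 ∣ u.1 := by
    exact hv.dvd_of_dvd_mul_left (z := u.1) ⟨u.2, by linarith⟩
  have h3 : u.1 = v.1 := Int.dvd_antisymm hu1.le hv1.le h1 h2
  have h4 : u.2 = v.2 := by
    have h5 : u.1 * v.2 = u.1 * u.2 := by
      rw [h3] at h ⊢
      linarith
    exact (mul_left_cancel₀ hu1.ne' h5).symm
  exact Prod.ext h3 h4

/-- the large coincidences -/
theorem nx2_many {p : Prm k} (hk4 : 4 ≤ k) {X : ℕ} (hX : 2 ≤ X) {u u' : Vec k}
    (hep : p.ep ≤ 1) (hc1 : 0 < p.c1) (hu : GP p X u) (hu' : GP p X u')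
    (su : ∀ j, |((u j).1 : ℝ)| ≤ (X : ℝ) ^ (2 * p.ep) ∧ |((u j).2 : ℝ)| ≤ (X : ℝ) ^ (2 * p.ep))
    (su' : ∀ j, |((u' j).1 : ℝ)| ≤ (X : ℝ) ^ (2 * p.ep) ∧ |((u' j).2 : ℝ)| ≤ (X : ℝ) ^ (2 * p.ep))
    (hne : ∀ i j : Fin (k + 1), 1 ≤ i.val → i.val + 1 ≤ k → 1 ≤ j.val → j.val + 1 ≤ k →
        u i ≠ u' j) (T : Finset ℕ) (hT : ∀ l ∈ T, l.Prime ∧ 3 ≤ l ∧ Co u u' l) :
    (T.card : ℝ) ≤ 14 * (k + 1) * (k + 2) * Real.log X := by
  have hX1 : (2 : ℝ) ≤ X := by exact_mod_cast hX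
  have hlX : 0 ≤ Real.log X := Real.log_nonneg (by linarith)
  -- sizes of the coordinates
  have hsz : ∀ x : ℤ, |(x : ℝ)| ≤ (X : ℝ) ^ (2 * p.ep) → x.natAbs ≤ X ^ 2 := by
    intro x hx
    have h1 : (X : ℝ) ^ (2 * p.ep) ≤ (X : ℝ) ^ (2 : ℝ) :=
      Real.rpow_le_rpow_of_exponent_le (by linarith) (by linarith)
    have h2 : |(x : ℝ)| ≤ (X : ℝ) ^ 2 := by
      rw [← Real.rpow_two]
      exact hx.trans h1
    have h3 : ((x.natAbs : ℕ) : ℝ) ≤ (X : ℝ) ^ 2 := by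
      rw [Nat.cast_natAbs]
      push_cast
      exact h2
    exact_mod_cast h3
  have a1 : ∀ j, (u j).1.natAbs ≤ X ^ 2 := fun j => hsz _ (su j).1
  have a2 : ∀ j, (u j).2.natAbs ≤ X ^ 2 := fun j => hsz _ (su j).2
  have b1 : ∀ j, (u' j).1.natAbs ≤ X ^ 2 := fun j => hsz _ (su' j).1
  have b2 : ∀ j, (u' j).2.natAbs ≤ X ^ 2 := fun j => hsz _ (su' j).2
  have hX0' : 0 < X := by omega
  have hzd : ∀ {w : Vec k}, GP p X w → (∀ j, (w j).1.natAbs ≤ X ^ 2) →
      (∀ j, (w j).2.natAbs ≤ X ^ 2) → ∀ i : Fin (k + 1), 1 ≤ i.val → i.val + 1 ≤ k →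
      (dt (w i) z).natAbs ≠ 0 ∧ (dt (w i) z).natAbs ≤ X ^ 5 := by
    intro w hw c1 c2 i h1 h2
    constructor
    · intro h0
      have h3 := hw.sep i (Fin.last k) (by rw [Fin.lt_def, Fin.val_last]; omega)
      rw [hw.last, Int.natAbs_eq_zero.1 h0, Int.cast_zero, mul_zero] at h3
      have h4 := hw.pos i h1 h2
      have h5 : (0 : ℝ) < (nm (w i) : ℝ) := by
        have : 0 < nm (w i) := by
          unfold nm
          omega
        exact_mod_cast this
      have h6 : (0 : ℝ) < (nm z : ℝ) := by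
        have : 0 < nm z := by
          have h7 := z1_pos
          have h8 := z_two
          unfold nm
          omega
        exact_mod_cast this
      have h7 : 0 < p.c1 * ((nm (w i) : ℝ) * (nm z : ℝ)) := mul_pos hc1 (mul_pos h5 h6)
      linarith
    · have z1 : z.1.natAbs ≤ X ^ 2 := by
        have := c1 (Fin.last k)
        rwa [hw.last] at this
      have z2 : z.2.natAbs ≤ X ^ 2 := by
        have := c2 (Fin.last k)
        rwa [hw.last] at this
      have h1 : (dt (w i) z).natAbs ≤ (w i).1.natAbs * z.2.natAbs +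
          (w i).2.natAbs * z.1.natAbs := by
        unfold dt
        rw [← Int.natAbs_mul, ← Int.natAbs_mul]
        exact Int.natAbs_sub_le _ _
      calc _ ≤ X ^ 2 * X ^ 2 + X ^ 2 * X ^ 2 :=
            h1.trans (Nat.add_le_add (Nat.mul_le_mul (c1 i) z2)
              (Nat.mul_le_mul (c2 i) z1))
        _ = 2 * X ^ 4 := by ring
        _ ≤ X * X ^ 4 := Nat.mul_le_mul_right _ hX
        _ = X ^ 5 := by ring
  set G : Fin (k + 1) → ℕ := fun i => if 1 ≤ i.val ∧ i.val + 1 ≤ k then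
    (dt (u i) z).natAbs * (u i).2.natAbs * ((dt (u' i) z).natAbs * (u' i).2.natAbs) else 1 with hG
  set F : Fin (k + 1) → Fin (k + 1) → ℕ := fun i j =>
    if (1 ≤ i.val ∧ i.val + 1 ≤ k) ∧ (1 ≤ j.val ∧ j.val + 1 ≤ k) then
      (dt (u i) (u' j)).natAbs else 1 with hF
  have hX0 : 0 < X := by omega
  have hG1 : ∀ i, G i ≠ 0 ∧ G i ≤ X ^ 14 := by
    intro i
    rw [hG]
    dsimp only
    split_ifs with h
    · obtain ⟨p1, p2⟩ := hu.pos i h.1 h.2
      obtain ⟨p3, p4⟩ := hu'.pos i h.1 h.2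
      obtain ⟨n1, d1⟩ := hzd hu a1 a2 i h.1 h.2
      have n2 : (u i).2.natAbs ≠ 0 := Int.natAbs_ne_zero.2 p2.ne'
      obtain ⟨n3, d3⟩ := hzd hu' b1 b2 i h.1 h.2
      have n4 : (u' i).2.natAbs ≠ 0 := Int.natAbs_ne_zero.2 p4.ne'
      refine ⟨Nat.mul_ne_zero (Nat.mul_ne_zero n1 n2) (Nat.mul_ne_zero n3 n4), ?_⟩
      calc _ ≤ X ^ 5 * X ^ 2 * (X ^ 5 * X ^ 2) :=
            Nat.mul_le_mul (Nat.mul_le_mul d1 (a2 i)) (Nat.mul_le_mul d3 (b2 i))
        _ = X ^ 14 := by ring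
    · exact ⟨one_ne_zero, Nat.one_le_pow _ _ hX0⟩
  have hF1 : ∀ i j, F i j ≠ 0 ∧ F i j ≤ X ^ 14 := by
    have h814 : X ^ 8 ≤ X ^ 14 := Nat.pow_le_pow_right hX0 (by norm_num)
    intro i j
    refine (fun h : F i j ≠ 0 ∧ F i j ≤ X ^ 8 => ⟨h.1, h.2.trans h814⟩) ?_
    rw [hF]
    dsimp only
    split_ifs with h
    · refine ⟨?_, ?_⟩
      · rw [Int.natAbs_ne_zero]
        intro h0
        exact hne i j h.1.1 h.1.2 h.2.1 h.2.2 (nx2_dt (hu.prim (by omega) i)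
          (hu'.prim (by omega) j) (hu.pos i h.1.1 h.1.2).1 (hu'.pos j h.2.1 h.2.2).1 h0)
      · have h1 : (dt (u i) (u' j)).natAbs ≤ (u i).1.natAbs * (u' j).2.natAbs +
            (u i).2.natAbs * (u' j).1.natAbs := by
          unfold dt
          rw [← Int.natAbs_mul, ← Int.natAbs_mul]
          exact Int.natAbs_sub_le _ _
        calc _ ≤ X ^ 2 * X ^ 2 + X ^ 2 * X ^ 2 :=
              h1.trans (Nat.add_le_add (Nat.mul_le_mul (a1 i) (b2 j))
                (Nat.mul_le_mul (a2 i) (b1 j)))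
          _ = 2 * X ^ 4 := by ring
          _ ≤ X ^ 4 * X ^ 4 := by
              apply Nat.mul_le_mul_right
              calc 2 ≤ X := hX
                _ = X ^ 1 := (pow_one X).symm
                _ ≤ X ^ 4 := Nat.pow_le_pow_right hX0 (by norm_num)
          _ = X ^ 8 := by ring
    · exact ⟨one_ne_zero, Nat.one_le_pow _ _ hX0⟩
  set n := (∏ i, G i) * ∏ i, ∏ j, F i j with hn
  have hn0 : n ≠ 0 := Nat.mul_ne_zero (Finset.prod_ne_zero_iff.2 fun i _ => (hG1 i).1)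
    (Finset.prod_ne_zero_iff.2 fun i _ => Finset.prod_ne_zero_iff.2 fun j _ => (hF1 i j).1)
  have hn1 : n ≤ X ^ (14 * (k + 1) * (k + 2)) := by
    have g1 : ∏ i, G i ≤ (X ^ 14) ^ (k + 1) := by
      calc ∏ i, G i ≤ ∏ _i : Fin (k + 1), X ^ 14 := Finset.prod_le_prod' fun i _ => (hG1 i).2
        _ = _ := by simp
    have g2 : ∏ i, ∏ j, F i j ≤ ((X ^ 14) ^ (k + 1)) ^ (k + 1) := by
      calc ∏ i, ∏ j, F i j ≤ ∏ _i : Fin (k + 1), ∏ _j : Fin (k + 1), X ^ 14 :=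
            Finset.prod_le_prod' fun i _ => Finset.prod_le_prod' fun j _ => (hF1 i j).2
        _ = _ := by simp
    calc n ≤ (X ^ 14) ^ (k + 1) * ((X ^ 14) ^ (k + 1)) ^ (k + 1) := Nat.mul_le_mul g1 g2
      _ = X ^ (14 * (k + 1) * (k + 2)) := by
          rw [← pow_mul, ← pow_mul, ← pow_add]
          congr 1
          ring
  have hTn : ∀ l ∈ T, l.Prime ∧ 3 ≤ l ∧ l ∣ n := by
    intro l hl
    obtain ⟨t1, t2, t3⟩ := hT l hl
    refine ⟨t1, t2, ?_⟩
    rcases t3 with ⟨i, i1, i2, h⟩ | ⟨i, i1, i2, h⟩ | ⟨i, j, i1, i2, j1, j2, h⟩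
    · have e : G i = (dt (u i) z).natAbs * (u i).2.natAbs *
          ((dt (u' i) z).natAbs * (u' i).2.natAbs) := by
        rw [hG]
        dsimp only
        rw [if_pos ⟨by omega, i2⟩]
      have h1 : l ∣ G i := by
        rw [e]
        rcases h with h | h
        · exact Dvd.dvd.mul_right (Dvd.dvd.mul_left (Int.natCast_dvd.1 h) _) _
        · exact Dvd.dvd.mul_left (Dvd.dvd.mul_left (Int.natCast_dvd.1 h) _) _
      exact Dvd.dvd.mul_right (h1.trans (Finset.dvd_prod_of_mem G (Finset.mem_univ i))) _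
    · have e : G i = (dt (u i) z).natAbs * (u i).2.natAbs *
          ((dt (u' i) z).natAbs * (u' i).2.natAbs) := by
        rw [hG]
        dsimp only
        rw [if_pos ⟨i1, by omega⟩]
      have h1 : l ∣ G i := by
        rw [e]
        rcases h with h | h
        · exact Dvd.dvd.mul_right (Dvd.dvd.mul_right (Int.natCast_dvd.1 h) _) _
        · exact Dvd.dvd.mul_left (Dvd.dvd.mul_right (Int.natCast_dvd.1 h) _) _
      exact Dvd.dvd.mul_right (h1.trans (Finset.dvd_prod_of_mem G (Finset.mem_univ i))) _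
    · have e : F i j = (dt (u i) (u' j)).natAbs := by
        rw [hF]
        dsimp only
        rw [if_pos ⟨⟨i1, i2⟩, ⟨j1, j2⟩⟩]
      have h1 : l ∣ F i j := by
        rw [e]
        exact Int.natCast_dvd.1 h
      have h2 : F i j ∣ ∏ i, ∏ j, F i j :=
        (Finset.dvd_prod_of_mem (F i) (Finset.mem_univ j)).trans
          (Finset.dvd_prod_of_mem (fun i => ∏ j, F i j) (Finset.mem_univ i))
      exact Dvd.dvd.mul_left (h1.trans h2) _
  have hfin := nx2_card n hn0 T hTn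
  have h1 : Real.log n ≤ Real.log ((X : ℝ) ^ (14 * (k + 1) * (k + 2))) := by
    apply Real.log_le_log
    · exact_mod_cast Nat.pos_of_ne_zero hn0
    · exact_mod_cast hn1
  rw [Real.log_pow] at h1
  push_cast at h1
  linarith

/-- NX2: the fine bound -/
theorem Xi_fine (hk4 : 4 ≤ k) (C : ℝ) (hC : 0 < C) : ∃ C' : ℝ, 0 < C' ∧ ∀ p : Prm k, p.Ok 1 →
    ∀ P00 : ℕ, C' ≤ P00 → ∃ X₀ : ℕ, ∀ X ≥ X₀, ∀ u u' : Vec k, GP p X u → GP p X u' →
      (∀ i j : Fin (k + 1), 1 ≤ i.val → i.val + 1 ≤ k → 1 ≤ j.val → j.val + 1 ≤ k →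
        u i ≠ u' j) →
      ∀ S : Finset ℕ, (∀ l, l ∈ S ↔ l ∈ Spr P00 (Real.log X ^ 2) ∧ Co u u' l) →
      Xi p X P00 C u u' - 1 ≤ C' / P00 + C' * ∑ l ∈ S, (l : ℝ) ^ (-(9 / 10) : ℝ) +
        Real.log X ^ (-(1 / 2) : ℝ) := by
  classical
  obtain ⟨C₂, hC₂, hco⟩ := nx2_co C hC
  refine ⟨3 * C + 9 * C₂ + 3, by positivity, ?_⟩
  intro p hp P00 hP00
  obtain ⟨X1, hX1⟩ := GP.sizes hp hk4
  set C3 : ℝ := 14 * (k + 1) * (k + 2) with hC3
  have hC30 : 0 < C3 := by positivity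
  obtain ⟨X2, hX2⟩ := nx2_large (2 + P00 + (12 * C + 6 * C * C3) ^ 2)
  refine ⟨max (max X1 X2) 2, ?_⟩
  intro X hX u u' hu hu' hne S hS
  have hXX1 : X ≥ X1 := (le_max_left X1 X2).trans ((le_max_left _ 2).trans hX)
  have hXX2 : X ≥ X2 := (le_max_right X1 X2).trans ((le_max_left _ 2).trans hX)
  have hXX3 : 2 ≤ X := (le_max_right _ 2).trans hX
  obtain ⟨hL1, hL2⟩ := hX2 X hXX2
  set L := Real.log (X : ℝ) with hL
  have hP0 : (0 : ℝ) < P00 := by linarith
  have hP0' : 3 ≤ P00 := by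
    have : (3 : ℝ) ≤ P00 := by linarith
    exact_mod_cast this
  have hsq0 : 0 ≤ (12 * C + 6 * C * C3) ^ 2 := sq_nonneg _
  have hL3 : 2 ≤ L := by linarith
  have hL4 : (P00 : ℝ) ≤ L := by linarith
  have hL5 : L ≤ L ^ 2 := by nlinarith
  have hL6 : L ^ 2 ≤ L ^ 3 := by
    have : L ^ 3 = L ^ 2 * L := by ring
    rw [this]
    nlinarith
  have hLPP : L ^ 2 ≤ PP X := hL6.trans hL2
  obtain ⟨su, -, cu, -⟩ := hX1 X hXX1 u hu
  obtain ⟨su', -, cu', -⟩ := hX1 X hXX1 u' hu'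
  have dpos : 0 < Dall u := (hu.Dall_eq (by omega)).2.2
  have dpos' : 0 < Dall u' := (hu'.Dall_eq (by omega)).2.2
  have hDD : ∀ l ∈ (Dall u * Dall u').primeFactors, Sp l ∧ PP X < (l : ℝ) := by
    intro l hl
    rw [Nat.mem_primeFactors] at hl
    obtain ⟨l1, l2, -⟩ := hl
    rcases (l1.dvd_mul).1 l2 with h | h
    · exact hu.prime_Dall l1 h
    · exact hu'.prime_Dall l1 h
  set A := Sall p X P00 u u' with hA
  have hAm : ∀ l ∈ A, l.Prime ∧ P00 < l := by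
    intro l hl
    rw [hA] at hl
    unfold Sall at hl
    rw [Finset.mem_union] at hl
    rcases hl with h | h
    · unfold Spr at h
      rw [Finset.mem_filter, Finset.mem_Ioc] at h
      exact ⟨h.2.prime, h.1.1⟩
    · obtain ⟨h1, h2⟩ := hDD l h
      refine ⟨h1.prime, ?_⟩
      have : (P00 : ℝ) < l := by linarith
      exact_mod_cast this
  -- the four products
  set T1 := A.filter (fun l : ℕ => l ∣ Dall u * Dall u') with hT1
  set T2 := A.filter (fun l : ℕ => Co u u' l ∧ L ^ 2 < (l : ℝ)) with hT2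
  set T3 := A.filter (fun l : ℕ => Co u u' l ∧ (l : ℝ) ≤ L ^ 2) with hT3
  have hXi : Xi p X P00 C u u' ≤ (∏ l ∈ A, (1 + C / (l : ℝ) ^ 2)) *
      (∏ l ∈ T1, (1 + C / (l : ℝ))) * (∏ l ∈ T2, (1 + C / (l : ℝ))) *
        ∏ l ∈ T3, (1 + C / (l : ℝ)) := by
    rw [hT1, hT2, hT3, Finset.prod_filter, Finset.prod_filter, Finset.prod_filter,
      ← Finset.prod_mul_distrib, ← Finset.prod_mul_distrib, ← Finset.prod_mul_distrib]
    unfold Xi
    rw [← hA]
    apply Finset.prod_le_prod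
    · intro l hl
      unfold tl
      split_ifs <;> positivity
    · intro l hl
      have x0 : 0 ≤ C / (l : ℝ) ^ 2 := by positivity
      have y0 : 0 ≤ C / (l : ℝ) := by positivity
      have key : ∀ a b c : ℝ, 1 ≤ a → 1 ≤ b → 1 ≤ c →
          (1 + C / (l : ℝ) ≤ a ∨ 1 + C / (l : ℝ) ≤ b ∨ 1 + C / (l : ℝ) ≤ c) →
          1 + (C / (l : ℝ) ^ 2 + C / (l : ℝ)) ≤ (1 + C / (l : ℝ) ^ 2) * a * b * c := by
        intro a b c ha hb hc h
        have h1 : 1 + C / (l : ℝ) ≤ a * b * c := by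
          have hab : 1 ≤ a * b := one_le_mul_of_one_le_of_one_le ha hb
          have habc : a * b ≤ a * b * c := le_mul_of_one_le_right (by linarith) hc
          rcases h with h | h | h
          · exact (h.trans (le_mul_of_one_le_right (by linarith) hb)).trans habc
          · exact (h.trans (le_mul_of_one_le_left (by linarith) ha)).trans habc
          · exact h.trans (le_mul_of_one_le_left (by linarith) hab)
        have h2 : (1 + C / (l : ℝ) ^ 2) * (1 + C / (l : ℝ)) =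
            1 + (C / (l : ℝ) ^ 2 + C / (l : ℝ)) + C / (l : ℝ) ^ 2 * (C / (l : ℝ)) := by ring
        calc 1 + (C / (l : ℝ) ^ 2 + C / (l : ℝ)) ≤
              (1 + C / (l : ℝ) ^ 2) * (1 + C / (l : ℝ)) := by
                rw [h2]
                linarith [mul_nonneg x0 y0]
          _ ≤ (1 + C / (l : ℝ) ^ 2) * (a * b * c) :=
              mul_le_mul_of_nonneg_left h1 (by linarith)
          _ = _ := by ring
      unfold tl
      by_cases c1 : l ∣ Dall u * Dall u' ∨ Co u u' l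
      · rw [if_pos c1]
        apply key
        · split_ifs <;> linarith
        · split_ifs <;> linarith
        · split_ifs <;> linarith
        · rcases c1 with c1 | c1
          · left
            rw [if_pos c1]
          · rcases le_or_gt (l : ℝ) (L ^ 2) with c2 | c2
            · right; right
              rw [if_pos ⟨c1, c2⟩]
            · right; left
              rw [if_pos ⟨c1, c2⟩]
      · rw [if_neg c1]
        rw [not_or] at c1
        rw [if_neg c1.1, if_neg (fun h => c1.2 h.1), if_neg (fun h => c1.2 h.1)]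
        linarith
  -- bounds
  have hB0 : ∏ l ∈ A, (1 + C / (l : ℝ) ^ 2) ≤ Real.exp (C / P00) := by
    refine (nx2_prod_exp A (fun l => C / (l : ℝ) ^ 2) (fun l _ => by positivity)).trans ?_
    apply Real.exp_le_exp.2
    have h1 := nx2_sq P00 (by omega) A (fun l hl => (hAm l hl).2)
    calc ∑ l ∈ A, C / (l : ℝ) ^ 2 = C * ∑ l ∈ A, 1 / (l : ℝ) ^ 2 := by
          rw [Finset.mul_sum]
          exact Finset.sum_congr rfl fun l _ => by ring
      _ ≤ C * (1 / P00) := mul_le_mul_of_nonneg_left h1 hC.le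
      _ = C / P00 := by ring
  have hPPpos : 0 < PP X := Real.exp_pos _
  have hB1 : ∏ l ∈ T1, (1 + C / (l : ℝ)) ≤ Real.exp (2 * L * (C / PP X)) := by
    apply nx2_prod_card C (PP X) hC hPPpos
    · intro l hl
      rw [hT1, Finset.mem_filter] at hl
      exact (hDD l (Nat.mem_primeFactors.2 ⟨(hAm l hl.1).1, hl.2,
        (Nat.mul_pos dpos dpos').ne'⟩)).2.le
    · have h1 : T1 ⊆ (Dall u).primeFactors ∪ (Dall u').primeFactors := by
        intro l hl
        rw [hT1, Finset.mem_filter] at hl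
        rw [← Nat.primeFactors_mul dpos.ne' dpos'.ne', Nat.mem_primeFactors]
        exact ⟨(hAm l hl.1).1, hl.2, (Nat.mul_pos dpos dpos').ne'⟩
      have h2 : (T1.card : ℝ) ≤ ((Dall u).primeFactors.card : ℝ) +
          ((Dall u').primeFactors.card : ℝ) := by
        exact_mod_cast (Finset.card_le_card h1).trans (Finset.card_union_le _ _)
      linarith
  have hB2 : ∏ l ∈ T2, (1 + C / (l : ℝ)) ≤ Real.exp (C3 * L * (C / L ^ 2)) := by
    apply nx2_prod_card C (L ^ 2) hC (by positivity)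
    · intro l hl
      rw [hT2, Finset.mem_filter] at hl
      exact hl.2.2.le
    · have hep : p.ep ≤ 1 := hp.ep1
      apply nx2_many hk4 hXX3 hep hp.c10 hu hu' su su' hne
      intro l hl
      rw [hT2, Finset.mem_filter] at hl
      have := hAm l hl.1
      exact ⟨this.1, by omega, hl.2.1⟩
  have hB3 : ∏ l ∈ T3, (1 + C / (l : ℝ)) ≤ 1 + C₂ * ∑ l ∈ S, (l : ℝ) ^ (-(9 / 10) : ℝ) := by
    refine (hco T3 (fun l hl => ?_)).trans ?_
    · rw [hT3, Finset.mem_filter] at hl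
      have := hAm l hl.1
      exact ⟨this.1, by omega⟩
    · have h1 : T3 ⊆ S := by
        intro l hl
        rw [hT3, Finset.mem_filter] at hl
        obtain ⟨l1, l2, l3⟩ := hl
        rw [hS l]
        refine ⟨?_, l2⟩
        rw [hA] at l1
        unfold Sall at l1
        rw [Finset.mem_union] at l1
        rcases l1 with h | h
        · unfold Spr at h ⊢
          rw [Finset.mem_filter, Finset.mem_Ioc] at h ⊢
          exact ⟨⟨h.1.1, Nat.le_floor l3⟩, h.2⟩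
        · exfalso
          have := (hDD l h).2
          linarith
      have h2 : ∑ l ∈ T3, (l : ℝ) ^ (-(9 / 10) : ℝ) ≤ ∑ l ∈ S, (l : ℝ) ^ (-(9 / 10) : ℝ) :=
        Finset.sum_le_sum_of_subset_of_nonneg h1 fun l _ _ => by positivity
      have h3 := mul_le_mul_of_nonneg_left h2 hC₂.le
      linarith
  -- combine
  set σ := ∑ l ∈ S, (l : ℝ) ^ (-(9 / 10) : ℝ) with hσ
  have hσ0 : 0 ≤ σ := Finset.sum_nonneg fun l _ => by positivity
  set η : ℝ := C / P00 with hη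
  set ζ : ℝ := 2 * L * (C / PP X) + C3 * L * (C / L ^ 2) with hζ
  have hη0 : 0 ≤ η := by positivity
  have hη1 : η ≤ 1 := by
    rw [hη, div_le_one hP0]
    linarith
  have hζ0 : 0 ≤ ζ := by positivity
  have hL0 : 0 < L := by linarith
  have hζ1 : 6 * ζ ≤ (12 * C + 6 * C * C3) / L := by
    have h1 : L * (C / PP X) ≤ C / L := by
      have h2 : L * (C / PP X) = (L * C) / PP X := by ring
      rw [h2, div_le_div_iff₀ hPPpos hL0]
      have h3 : L * C * L = C * L ^ 2 := by ring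
      rw [h3]
      exact mul_le_mul_of_nonneg_left hLPP hC.le
    have h2 : C3 * L * (C / L ^ 2) = C * C3 / L := by
      field_simp
    rw [hζ, h2]
    have h3 : (12 * C + 6 * C * C3) / L = 12 * (C / L) + 6 * (C * C3 / L) := by
      field_simp
    rw [h3]
    linarith
  have hhalf : (12 * C + 6 * C * C3) / L ≤ L ^ (-(1 / 2) : ℝ) := by
    have h1 : (12 * C + 6 * C * C3) ≤ L ^ (1 / 2 : ℝ) := by
      have h2 : (12 * C + 6 * C * C3) ^ 2 ≤ L := by linarith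
      have h3 : 0 ≤ 12 * C + 6 * C * C3 := by positivity
      rw [← Real.sqrt_eq_rpow]
      exact Real.le_sqrt_of_sq_le h2
    have h4 : L ^ (-(1 / 2) : ℝ) = L ^ (1 / 2 : ℝ) / L := by
      rw [show (-(1 / 2) : ℝ) = 1 / 2 - 1 by norm_num, Real.rpow_sub hL0, Real.rpow_one]
    rw [h4]
    exact div_le_div_of_nonneg_right h1 hL0.le
  have hhalf1 : L ^ (-(1 / 2) : ℝ) ≤ 1 :=
    Real.rpow_le_one_of_one_le_of_nonpos (by linarith) (by norm_num)
  have hζ2 : ζ ≤ 1 := by linarith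
  have hexp : ∀ x : ℝ, 0 ≤ x → x ≤ 1 → Real.exp x ≤ 1 + 2 * x := by
    intro x h0 h1
    have h2 := Real.abs_exp_sub_one_sub_id_le (x := x) (by rw [abs_of_nonneg h0]; exact h1)
    have h3 := (abs_le.1 h2).2
    have h4 : x ^ 2 ≤ x := by
      rw [sq]
      exact mul_le_of_le_one_right h0 h1
    linarith
  have hE1 := hexp η hη0 hη1
  have hE2 := hexp ζ hζ0 hζ2
  have p0 : 0 ≤ ∏ l ∈ A, (1 + C / (l : ℝ) ^ 2) := Finset.prod_nonneg fun l _ => by positivity
  have p1 : 0 ≤ ∏ l ∈ T1, (1 + C / (l : ℝ)) := Finset.prod_nonneg fun l _ => by positivity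
  have p2 : 0 ≤ ∏ l ∈ T2, (1 + C / (l : ℝ)) := Finset.prod_nonneg fun l _ => by positivity
  have p3 : 0 ≤ ∏ l ∈ T3, (1 + C / (l : ℝ)) := Finset.prod_nonneg fun l _ => by positivity
  have hfin : Xi p X P00 C u u' ≤ (1 + 2 * η) * (1 + 2 * ζ) * (1 + C₂ * σ) := by
    calc Xi p X P00 C u u' ≤ _ := hXi
      _ ≤ Real.exp η * Real.exp (2 * L * (C / PP X)) * Real.exp (C3 * L * (C / L ^ 2)) *
          (1 + C₂ * σ) := by
          apply mul_le_mul _ hB3 p3 (by positivity)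
          apply mul_le_mul _ hB2 p2 (by positivity)
          exact mul_le_mul hB0 hB1 p1 (by positivity)
      _ = Real.exp η * Real.exp ζ * (1 + C₂ * σ) := by
          rw [hζ, Real.exp_add]
          ring
      _ ≤ _ := by
          apply mul_le_mul_of_nonneg_right _ (by positivity)
          exact mul_le_mul hE1 hE2 (Real.exp_pos _).le (by positivity)
  have q0 : η * ζ ≤ 1 * ζ := mul_le_mul_of_nonneg_right hη1 hζ0
  have q1' : (1 + 2 * η) * (1 + 2 * ζ) = 1 + 2 * η + 2 * ζ + 4 * (η * ζ) := by ring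
  have q1 : (1 + 2 * η) * (1 + 2 * ζ) ≤ 9 := by
    rw [q1']
    linarith
  have q2 : (1 + 2 * η) * (1 + 2 * ζ) ≤ 1 + 2 * η + 6 * ζ := by
    rw [q1']
    linarith
  have q3 : (1 + 2 * η) * (1 + 2 * ζ) * (C₂ * σ) ≤ 9 * (C₂ * σ) :=
    mul_le_mul_of_nonneg_right q1 (by positivity)
  have q4 : (1 + 2 * η) * (1 + 2 * ζ) * (1 + C₂ * σ) =
      (1 + 2 * η) * (1 + 2 * ζ) + (1 + 2 * η) * (1 + 2 * ζ) * (C₂ * σ) := by ring
  have r1 : 2 * η ≤ (3 * C + 9 * C₂ + 3) / P00 := by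
    have : 2 * η = (2 * C) / P00 := by
      rw [hη]
      ring
    rw [this]
    apply div_le_div_of_nonneg_right _ hP0.le
    linarith
  have r2 : 9 * (C₂ * σ) ≤ (3 * C + 9 * C₂ + 3) * σ := by
    have : 9 * (C₂ * σ) = (9 * C₂) * σ := by ring
    rw [this]
    apply mul_le_mul_of_nonneg_right _ hσ0
    linarith
  linarith

end Pool.Agent.AQ.NC
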