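import Pool.Agent.Lib_helper8.AQ.NCDefs
import Pool.Agent.Lib_helper88.AQN.NA1
import Pool.Agent.Lib_helper88.AQN.NA2
import Pool.Agent.Lib_helper88.AQN.NA8

/-!
# NC, block NX3 (helper67)
-/

set_option autoImplicit false

namespace Pool.Agent.AQ.NC

open Finset Pool.Agent.PENT Pool.Agent.PENT.EQ

variable [Cst] {k : ℕ}

theorem nx3_cm_nonneg {g : ℕ → ℝ} (hg : ∀ l, 0 ≤ g l) (n : ℕ) : 0 ≤ cm g n := by
  unfold cm Finsupp.prod
  exact Finset.prod_nonneg fun p _ => pow_nonneg (hg p) _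

theorem nx3_alE (k j : ℕ) : 0 ≤ alE k j := by
  unfold alE; split_ifs <;> norm_num

theorem nx3_beV (k j : ℕ) : 0 ≤ beV k j := by
  unfold beV; split_ifs <;> norm_num

theorem nx3_boV (j : ℕ) : 0 ≤ boV j := by
  unfold boV; split_ifs <;> norm_num

theorem nx3_wdE (k : ℕ) (Y : ℝ) (j l : ℕ) : 0 ≤ wdE k Y j l := by
  unfold wdE; split_ifs
  · exact nx3_alE k j
  · norm_num

theorem nx3_wyV (k : ℕ) (P Y : ℝ) (j l : ℕ) : 0 ≤ wyV k P Y j l := by
  unfold wyV; split_ifs
  · norm_num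
  · exact nx3_boV j
  · exact nx3_beV k j
  · norm_num

theorem nx3_wend (p : Prm k) (X : ℕ) (q : ℤ × ℤ × ℤ) (f : ℕ × ℕ) : 0 ≤ wend p X q f := by
  unfold wend
  split_ifs
  · have h1 := fun n => nx3_cm_nonneg (fun l => nx3_wdE k (p.Y X) 0 l) n
    have h2 := fun n => nx3_cm_nonneg (fun l => nx3_wyV k (PP X) (p.Y X) 0 l) n
    exact mul_nonneg (mul_nonneg (h1 _) (h1 _)) (mul_nonneg (h2 _) (h2 _))
  · exact le_rfl

open Classical in
/-- NX3 -/
theorem Gn_transfer {p : Prm k} {X P00 : ℕ} (hc : 0 < p.c1) (hk : 4 ≤ k) {q : ℤ × ℤ × ℤ}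
    (hq : q.1 * q.2.2 - q.2.1 ^ 2 = D) {m B : ℝ} (hm : 0 < m) (hB : 0 ≤ B)
    (hM : ∀ f ∈ Fac p X, m ≤ Mp p X P00 q f) (A : Vec k → Prop)
    (hA : ∀ f ∈ Fac p X, ∑ u ∈ (GS p X).filter (fun u => fE u = f ∧ A u), gk p X P00 q u ≤ B) :
    ∑ u ∈ (GS p X).filter A, Gn p X P00 q u ≤ B / m := by
  have hmaps : ∀ u ∈ (GS p X).filter A, fE u ∈ Fac p X := by
    intro u hu
    rw [Finset.mem_filter] at hu
    exact ((mem_GS hc).1 hu.1).fE_mem (by omega)
  rw [← Finset.sum_fiberwise_of_maps_to hmaps]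
  have key : ∀ f ∈ Fac p X, ∑ u ∈ ((GS p X).filter A).filter (fun u => fE u = f),
      Gn p X P00 q u ≤ wend p X q f * (B / m) := by
    intro f hf
    have hMf : 0 < Mp p X P00 q f := lt_of_lt_of_le hm (hM f hf)
    have e1 : ∑ u ∈ ((GS p X).filter A).filter (fun u => fE u = f), Gn p X P00 q u
        = wend p X q f / Mp p X P00 q f *
          ∑ u ∈ (GS p X).filter (fun u => fE u = f ∧ A u), gk p X P00 q u := by
      rw [Finset.mul_sum, Finset.filter_filter]
      have e2 : (GS p X).filter (fun u => A u ∧ fE u = f)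
          = (GS p X).filter (fun u => fE u = f ∧ A u) := by
        apply Finset.filter_congr
        intro u _
        exact and_comm
      rw [e2]
      apply Finset.sum_congr rfl
      intro u hu
      rw [Finset.mem_filter] at hu
      unfold Gn
      rw [hu.2.1]
      ring
    rw [e1]
    have hw := nx3_wend p X q f
    have h3 : wend p X q f / Mp p X P00 q f *
        ∑ u ∈ (GS p X).filter (fun u => fE u = f ∧ A u), gk p X P00 q u
        ≤ wend p X q f / Mp p X P00 q f * B :=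
      mul_le_mul_of_nonneg_left (hA f hf) (div_nonneg hw hMf.le)
    have h4 : wend p X q f / Mp p X P00 q f * B = wend p X q f * (B / Mp p X P00 q f) := by ring
    have h5 : B / Mp p X P00 q f ≤ B / m := div_le_div_of_nonneg_left hB hm (hM f hf)
    rw [h4] at h3
    exact h3.trans (mul_le_mul_of_nonneg_left h5 hw)
  refine (Finset.sum_le_sum key).trans ?_
  rw [← Finset.sum_mul]
  have h1 : (∑ f ∈ Fac p X, wend p X q f) ≤ 1 := (av_le_one (p := p) (X := X) hq).2
  have h2 : 0 ≤ B / m := div_nonneg hB hm.le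
  calc (∑ f ∈ Fac p X, wend p X q f) * (B / m) ≤ 1 * (B / m) :=
        mul_le_mul_of_nonneg_right h1 h2
    _ = B / m := one_mul _

end Pool.Agent.AQ.NC
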