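import Pool.Agent.Lib_helper8.AQ.NCDefs
import Pool.Agent.Lib_helper88.AQN.NA1
import Pool.Agent.Lib_helper88.AQN.NA2
import Pool.Agent.Lib_helper88.AQN.NA4
import Pool.Agent.Lib_helper88.AQN.NA8
import Pool.Agent.Lib_helper88.AQN.NA9
import Pool.Agent.Lib_helper88.AQN.NX1
import Pool.Agent.Lib_helper88.AQN.NX2
import Pool.Agent.Lib_helper88.AQN.NX4

/-!
# NC, block NX5: the mean of `Xi - 1`
-/

set_option autoImplicit false

namespace Pool.Agent.AQ.NC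

open Finset Pool.Agent.PENT Pool.Agent.PENT.EQ

variable [Cst] {k : ℕ}

/-- the mass of the pairs with an event -/
theorem nx5_pair {V ι : Type} (s : Finset V) (g : V → ℝ) (hg : ∀ u ∈ s, 0 ≤ g u)
    (h1 : ∑ u ∈ s, g u ≤ 1) (I : Finset ι) (A : ι → V → V → Prop)
    [∀ i u u', Decidable (A i u u')] {K : ℝ} (hK : 0 ≤ K)
    (hA : ∀ i ∈ I, (∀ u ∈ s, ∑ u' ∈ s.filter (fun u' => A i u u'), g u' ≤ K) ∨
      (∀ u' ∈ s, ∑ u ∈ s.filter (fun u => A i u u'), g u ≤ K))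
    (R : V → V → Prop) [∀ u u', Decidable (R u u')]
    (hR : ∀ u ∈ s, ∀ u' ∈ s, R u u' → ∃ i ∈ I, A i u u') :
    ∑ u ∈ s, ∑ u' ∈ s, (if R u u' then g u * g u' else 0) ≤ I.card * K := by
  have h2 : ∀ u ∈ s, ∀ u' ∈ s, (if R u u' then g u * g u' else 0) ≤
      ∑ i ∈ I, if A i u u' then g u * g u' else 0 := by
    intro u hu u' hu'
    have h0 : 0 ≤ g u * g u' := mul_nonneg (hg u hu) (hg u' hu')
    have h3 : ∀ i ∈ I, 0 ≤ (if A i u u' then g u * g u' else 0) := by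
      intro i _
      split_ifs
      · exact h0
      · exact le_rfl
    split_ifs with h4
    · obtain ⟨i, hi, hA⟩ := hR u hu u' hu' h4
      calc g u * g u' = if A i u u' then g u * g u' else 0 := by rw [if_pos hA]
        _ ≤ _ := Finset.single_le_sum (f := fun i => if A i u u' then g u * g u' else 0) h3 hi
    · exact Finset.sum_nonneg h3
  calc ∑ u ∈ s, ∑ u' ∈ s, (if R u u' then g u * g u' else 0) ≤
      ∑ u ∈ s, ∑ u' ∈ s, ∑ i ∈ I, (if A i u u' then g u * g u' else 0) :=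
        Finset.sum_le_sum fun u hu => Finset.sum_le_sum fun u' hu' => h2 u hu u' hu'
    _ = ∑ i ∈ I, ∑ u ∈ s, ∑ u' ∈ s, (if A i u u' then g u * g u' else 0) := by
        rw [Finset.sum_comm (s := I)]
        refine Finset.sum_congr rfl fun u _ => ?_
        rw [Finset.sum_comm]
    _ ≤ ∑ i ∈ I, K := by
        refine Finset.sum_le_sum fun i hi => ?_
        rcases hA i hi with h | h
        · calc ∑ u ∈ s, ∑ u' ∈ s, (if A i u u' then g u * g u' else 0) =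
              ∑ u ∈ s, g u * ∑ u' ∈ s.filter (fun u' => A i u u'), g u' := by
                refine Finset.sum_congr rfl fun u _ => ?_
                rw [Finset.mul_sum, Finset.sum_filter]
            _ ≤ ∑ u ∈ s, g u * K := Finset.sum_le_sum fun u hu =>
                mul_le_mul_of_nonneg_left (h u hu) (hg u hu)
            _ = (∑ u ∈ s, g u) * K := by rw [Finset.sum_mul]
            _ ≤ 1 * K := mul_le_mul_of_nonneg_right h1 hK
            _ = K := one_mul K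
        · calc ∑ u ∈ s, ∑ u' ∈ s, (if A i u u' then g u * g u' else 0) =
              ∑ u' ∈ s, (∑ u ∈ s.filter (fun u => A i u u'), g u) * g u' := by
                rw [Finset.sum_comm]
                refine Finset.sum_congr rfl fun u _ => ?_
                rw [Finset.sum_mul, Finset.sum_filter]
            _ ≤ ∑ u' ∈ s, K * g u' := Finset.sum_le_sum fun u hu =>
                mul_le_mul_of_nonneg_right (h u hu) (hg u hu)
            _ = K * (∑ u ∈ s, g u) := by rw [Finset.mul_sum]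
            _ ≤ K * 1 := mul_le_mul_of_nonneg_left h1 hK
            _ = K := mul_one K
    _ = I.card * K := by rw [Finset.sum_const, nsmul_eq_mul]

/-- logarithms against powers -/
theorem nx5_lim (A B s ε : ℝ) (hs : 0 < s) (hε : 0 < ε) :
    ∃ N : ℕ, ∀ n : ℕ, N ≤ n → A * Real.log n ^ B * (n : ℝ) ^ (-s) ≤ ε := by
  have h1 : Filter.Tendsto (fun x : ℝ => Real.log x ^ B / x ^ s) Filter.atTop (nhds 0) :=
    (isLittleO_log_rpow_rpow_atTop B hs).tendsto_div_nhds_zero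
  have h2 : Filter.Tendsto (fun x : ℝ => A * (Real.log x ^ B / x ^ s)) Filter.atTop (nhds 0) := by
    have := h1.const_mul A
    rwa [mul_zero] at this
  have h3 := (h2.comp tendsto_natCast_atTop_atTop).eventually (Iio_mem_nhds hε)
  obtain ⟨N, hN⟩ := Filter.eventually_atTop.1 h3
  refine ⟨N, fun n hn => ?_⟩
  have h4 : A * (Real.log n ^ B / (n : ℝ) ^ s) < ε := hN n hn
  rw [Real.rpow_neg (Nat.cast_nonneg n), mul_assoc, ← div_eq_mul_inv]
  exact h4.le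

theorem nx5_lim2 (s ε : ℝ) (hs : 0 < s) (hε : 0 < ε) :
    ∃ N : ℕ, ∀ n : ℕ, N ≤ n → Real.log n ^ (-s) ≤ ε := by
  have h1 : Filter.Tendsto (fun x : ℝ => Real.log x ^ (-s)) Filter.atTop (nhds 0) :=
    (tendsto_rpow_neg_atTop hs).comp Real.tendsto_log_atTop
  have h3 := (h1.comp tendsto_natCast_atTop_atTop).eventually (Iio_mem_nhds hε)
  obtain ⟨N, hN⟩ := Filter.eventually_atTop.1 h3
  exact ⟨N, fun n hn => (hN n hn).le⟩

open Classical in
/-- the sum over the primes -/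
theorem nx5_sum : ∃ c : ℝ, 0 ≤ c ∧ ∀ P00 : ℕ, 1 ≤ P00 → ∀ Y : ℝ,
    ∑ l ∈ Spr P00 Y, (l : ℝ) ^ (-(9 / 10) : ℝ) * (1 / (l : ℝ)) ≤ c * (P00 : ℝ) ^ (-(2 / 5) : ℝ) := by
  have hsum : Summable (fun n : ℕ => (n : ℝ) ^ (-(3 / 2) : ℝ)) :=
    Real.summable_nat_rpow.2 (by norm_num)
  refine ⟨∑' n : ℕ, (n : ℝ) ^ (-(3 / 2) : ℝ), tsum_nonneg fun n => by positivity, ?_⟩
  intro P00 hP Y
  have h1 : ∀ l ∈ Spr P00 Y, (l : ℝ) ^ (-(9 / 10) : ℝ) * (1 / (l : ℝ)) ≤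
      (l : ℝ) ^ (-(3 / 2) : ℝ) * (P00 : ℝ) ^ (-(2 / 5) : ℝ) := by
    intro l hl
    unfold Spr at hl
    rw [Finset.mem_filter, Finset.mem_Ioc] at hl
    have hPl : (P00 : ℝ) ≤ l := by exact_mod_cast hl.1.1.le
    have hP0 : (0 : ℝ) < P00 := by exact_mod_cast hP
    have hl0 : (0 : ℝ) < l := hP0.trans_le hPl
    have h2 : (l : ℝ) ^ (-(9 / 10) : ℝ) * (1 / (l : ℝ)) =
        (l : ℝ) ^ (-(3 / 2) : ℝ) * (l : ℝ) ^ (-(2 / 5) : ℝ) := by
      rw [one_div, ← Real.rpow_neg_one, ← Real.rpow_add hl0, ← Real.rpow_add hl0]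
      norm_num
    rw [h2]
    exact mul_le_mul_of_nonneg_left
      (Real.rpow_le_rpow_of_nonpos hP0 hPl (by norm_num)) (by positivity)
  calc ∑ l ∈ Spr P00 Y, (l : ℝ) ^ (-(9 / 10) : ℝ) * (1 / (l : ℝ)) ≤
      ∑ l ∈ Spr P00 Y, (l : ℝ) ^ (-(3 / 2) : ℝ) * (P00 : ℝ) ^ (-(2 / 5) : ℝ) :=
        Finset.sum_le_sum h1
    _ = (∑ l ∈ Spr P00 Y, (l : ℝ) ^ (-(3 / 2) : ℝ)) * (P00 : ℝ) ^ (-(2 / 5) : ℝ) := by
        rw [Finset.sum_mul]
    _ ≤ _ := by
        apply mul_le_mul_of_nonneg_right _ (by positivity)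
        exact hsum.sum_le_tsum _ fun n _ => by positivity

open Classical in
/-- the mass of the pairs with a coincidence at `l` -/
theorem nx5_Co {p : Prm k} (hp : p.Ok 1) (hk : 4 ≤ k) {X : ℕ} (g : Vec k → ℝ)
    (hg : ∀ u ∈ GS p X, 0 ≤ g u) (h1 : ∑ u ∈ GS p X, g u ≤ 1) {K : ℝ} (hK : 0 ≤ K) {l : ℕ}
    (hl : l.Prime)
    (hA : ∀ i : Fin (k + 1), 1 ≤ i.val → i.val + 1 ≤ k → ∀ v : ℤ × ℤ,
      ¬ ((l : ℤ) ∣ v.1 ∧ (l : ℤ) ∣ v.2) →
      ∑ u ∈ (GS p X).filter (fun u => (l : ℤ) ∣ dt v (u i)), g u ≤ K) :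
    ∑ u ∈ GS p X, ∑ u' ∈ GS p X, (if Co u u' l then g u * g u' else 0) ≤
      5 * ((k : ℝ) + 1) ^ 2 * K := by
  set s := GS p X with hs
  have hl1 : ¬ (l : ℤ) ∣ 1 := by
    intro h
    have := Int.natCast_dvd.1 h
    simp at this
    exact hl.one_lt.ne' this
  have hv1 : ¬ ((l : ℤ) ∣ ((1, 0) : ℤ × ℤ).1 ∧ (l : ℤ) ∣ ((1, 0) : ℤ × ℤ).2) := fun h => hl1 h.1
  have hv2 : ¬ ((l : ℤ) ∣ z.1 ∧ (l : ℤ) ∣ z.2) := by
    intro h
    obtain ⟨a, b, hab⟩ := z_cop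
    apply hl1
    rw [← hab]
    exact dvd_add (Dvd.dvd.mul_left h.1 a) (Dvd.dvd.mul_left h.2 b)
  have hd1 : ∀ w : ℤ × ℤ, ((l : ℤ) ∣ dt (1, 0) w ↔ (l : ℤ) ∣ w.2) := by
    intro w
    unfold dt
    simp
  have hd2 : ∀ w : ℤ × ℤ, ((l : ℤ) ∣ dt z w ↔ (l : ℤ) ∣ dt w z) := by
    intro w
    have : dt z w = -dt w z := by
      unfold dt
      ring
    rw [this, dvd_neg]
  have hprim : ∀ u ∈ s, ∀ i, ¬ ((l : ℤ) ∣ (u i).1 ∧ (l : ℤ) ∣ (u i).2) := by
    intro u hu i h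
    have h2 := ((mem_GS hp.c10).1 hu).prim (by omega) i
    obtain ⟨a, b, hab⟩ := h2
    apply hl1
    rw [← hab]
    exact dvd_add (Dvd.dvd.mul_left h.1 a) (Dvd.dvd.mul_left h.2 b)
  let I : Finset (Fin (k + 1)) := univ.filter (fun i => 1 ≤ i.val ∧ i.val + 1 ≤ k)
  have hI : ∀ i ∈ I, 1 ≤ i.val ∧ i.val + 1 ≤ k := fun i hi => (Finset.mem_filter.1 hi).2
  have hmI : ∀ i : Fin (k + 1), 1 ≤ i.val → i.val + 1 ≤ k → i ∈ I := fun i h h' =>
    Finset.mem_filter.2 ⟨Finset.mem_univ _, h, h'⟩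
  have hIc : (I.card : ℝ) ≤ (k : ℝ) + 1 := by
    have : I.card ≤ k + 1 := (Finset.card_filter_le _ _).trans (by simp)
    exact_mod_cast this
  have hIIc : ((I ×ˢ I).card : ℝ) ≤ ((k : ℝ) + 1) ^ 2 := by
    rw [Finset.card_product, Nat.cast_mul, sq]
    exact mul_le_mul hIc hIc (by positivity) (by positivity)
  have b1 := nx5_pair s g hg h1 I (fun i u _ => (l : ℤ) ∣ (u i).2) hK (fun i hi => by
    right
    intro u' _
    have := hA i (hI i hi).1 (hI i hi).2 (1, 0) hv1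
    simp only [hd1] at this
    exact this) (fun u u' => ∃ i ∈ I, (l : ℤ) ∣ (u i).2) (fun u _ u' _ h => h)
  have b2 := nx5_pair s g hg h1 I (fun i _ u' => (l : ℤ) ∣ (u' i).2) hK (fun i hi => by
    left
    intro u' _
    have := hA i (hI i hi).1 (hI i hi).2 (1, 0) hv1
    simp only [hd1] at this
    exact this) (fun u u' => ∃ i ∈ I, (l : ℤ) ∣ (u' i).2) (fun u _ u' _ h => h)
  have b3 := nx5_pair s g hg h1 I (fun i u _ => (l : ℤ) ∣ dt (u i) z) hK (fun i hi => by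
    right
    intro u' _
    have := hA i (hI i hi).1 (hI i hi).2 z hv2
    simp only [hd2] at this
    exact this) (fun u u' => ∃ i ∈ I, (l : ℤ) ∣ dt (u i) z) (fun u _ u' _ h => h)
  have b4 := nx5_pair s g hg h1 I (fun i _ u' => (l : ℤ) ∣ dt (u' i) z) hK (fun i hi => by
    left
    intro u' _
    have := hA i (hI i hi).1 (hI i hi).2 z hv2
    simp only [hd2] at this
    exact this) (fun u u' => ∃ i ∈ I, (l : ℤ) ∣ dt (u' i) z) (fun u _ u' _ h => h)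
  have b5 := nx5_pair s g hg h1 (I ×ˢ I) (fun i u u' => (l : ℤ) ∣ dt (u i.1) (u' i.2)) hK
    (fun i hi => by
      left
      intro u hu
      rw [Finset.mem_product] at hi
      exact hA i.2 (hI _ hi.2).1 (hI _ hi.2).2 (u i.1) (hprim u hu i.1))
    (fun u u' => ∃ i ∈ I ×ˢ I, (l : ℤ) ∣ dt (u i.1) (u' i.2)) (fun u _ u' _ h => h)
  have hpt : ∀ u ∈ s, ∀ u' ∈ s, (if Co u u' l then g u * g u' else 0) ≤
      (if ∃ i ∈ I, (l : ℤ) ∣ (u i).2 then g u * g u' else 0) +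
      (if ∃ i ∈ I, (l : ℤ) ∣ (u' i).2 then g u * g u' else 0) +
      (if ∃ i ∈ I, (l : ℤ) ∣ dt (u i) z then g u * g u' else 0) +
      (if ∃ i ∈ I, (l : ℤ) ∣ dt (u' i) z then g u * g u' else 0) +
      (if ∃ i ∈ I ×ˢ I, (l : ℤ) ∣ dt (u i.1) (u' i.2) then g u * g u' else 0) := by
    intro u hu u' hu'
    have h0 : 0 ≤ g u * g u' := mul_nonneg (hg u hu) (hg u' hu')
    have hnn : ∀ (P : Prop) [Decidable P], 0 ≤ (if P then g u * g u' else 0) := by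
      intro P _
      split_ifs
      · exact h0
      · exact le_rfl
    by_cases hC : Co u u' l
    · rw [if_pos hC]
      have n1 := hnn (∃ i ∈ I, (l : ℤ) ∣ (u i).2)
      have n2 := hnn (∃ i ∈ I, (l : ℤ) ∣ (u' i).2)
      have n3 := hnn (∃ i ∈ I, (l : ℤ) ∣ dt (u i) z)
      have n4 := hnn (∃ i ∈ I, (l : ℤ) ∣ dt (u' i) z)
      have n5 := hnn (∃ i ∈ I ×ˢ I, (l : ℤ) ∣ dt (u i.1) (u' i.2))
      rcases hC with ⟨i, hi1, hi2, h | h⟩ | ⟨i, hi1, hi2, h | h⟩ | ⟨i, j, hi1, hi2, hj1, hj2, h⟩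
      · rw [if_pos ⟨i, hmI i (by omega) (by omega), h⟩]
        linarith
      · rw [if_pos (c := ∃ i ∈ I, (l : ℤ) ∣ (u' i).2) ⟨i, hmI i (by omega) (by omega), h⟩]
        linarith
      · rw [if_pos (c := ∃ i ∈ I, (l : ℤ) ∣ dt (u i) z) ⟨i, hmI i (by omega) (by omega), h⟩]
        linarith
      · rw [if_pos (c := ∃ i ∈ I, (l : ℤ) ∣ dt (u' i) z) ⟨i, hmI i (by omega) (by omega), h⟩]
        linarith
      · rw [if_pos (c := ∃ i ∈ I ×ˢ I, (l : ℤ) ∣ dt (u i.1) (u' i.2))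
          ⟨(i, j), Finset.mem_product.2 ⟨hmI i hi1 hi2, hmI j hj1 hj2⟩, h⟩]
        linarith
    · rw [if_neg hC]
      have n1 := hnn (∃ i ∈ I, (l : ℤ) ∣ (u i).2)
      have n2 := hnn (∃ i ∈ I, (l : ℤ) ∣ (u' i).2)
      have n3 := hnn (∃ i ∈ I, (l : ℤ) ∣ dt (u i) z)
      have n4 := hnn (∃ i ∈ I, (l : ℤ) ∣ dt (u' i) z)
      have n5 := hnn (∃ i ∈ I ×ˢ I, (l : ℤ) ∣ dt (u i.1) (u' i.2))
      linarith
  have h3 := Finset.sum_le_sum fun u hu => Finset.sum_le_sum fun u' hu' => hpt u hu u' hu'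
  simp only [Finset.sum_add_distrib] at h3
  have hk1 : (k : ℝ) + 1 ≤ ((k : ℝ) + 1) ^ 2 := by
    have : (0 : ℝ) ≤ k := Nat.cast_nonneg k
    nlinarith
  have e1 : (I.card : ℝ) * K ≤ ((k : ℝ) + 1) ^ 2 * K :=
    mul_le_mul_of_nonneg_right (hIc.trans hk1) hK
  have e2 : ((I ×ˢ I).card : ℝ) * K ≤ ((k : ℝ) + 1) ^ 2 * K := mul_le_mul_of_nonneg_right hIIc hK
  linarith

open Classical in
/-- NX5: the mean of `Xi - 1` -/
theorem mean_Xi {p : Prm k} (hp : p.Ok 1) (hk : 4 ≤ k) (h1 : LB p) (h2 : UB p) (h3 : UB2 p)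
    (C : ℝ) (hC : 0 < C) (ε : ℝ) (hε : 0 < ε) :
    ∃ P₁ : ℕ, ∀ P00 : ℕ, P₁ ≤ P00 → ∃ X₀ : ℕ, ∀ X ≥ X₀, ∀ q : ℤ × ℤ × ℤ,
    q.1 * q.2.2 - q.2.1 ^ 2 = D →
      ∑ u ∈ GS p X, ∑ u' ∈ GS p X,
        Gn p X P00 q u * Gn p X P00 q u' * (Xi p X P00 C u u' - 1) ≤ ε := by
  obtain ⟨Cg, hCg, hgl⟩ := Gn_line hp hk h1 h2 h3
  obtain ⟨C1, hC1, hcr⟩ := Xi_crude hk C hC
  obtain ⟨C2, hC2, hfi⟩ := Xi_fine hk C hC
  obtain ⟨c, C₂, hc, hC₂, hLB⟩ := h1
  obtain ⟨cs, hcs, hsum⟩ := nx5_sum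
  obtain ⟨N1, hN1⟩ := nx5_lim (C2 * (5 * ((k : ℝ) + 1) ^ 2 * Cg) * cs) Cg (2 / 5) (ε / 4)
    (by norm_num) (by positivity)
  obtain ⟨N2, hN2⟩ := exists_nat_ge C2
  obtain ⟨N3, hN3⟩ := exists_nat_ge (4 * C2 / ε)
  refine ⟨max (max N1 N2) (max N3 (pB k)), fun P00 hP00 => ?_⟩
  have hPN1 : N1 ≤ P00 := (le_max_left _ _).trans ((le_max_left _ _).trans hP00)
  have hPN2 : N2 ≤ P00 := (le_max_right _ _).trans ((le_max_left _ _).trans hP00)
  have hPN3 : N3 ≤ P00 := (le_max_left _ _).trans ((le_max_right _ _).trans hP00)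
  have hP3 : pB k ≤ P00 := (le_max_right _ _).trans ((le_max_right _ _).trans hP00)
  have hP3' : 3 ≤ P00 := by
    have h5 : 100 * (k + 1) ^ 2 ≤ pB k := by
      unfold pB
      omega
    have h6 : 1 ≤ (k + 1) ^ 2 := Nat.one_le_pow _ _ (by omega)
    omega
  have hP0 : (0 : ℝ) < P00 := by exact_mod_cast (by omega : 0 < P00)
  have hPC2 : C2 ≤ P00 := hN2.trans (by exact_mod_cast hPN2)
  have hPC3 : C2 / P00 ≤ ε / 4 := by
    have h4 : 4 * C2 / ε ≤ P00 := hN3.trans (by exact_mod_cast hPN3)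
    rw [div_le_iff₀ hε] at h4
    rw [div_le_iff₀ hP0]
    linarith
  have hlogP : 0 < Real.log P00 := Real.log_pos (by exact_mod_cast (by omega : 1 < P00))
  obtain ⟨X1, hX1⟩ := hgl P00 hP3
  obtain ⟨X2, hX2⟩ := hcr p hp P00 hP3
  obtain ⟨X3, hX3⟩ := hfi p hp P00 hPC2
  obtain ⟨X4, hX4⟩ := hLB P00 hP3
  obtain ⟨X5, hX5⟩ := nx5_lim (((k : ℝ) + 1) ^ 2) C1 (1 / Cg) (ε / 4) (by positivity) (by positivity)
  obtain ⟨X6, hX6⟩ := nx5_lim2 (1 / 2) (ε / 4) (by norm_num) (by positivity)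
  refine ⟨max (max (max X1 X2) (max X3 X4)) (max (max X5 X6) 3), fun X hX q hq => ?_⟩
  have hXa := (le_max_left _ _).trans hX
  have hXb := (le_max_right _ _).trans hX
  have hx1 : X1 ≤ X := (le_max_left _ _).trans ((le_max_left _ _).trans hXa)
  have hx2 : X2 ≤ X := (le_max_right _ _).trans ((le_max_left _ _).trans hXa)
  have hx3 : X3 ≤ X := (le_max_left _ _).trans ((le_max_right _ _).trans hXa)
  have hx4 : X4 ≤ X := (le_max_right _ _).trans ((le_max_right _ _).trans hXa)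
  have hx5 : X5 ≤ X := (le_max_left _ _).trans ((le_max_left _ _).trans hXb)
  have hx6 : X6 ≤ X := (le_max_right _ _).trans ((le_max_left _ _).trans hXb)
  have hx7 : 3 ≤ X := (le_max_right _ _).trans hXb
  have hlogX : 0 < Real.log X := Real.log_pos (by exact_mod_cast (by omega : 1 < X))
  set s := GS p X with hs
  set g : Vec k → ℝ := fun u => Gn p X P00 q u with hgdef
  have hM : ∀ f ∈ Fac p X, 0 < Mp p X P00 q f := by
    intro f hf
    refine lt_of_lt_of_le ?_ (hX4 X hx4 f hf q hq)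
    positivity
  have hg0 : ∀ u ∈ s, 0 ≤ g u := by
    intro u hu
    have hf : fE u ∈ Fac p X := ((mem_GS hp.c10).1 hu).fE_mem (by omega)
    exact div_nonneg (mul_nonneg (wend_01 p X q (fE u)).1 (gk_01 p X P00 q u).1) (hM _ hf).le
  have hgs : ∑ u ∈ s, g u ≤ 1 := by
    rw [hs, hgdef, sum_Gn hp.c10 hk hM]
    exact (av_le_one hq).2
  have hgs0 : 0 ≤ ∑ u ∈ s, g u := Finset.sum_nonneg hg0
  let I : Finset (Fin (k + 1)) := univ.filter (fun i => 1 ≤ i.val ∧ i.val + 1 ≤ k)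
  have hI : ∀ i ∈ I, 1 ≤ i.val ∧ i.val + 1 ≤ k := fun i hi => (Finset.mem_filter.1 hi).2
  have hmI : ∀ i : Fin (k + 1), 1 ≤ i.val → i.val + 1 ≤ k → i ∈ I := fun i h h' =>
    Finset.mem_filter.2 ⟨Finset.mem_univ _, h, h'⟩
  have hIc : (I.card : ℝ) ≤ (k : ℝ) + 1 := by
    have : I.card ≤ k + 1 := (Finset.card_filter_le _ _).trans (by simp)
    exact_mod_cast this
  have hIIc : ((I ×ˢ I).card : ℝ) ≤ ((k : ℝ) + 1) ^ 2 := by
    rw [Finset.card_product, Nat.cast_mul, sq]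
    exact mul_le_mul hIc hIc (by positivity) (by positivity)
  -- the pairs with a common vertex
  have hcom : ∑ u ∈ s, ∑ u' ∈ s, (if ∃ x ∈ I ×ˢ I, u x.1 = u' x.2 then g u * g u' else 0) ≤
      ((k : ℝ) + 1) ^ 2 * (X : ℝ) ^ (-(1 / Cg)) := by
    have b := nx5_pair s g hg0 hgs (I ×ˢ I) (fun x u u' => u x.1 = u' x.2)
      (K := (X : ℝ) ^ (-(1 / Cg))) (by positivity) (fun x hx => by
        right
        intro u' _
        rw [Finset.mem_product] at hx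
        exact (hX1 X hx1 q hq x.1 (hI _ hx.1).1 (hI _ hx.1).2).2 (u' x.2))
      (fun u u' => ∃ x ∈ I ×ˢ I, u x.1 = u' x.2) (fun u _ u' _ h => h)
    exact b.trans (mul_le_mul_of_nonneg_right hIIc (by positivity))
  -- the coincidences
  have hco : ∀ l ∈ Spr P00 (Real.log X ^ 2),
      ∑ u ∈ s, ∑ u' ∈ s, (if Co u u' l then g u * g u' else 0) ≤
        5 * ((k : ℝ) + 1) ^ 2 * (Cg * Real.log P00 ^ Cg * (1 / (l : ℝ))) := by
    intro l hl
    unfold Spr at hl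
    rw [Finset.mem_filter, Finset.mem_Ioc] at hl
    have hl2 : (l : ℝ) ≤ Real.log X ^ 2 := (Nat.le_floor_iff (by positivity)).1 hl.1.2
    refine nx5_Co hp hk g hg0 hgs (by positivity) hl.2.1 (fun i hi1 hi2 v hv => ?_)
    refine ((hX1 X hx1 q hq i hi1 hi2).1 l hl.2.1 hl.1.1 hl2 v hv).trans (le_of_eq ?_)
    ring
  -- the pointwise bound
  set L : ℝ := Real.log X ^ C1 with hL
  have hL0 : 0 ≤ L := by positivity
  have hpt : ∀ u ∈ s, ∀ u' ∈ s, g u * g u' * (Xi p X P00 C u u' - 1) ≤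
      L * (if ∃ x ∈ I ×ˢ I, u x.1 = u' x.2 then g u * g u' else 0) +
      (C2 / P00 + Real.log X ^ (-(1 / 2) : ℝ)) * (g u * g u') +
      C2 * ∑ l ∈ Spr P00 (Real.log X ^ 2), (l : ℝ) ^ (-(9 / 10) : ℝ) *
        (if Co u u' l then g u * g u' else 0) := by
    intro u hu u' hu'
    have hu1 := (mem_GS hp.c10).1 hu
    have hu2 := (mem_GS hp.c10).1 hu'
    have h0 : 0 ≤ g u * g u' := mul_nonneg (hg0 u hu) (hg0 u' hu')
    have hnn : 0 ≤ C2 * ∑ l ∈ Spr P00 (Real.log X ^ 2), (l : ℝ) ^ (-(9 / 10) : ℝ) *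
        (if Co u u' l then g u * g u' else 0) := by
      apply mul_nonneg hC2.le
      apply Finset.sum_nonneg
      intro l _
      apply mul_nonneg (by positivity)
      split_ifs
      · exact h0
      · exact le_rfl
    have hnn2 : 0 ≤ (C2 / P00 + Real.log X ^ (-(1 / 2) : ℝ)) * (g u * g u') := by positivity
    by_cases hcm : ∃ x ∈ I ×ˢ I, u x.1 = u' x.2
    · rw [if_pos hcm]
      have h5 := (hX2 X hx2 u u' hu1 hu2).2
      have h6 : g u * g u' * (Xi p X P00 C u u' - 1) ≤ L * (g u * g u') := by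
        rw [mul_comm L]
        apply mul_le_mul_of_nonneg_left _ h0
        linarith
      linarith
    · rw [if_neg hcm, mul_zero, zero_add]
      have h5 := hX3 X hx3 u u' hu1 hu2 (fun i j hi1 hi2 hj1 hj2 he =>
        hcm ⟨(i, j), Finset.mem_product.2 ⟨hmI i hi1 hi2, hmI j hj1 hj2⟩, he⟩)
        ((Spr P00 (Real.log X ^ 2)).filter (fun l => Co u u' l))
        (fun l => by rw [Finset.mem_filter])
      have h6 : g u * g u' * (Xi p X P00 C u u' - 1) ≤ g u * g u' *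
          (C2 / P00 + C2 * ∑ l ∈ (Spr P00 (Real.log X ^ 2)).filter (fun l => Co u u' l),
            (l : ℝ) ^ (-(9 / 10) : ℝ) + Real.log X ^ (-(1 / 2) : ℝ)) :=
        mul_le_mul_of_nonneg_left h5 h0
      refine h6.trans (le_of_eq ?_)
      have h7 : ∑ l ∈ Spr P00 (Real.log X ^ 2), (l : ℝ) ^ (-(9 / 10) : ℝ) *
          (if Co u u' l then g u * g u' else 0) =
          (∑ l ∈ (Spr P00 (Real.log X ^ 2)).filter (fun l => Co u u' l),
            (l : ℝ) ^ (-(9 / 10) : ℝ)) * (g u * g u') := by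
        rw [Finset.sum_mul, Finset.sum_filter]
        refine Finset.sum_congr rfl fun l _ => ?_
        split_ifs <;> simp
      rw [h7]
      ring
  -- the sums
  have hS1 := Finset.sum_le_sum fun u hu => Finset.sum_le_sum fun u' hu' => hpt u hu u' hu'
  refine hS1.trans ?_
  simp only [Finset.sum_add_distrib, ← Finset.mul_sum]
  have t1 : L * ∑ u ∈ s, ∑ u' ∈ s, (if ∃ x ∈ I ×ˢ I, u x.1 = u' x.2 then g u * g u' else 0) ≤
      ε / 4 := by
    refine (mul_le_mul_of_nonneg_left hcom hL0).trans ?_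
    refine le_trans (le_of_eq ?_) (hX5 X hx5)
    rw [hL]
    ring
  have t2 : (C2 / P00 + Real.log X ^ (-(1 / 2) : ℝ)) * ∑ u ∈ s, g u * ∑ u' ∈ s, g u' ≤
      ε / 4 + ε / 4 := by
    have h5 : ∑ u ∈ s, g u * ∑ u' ∈ s, g u' ≤ 1 := by
      rw [← Finset.sum_mul]
      exact mul_le_one₀ hgs hgs0 hgs
    have h6 : 0 ≤ C2 / P00 + Real.log X ^ (-(1 / 2) : ℝ) := by positivity
    calc (C2 / P00 + Real.log X ^ (-(1 / 2) : ℝ)) * ∑ u ∈ s, g u * ∑ u' ∈ s, g u' ≤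
        (C2 / P00 + Real.log X ^ (-(1 / 2) : ℝ)) * 1 := mul_le_mul_of_nonneg_left h5 h6
      _ ≤ ε / 4 + ε / 4 := by
        rw [mul_one]
        exact add_le_add hPC3 (hX6 X hx6)
  have t3 : C2 * ∑ u ∈ s, ∑ u' ∈ s, ∑ l ∈ Spr P00 (Real.log X ^ 2), (l : ℝ) ^ (-(9 / 10) : ℝ) *
        (if Co u u' l then g u * g u' else 0) ≤ ε / 4 := by
    have h5 : ∑ u ∈ s, ∑ u' ∈ s, ∑ l ∈ Spr P00 (Real.log X ^ 2), (l : ℝ) ^ (-(9 / 10) : ℝ) *
        (if Co u u' l then g u * g u' else 0) =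
        ∑ l ∈ Spr P00 (Real.log X ^ 2), (l : ℝ) ^ (-(9 / 10) : ℝ) *
          ∑ u ∈ s, ∑ u' ∈ s, (if Co u u' l then g u * g u' else 0) := by
      simp only [Finset.mul_sum]
      rw [Finset.sum_comm (s := Spr P00 (Real.log X ^ 2))]
      refine Finset.sum_congr rfl fun u _ => ?_
      rw [Finset.sum_comm]
    rw [h5]
    calc C2 * ∑ l ∈ Spr P00 (Real.log X ^ 2), (l : ℝ) ^ (-(9 / 10) : ℝ) *
          ∑ u ∈ s, ∑ u' ∈ s, (if Co u u' l then g u * g u' else 0) ≤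
        C2 * ∑ l ∈ Spr P00 (Real.log X ^ 2), (l : ℝ) ^ (-(9 / 10) : ℝ) *
          (5 * ((k : ℝ) + 1) ^ 2 * (Cg * Real.log P00 ^ Cg * (1 / (l : ℝ)))) := by
          apply mul_le_mul_of_nonneg_left _ hC2.le
          exact Finset.sum_le_sum fun l hl => mul_le_mul_of_nonneg_left (hco l hl) (by positivity)
      _ = C2 * (5 * ((k : ℝ) + 1) ^ 2 * Cg) * Real.log P00 ^ Cg *
          ∑ l ∈ Spr P00 (Real.log X ^ 2), (l : ℝ) ^ (-(9 / 10) : ℝ) * (1 / (l : ℝ)) := by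
          rw [Finset.mul_sum, Finset.mul_sum]
          refine Finset.sum_congr rfl fun l _ => ?_
          ring
      _ ≤ C2 * (5 * ((k : ℝ) + 1) ^ 2 * Cg) * Real.log P00 ^ Cg *
          (cs * (P00 : ℝ) ^ (-(2 / 5) : ℝ)) := by
          apply mul_le_mul_of_nonneg_left (hsum P00 (by omega) _) (by positivity)
      _ = C2 * (5 * ((k : ℝ) + 1) ^ 2 * Cg) * cs * Real.log P00 ^ Cg *
          (P00 : ℝ) ^ (-(2 / 5) : ℝ) := by ring
      _ ≤ ε / 4 := hN1 P00 hPN1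
  linarith

end Pool.Agent.AQ.NC
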