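import Pool.Agent.Lib_helper8.AQ.NCDefs
import Pool.Agent.Lib_helper88.AQN.Bas
import Pool.Agent.Lib_helper88.AQN.NA1
import Pool.Agent.Lib_helper88.AQN.NA2
import Pool.Agent.Lib_helper88.AQN.NA3
import Pool.Agent.Lib_helper88.AQN.NA4
import Pool.Agent.Lib_helper88.AQN.NA8
import Pool.Agent.Lib_helper88.AQN.NA9
import Pool.Agent.Lib_helper88.AQN.NX1
import Pool.Agent.Lib_helper88.AQN.NX3

/-! Block NX7 (uses NA2, NA3, NX1, NX3, and `av_le_one`, `sum_Gn`, `gk_01`, `wend_01` of part A) -/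

set_option autoImplicit false

namespace Pool.Agent.AQ.NC

open Finset Pool.Agent.PENT Pool.Agent.PENT.EQ

variable [Cst] {k : ℕ}

theorem nx7_small (K a c ε : ℝ) (hc : 0 < c) (hε : 0 < ε) :
    ∃ X₀ : ℕ, ∀ X : ℕ, X₀ ≤ X → K * (Real.log X ^ a * (Real.exp (-(Real.log X ^ (1 / 100 : ℝ))) +
      Real.exp (-(c * Real.log X)))) ≤ ε := by
  have h1 : Filter.Tendsto (fun X : ℕ => Real.log (X : ℝ)) Filter.atTop Filter.atTop :=
    Real.tendsto_log_atTop.comp tendsto_natCast_atTop_atTop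
  have h2 : Filter.Tendsto (fun t : ℝ => t ^ (100 * a) * Real.exp (-1 * t)) Filter.atTop (nhds 0) :=
    tendsto_rpow_mul_exp_neg_mul_atTop_nhds_zero (100 * a) 1 one_pos
  have h3 : Filter.Tendsto (fun L : ℝ => L ^ (1 / 100 : ℝ)) Filter.atTop Filter.atTop :=
    tendsto_rpow_atTop (by norm_num)
  have h4 : Filter.Tendsto (fun L : ℝ => L ^ a * Real.exp (-(L ^ (1 / 100 : ℝ)))) Filter.atTop
      (nhds 0) := by
    refine (h2.comp h3).congr' ?_
    filter_upwards [Filter.eventually_gt_atTop 0] with L hL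
    show (L ^ (1 / 100 : ℝ)) ^ (100 * a) * Real.exp (-1 * L ^ (1 / 100 : ℝ)) = _
    rw [← Real.rpow_mul hL.le]
    have e1 : (1 / 100 : ℝ) * (100 * a) = a := by ring
    have e2 : -1 * L ^ (1 / 100 : ℝ) = -(L ^ (1 / 100 : ℝ)) := by ring
    rw [e1, e2]
  have h5 : Filter.Tendsto (fun L : ℝ => L ^ a * Real.exp (-(c * L))) Filter.atTop (nhds 0) := by
    refine (tendsto_rpow_mul_exp_neg_mul_atTop_nhds_zero a c hc).congr ?_
    intro L
    have e : -c * L = -(c * L) := by ring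
    rw [e]
  have h6 : Filter.Tendsto (fun L : ℝ => K * (L ^ a * Real.exp (-(L ^ (1 / 100 : ℝ))) +
      L ^ a * Real.exp (-(c * L)))) Filter.atTop (nhds (K * (0 + 0))) :=
    (h4.add h5).const_mul K
  rw [add_zero, mul_zero] at h6
  have h7 := (h6.comp h1).eventually_le_const hε
  rw [Filter.eventually_atTop] at h7
  obtain ⟨X₀, hX₀⟩ := h7
  refine ⟨X₀, fun X hX => ?_⟩
  have h8 := hX₀ X hX
  have h9 : K * (Real.log X ^ a * (Real.exp (-(Real.log X ^ (1 / 100 : ℝ))) +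
      Real.exp (-(c * Real.log X)))) = K * (Real.log X ^ a *
      Real.exp (-(Real.log X ^ (1 / 100 : ℝ))) + Real.log X ^ a * Real.exp (-(c * Real.log X))) := by
    ring
  rw [h9]
  exact h8

/-- the event of `UB1` -/
def nx7A (l : ℕ) (u : Vec k) : Prop :=
  l ∣ Dint u ∨ (¬ l ∣ (fE u).1 * (fE u).2 ∧
    ∃ j : Fin (k + 1), 1 ≤ j.val ∧ j.val + 1 ≤ k ∧ (l : ℤ) ∣ (u j).2 * dt (u j) z)

/-- the first part of `EC` -/
def nx7E (X : ℕ) (u u' : Vec k) : Prop :=
  ∃ l : ℕ, l.Prime ∧ PP X < (l : ℝ) ∧ l ∣ dE u 1 * dE u k ∧ ¬ l ∣ Dall u' ∧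
    ∃ j : Fin (k + 1), 1 ≤ j.val ∧ j.val + 1 ≤ k ∧ (l : ℤ) ∣ (u' j).2 * dt (u' j) z

/-- the second part of `EC` -/
def nx7F (X : ℕ) (u u' : Vec k) : Prop :=
  ∃ l : ℕ, l.Prime ∧ PP X < (l : ℝ) ∧ ((l ∣ dE u 1 ∧ l ∣ dE u' k) ∨ (l ∣ dE u k ∧ l ∣ dE u' 1))

theorem nx7_F_symm {X : ℕ} {u u' : Vec k} (h : nx7F X u' u) : nx7F X u u' := by
  obtain ⟨l, h1, h2, h3⟩ := h
  refine ⟨l, h1, h2, ?_⟩
  rcases h3 with ⟨a, b⟩ | ⟨a, b⟩
  · exact Or.inr ⟨b, a⟩
  · exact Or.inl ⟨b, a⟩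

theorem nx7_EC {X : ℕ} {u u' : Vec k} : EC X u u' ↔ nx7E X u u' ∨ nx7F X u u' := Iff.rfl

theorem nx7_wend {p : Prm k} {X : ℕ} {q : ℤ × ℤ × ℤ} {f : ℕ × ℕ} (h : wend p X q f ≠ 0) :
    (f.1 : ℤ) ∣ q.1 ∧ (f.2 : ℤ) ∣ fv q z := by
  by_contra hc
  apply h
  unfold wend
  rw [if_neg hc]

/-- the second part of `EC` and nonzero masses -/
theorem nx7_ind {p : Prm k} {X : ℕ} (hk : 2 ≤ k) {q : ℤ × ℤ × ℤ} {u u' : Vec k} (hu : GP p X u)
    (hu' : GP p X u') (h : nx7F X u u') (h1 : wend p X q (fE u) ≠ 0)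
    (h2 : wend p X q (fE u') ≠ 0) : ∃ l : ℕ, Sp l ∧ PP X < (l : ℝ) ∧
      (l : ℝ) ≤ p.Y X ∧ (l : ℤ) ∣ q.1 ∧ (l : ℤ) ∣ fv q z := by
  obtain ⟨d1, d2⟩ := nx7_wend h1
  obtain ⟨d3, d4⟩ := nx7_wend h2
  have key : ∀ {v : Vec k} (_ : GP p X v) {l : ℕ}, l ∣ dE v 1 * dE v k → l ∣ Dall v := by
    intro v hv l hl
    rw [(hv.Dall_eq hk).1]
    exact hl.mul_right _
  obtain ⟨l, hl, hP, ⟨a, b⟩ | ⟨a, b⟩⟩ := h
  · refine ⟨l, (hu.prime_Dall hl (key hu (a.mul_right _))).1, hP, hu.e1.sm l hl a, ?_, ?_⟩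
    · exact (Int.natCast_dvd_natCast.mpr a).trans d1
    · exact (Int.natCast_dvd_natCast.mpr b).trans d4
  · refine ⟨l, (hu.prime_Dall hl (key hu (a.mul_left _))).1, hP, hu.e2.sm l hl a, ?_, ?_⟩
    · exact (Int.natCast_dvd_natCast.mpr b).trans d3
    · exact (Int.natCast_dvd_natCast.mpr a).trans d2

open Classical in
/-- the sum over the first part of `EC` for fixed `u` -/
theorem nx7_sumE {X : ℕ} {S : Finset (Vec k)} (G : Vec k → ℝ) (hG : ∀ u ∈ S, 0 ≤ G u) (β L : ℝ)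
    (u : Vec k) (hβ0 : 0 ≤ β) (hcard : ((Dall u).primeFactors.card : ℝ) ≤ L)
    (hsub : ∀ l : ℕ, l.Prime → l ∣ dE u 1 * dE u k → l ∈ (Dall u).primeFactors)
    (hDf : ∀ u' ∈ S, (fE u').1 * (fE u').2 ∣ Dall u')
    (hβ : ∀ l : ℕ, l.Prime → PP X < (l : ℝ) → ∑ u' ∈ S.filter (nx7A l), G u' ≤ β) :
    ∑ u' ∈ S.filter (fun u' => nx7E X u u'), G u' ≤ L * β := by
  set P : Finset ℕ := (Dall u).primeFactors.filter (fun l : ℕ => PP X < (l : ℝ)) with hP
  have h1 : S.filter (fun u' => nx7E X u u') ⊆ P.biUnion (fun l => S.filter (nx7A l)) := by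
    intro u' hu'
    rw [mem_filter] at hu'
    obtain ⟨hS, l, hl, hPl, hd, hnd, j, hj⟩ := hu'
    rw [mem_biUnion]
    refine ⟨l, ?_, ?_⟩
    · rw [hP, mem_filter]
      exact ⟨hsub l hl hd, hPl⟩
    · rw [mem_filter]
      exact ⟨hS, Or.inr ⟨fun hc => hnd (hc.trans (hDf u' hS)), j, hj⟩⟩
  have h2 : ∑ u' ∈ S.filter (fun u' => nx7E X u u'), G u' ≤
      ∑ u' ∈ P.biUnion (fun l => S.filter (nx7A l)), G u' := by
    refine sum_le_sum_of_subset_of_nonneg h1 ?_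
    intro u' hu' _
    rw [mem_biUnion] at hu'
    obtain ⟨l, _, hl⟩ := hu'
    exact hG u' (mem_filter.mp hl).1
  have h3 : ∑ u' ∈ P.biUnion (fun l => S.filter (nx7A l)), G u' ≤
      ∑ l ∈ P, ∑ u' ∈ S.filter (nx7A l), G u' := by
    have h4 : ∀ P' : Finset ℕ, ∑ u' ∈ P'.biUnion (fun l => S.filter (nx7A l)), G u' ≤
        ∑ l ∈ P', ∑ u' ∈ S.filter (nx7A l), G u' := by
      intro P'
      induction P' using Finset.induction_on with
      | empty => simp
      | insert a s ha ih =>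
        rw [biUnion_insert, sum_insert ha]
        have h5 := sum_union_inter (s₁ := S.filter (nx7A a))
          (s₂ := s.biUnion (fun l => S.filter (nx7A l))) (f := G)
        have h6 : 0 ≤ ∑ x ∈ S.filter (nx7A a) ∩ s.biUnion (fun l => S.filter (nx7A l)), G x := by
          refine sum_nonneg ?_
          intro x hx
          exact hG x (mem_filter.mp (mem_inter.mp hx).1).1
        linarith
    exact h4 P
  have h7 : ∑ l ∈ P, ∑ u' ∈ S.filter (nx7A l), G u' ≤ ∑ _l ∈ P, β := by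
    refine sum_le_sum ?_
    intro l hl
    rw [hP, mem_filter] at hl
    exact hβ l (Nat.prime_of_mem_primeFactors hl.1) hl.2
  rw [sum_const, nsmul_eq_mul] at h7
  have h8 : (P.card : ℝ) ≤ L := by
    refine le_trans ?_ hcard
    exact_mod_cast card_le_card (filter_subset _ _)
  calc ∑ u' ∈ S.filter (fun u' => nx7E X u u'), G u' ≤ (P.card : ℝ) * β :=
        h2.trans (h3.trans h7)
    _ ≤ L * β := mul_le_mul_of_nonneg_right h8 hβ0

open Classical in
/-- the abstract sum over the pairs -/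
theorem nx7_pairs {α : Type} (S : Finset α) (G : α → ℝ) (hG : ∀ u ∈ S, 0 ≤ G u)
    (hs : ∑ u ∈ S, G u ≤ 1) (Q E F : α → α → Prop) (Ξ : α → α → ℝ) (Λ γ I : ℝ) (hΛ : 0 ≤ Λ)
    (hI : 0 ≤ I) (hγ : 0 ≤ γ) (hΞ : ∀ u ∈ S, ∀ u' ∈ S, Ξ u u' ≤ Λ)
    (hQ : ∀ u ∈ S, ∀ u' ∈ S, Q u u' → E u u' ∨ E u' u ∨ F u u')
    (hF : ∀ u ∈ S, ∀ u' ∈ S, F u u' → G u * G u' ≤ I * (G u * G u'))
    (hE : ∀ u ∈ S, ∑ u' ∈ S.filter (fun u' => E u u'), G u' ≤ γ) :
    ∑ u ∈ S, ∑ u' ∈ S.filter (fun u' => Q u u'), G u * G u' * Ξ u u' ≤ Λ * (2 * γ) + Λ * I := by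
  have h1 : ∀ u ∈ S, ∀ u' ∈ S, (if Q u u' then G u * G u' * Ξ u u' else 0) ≤
      Λ * ((if E u u' then G u * G u' else 0) + (if E u' u then G u * G u' else 0) +
        I * (G u * G u')) := by
    intro u hu u' hu'
    have g0 : 0 ≤ G u * G u' := mul_nonneg (hG u hu) (hG u' hu')
    have e1 : (0 : ℝ) ≤ if E u u' then G u * G u' else 0 := by split_ifs <;> [exact g0; exact le_rfl]
    have e2 : (0 : ℝ) ≤ if E u' u then G u * G u' else 0 := by split_ifs <;> [exact g0; exact le_rfl]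
    have e3 : 0 ≤ I * (G u * G u') := mul_nonneg hI g0
    by_cases hq : Q u u'
    · rw [if_pos hq]
      have h2 : G u * G u' * Ξ u u' ≤ Λ * (G u * G u') := by
        rw [mul_comm Λ]
        exact mul_le_mul_of_nonneg_left (hΞ u hu u' hu') g0
      refine h2.trans (mul_le_mul_of_nonneg_left ?_ hΛ)
      rcases hQ u hu u' hu' hq with h | h | h
      · rw [if_pos h]
        linarith
      · rw [if_pos h]
        linarith
      · have := hF u hu u' hu' h
        linarith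
    · rw [if_neg hq]
      refine mul_nonneg hΛ ?_
      linarith
  have h3 : ∑ u ∈ S, ∑ u' ∈ S.filter (fun u' => Q u u'), G u * G u' * Ξ u u' ≤
      ∑ u ∈ S, ∑ u' ∈ S, Λ * ((if E u u' then G u * G u' else 0) +
        (if E u' u then G u * G u' else 0) + I * (G u * G u')) := by
    refine sum_le_sum fun u hu => ?_
    rw [sum_filter]
    exact sum_le_sum fun u' hu' => h1 u hu u' hu'
  have hEs : ∑ u ∈ S, ∑ u' ∈ S, (if E u u' then G u * G u' else 0) ≤ γ := by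
    have h4 : ∀ u ∈ S, ∑ u' ∈ S, (if E u u' then G u * G u' else 0) ≤ G u * γ := by
      intro u hu
      rw [← sum_filter, ← mul_sum]
      exact mul_le_mul_of_nonneg_left (hE u hu) (hG u hu)
    calc ∑ u ∈ S, ∑ u' ∈ S, (if E u u' then G u * G u' else 0) ≤ ∑ u ∈ S, G u * γ :=
          sum_le_sum h4
      _ = (∑ u ∈ S, G u) * γ := by rw [sum_mul]
      _ ≤ 1 * γ := mul_le_mul_of_nonneg_right hs hγ
      _ = γ := one_mul _
  have hEs' : ∑ u ∈ S, ∑ u' ∈ S, (if E u' u then G u * G u' else 0) ≤ γ := by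
    rw [sum_comm]
    refine le_trans (le_of_eq ?_) hEs
    refine sum_congr rfl fun u _ => sum_congr rfl fun u' _ => ?_
    rw [mul_comm]
  have hI' : ∑ u ∈ S, ∑ u' ∈ S, I * (G u * G u') ≤ I := by
    have h5 : ∑ u ∈ S, ∑ u' ∈ S, I * (G u * G u') = I * ((∑ u ∈ S, G u) * ∑ u ∈ S, G u) := by
      rw [sum_mul_sum, mul_sum]
      refine sum_congr rfl fun u _ => ?_
      rw [mul_sum]
    rw [h5]
    have h6 : 0 ≤ ∑ u ∈ S, G u := sum_nonneg hG
    have h7 : (∑ u ∈ S, G u) * ∑ u ∈ S, G u ≤ 1 := by nlinarith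
    calc I * ((∑ u ∈ S, G u) * ∑ u ∈ S, G u) ≤ I * 1 := mul_le_mul_of_nonneg_left h7 hI
      _ = I := mul_one _
  have h8 : ∑ u ∈ S, ∑ u' ∈ S, Λ * ((if E u u' then G u * G u' else 0) +
        (if E u' u then G u * G u' else 0) + I * (G u * G u')) =
      Λ * (∑ u ∈ S, ∑ u' ∈ S, (if E u u' then G u * G u' else 0) +
        ∑ u ∈ S, ∑ u' ∈ S, (if E u' u then G u * G u' else 0) +
          ∑ u ∈ S, ∑ u' ∈ S, I * (G u * G u')) := by
    rw [← sum_add_distrib, ← sum_add_distrib, mul_sum]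
    refine sum_congr rfl fun u _ => ?_
    rw [← sum_add_distrib, ← sum_add_distrib, mul_sum]
  rw [h8] at h3
  refine h3.trans ?_
  rw [← mul_add]
  refine mul_le_mul_of_nonneg_left ?_ hΛ
  linarith

open Classical in
/-- NX7: the end coincidences (LB, UB1, NX1, NX3); `l ∣ d_0(u)`, `l ∣ d_(k-1)(u')` imply `l ∣ a`,
`l ∣ c` if `Gn ≠ 0` -/
theorem mean_EC {p : Prm k} (hp : p.Ok 1) (hk : 4 ≤ k) (h1 : LB p) (h2 : UB1 p) (C : ℝ)
    (hC : 0 < C) (ε : ℝ) (hε : 0 < ε) : ∃ C' : ℝ, 0 < C' ∧ ∀ P00 : ℕ, pB k ≤ P00 →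
    ∃ X₀ : ℕ, ∀ X ≥ X₀, ∀ q : ℤ × ℤ × ℤ, q.1 * q.2.2 - q.2.1 ^ 2 = D →
      ∑ u ∈ GS p X, ∑ u' ∈ (GS p X).filter (fun u' => EC X u u' ∨ EC X u' u),
        Gn p X P00 q u * Gn p X P00 q u' * Xi p X P00 C u u' ≤
      ε + Real.log X ^ C' * (if ∃ l : ℕ, Sp l ∧ PP X < (l : ℝ) ∧
        (l : ℝ) ≤ p.Y X ∧ (l : ℤ) ∣ q.1 ∧ (l : ℤ) ∣ fv q z then 1 else 0) := by
  obtain ⟨c, C₂, hc, hC₂, hLB⟩ := h1
  obtain ⟨CU, cU, hcU, hUB⟩ := h2
  obtain ⟨C', hC', hXi⟩ := Xi_crude hk C hC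
  refine ⟨C', hC', ?_⟩
  intro P00 hP
  obtain ⟨X1, hX1⟩ := hLB P00 hP
  obtain ⟨X2, hX2⟩ := hUB P00 hP
  obtain ⟨X3, hX3⟩ := hXi p hp P00 hP
  obtain ⟨X4, hX4⟩ := GP.sizes hp hk
  have hlP : 0 < Real.log P00 := Real.log_pos (by
    have : (3 : ℝ) ≤ P00 := by exact_mod_cast three_le_of_pB hP
    linarith)
  set B : ℝ := c * Real.log P00 ^ (-C₂) with hB
  have hB0 : 0 < B := mul_pos hc (Real.rpow_pos_of_pos hlP _)
  obtain ⟨X5, hX5⟩ := nx7_small (2 / B) (C' + 1 + CU + mE k) cU ε hcU hε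
  refine ⟨max (max X1 X2) (max (max X3 X4) (max X5 3)), ?_⟩
  intro X hX q hq
  have hXa : X1 ≤ X := (le_max_left _ _).trans ((le_max_left _ _).trans hX)
  have hXb : X2 ≤ X := (le_max_right _ _).trans ((le_max_left _ _).trans hX)
  have hXc : X3 ≤ X := (le_max_left _ _).trans ((le_max_left _ _).trans ((le_max_right _ _).trans hX))
  have hXd : X4 ≤ X := (le_max_right _ _).trans ((le_max_left _ _).trans ((le_max_right _ _).trans hX))
  have hXe : X5 ≤ X := (le_max_left _ _).trans ((le_max_right _ _).trans ((le_max_right _ _).trans hX))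
  have hXf : 3 ≤ X := (le_max_right _ _).trans ((le_max_right _ _).trans ((le_max_right _ _).trans hX))
  have hXr : (3 : ℝ) ≤ X := by exact_mod_cast hXf
  have hX0 : (0 : ℝ) < X := by linarith
  have hL : 0 < Real.log X := Real.log_pos (by linarith)
  set L := Real.log (X : ℝ) with hLdef
  set m : ℝ := B * L ^ (-mE k) with hm
  have hm0 : 0 < m := mul_pos hB0 (Real.rpow_pos_of_pos hL _)
  have hMf : ∀ f ∈ Fac p X, m ≤ Mp p X P00 q f := fun f hf => hX1 X hXa f hf q hq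
  have hGP : ∀ u ∈ GS p X, GP p X u := fun u hu => (mem_GS hp.c10).mp hu
  have hMu : ∀ u ∈ GS p X, m ≤ Mp p X P00 q (fE u) := fun u hu =>
    hMf _ ((hGP u hu).fE_mem (by omega))
  have hG0 : ∀ u ∈ GS p X, 0 ≤ Gn p X P00 q u := by
    intro u hu
    unfold Gn
    exact div_nonneg (mul_nonneg (wend_01 p X q (fE u)).1 (gk_01 p X P00 q u).1)
      (hm0.le.trans (hMu u hu))
  have hGs : ∑ u ∈ GS p X, Gn p X P00 q u ≤ 1 := by
    rw [sum_Gn hp.c10 hk (fun f hf => hm0.trans_le (hMf f hf))]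
    exact (av_le_one hq).2
  set β : ℝ := L ^ CU * (Real.exp (-(L ^ (1 / 100 : ℝ))) + Real.exp (-(cU * L))) / m with hβ
  have hβ0 : 0 ≤ β := by
    rw [hβ]
    have := Real.rpow_pos_of_pos hL CU
    positivity
  set I : ℝ := (if ∃ l : ℕ, Sp l ∧ PP X < (l : ℝ) ∧
        (l : ℝ) ≤ p.Y X ∧ (l : ℤ) ∣ q.1 ∧ (l : ℤ) ∣ fv q z then 1 else 0) with hI
  have hI0 : 0 ≤ I := by
    rw [hI]
    split_ifs
    · exact zero_le_one
    · exact le_rfl
  have hmain := nx7_pairs (GS p X) (Gn p X P00 q) hG0 hGs (fun u u' => EC X u u' ∨ EC X u' u)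
    (fun u u' => nx7E X u u') (fun u u' => nx7F X u u') (fun u u' => Xi p X P00 C u u')
    (L ^ C') (L * β) I (Real.rpow_nonneg hL.le _) hI0 (mul_nonneg hL.le hβ0)
    (fun u hu u' hu' => (hX3 X hXc u u' (hGP u hu) (hGP u' hu')).2)
    (by
      intro u _ u' _ h
      rcases h with h | h
      · rcases nx7_EC.mp h with h | h
        · exact Or.inl h
        · exact Or.inr (Or.inr h)
      · rcases nx7_EC.mp h with h | h
        · exact Or.inr (Or.inl h)
        · exact Or.inr (Or.inr (nx7_F_symm h)))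
    (by
      intro u hu u' hu' h
      by_cases hz : Gn p X P00 q u * Gn p X P00 q u' = 0
      · rw [hz, mul_zero]
      · have z1 : wend p X q (fE u) ≠ 0 := by
          intro h0
          apply hz
          unfold Gn
          rw [h0]
          simp
        have z2 : wend p X q (fE u') ≠ 0 := by
          intro h0
          apply hz
          unfold Gn
          rw [h0]
          simp
        have hex := nx7_ind (by omega) (hGP u hu) (hGP u' hu') h z1 z2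
        have hI1 : I = 1 := by rw [hI, if_pos hex]
        rw [hI1, one_mul])
    (by
      intro u hu
      have hu0 := hGP u hu
      refine nx7_sumE (Gn p X P00 q) hG0 β L u hβ0 ?_ ?_ ?_ ?_
      · exact (hX4 X hXd u hu0).2.2.1
      · intro l hl hd
        have hD := hu0.Dall_eq (by omega : 2 ≤ k)
        rw [Nat.mem_primeFactors]
        refine ⟨hl, ?_, hD.2.2.ne'⟩
        rw [hD.1]
        exact hd.mul_right _
      · intro u' hu'
        have hD := (hGP u' hu').Dall_eq (by omega : 2 ≤ k)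
        rw [hD.1]
        exact Nat.dvd_mul_right _ _
      · intro l hl hPl
        have hPP0 : 0 < PP X := Real.exp_pos _
        have hl0 : (0 : ℝ) < l := hPP0.trans hPl
        have hBl : 0 ≤ L ^ CU * (1 / (l : ℝ) + (X : ℝ) ^ (-cU)) := by
          have := Real.rpow_pos_of_pos hL CU
          have := Real.rpow_pos_of_pos hX0 (-cU)
          positivity
        have htr := Gn_transfer hp.c10 hk hq hm0 hBl hMf (nx7A l) (by
          intro f hf
          refine le_trans (le_of_eq ?_) (hX2 X hXb f hf q hq l hl hPl)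
          refine sum_congr ?_ (fun _ _ => rfl)
          ext v
          rw [mem_filter, mem_filter]
          constructor
          · rintro ⟨a1, a2, a3⟩
            refine ⟨a1, a2, ?_⟩
            unfold nx7A at a3
            rw [a2] at a3
            exact a3
          · rintro ⟨a1, a2, a3⟩
            refine ⟨a1, a2, ?_⟩
            unfold nx7A
            rw [a2]
            exact a3)
        refine htr.trans ?_
        rw [hβ]
        refine div_le_div_of_nonneg_right ?_ hm0.le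
        refine mul_le_mul_of_nonneg_left ?_ (Real.rpow_nonneg hL.le _)
        refine add_le_add ?_ (le_of_eq ?_)
        · rw [Real.exp_neg, ← one_div]
          exact one_div_le_one_div_of_le (Real.exp_pos _) hPl.le
        · rw [Real.rpow_def_of_pos hX0]
          congr 1
          ring)
  refine le_trans (le_trans (le_of_eq ?_) hmain) ?_
  · refine sum_congr rfl fun u _ => sum_congr ?_ fun u' _ => rfl
    ext v
    simp only [mem_filter]
  refine add_le_add ?_ le_rfl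
  have hfin := hX5 X hXe
  refine le_trans (le_of_eq ?_) hfin
  rw [hβ, hm]
  have e1 : L ^ (C' + 1 + CU + mE k) = L ^ C' * L * L ^ CU * L ^ mE k := by
    rw [Real.rpow_add hL, Real.rpow_add hL, Real.rpow_add hL, Real.rpow_one]
  have e2 : L ^ (-mE k) = (L ^ mE k)⁻¹ := Real.rpow_neg hL.le _
  have e3 : 0 < L ^ mE k := Real.rpow_pos_of_pos hL _
  rw [← hLdef, e1, e2]
  field_simp

end Pool.Agent.AQ.NC
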