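import Pool.Agent.Lib_helper8.AQ.NCDefs
import Pool.Agent.Lib_helper88.AQN.Ok
import Pool.Agent.Lib_helper88.AQN.NA1
import Pool.Agent.Lib_helper88.AQN.NA2
import Pool.Agent.Lib_helper88.AQN.NA3
import Pool.Agent.Lib_helper88.AQN.NA4
import Pool.Agent.Lib_helper88.AQN.NA8
import Pool.Agent.Lib_helper88.AQN.NA9
import Pool.Agent.Lib_helper88.AQN.NE6
import Pool.Agent.Lib_helper88.AQN.NL10
import Pool.Agent.Lib_helper88.AQN.NS5
import Pool.Agent.Lib_helper88.AQN.NS6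
import Pool.Agent.Lib_helper88.AQN.NS7
import Pool.Agent.Lib_helper88.AQN.NS8
import Pool.Agent.Lib_helper88.AQN.NX1
import Pool.Agent.Lib_helper88.AQN.NX5
import Pool.Agent.Lib_helper88.AQN.NX6
import Pool.Agent.Lib_helper88.AQN.NX7
import Pool.Agent.Lib_helper88.AQN.NX8
import Pool.Agent.Lib_helper88.AQN.NX9

/-!
# NC: near-constancy, assembly (helper88)
-/

set_option autoImplicit false

namespace Pool.Agent.AQ.NC

open Finset Pool.Agent.PENT Pool.Agent.PENT.EQ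

variable [Cst] {k : ℕ}

theorem ne7_av (C1 : ℝ) : ∃ X₀ : ℕ, ∀ X : ℕ, X₀ ≤ X → ∀ q ∈ AW C1 X, 0 < q.1 ∧ 0 < fv q z := by
  set c : ℝ := (z.1 : ℝ) - ρ₂ * (z.2 : ℝ) with hc
  have hc0 : 0 < c := by have := z_cone; rw [hc]; linarith
  have hz2 : (0 : ℝ) < (z.2 : ℝ) := by exact_mod_cast z_two
  refine ⟨⌈(|(D : ℝ)| * (z.2 : ℝ) ^ 2 + 1) / c ^ 2⌉₊ + 1, fun X hX q hq => ?_⟩
  unfold AW at hq
  rw [Finset.mem_filter, Finset.mem_product, Finset.mem_product, Finset.mem_Ioc,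
    Finset.mem_Icc, Finset.mem_Icc] at hq
  obtain ⟨⟨⟨a1, a2⟩, ⟨b1, b2⟩, ⟨c1, c2⟩⟩, hd, r1, r2, _⟩ := hq
  have hX1 : (1 : ℝ) ≤ X := by
    have : 1 ≤ X := by omega
    exact_mod_cast this
  have haX : (X : ℝ) < (q.1 : ℝ) := by exact_mod_cast a1
  have ha0 : (0 : ℝ) < (q.1 : ℝ) := by linarith
  have ha0' : 0 < q.1 := by exact_mod_cast ha0
  refine ⟨ha0', ?_⟩
  have hXc : (|(D : ℝ)| * (z.2 : ℝ) ^ 2 + 1) / c ^ 2 ≤ X := by
    have h1 := Nat.le_ceil ((|(D : ℝ)| * (z.2 : ℝ) ^ 2 + 1) / c ^ 2)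
    have h2 : ((⌈(|(D : ℝ)| * (z.2 : ℝ) ^ 2 + 1) / c ^ 2⌉₊ : ℕ) : ℝ) ≤ (X : ℝ) := by
      have : ⌈(|(D : ℝ)| * (z.2 : ℝ) ^ 2 + 1) / c ^ 2⌉₊ ≤ X := by omega
      exact_mod_cast this
    linarith
  have h3 : |(D : ℝ)| * (z.2 : ℝ) ^ 2 + 1 ≤ c ^ 2 * X := by
    rw [div_le_iff₀ (by positivity)] at hXc
    linarith
  have h4 : c * (q.1 : ℝ) ≤ (q.1 : ℝ) * z.1 + q.2.1 * z.2 := by
    have : -(q.2.1 : ℝ) * z.2 ≤ ρ₂ * q.1 * z.2 := mul_le_mul_of_nonneg_right r2 hz2.le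
    rw [hc]
    nlinarith
  have h5 : c ^ 2 * (q.1 : ℝ) ^ 2 ≤ ((q.1 : ℝ) * z.1 + q.2.1 * z.2) ^ 2 := by
    have h6 : 0 ≤ c * (q.1 : ℝ) := by positivity
    calc c ^ 2 * (q.1 : ℝ) ^ 2 = (c * q.1) ^ 2 := by ring
      _ ≤ _ := pow_le_pow_left₀ h6 h4 2
  have h6 : (X : ℝ) ≤ (q.1 : ℝ) ^ 2 := by nlinarith
  have h7 : c ^ 2 * (X : ℝ) ≤ c ^ 2 * (q.1 : ℝ) ^ 2 :=
    mul_le_mul_of_nonneg_left h6 (by positivity)
  have h8 : -(|(D : ℝ)| * (z.2 : ℝ) ^ 2) ≤ (D : ℝ) * (z.2 : ℝ) ^ 2 := by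
    have := neg_abs_le (D : ℝ)
    nlinarith [sq_nonneg (z.2 : ℝ)]
  have h9 : (q.1 : ℝ) * (fv q z : ℝ) = ((q.1 : ℝ) * z.1 + q.2.1 * z.2) ^ 2 +
      (D : ℝ) * (z.2 : ℝ) ^ 2 := by
    have : q.1 * fv q z = (q.1 * z.1 + q.2.1 * z.2) ^ 2 + D * z.2 ^ 2 := by
      unfold fv qf
      linear_combination (z.2 ^ 2) * hd
    exact_mod_cast this
  have h10 : (0 : ℝ) < (q.1 : ℝ) * (fv q z : ℝ) := by
    rw [h9]
    linarith
  have h11 : (0 : ℝ) < (fv q z : ℝ) := (mul_pos_iff_of_pos_left ha0).1 h10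
  exact_mod_cast h11

theorem ne7_log (A c K : ℝ) (hc : 0 < c) : ∃ X₀ : ℕ, ∀ X : ℕ, X₀ ≤ X →
    K * Real.log X ^ A ≤ (X : ℝ) ^ c := by
  have h1 : (fun x : ℝ => Real.log x ^ A) =o[Filter.atTop] fun x => x ^ c :=
    isLittleO_log_rpow_rpow_atTop A hc
  have h2 : Filter.Tendsto (fun n : ℕ => (n : ℝ)) Filter.atTop Filter.atTop :=
    tendsto_natCast_atTop_atTop
  have h3 := (h1.comp_tendsto h2).bound (show (0 : ℝ) < 1 / (|K| + 1) by positivity)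
  obtain ⟨X₀, hX₀⟩ := Filter.eventually_atTop.1 h3
  refine ⟨max X₀ 3, fun X hX => ?_⟩
  have h4 := hX₀ X ((le_max_left _ _).trans hX)
  have hX3 : 3 ≤ X := (le_max_right _ _).trans hX
  have hX0 : (0 : ℝ) < X := by exact_mod_cast (by omega : 0 < X)
  have hlog : 0 ≤ Real.log (X : ℝ) := Real.log_natCast_nonneg X
  simp only [Function.comp] at h4
  rw [Real.norm_of_nonneg (Real.rpow_nonneg hlog A),
    Real.norm_of_nonneg (Real.rpow_nonneg hX0.le c)] at h4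
  have h5 : K * Real.log X ^ A ≤ (|K| + 1) * Real.log X ^ A := by
    apply mul_le_mul_of_nonneg_right _ (Real.rpow_nonneg hlog A)
    linarith [le_abs_self K]
  calc K * Real.log X ^ A ≤ (|K| + 1) * Real.log X ^ A := h5
    _ ≤ (|K| + 1) * (1 / (|K| + 1) * (X : ℝ) ^ c) :=
        mul_le_mul_of_nonneg_left h4 (by positivity)
    _ = (X : ℝ) ^ c := by
        field_simp

/-- one good pair -/
theorem ne7_good {m δ Xi M E FF FG GG : ℝ} (hm : 0 < m) (hδ : 0 < δ) (hδ1 : δ ≤ 1 / 2)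
    (hXi : 1 ≤ Xi) (hE : 0 ≤ E) (hM0 : 0 ≤ M)
    (h1 : m ^ 2 * FF ≤ (1 + δ) * Xi * M + E) (h2 : (2 - Xi - δ) * M ≤ m ^ 2 * FG + E)
    (h3 : m ^ 2 * GG ≤ (1 + δ) * M + E) (h4 : (1 - δ) * M ≤ m ^ 2 * GG + E) :
    FF - 2 * FG + GG ≤ 8 * (Xi - 1) * GG + 8 * δ * GG + 12 * Xi * E / m ^ 2 := by
  have hm2 : 0 < m ^ 2 := by positivity
  have hM : M ≤ 2 * (m ^ 2 * GG + E) := by nlinarith
  have h5 : m ^ 2 * (FF - 2 * FG + GG) ≤ ((3 + δ) * (Xi - 1) + 4 * δ) * M + 4 * E := by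
    nlinarith
  have h6 : ((3 + δ) * (Xi - 1) + 4 * δ) * M ≤
      ((3 + δ) * (Xi - 1) + 4 * δ) * (2 * (m ^ 2 * GG + E)) := by
    apply mul_le_mul_of_nonneg_left hM
    have : 0 ≤ (3 + δ) * (Xi - 1) := mul_nonneg (by linarith) (by linarith)
    linarith
  have h7 : ((3 + δ) * (Xi - 1) + 4 * δ) * (2 * (m ^ 2 * GG + E)) ≤
      (4 * (Xi - 1) + 4 * δ) * (2 * (m ^ 2 * GG + E)) := by
    apply mul_le_mul_of_nonneg_right
    · nlinarith
    · linarith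
  have h8 : (4 * (Xi - 1) + 4 * δ) * (2 * (m ^ 2 * GG + E)) + 4 * E ≤
      m ^ 2 * (8 * (Xi - 1) * GG + 8 * δ * GG) + 12 * Xi * E := by
    have : 8 * δ * E ≤ 4 * E := by nlinarith
    nlinarith [mul_nonneg (sub_nonneg.2 hXi) hE]
  have h9 : m ^ 2 * (FF - 2 * FG + GG) ≤ m ^ 2 * (8 * (Xi - 1) * GG + 8 * δ * GG) +
      12 * Xi * E := by linarith
  have h10 : FF - 2 * FG + GG ≤ (m ^ 2 * (8 * (Xi - 1) * GG + 8 * δ * GG) +
      12 * Xi * E) / m ^ 2 := by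
    rw [le_div_iff₀ hm2]
    linarith
  refine h10.trans (le_of_eq ?_)
  field_simp

/-- one pair without common interior primes -/
theorem ne7_bad {m δ Xi M E FF GG : ℝ} (hm : 0 < m) (hδ1 : δ ≤ 1 / 2) (hδ : 0 < δ)
    (hXi : 1 ≤ Xi) (hE : 0 ≤ E) (hM0 : 0 ≤ M)
    (h1 : m ^ 2 * FF ≤ (1 + δ) * Xi * M + E) (h4 : (1 - δ) * M ≤ m ^ 2 * GG + E) :
    FF ≤ 4 * (GG * Xi) + 12 * Xi * E / m ^ 2 := by
  have hm2 : 0 < m ^ 2 := by positivity
  have hM : M ≤ 2 * (m ^ 2 * GG + E) := by nlinarith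
  have h2 : (1 + δ) * Xi * M ≤ 3 / 2 * Xi * (2 * (m ^ 2 * GG + E)) := by
    calc (1 + δ) * Xi * M ≤ 3 / 2 * Xi * M := by
          apply mul_le_mul_of_nonneg_right _ hM0
          apply mul_le_mul_of_nonneg_right _ (by linarith)
          linarith
      _ ≤ _ := mul_le_mul_of_nonneg_left hM (by linarith)
  have hG : 0 ≤ m ^ 2 * GG + E := by nlinarith
  have h3 : m ^ 2 * FF ≤ m ^ 2 * (4 * (GG * Xi)) + 12 * Xi * E := by
    nlinarith [mul_nonneg (sub_nonneg.2 hXi) hE, mul_nonneg (sub_nonneg.2 hXi) hG]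
  have h10 : FF ≤ (m ^ 2 * (4 * (GG * Xi)) + 12 * Xi * E) / m ^ 2 := by
    rw [le_div_iff₀ hm2]
    linarith
  refine h10.trans (le_of_eq ?_)
  field_simp

theorem ne7_GM_nonneg {C : ℝ} (hC : Loc k C) {p : Prm k} {X P00 : ℕ} {m c : ℝ}
    {O : Finset (ℤ × ℤ × ℤ)} (hS : Sit p X P00 m c O) {u u' : Vec k} (hu : GP p X u)
    (hu' : GP p X u') (h0 : C0 u u') : 0 ≤ GM p X P00 m O u u' := by
  unfold GM
  apply mul_nonneg
  · apply mul_nonneg (Nat.cast_nonneg _)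
    unfold MV
    apply div_nonneg _ (Nat.cast_nonneg _)
    apply Finset.sum_nonneg
    intro v _
    unfold kap
    apply le_min zero_le_one
    apply mul_nonneg (by positivity)
    apply div_nonneg
    · apply mul_nonneg
      · unfold okf; split_ifs <;> norm_num
      · unfold okf; split_ifs <;> norm_num
    · apply mul_nonneg
      · exact Finset.sum_nonneg fun u _ => (gk_01 p X P00 v u).1
      · exact Finset.sum_nonneg fun u _ => (gk_01 p X P00 v u).1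
  · exact Finset.prod_nonneg fun l hl => (hC.g01 p X P00 hS.hP hS.hPP u u' hu hu' h0 l hl).1.le

theorem ne7_Fn_nonneg (p : Prm k) (X P00 : ℕ) (q : ℤ × ℤ × ℤ) (u : Vec k) :
    0 ≤ Fn p X P00 q u := by
  unfold Fn
  exact div_nonneg (W_01 p X q u).1 (Finset.sum_nonneg fun u _ => (gk_01 p X P00 q u).1)

theorem ne7_Gn_nonneg (p : Prm k) (X P00 : ℕ) (q : ℤ × ℤ × ℤ) (u : Vec k) :
    0 ≤ Gn p X P00 q u := by
  unfold Gn
  exact div_nonneg (mul_nonneg (wend_01 p X q _).1 (gk_01 p X P00 q u).1)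
    (Finset.sum_nonneg fun u _ => (gk_01 p X P00 q u).1)

/-- sums over pairs and over the forms -/
theorem ne7_swap (O : Finset (ℤ × ℤ × ℤ)) (S : Finset (Vec k)) (T : Vec k → Finset (Vec k))
    (g : (ℤ × ℤ × ℤ) → Vec k → ℝ) (φ : Vec k → Vec k → ℝ) :
    ∑ u ∈ S, ∑ u' ∈ T u, (∑ q ∈ O, g q u * g q u') * φ u u' =
      ∑ q ∈ O, ∑ u ∈ S, ∑ u' ∈ T u, g q u * g q u' * φ u u' := by
  rw [Finset.sum_comm]
  apply Finset.sum_congr rfl
  intro u _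
  rw [Finset.sum_comm]
  apply Finset.sum_congr rfl
  intro u' _
  rw [Finset.sum_mul]

theorem ne7_PP (N : ℕ) : ∃ X₀ : ℕ, ∀ X : ℕ, X₀ ≤ X → (N : ℝ) ≤ PP X := by
  have h1 : Filter.Tendsto (fun X : ℕ => PP X) Filter.atTop Filter.atTop := by
    unfold PP
    apply Real.tendsto_exp_atTop.comp
    apply (tendsto_rpow_atTop (by norm_num : (0 : ℝ) < 1 / 100)).comp
    exact Real.tendsto_log_atTop.comp tendsto_natCast_atTop_atTop
  obtain ⟨X₀, h⟩ := Filter.eventually_atTop.1 (h1.eventually_ge_atTop (N : ℝ))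
  exact ⟨X₀, h⟩

/-- the error of all pairs together -/
theorem ne7_err {p : Prm k} {c : ℝ} (hc : 0 < c) (hep : p.ep ≤ c / (100 * (k + 1)))
    {m' ε C' : ℝ} (hm' : 0 < m') (hε : 0 < ε) : ∃ X₀ : ℕ, ∀ X : ℕ, X₀ ≤ X → ∀ N : ℝ,
      0 ≤ N → N ≤ (X : ℝ) ^ (5 * (k + 1) * p.ep) →
      N * (N * (12 * Real.log X ^ C' * (X : ℝ) ^ (1 - c / 2) /
        (m' * Real.log X ^ (-mE k)) ^ 2)) ≤ ε * X := by
  obtain ⟨X₀, h₀⟩ := ne7_log (C' + 2 * mE k) (c / 4) (12 / (m' ^ 2 * ε)) (by positivity)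
  refine ⟨max X₀ 3, fun X hX N hN0 hN => ?_⟩
  have h1 := h₀ X ((le_max_left _ _).trans hX)
  have hX3 : 3 ≤ X := (le_max_right _ _).trans hX
  have hX0 : (0 : ℝ) < X := by exact_mod_cast (by omega : 0 < X)
  have hX1 : (1 : ℝ) ≤ X := by exact_mod_cast (by omega : 1 ≤ X)
  have hlog : 0 < Real.log (X : ℝ) := Real.log_pos (by exact_mod_cast (by omega : 1 < X))
  have hk0 : (0 : ℝ) < k + 1 := by positivity
  have h2 : N ≤ (X : ℝ) ^ (c / 20) := by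
    refine hN.trans (Real.rpow_le_rpow_of_exponent_le hX1 ?_)
    calc 5 * (k + 1) * p.ep ≤ 5 * (k + 1) * (c / (100 * (k + 1))) :=
          mul_le_mul_of_nonneg_left hep (by positivity)
      _ = c / 20 := by field_simp; ring
  have h3 : N * N ≤ (X : ℝ) ^ (c / 4) := by
    calc N * N ≤ (X : ℝ) ^ (c / 20) * (X : ℝ) ^ (c / 20) :=
          mul_le_mul h2 h2 hN0 (Real.rpow_nonneg hX0.le _)
      _ = (X : ℝ) ^ (c / 20 + c / 20) := (Real.rpow_add hX0 _ _).symm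
      _ ≤ _ := Real.rpow_le_rpow_of_exponent_le hX1 (by linarith)
  have h4 : (m' * Real.log X ^ (-mE k)) ^ 2 = m' ^ 2 * Real.log X ^ (-(2 * mE k)) := by
    have e : (Real.log (X : ℝ) ^ (-mE k)) ^ 2 = Real.log X ^ (-(2 * mE k)) := by
      rw [← Real.rpow_natCast (Real.log (X : ℝ) ^ (-mE k)) 2, ← Real.rpow_mul hlog.le]
      congr 1
      push_cast
      ring
    rw [mul_pow, e]
  have h5 : 12 * Real.log X ^ C' * (X : ℝ) ^ (1 - c / 2) /
        (m' * Real.log X ^ (-mE k)) ^ 2 =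
      (12 / (m' ^ 2 * ε) * Real.log X ^ (C' + 2 * mE k)) * ε * (X : ℝ) ^ (1 - c / 2) := by
    rw [h4, Real.rpow_neg hlog.le, Real.rpow_add hlog]
    have : Real.log (X : ℝ) ^ (2 * mE k) ≠ 0 := (Real.rpow_pos_of_pos hlog _).ne'
    field_simp
  rw [h5, ← mul_assoc]
  calc N * N * (12 / (m' ^ 2 * ε) * Real.log X ^ (C' + 2 * mE k) * ε * (X : ℝ) ^ (1 - c / 2))
      ≤ (X : ℝ) ^ (c / 4) * ((X : ℝ) ^ (c / 4) * ε * (X : ℝ) ^ (1 - c / 2)) := by
        apply mul_le_mul h3 _ _ (Real.rpow_nonneg hX0.le _)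
        · apply mul_le_mul_of_nonneg_right _ (Real.rpow_nonneg hX0.le _)
          exact mul_le_mul_of_nonneg_right h1 hε.le
        · have := Real.rpow_nonneg hlog.le (C' + 2 * mE k)
          positivity
    _ = ε * ((X : ℝ) ^ (c / 4) * (X : ℝ) ^ (c / 4) * (X : ℝ) ^ (1 - c / 2)) := by ring
    _ = ε * (X : ℝ) := by
        rw [← Real.rpow_add hX0, ← Real.rpow_add hX0]
        have : c / 4 + c / 4 + (1 - c / 2) = 1 := by ring
        rw [this, Real.rpow_one]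

/-- the good pairs -/
def Bq (X : ℕ) (u u' : Vec k) : Prop := C0 u u' ∧ ¬ EC X u u' ∧ ¬ EC X u' u

open Classical in
/-- the final summation (all classes) -/
theorem ne7_sum {p : Prm k} {X P00 : ℕ} (hc : 0 < p.c1) (hk4 : 4 ≤ k) (C : ℝ)
    {m c δ ε L C₂ : ℝ} {O : Finset (ℤ × ℤ × ℤ)} (hLoc : Loc k C) (hS : Sit p X P00 m c O)
    (hδ : 0 < δ) (hδ1 : δ ≤ 1 / 2) (hε : 0 < ε) (hC2 : 0 ≤ C₂)
    (hO2 : (O.card : ℝ) ≤ C₂ * X) (hD2 : ∀ u, GP p X u → 2 ≤ Dint u)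
    (hXi : ∀ u u' : Vec k, GP p X u → GP p X u' → 1 ≤ Xi p X P00 C u u' ∧
      Xi p X P00 C u u' ≤ L)
    (hFF : ∀ u u' : Vec k, GP p X u → GP p X u' → C0 u u' →
      m ^ 2 * ∑ q ∈ O, Fn p X P00 q u * Fn p X P00 q u' ≤
        (1 + δ) * Xi p X P00 C u u' * GM p X P00 m O u u' + (X : ℝ) ^ (1 - c / 2))
    (hGU : ∀ u u' : Vec k, GP p X u → GP p X u' → C0 u u' →
      m ^ 2 * ∑ q ∈ O, Gn p X P00 q u * Gn p X P00 q u' ≤
        (1 + δ) * GM p X P00 m O u u' + (X : ℝ) ^ (1 - c / 2))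
    (hGL : ∀ u u' : Vec k, GP p X u → GP p X u' → C0 u u' →
      (1 - δ) * GM p X P00 m O u u' ≤
        m ^ 2 * ∑ q ∈ O, Gn p X P00 q u * Gn p X P00 q u' + (X : ℝ) ^ (1 - c / 2))
    (hFG : ∀ u u' : Vec k, GP p X u → GP p X u' → C0 u u' → ¬ EC X u' u → ¬ EC X u u' →
      (2 - Xi p X P00 C u u' - δ) * GM p X P00 m O u u' ≤
        m ^ 2 * ∑ q ∈ O, Fn p X P00 q u * Gn p X P00 q u' + (X : ℝ) ^ (1 - c / 2))
    (hmX : ∀ q : ℤ × ℤ × ℤ, q.1 * q.2.2 - q.2.1 ^ 2 = D → ∑ u ∈ GS p X, ∑ u' ∈ GS p X,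
        Gn p X P00 q u * Gn p X P00 q u' * (Xi p X P00 C u u' - 1) ≤ ε)
    (hmC : ∀ q : ℤ × ℤ × ℤ, q.1 * q.2.2 - q.2.1 ^ 2 = D →
      ∑ u ∈ GS p X, ∑ u' ∈ (GS p X).filter (fun u' => ¬ C0 u u'),
        Gn p X P00 q u * Gn p X P00 q u' ≤ ε)
    (hmE : ∑ q ∈ O, ∑ u ∈ GS p X, ∑ u' ∈ (GS p X).filter (fun u' => EC X u u' ∨ EC X u' u),
        Gn p X P00 q u * Gn p X P00 q u' * Xi p X P00 C u u' ≤ (C₂ + 1) * ε * X)
    (hNEG : ∑ u ∈ GS p X, ∑ u' ∈ (GS p X).filter (fun u' => u' ≠ u ∧ ¬ C0 u u'),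
        ∑ q ∈ O, Fn p X P00 q u * Fn p X P00 q u' ≤ ε * X)
    (hD : ∑ q ∈ O, ∑ u ∈ GS p X, Ft p X P00 q u ^ 2 ≤ ε * X)
    (hR : ∑ q ∈ O, ∑ u ∈ GS p X, (Fn p X P00 q u - Ft p X P00 q u) ≤ ε * X)
    (hErr : ((GS p X).card : ℝ) * (((GS p X).card : ℝ) * (12 * L * (X : ℝ) ^ (1 - c / 2) /
      m ^ 2)) ≤ ε * X) :
    ∑ q ∈ O, (∑ u ∈ GS p X, Ft p X P00 q u - av p X q) ^ 2 ≤
      (22 * (C₂ + 1) * ε + 8 * (C₂ + 1) * δ) * X := by
  have hm := hS.m0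
  have hE0 : 0 ≤ (X : ℝ) ^ (1 - c / 2) := Real.rpow_nonneg (Nat.cast_nonneg X) _
  have hX0 : (0 : ℝ) ≤ X := Nat.cast_nonneg X
  have hC2' : 0 ≤ C₂ * X := le_trans (Nat.cast_nonneg _) hO2
  set FF : Vec k → Vec k → ℝ := fun u u' => ∑ q ∈ O, Fn p X P00 q u * Fn p X P00 q u' with hFFd
  set FG : Vec k → Vec k → ℝ := fun u u' => ∑ q ∈ O, Fn p X P00 q u * Gn p X P00 q u' with hFGd
  set GG : Vec k → Vec k → ℝ := fun u u' => ∑ q ∈ O, Gn p X P00 q u * Gn p X P00 q u' with hGGd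
  set ξ : Vec k → Vec k → ℝ := fun u u' => Xi p X P00 C u u' with hξd
  set Er : ℝ := 12 * L * (X : ℝ) ^ (1 - c / 2) / m ^ 2 with hErd
  have hGG0 : ∀ u u', 0 ≤ GG u u' := fun u u' => Finset.sum_nonneg fun q _ =>
    mul_nonneg (ne7_Gn_nonneg p X P00 q u) (ne7_Gn_nonneg p X P00 q u')
  have hmem : ∀ u ∈ GS p X, GP p X u := fun u hu => (mem_GS hc).1 hu
  have hML : ∀ u u' : Vec k, GP p X u → GP p X u' →
      12 * Xi p X P00 C u u' * (X : ℝ) ^ (1 - c / 2) / m ^ 2 ≤ Er := by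
    intro u u' hu hu'
    rw [hErd]
    apply div_le_div_of_nonneg_right _ (by positivity)
    apply mul_le_mul_of_nonneg_right _ hE0
    linarith [(hXi u u' hu hu').2]
  have hEr0 : ∀ u u' : Vec k, GP p X u → GP p X u' → 0 ≤ Er := by
    intro u u' hu hu'
    refine le_trans ?_ (hML u u' hu hu')
    have := (hXi u u' hu hu').1
    positivity
  -- the expansion
  have hexp := expand (P00 := P00) hc hk4 O hS.disc (fun f hf q hq =>
    lt_of_lt_of_le hm (hS.hM f hf q (hS.disc q hq)))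
    (fun u u' => Bq X u u')
  -- the four parts
  -- T1
  have hT1 : (∑ u ∈ GS p X, ∑ u' ∈ (GS p X).filter
      (fun u' => u' ≠ u ∧ Bq X u u'),
        (FF u u' - 2 * FG u u' + GG u u')) ≤
      8 * (∑ u ∈ GS p X, ∑ u' ∈ GS p X, GG u u' * (ξ u u' - 1)) +
      8 * δ * (∑ u ∈ GS p X, ∑ u' ∈ GS p X, GG u u') +
      ∑ u ∈ GS p X, ∑ u' ∈ GS p X, Er := by
    rw [Finset.mul_sum, Finset.mul_sum, ← Finset.sum_add_distrib, ← Finset.sum_add_distrib]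
    apply Finset.sum_le_sum
    intro u hu
    rw [Finset.mul_sum, Finset.mul_sum, ← Finset.sum_add_distrib, ← Finset.sum_add_distrib]
    refine le_trans (Finset.sum_le_sum (fun u' hu' => ?_)) (Finset.sum_le_sum_of_subset_of_nonneg
      (f := fun u' => 8 * (GG u u' * (ξ u u' - 1)) + 8 * δ * GG u u' + Er)
      (Finset.filter_subset _ _) (fun u' hu' _ => ?_))
    · obtain ⟨a1, _, a2, a3, a4⟩ := Finset.mem_filter.1 hu'
      have g1 := hmem u hu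
      have g2 := hmem u' a1
      have h := ne7_good (FG := FG u u') hm hδ hδ1 (hXi u u' g1 g2).1 hE0
        (ne7_GM_nonneg hLoc hS g1 g2 a2)
        (hFF u u' g1 g2 a2) (hFG u u' g1 g2 a2 a4 a3) (hGU u u' g1 g2 a2) (hGL u u' g1 g2 a2)
      have h2 := hML u u' g1 g2
      show FF u u' - 2 * FG u u' + GG u u' ≤ _
      calc FF u u' - 2 * FG u u' + GG u u' ≤ 8 * (Xi p X P00 C u u' - 1) * GG u u' +
          8 * δ * GG u u' + 12 * Xi p X P00 C u u' * (X : ℝ) ^ (1 - c / 2) / m ^ 2 := h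
        _ ≤ 8 * (GG u u' * (ξ u u' - 1)) + 8 * δ * GG u u' + Er := by
            have : 8 * (Xi p X P00 C u u' - 1) * GG u u' = 8 * (GG u u' * (ξ u u' - 1)) := by
              rw [hξd]; ring
            linarith
    · have g1 := hmem u hu
      have g2 := hmem u' hu'
      have e1 := hEr0 u u' g1 g2
      have e2 := hGG0 u u'
      have e3 : 0 ≤ ξ u u' - 1 := by
        have := (hXi u u' g1 g2).1
        rw [hξd]; linarith
      positivity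
  -- T2
  have hT2 : (∑ u ∈ GS p X, ∑ u' ∈ (GS p X).filter
      (fun u' => u' ≠ u ∧ ¬ Bq X u u'), FF u u') ≤
      (∑ u ∈ GS p X, ∑ u' ∈ (GS p X).filter (fun u' => u' ≠ u ∧ ¬ C0 u u'), FF u u') +
      (4 * (∑ u ∈ GS p X, ∑ u' ∈ (GS p X).filter (fun u' => EC X u u' ∨ EC X u' u),
        GG u u' * ξ u u') + ∑ u ∈ GS p X, ∑ u' ∈ GS p X, Er) := by
    rw [Finset.mul_sum, ← Finset.sum_add_distrib, ← Finset.sum_add_distrib]
    apply Finset.sum_le_sum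
    intro u hu
    rw [Finset.sum_filter, Finset.sum_filter, Finset.sum_filter, Finset.mul_sum,
      ← Finset.sum_add_distrib, ← Finset.sum_add_distrib]
    apply Finset.sum_le_sum
    intro u' hu'
    have g1 := hmem u hu
    have g2 := hmem u' hu'
    have e1 := hEr0 u u' g1 g2
    have e2 := hGG0 u u'
    have e3 : 0 ≤ ξ u u' := by
      have := (hXi u u' g1 g2).1
      rw [hξd]; linarith
    have e4 : 0 ≤ FF u u' := Finset.sum_nonneg fun q _ =>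
      mul_nonneg (ne7_Fn_nonneg p X P00 q u) (ne7_Fn_nonneg p X P00 q u')
    have e5 : 0 ≤ (if EC X u u' ∨ EC X u' u then GG u u' * ξ u u' else 0) := by
      split_ifs
      · positivity
      · exact le_rfl
    by_cases c1 : u' ≠ u ∧ ¬ Bq X u u'
    · rw [if_pos c1]
      by_cases c2 : C0 u u'
      · have c3 : EC X u u' ∨ EC X u' u := by
          by_contra hc'
          rw [not_or] at hc'
          exact c1.2 ⟨c2, hc'.1, hc'.2⟩
        rw [if_pos c3, if_neg (fun h => h.2 c2)]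
        have h := ne7_bad hm hδ1 hδ (hXi u u' g1 g2).1 hE0
          (ne7_GM_nonneg hLoc hS g1 g2 c2) (hFF u u' g1 g2 c2) (hGL u u' g1 g2 c2)
        have h2 := hML u u' g1 g2
        have h3 : FF u u' ≤ 4 * (GG u u' * ξ u u') +
          12 * Xi p X P00 C u u' * (X : ℝ) ^ (1 - c / 2) / m ^ 2 := h
        linarith
      · rw [if_pos ⟨c1.1, c2⟩]
        linarith
    · rw [if_neg c1]
      have : 0 ≤ (if u' ≠ u ∧ ¬ C0 u u' then FF u u' else 0) := by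
        split_ifs
        · exact e4
        · exact le_rfl
      linarith
  -- T3
  have hT3 : (∑ u ∈ GS p X, ∑ u' ∈ (GS p X).filter
      (fun u' => ¬ (u' ≠ u ∧ Bq X u u')), GG u u') ≤
      (∑ u ∈ GS p X, ∑ u' ∈ (GS p X).filter (fun u' => ¬ C0 u u'), GG u u' * 1) +
      ∑ u ∈ GS p X, ∑ u' ∈ (GS p X).filter (fun u' => EC X u u' ∨ EC X u' u),
        GG u u' * ξ u u' := by
    rw [← Finset.sum_add_distrib]
    apply Finset.sum_le_sum
    intro u hu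
    rw [Finset.sum_filter, Finset.sum_filter, Finset.sum_filter, ← Finset.sum_add_distrib]
    apply Finset.sum_le_sum
    intro u' hu'
    have g1 := hmem u hu
    have g2 := hmem u' hu'
    have e2 := hGG0 u u'
    have e3 : 1 ≤ ξ u u' := (hXi u u' g1 g2).1
    have e5 : 0 ≤ (if EC X u u' ∨ EC X u' u then GG u u' * ξ u u' else 0) := by
      split_ifs
      · positivity
      · exact le_rfl
    have e6 : 0 ≤ (if ¬ C0 u u' then GG u u' * 1 else 0) := by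
      by_cases h : C0 u u'
      · rw [if_neg (not_not.2 h)]
      · rw [if_pos h, mul_one]
        exact e2
    by_cases c1 : ¬ (u' ≠ u ∧ Bq X u u')
    · rw [if_pos c1]
      by_cases c2 : C0 u u'
      · have c4 : u' ≠ u := by
          intro h
          rw [h] at c2
          have h1 := c2.1
          have h2 := hD2 u g1
          have h3 : Dint u ∣ Dall u := by
            unfold Dint Dall
            apply Finset.prod_dvd_prod_of_subset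
            intro i hi
            rw [Finset.mem_Icc] at hi ⊢
            omega
          have h4 : Nat.gcd (Dint u) (Dall u) = Dint u := Nat.gcd_eq_left h3
          rw [Nat.Coprime, h4] at h1
          omega
        have c3 : EC X u u' ∨ EC X u' u := by
          by_contra hc'
          rw [not_or] at hc'
          exact c1 ⟨c4, c2, hc'.1, hc'.2⟩
        rw [if_pos c3, if_neg (not_not.2 c2)]
        nlinarith
      · rw [if_pos c2]
        linarith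
    · rw [if_neg c1]
      linarith
  -- sums over the forms
  have hS1 : ∑ u ∈ GS p X, ∑ u' ∈ GS p X, GG u u' * (ξ u u' - 1) ≤ C₂ * X * ε := by
    rw [ne7_swap]
    calc _ ≤ ∑ q ∈ O, ε := Finset.sum_le_sum fun q hq => hmX q (hS.disc q hq)
      _ = O.card * ε := by rw [Finset.sum_const, nsmul_eq_mul]
      _ ≤ _ := mul_le_mul_of_nonneg_right hO2 hε.le
  have hS2 : ∑ u ∈ GS p X, ∑ u' ∈ GS p X, GG u u' ≤ C₂ * X := by
    have e : ∑ u ∈ GS p X, ∑ u' ∈ GS p X, GG u u' =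
        ∑ u ∈ GS p X, ∑ u' ∈ GS p X, GG u u' * 1 := by
      simp only [mul_one]
    rw [e, ne7_swap]
    calc _ ≤ ∑ q ∈ O, (1 : ℝ) := by
          apply Finset.sum_le_sum
          intro q hq
          have h1 := sum_Gn (P00 := P00) hc hk4 (q := q) (fun f hf => lt_of_lt_of_le hm
            (hS.hM f hf q (hS.disc q hq)))
          have h2 := av_le_one (p := p) (X := X) (hS.disc q hq)
          have h3 : ∑ u ∈ GS p X, ∑ u' ∈ GS p X, Gn p X P00 q u * Gn p X P00 q u' * 1 =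
              av p X q * av p X q := by
            rw [← h1, Finset.sum_mul_sum]
            simp only [mul_one]
          rw [h3]
          nlinarith [h2.1, h2.2]
      _ = O.card := by rw [Finset.sum_const, nsmul_eq_mul, mul_one]
      _ ≤ _ := hO2
  have hS3 : ∑ u ∈ GS p X, ∑ u' ∈ (GS p X).filter (fun u' => ¬ C0 u u'), GG u u' * 1 ≤
      C₂ * X * ε := by
    rw [ne7_swap]
    simp only [mul_one]
    calc _ ≤ ∑ q ∈ O, ε := Finset.sum_le_sum fun q hq => hmC q (hS.disc q hq)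
      _ = O.card * ε := by rw [Finset.sum_const, nsmul_eq_mul]
      _ ≤ _ := mul_le_mul_of_nonneg_right hO2 hε.le
  have hS4 : ∑ u ∈ GS p X, ∑ u' ∈ (GS p X).filter (fun u' => EC X u u' ∨ EC X u' u),
      GG u u' * ξ u u' ≤ (C₂ + 1) * ε * X := by
    rw [ne7_swap]
    exact hmE
  have hS5 : ∑ u ∈ GS p X, ∑ u' ∈ GS p X, Er ≤ ε * X := by
    simp only [Finset.sum_const, nsmul_eq_mul]
    exact hErr
  refine hexp.trans ?_
  have f1 := hT1
  have f2 := hT2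
  have f3 := hT3
  have f4 : (∑ u ∈ GS p X, ∑ u' ∈ (GS p X).filter (fun u' => u' ≠ u ∧ ¬ C0 u u'), FF u u') ≤
    ε * X := hNEG
  have g8 : 8 * δ * (∑ u ∈ GS p X, ∑ u' ∈ GS p X, GG u u') ≤ 8 * δ * (C₂ * X) :=
    mul_le_mul_of_nonneg_left hS2 (by positivity)
  have hεX : 0 ≤ ε * X := by positivity
  have hδX : 0 ≤ δ * X := by positivity
  have hC2ε : 0 ≤ C₂ * X * ε := by positivity
  linarith

open Classical in
/-- NEG in normalised form -/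
theorem ne7_neg {p : Prm k} {C1 m' ε : ℝ} (hm' : 0 < m') (hε : 0 < ε) (h : NEG p C1)
    (hc : 0 < p.c1) (hk4 : 4 ≤ k) (P00 : ℕ) : ∃ X₀ : ℕ, ∀ X : ℕ, X₀ ≤ X →
    (∀ f ∈ Fac p X, ∀ q : ℤ × ℤ × ℤ, q.1 * q.2.2 - q.2.1 ^ 2 = D →
      m' * Real.log X ^ (-mE k) ≤ Mp p X P00 q f) → ∀ O ⊆ AW C1 X,
    ∑ u ∈ GS p X, ∑ u' ∈ (GS p X).filter (fun u' => u' ≠ u ∧ ¬ C0 u u'),
        ∑ q ∈ O, Fn p X P00 q u * Fn p X P00 q u' ≤ ε * X := by
  obtain ⟨X₁, h₁⟩ := h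
  obtain ⟨X₂, h₂⟩ := ne7_PP ⌈1 / (m' ^ 2 * ε)⌉₊
  have hl : ∃ X₃ : ℕ, ∀ X : ℕ, X₃ ≤ X → 1 / (m' ^ 2 * ε) ≤ Real.log (X : ℝ) := by
    have := (Real.tendsto_log_atTop.comp tendsto_natCast_atTop_atTop).eventually_ge_atTop
      (1 / (m' ^ 2 * ε))
    exact Filter.eventually_atTop.1 this
  obtain ⟨X₃, h₃⟩ := hl
  refine ⟨max (max X₁ X₃) 3, fun X hX hM O hO => ?_⟩
  simp only [max_le_iff] at hX
  obtain ⟨⟨x1, x3⟩, xx⟩ := hX
  have hX0 : (0 : ℝ) < X := by exact_mod_cast (by omega : 0 < X)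
  have hlog : 0 < Real.log (X : ℝ) := Real.log_pos (by exact_mod_cast (by omega : 1 < X))
  set m : ℝ := m' * Real.log X ^ (-mE k) with hm
  have hm0 : 0 < m := mul_pos hm' (Real.rpow_pos_of_pos hlog _)
  have hm2 : 0 < m ^ 2 := by positivity
  have key : ∀ u ∈ GS p X, ∀ u' ∈ GS p X, ∀ q ∈ AW C1 X,
      Fn p X P00 q u * Fn p X P00 q u' ≤ (1 / m ^ 2) * (W p X q u * W p X q u') := by
    intro u hu u' hu' q hq
    have hd : q.1 * q.2.2 - q.2.1 ^ 2 = D := by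
      unfold AW at hq
      exact (Finset.mem_filter.1 hq).2.1
    have a1 := hM (fE u) (((mem_GS hc).1 hu).fE_mem (by omega)) q hd
    have a2 := hM (fE u') (((mem_GS hc).1 hu').fE_mem (by omega)) q hd
    have b1 := (W_01 p X q u).1
    have b2 := (W_01 p X q u').1
    unfold Fn
    rw [div_mul_div_comm, one_div_mul_eq_div]
    apply div_le_div_of_nonneg_left (mul_nonneg b1 b2) hm2
    rw [sq]
    exact mul_le_mul a1 a2 hm0.le (hm0.le.trans a1)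
  have hsum : ∑ u ∈ GS p X, ∑ u' ∈ (GS p X).filter (fun u' => u' ≠ u ∧ ¬ C0 u u'),
        ∑ q ∈ O, Fn p X P00 q u * Fn p X P00 q u' ≤
      (1 / m ^ 2) * ∑ q ∈ AW C1 X, ∑ u ∈ GS p X,
        ∑ u' ∈ (GS p X).filter (fun u' => u' ≠ u ∧ ¬ C0 u u'), W p X q u * W p X q u' := by
    rw [Finset.mul_sum]
    simp_rw [Finset.mul_sum]
    rw [Finset.sum_comm' (s := AW C1 X) (t := fun _ => GS p X) (t' := GS p X)
      (s' := fun _ => AW C1 X) (by intro x y; tauto)]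
    apply Finset.sum_le_sum
    intro u hu
    rw [Finset.sum_comm' (s := AW C1 X)
      (t := fun _ => (GS p X).filter (fun u' => u' ≠ u ∧ ¬ C0 u u'))
      (t' := (GS p X).filter (fun u' => u' ≠ u ∧ ¬ C0 u u'))
      (s' := fun _ => AW C1 X) (by intro x y; tauto)]
    apply Finset.sum_le_sum
    intro u' hu'
    have hu'' := (Finset.mem_filter.1 hu').1
    calc ∑ q ∈ O, Fn p X P00 q u * Fn p X P00 q u'
        ≤ ∑ q ∈ AW C1 X, Fn p X P00 q u * Fn p X P00 q u' :=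
          Finset.sum_le_sum_of_subset_of_nonneg hO (fun q _ _ =>
            mul_nonneg (ne7_Fn_nonneg p X P00 q u) (ne7_Fn_nonneg p X P00 q u'))
      _ ≤ _ := Finset.sum_le_sum fun q hq => key u hu u' hu'' q hq
  refine hsum.trans ?_
  calc (1 / m ^ 2) * ∑ q ∈ AW C1 X, ∑ u ∈ GS p X,
        ∑ u' ∈ (GS p X).filter (fun u' => u' ≠ u ∧ ¬ C0 u u'), W p X q u * W p X q u'
      ≤ (1 / m ^ 2) * (X * Real.log X ^ (-2 * mE k - 1)) :=
        mul_le_mul_of_nonneg_left (h₁ X x1) (by positivity)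
    _ = 1 / (m' ^ 2 * Real.log X) * X := by
        have e : (Real.log (X : ℝ) ^ (-mE k)) ^ 2 = Real.log X ^ (-(2 * mE k)) := by
          rw [← Real.rpow_natCast (Real.log (X : ℝ) ^ (-mE k)) 2, ← Real.rpow_mul hlog.le]
          congr 1
          push_cast
          ring
        have e2 : Real.log (X : ℝ) ^ (-2 * mE k - 1) =
            Real.log X ^ (-(2 * mE k)) * (Real.log X)⁻¹ := by
          rw [show -2 * mE k - 1 = -(2 * mE k) + (-1) by ring, Real.rpow_add hlog,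
            Real.rpow_neg_one]
        rw [hm, mul_pow, e, e2]
        have : Real.log (X : ℝ) ^ (-(2 * mE k)) ≠ 0 := (Real.rpow_pos_of_pos hlog _).ne'
        field_simp
    _ ≤ ε * X := by
        apply mul_le_mul_of_nonneg_right _ hX0.le
        have h5 := h₃ X x3
        rw [div_le_iff₀ (by positivity)] at h5 ⊢
        nlinarith

/-- NE7: **NEAR-CONSTANCY** -/
theorem near_const (hk : Even k) (hk4 : 4 ≤ k) (C1 C₂ c δ : ℝ) (hC1 : 1 ≤ C1)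
    (hC2 : 0 < C₂)
    (hc : 0 < c) (hδ : 0 < δ) : ∃ τ₀ : ℝ, 0 < τ₀ ∧ ∀ p : Prm k, p.Ok τ₀ → LB p → UB p → UB1 p →
    UB2 p → DG p C1 → NEG p C1 → ∃ (P00 : ℕ) (m' : ℝ), pB k ≤ P00 ∧ 0 < m' ∧ ∃ X₀ : ℕ, ∀ X ≥ X₀,
    (∀ f ∈ Fac p X, ∀ q : ℤ × ℤ × ℤ, q.1 * q.2.2 - q.2.1 ^ 2 = D →
      m' * Real.log X ^ (-mE k) ≤ Mp p X P00 q f) ∧
    ∀ O ⊆ AW C1 X, (O.card : ℝ) ≤ C₂ * X →
    EqFam O (fun v => v) ((X : ℝ) ^ c) ((X : ℝ) ^ (1 - c)) →
    ∑ q ∈ O, (∑ u ∈ GS p X, Ft p X P00 q u - av p X q) ^ 2 ≤ δ * X := by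
  classical
  obtain ⟨C, hC⟩ := loc_exists hk hk4
  have hCp := hC.pos
  have hC21 : 0 < C₂ + 1 := by linarith
  set δ₁ : ℝ := min (1 / 2) (δ / (30 * (C₂ + 1))) with hδ₁
  have hδ₁0 : 0 < δ₁ := lt_min (by norm_num) (by positivity)
  have hδ₁1 : δ₁ ≤ 1 / 2 := min_le_left _ _
  have hδ₁2 : 8 * (C₂ + 1) * δ₁ ≤ δ / 2 := by
    calc 8 * (C₂ + 1) * δ₁ ≤ 8 * (C₂ + 1) * (δ / (30 * (C₂ + 1))) :=
          mul_le_mul_of_nonneg_left (min_le_right _ _) (by positivity)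
      _ = 8 / 30 * δ := by field_simp
      _ ≤ δ / 2 := by linarith
  set ε : ℝ := δ / (50 * (C₂ + 1)) with hε
  have hε0 : 0 < ε := by positivity
  have hε2 : 22 * (C₂ + 1) * ε ≤ δ / 2 := by
    calc 22 * (C₂ + 1) * ε = 22 / 50 * δ := by rw [hε]; field_simp
      _ ≤ δ / 2 := by linarith
  obtain ⟨τ1, hτ1, HFF⟩ := FF_up hk hk4 hC c δ₁ hc hδ₁0 (by linarith)
  obtain ⟨τ2, hτ2, HGU⟩ := GG_up hk hk4 hC c δ₁ hc hδ₁0 (by linarith)
  obtain ⟨τ3, hτ3, HGL⟩ := GG_low hk hk4 hC c δ₁ hc hδ₁0 (by linarith)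
  obtain ⟨τ4, hτ4, HFG⟩ := FG_low hk hk4 hC c δ₁ hc hδ₁0 (by linarith)
  obtain ⟨C', hC', HXc⟩ := Xi_crude hk4 C hCp
  set τ₀ : ℝ := min (min (min τ1 τ2) (min τ3 τ4)) (min 1 (min (c / (100 * (k + 1))) (c / 4)))
    with hτ₀d
  have hk0 : (0 : ℝ) < k + 1 := by positivity
  have hτ₀ : 0 < τ₀ := by
    rw [hτ₀d]
    refine lt_min (lt_min (lt_min hτ1 hτ2) (lt_min hτ3 hτ4)) (lt_min one_pos (lt_min ?_ ?_)) <;>
      positivity
  have t1 : τ₀ ≤ τ1 := (min_le_left _ _).trans ((min_le_left _ _).trans (min_le_left _ _))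
  have t2 : τ₀ ≤ τ2 := (min_le_left _ _).trans ((min_le_left _ _).trans (min_le_right _ _))
  have t3 : τ₀ ≤ τ3 := (min_le_left _ _).trans ((min_le_right _ _).trans (min_le_left _ _))
  have t4 : τ₀ ≤ τ4 := (min_le_left _ _).trans ((min_le_right _ _).trans (min_le_right _ _))
  have t5 : τ₀ ≤ 1 := (min_le_right _ _).trans (min_le_left _ _)
  have t6 : τ₀ ≤ c / (100 * (k + 1)) :=
    (min_le_right _ _).trans ((min_le_right _ _).trans (min_le_left _ _))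
  have t7 : τ₀ ≤ c / 4 := (min_le_right _ _).trans ((min_le_right _ _).trans (min_le_right _ _))
  refine ⟨τ₀, hτ₀, fun p hp hLB hUB hUB1 hUB2 hDG hNEG => ?_⟩
  have ok1 := hp.mono hτ₀ hk4 t1
  have ok2 := hp.mono hτ₀ hk4 t2
  have ok3 := hp.mono hτ₀ hk4 t3
  have ok4 := hp.mono hτ₀ hk4 t4
  have okone := hp.mono hτ₀ hk4 t5
  have hta0 := hp.ta_pos hτ₀ hk4
  have hep0 := hp.ep_pos hτ₀ hk4
  have hta2 : p.ta ≤ c / 4 := by
    have h1 := hp.ta_ep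
    have h2 := hp.ep1
    have h3 : τ₀ * p.ep ≤ 1 * τ₀ := by nlinarith
    linarith
  have hepc : p.ep ≤ c / (100 * (k + 1)) := hp.ep1.trans t6
  have hLB' := hLB
  obtain ⟨cL, CL, hcL, hCL, HLB⟩ := hLB
  obtain ⟨P₁, HX⟩ := mean_Xi okone hk4 hLB' hUB hUB2 C hCp ε hε0
  set P00 : ℕ := max P₁ (max 3 (pB k)) with hP00
  have h3P : 3 ≤ P00 := (le_max_left _ _).trans (le_max_right _ _)
  have hPk : pB k ≤ P00 := (le_max_right _ _).trans (le_max_right _ _)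
  have hP3 : pB k ≤ P00 := hPk
  have hlP : 0 < Real.log (P00 : ℝ) :=
    Real.log_pos (by exact_mod_cast (by omega : 1 < P00))
  set m' : ℝ := cL * Real.log P00 ^ (-CL) with hm'
  have hm'0 : 0 < m' := mul_pos hcL (Real.rpow_pos_of_pos hlP _)
  obtain ⟨X1, H1⟩ := HX P00 (le_max_left _ _)
  obtain ⟨X2, H2⟩ := mean_C0 okone hk4 hLB' hUB1 ε hε0 P00 hP3
  obtain ⟨C'', hC'', HEC⟩ := mean_EC okone hk4 hLB' hUB1 C hCp ε hε0
  obtain ⟨X3, H3⟩ := HEC P00 hP3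
  obtain ⟨X4, H4⟩ := two_ends (p := p) c C₂ C'' ε hc hε0 hta0 hta2
  obtain ⟨X5, H5⟩ := diag_rest okone hk4 C1 hLB' hDG ε hε0 P00 hP3
  obtain ⟨X6, H6⟩ := GS_card okone hk4
  obtain ⟨X7, H7⟩ := GP.sizes okone hk4
  obtain ⟨X8, H8⟩ := HXc p okone P00 hP3
  obtain ⟨X9, H9⟩ := ne7_neg hm'0 hε0 hNEG hp.c10 hk4 P00
  obtain ⟨X10, H10⟩ := HFF p ok1 P00
  obtain ⟨X11, H11⟩ := HGU p ok2 P00
  obtain ⟨X12, H12⟩ := HGL p ok3 P00
  obtain ⟨X13, H13⟩ := HFG p ok4 P00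
  obtain ⟨X14, H14⟩ := HLB P00 hP3
  obtain ⟨X15, H15⟩ := ne7_PP P00
  obtain ⟨X16, H16⟩ := ne7_err (p := p) (C' := C') hc hepc hm'0 hε0
  obtain ⟨X17, H17⟩ := ne7_av C1
  refine ⟨P00, m', hP3, hm'0, max 3 (max X1 (max X2 (max X3 (max X4 (max X5 (max X6 (max X7
    (max X8 (max X9 (max X10 (max X11 (max X12 (max X13 (max X14 (max X15 (max X16 X17))))))))))))))))
    , ?_⟩
  intro X hX
  simp only [ge_iff_le, max_le_iff] at hX
  obtain ⟨x0, x1, x2, x3, x4, x5, x6, x7, x8, x9, x10, x11, x12, x13, x14, x15, x16, x17⟩ := hX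
  have hMp : ∀ f ∈ Fac p X, ∀ q : ℤ × ℤ × ℤ, q.1 * q.2.2 - q.2.1 ^ 2 = D →
      m' * Real.log X ^ (-mE k) ≤ Mp p X P00 q f := fun f hf q hq => by
    rw [hm']
    exact H14 X x14 f hf q hq
  refine ⟨hMp, fun O hO hO2 hEq => ?_⟩
  have hX0 : (0 : ℝ) < X := by exact_mod_cast (by omega : 0 < X)
  have hlog : 0 < Real.log (X : ℝ) := Real.log_pos (by exact_mod_cast (by omega : 1 < X))
  set m : ℝ := m' * Real.log X ^ (-mE k) with hm
  have hm0 : 0 < m := mul_pos hm'0 (Real.rpow_pos_of_pos hlog _)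
  have hdisc : ∀ q ∈ O, q.1 * q.2.2 - q.2.1 ^ 2 = D := fun q hq => by
    have := hO hq
    unfold AW at this
    exact (Finset.mem_filter.1 this).2.1
  have hS : Sit p X P00 m c O :=
    { hP := hPk, hPP := H15 X x15, m0 := hm0, hM := hMp, disc := hdisc,
      av := fun q hq => H17 X x17 q (hO hq), eq := hEq }
  have hmain := ne7_sum (P00 := P00) (L := Real.log X ^ C') hp.c10 hk4 C hC hS hδ₁0 hδ₁1 hε0
    hC2.le hO2
    (fun u hu => (H7 X x7 u hu).2.2.2) (H8 X x8) (H10 X x10 m O hS) (H11 X x11 m O hS)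
    (H12 X x12 m O hS) (H13 X x13 m O hS) (H1 X x1) (H2 X x2)
    (by
      calc _ ≤ ∑ q ∈ O, (ε + Real.log X ^ C'' * (if ∃ l : ℕ, Sp l ∧
              PP X < (l : ℝ) ∧ (l : ℝ) ≤ p.Y X ∧ (l : ℤ) ∣ q.1 ∧ (l : ℤ) ∣ fv q z
              then 1 else 0)) := Finset.sum_le_sum fun q hq => H3 X x3 q (hdisc q hq)
        _ = O.card * ε + ∑ q ∈ O, Real.log X ^ C'' * (if ∃ l : ℕ, Sp l ∧
              PP X < (l : ℝ) ∧ (l : ℝ) ≤ p.Y X ∧ (l : ℤ) ∣ q.1 ∧ (l : ℤ) ∣ fv q z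
              then (1 : ℝ) else 0) := by
            rw [Finset.sum_add_distrib, Finset.sum_const, nsmul_eq_mul]
        _ ≤ C₂ * X * ε + ε * X :=
            add_le_add (mul_le_mul_of_nonneg_right hO2 hε0.le) (H4 X x4 O hO2 hEq)
        _ = (C₂ + 1) * ε * X := by ring)
    (H9 X x9 hMp O hO) (H5 X x5 O hO).1 (H5 X x5 O hO).2
    (H16 X x16 _ (Nat.cast_nonneg _) (H6 X x6))
  refine hmain.trans ?_
  apply mul_le_mul_of_nonneg_right _ hX0.le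
  linarith

end Pool.Agent.AQ.NC
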