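import Pool.Agent.Lib_helper88.AQN.NL10
import Pool.Agent.Lib_helper88.AQN.NS8
import Pool.Agent.Lib_helper88.AQN.NX2
import Pool.Agent.Lib_helper88.AQN.NX5
import Pool.Agent.Lib_helper88.AQN.NX7
import Pool.Agent.Lib_helper88.AQN.NX8
import Pool.Agent.Lib_helper88.AQN.NX9
import Pool.Agent.Lib_helper88.AQN.NE5
import Pool.Agent.Lib_helper88.AQN.NE6
import Pool.Agent.Lib_helper88.AQN.NE7
import Pool.Agent.Lib_helper88.AQN.Ok

/-! AQN: all blocks (helper88) -/
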