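import Pool.Agent.Lib_helper8.AQ.NCDefs

/-!
# AQ, NC: the counts of forms modulo a prime (port of helper18's PA1 - PA4; helper88)
-/

set_option autoImplicit false

namespace Pool.Agent.AQ.NC

open Finset Pool.Agent.PENT Pool.Agent.PENT.EQ

variable [Cst]

theorem cnt_D0 {p : ℕ} (hp : p.Prime) (hR : ¬ p ∣ R) : (D : ZMod p) ≠ 0 := by
  intro h
  rw [ZMod.intCast_zmod_eq_zero_iff_dvd] at h
  exact hR (prime_dvd_D hp h)

open Classical in
/-- the number of roots of `t ^ 2 = -D` -/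
theorem cnt_roots {p : ℕ} [Fact p.Prime] (h2 : 2 < p) (hR : ¬ p ∣ R) :
    ((univ : Finset (ZMod p)).filter (fun t => t ^ 2 = -(D : ZMod p))).card =
      if Sp p then 2 else 0 := by
  have hp : p.Prime := Fact.out
  have hD0 := cnt_D0 hp hR
  by_cases h4 : Sp p
  · rw [if_pos h4]
    obtain ⟨_, _, t0, ht0⟩ := h4
    obtain ⟨t, htd⟩ : ∃ t : ZMod p, t = (t0 : ZMod p) := ⟨_, rfl⟩
    have ht : t ^ 2 = -(D : ZMod p) := by
      have := (ZMod.intCast_zmod_eq_zero_iff_dvd _ p).2 ht0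
      push_cast at this
      rw [htd]
      linear_combination this
    have h20 : (2 : ZMod p) ≠ 0 := by
      intro h0
      have h1 : ((2 : ℕ) : ZMod p) = 0 := by exact_mod_cast h0
      rw [ZMod.natCast_eq_zero_iff] at h1
      have := Nat.le_of_dvd (by norm_num) h1
      omega
    have ht0 : t ≠ 0 := by
      intro h0
      rw [h0] at ht
      apply hD0
      linear_combination ht
    have hne : t ≠ -t := by
      intro h
      have h1 : 2 * t = 0 := by
        rw [two_mul]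
        nth_rewrite 2 [h]
        exact add_neg_cancel t
      rcases mul_eq_zero.1 h1 with h3 | h3
      · exact h20 h3
      · exact ht0 h3
    have heq : (univ : Finset (ZMod p)).filter (fun t => t ^ 2 = -(D : ZMod p)) =
        {t, -t} := by
      ext s
      simp only [mem_filter, mem_univ, true_and, mem_insert, mem_singleton]
      constructor
      · intro hs
        have h1 : (s - t) * (s + t) = 0 := by
          have : (s - t) * (s + t) = s ^ 2 - t ^ 2 := by ring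
          rw [this, hs, ← ht, sub_self]
        rcases mul_eq_zero.1 h1 with h3 | h3
        · exact Or.inl (sub_eq_zero.1 h3)
        · exact Or.inr (eq_neg_of_add_eq_zero_left h3)
      · rintro (h | h)
        · rw [h, ht]
        · rw [h, ← ht]; ring
    rw [heq, Finset.card_pair hne]
  · rw [if_neg h4, Finset.card_eq_zero, Finset.filter_eq_empty_iff]
    intro t _ ht
    apply h4
    refine ⟨hp, hR, (t.val : ℤ), ?_⟩
    rw [← ZMod.intCast_zmod_eq_zero_iff_dvd]
    push_cast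
    rw [ZMod.natCast_zmod_val, ht]
    ring



open Classical in
/-- the count in terms of `ZMod p` -/
theorem pa1_card (p : ℕ) [NeZero p] :
    (V3 p).card = (univ.filter (fun z : ZMod p × ZMod p × ZMod p =>
      z.1 * z.2.2 = z.2.1 ^ 2 + (D : ZMod p))).card := by
  refine Finset.card_bij' (fun r _ => ((r.1 : ZMod p), (r.2.1 : ZMod p), (r.2.2 : ZMod p)))
    (fun z _ => ((z.1.val : ℤ), (z.2.1.val : ℤ), (z.2.2.val : ℤ))) ?_ ?_ ?_ ?_
  · rintro ⟨a, b, c⟩ h
    simp only [V3, mem_filter, mem_product, mem_Ico] at h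
    have h1 : ((a * c - b ^ 2 - D : ℤ) : ZMod p) = 0 :=
      (ZMod.intCast_zmod_eq_zero_iff_dvd _ _).2 h.2
    push_cast at h1
    simp only [mem_filter, mem_univ, true_and]
    linear_combination h1
  · rintro ⟨a, b, c⟩ h
    simp only [mem_filter, mem_univ, true_and] at h
    simp only [V3, mem_filter, mem_product, mem_Ico]
    refine ⟨⟨⟨by positivity, by exact_mod_cast ZMod.val_lt a⟩,
      ⟨by positivity, by exact_mod_cast ZMod.val_lt b⟩,
      ⟨by positivity, by exact_mod_cast ZMod.val_lt c⟩⟩, ?_⟩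
    rw [← ZMod.intCast_zmod_eq_zero_iff_dvd]
    push_cast
    simp only [ZMod.natCast_val, ZMod.cast_id', id_eq]
    linear_combination h
  · rintro ⟨a, b, c⟩ h
    simp only [V3, mem_filter, mem_product, mem_Ico] at h
    obtain ⟨⟨⟨a0, a1⟩, ⟨b0, b1⟩, ⟨c0, c1⟩⟩, -⟩ := h
    have key : ∀ x : ℤ, 0 ≤ x → x < p → (((x : ZMod p).val : ℕ) : ℤ) = x := by
      intro x h0 h1
      rw [ZMod.val_intCast, Int.emod_eq_of_lt h0 h1]
    simp only [key a a0 a1, key b b0 b1, key c c0 c1]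
  · rintro ⟨a, b, c⟩ _
    simp

theorem pa1_lin {p : ℕ} [Fact p.Prime] (a m : ZMod p) (ha : a ≠ 0) :
    (univ.filter (fun c : ZMod p => a * c = m)).card = 1 := by
  rw [Finset.card_eq_one]
  refine ⟨a⁻¹ * m, ?_⟩
  ext c
  simp only [mem_filter, mem_univ, true_and, mem_singleton]
  constructor
  · intro h
    rw [← h, ← mul_assoc, inv_mul_cancel₀ ha, one_mul]
  · intro h
    rw [h, ← mul_assoc, mul_inv_cancel₀ ha, one_mul]

open Classical in
theorem card_V3 {p : ℕ} (hp : p.Prime) (h2 : 2 < p) (hR : ¬ p ∣ R) :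
    ((V3 p).card : ℤ) = p * (p + if Sp p then 1 else -1) := by
  have : Fact p.Prime := ⟨hp⟩
  rw [pa1_card p, Finset.card_filter, Fintype.sum_prod_type]
  have h3 : ∀ a : ZMod p, (∑ y : ZMod p × ZMod p, if a * y.2 = y.1 ^ 2 + (D : ZMod p) then (1 : ℕ) else 0) =
      if a = 0 then p * (univ.filter (fun b : ZMod p => b ^ 2 = -(D : ZMod p))).card else p := by
    intro a
    rw [Fintype.sum_prod_type]
    by_cases ha : a = 0
    · rw [if_pos ha]
      have h4 : ∀ b : ZMod p, (∑ c : ZMod p, if a * c = b ^ 2 + (D : ZMod p) then (1 : ℕ) else 0) =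
          if b ^ 2 = -(D : ZMod p) then p else 0 := by
        intro b
        rw [ha]
        by_cases hb : b ^ 2 = -(D : ZMod p)
        · rw [if_pos hb]
          simp [hb, ZMod.card]
        · rw [if_neg hb]
          apply Finset.sum_eq_zero
          intro c _
          rw [if_neg]
          intro h
          apply hb
          linear_combination -h
      simp only [h4]
      rw [← Finset.sum_filter, Finset.sum_const, smul_eq_mul, mul_comm]
    · rw [if_neg ha]
      have h4 : ∀ b : ZMod p, (∑ c : ZMod p, if a * c = b ^ 2 + (D : ZMod p) then (1 : ℕ) else 0) = 1 := by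
        intro b
        rw [← Finset.card_filter]
        exact pa1_lin a _ ha
      simp only [h4]
      simp [ZMod.card]
  simp only [h3]
  rw [Finset.sum_ite]
  have h5 : (univ.filter (fun a : ZMod p => a = 0)).card = 1 := by
    rw [Finset.card_eq_one]
    exact ⟨0, by ext; simp⟩
  have h6 : (univ.filter (fun a : ZMod p => ¬ a = 0)).card = p - 1 := by
    have h7 := Finset.card_filter_add_card_filter_not (s := (univ : Finset (ZMod p)))
      (fun a : ZMod p => a = 0)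
    rw [h5, Finset.card_univ, ZMod.card] at h7
    omega
  rw [Finset.sum_const, Finset.sum_const, h5, h6]
  have h8 := cnt_roots (p := p) h2 hR
  simp only [smul_eq_mul, one_mul]
  push_cast
  rw [h8, Nat.cast_sub hp.one_le]
  push_cast
  split_ifs <;> ring



/-- the forms as points over `ZMod p` -/
theorem pa2_card {p : ℕ} [Fact p.Prime] (P : ℤ × ℤ × ℤ → Prop) (P' : ZMod p × ZMod p × ZMod p → Prop)
    [DecidablePred P] [DecidablePred P'] (h : ∀ r : ℤ × ℤ × ℤ, P r ↔ P' (r.1, r.2.1, r.2.2)) :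
    ((V3 p).filter P).card = ((univ : Finset (ZMod p × ZMod p × ZMod p)).filter
      (fun q => q.1 * q.2.2 - q.2.1 ^ 2 - (D : ZMod p) = 0 ∧ P' q)).card := by
  have hp0 : p ≠ 0 := (Fact.out : p.Prime).ne_zero
  have hcast : ∀ x : ℤ, (p : ℤ) ∣ x ↔ (x : ZMod p) = 0 := fun x =>
    (ZMod.intCast_zmod_eq_zero_iff_dvd x p).symm
  have hval : ∀ s : ZMod p, ((s.val : ℤ) : ZMod p) = s := fun s => by
    rw [Int.cast_natCast, ZMod.natCast_zmod_val]
  have hmem : ∀ s : ZMod p, (s.val : ℤ) ∈ Ico (0 : ℤ) p := fun s => by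
    rw [mem_Ico]
    exact ⟨by positivity, by exact_mod_cast ZMod.val_lt s⟩
  have hinv : ∀ x ∈ Ico (0 : ℤ) p, (((x : ZMod p)).val : ℤ) = x := fun x hx => by
    rw [mem_Ico] at hx
    rw [ZMod.val_intCast, Int.emod_eq_of_lt hx.1 hx.2]
  have hV : ∀ r : ℤ × ℤ × ℤ, r ∈ (V3 p).filter P ↔ (r.1 ∈ Ico (0 : ℤ) p ∧ r.2.1 ∈ Ico (0 : ℤ) p ∧
      r.2.2 ∈ Ico (0 : ℤ) p) ∧ ((r.1 : ZMod p) * r.2.2 - (r.2.1 : ZMod p) ^ 2 - (D : ZMod p) = 0 ∧
        P' (r.1, r.2.1, r.2.2)) := by
    intro r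
    rw [mem_filter, h r]
    unfold V3
    rw [mem_filter, mem_product, mem_product, hcast]
    push_cast
    tauto
  refine Finset.card_nbij' (fun r => ((r.1 : ZMod p), (r.2.1 : ZMod p), (r.2.2 : ZMod p)))
    (fun q => ((q.1.val : ℤ), (q.2.1.val : ℤ), (q.2.2.val : ℤ))) ?_ ?_ ?_ ?_
  · intro r hr
    have hr' := (hV r).1 (mem_coe.1 hr)
    rw [mem_coe, mem_filter]
    exact ⟨mem_univ _, hr'.2⟩
  · intro q hq
    rw [mem_coe, mem_filter] at hq
    rw [mem_coe, hV]
    simp only [hval]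
    exact ⟨⟨hmem _, hmem _, hmem _⟩, hq.2⟩
  · intro r hr
    have hr' := ((hV r).1 (mem_coe.1 hr)).1
    simp only [hinv _ hr'.1, hinv _ hr'.2.1, hinv _ hr'.2.2]
  · intro q _
    simp only [hval]

open Classical in
theorem card_V3_one {p : ℕ} (hp : p.Prime) (h2 : 2 < p) (hR : ¬ p ∣ R) (c : ℤ × ℤ)
    (hc : ¬ ((p : ℤ) ∣ c.1 ∧ (p : ℤ) ∣ c.2)) :
    ((V3 p).filter (fun r => (p : ℤ) ∣ fv r c)).card = if Sp p then 2 * p else 0 := by
  classical
  have : Fact p.Prime := ⟨hp⟩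
  have : NeZero p := ⟨hp.ne_zero⟩
  have hcast : ∀ x : ℤ, (p : ℤ) ∣ x ↔ (x : ZMod p) = 0 := fun x =>
    (ZMod.intCast_zmod_eq_zero_iff_dvd x p).symm
  obtain ⟨a, ha⟩ : ∃ a : ZMod p, a = (c.1 : ZMod p) := ⟨_, rfl⟩
  obtain ⟨b, hb⟩ : ∃ b : ZMod p, b = (c.2 : ZMod p) := ⟨_, rfl⟩
  have hab : ¬ (a = 0 ∧ b = 0) := by
    rw [ha, hb, ← hcast, ← hcast]; exact hc
  rw [pa2_card (fun r => (p : ℤ) ∣ fv r c)
    (fun q => q.1 * a ^ 2 + 2 * q.2.1 * a * b + q.2.2 * b ^ 2 = 0) (by
      intro r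
      rw [hcast]
      unfold fv qf
      push_cast
      rw [ha, hb])]
  have hR : (if Sp p then 2 * p else 0) = ((univ : Finset (ZMod p)) ×ˢ
      ((univ : Finset (ZMod p)).filter (fun t => t ^ 2 = -(D : ZMod p)))).card := by
    rw [card_product, cnt_roots h2 hR, card_univ, ZMod.card]
    split_ifs
    · ring
    · ring
  rw [hR]
  by_cases h0 : a = 0
  · have hb0 : b ≠ 0 := fun h => hab ⟨h0, h⟩
    refine Finset.card_nbij' (fun q => (q.1, q.2.1)) (fun s => (s.1, s.2, 0)) ?_ ?_ ?_ ?_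
    · rintro ⟨g, n, g'⟩ hq
      rw [mem_coe, mem_filter] at hq
      obtain ⟨_, h1, h3⟩ := hq
      simp only [h0] at h1 h3
      have hg' : g' = 0 := by
        have : g' * b ^ 2 = 0 := by linear_combination h3
        rcases mul_eq_zero.1 this with h | h
        · exact h
        · exact absurd (pow_eq_zero_iff (by norm_num) |>.1 h) hb0
      rw [mem_coe, mem_product, mem_filter]
      refine ⟨mem_univ _, mem_univ _, ?_⟩
      simp only
      rw [hg'] at h1
      linear_combination -h1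
    · rintro ⟨s, m⟩ hs
      rw [mem_coe, mem_product, mem_filter] at hs
      rw [mem_coe, mem_filter]
      have hm : m ^ 2 = -(D : ZMod p) := hs.2.2
      refine ⟨mem_univ _, ?_, ?_⟩
      · simp only
        linear_combination -hm
      · simp only [h0]
        ring
    · rintro ⟨g, n, g'⟩ hq
      rw [mem_coe, mem_filter] at hq
      obtain ⟨_, h1, h3⟩ := hq
      simp only [h0] at h1 h3
      have hg' : g' = 0 := by
        have : g' * b ^ 2 = 0 := by linear_combination h3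
        rcases mul_eq_zero.1 this with h | h
        · exact h
        · exact absurd (pow_eq_zero_iff (by norm_num) |>.1 h) hb0
      simp only [hg']
    · rintro ⟨s, m⟩ _
      rfl
  · obtain ⟨t, ht⟩ : ∃ t : ZMod p, b = a * t := ⟨b / a, by field_simp⟩
    have hkey : ∀ g n g' : ZMod p, g * a ^ 2 + 2 * n * a * b + g' * b ^ 2 = 0 ↔
        g = -(2 * n * t + g' * t ^ 2) := by
      intro g n g'
      rw [ht]
      have he : g * a ^ 2 + 2 * n * a * (a * t) + g' * (a * t) ^ 2 =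
        a ^ 2 * (g + (2 * n * t + g' * t ^ 2)) := by ring
      rw [he, mul_eq_zero, or_iff_right (pow_ne_zero 2 h0)]
      constructor
      · intro h; linear_combination h
      · intro h; rw [h]; ring
    refine Finset.card_nbij' (fun q => (q.2.2, q.2.1 + q.2.2 * t))
      (fun s => (-(2 * (s.2 - s.1 * t) * t + s.1 * t ^ 2), s.2 - s.1 * t, s.1)) ?_ ?_ ?_ ?_
    · rintro ⟨g, n, g'⟩ hq
      rw [mem_coe, mem_filter] at hq
      obtain ⟨_, h1, h3⟩ := hq
      simp only [hkey] at h1 h3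
      rw [mem_coe, mem_product, mem_filter]
      refine ⟨mem_univ _, mem_univ _, ?_⟩
      simp only
      rw [h3] at h1
      linear_combination -h1
    · rintro ⟨s, m⟩ hs
      rw [mem_coe, mem_product, mem_filter] at hs
      rw [mem_coe, mem_filter]
      have hm : m ^ 2 = -(D : ZMod p) := hs.2.2
      refine ⟨mem_univ _, ?_, ?_⟩
      · simp only
        linear_combination -hm
      · simp only [hkey]
    · rintro ⟨g, n, g'⟩ hq
      rw [mem_coe, mem_filter] at hq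
      obtain ⟨_, h1, h3⟩ := hq
      simp only [hkey] at h3
      simp only [add_sub_cancel_right, ← h3]
    · rintro ⟨s, m⟩ _
      simp only [sub_add_cancel]



open Classical in
theorem card_V3_two {p : ℕ} (hp : p.Prime) (h2 : 2 < p) (hR : ¬ p ∣ R) (c c' : ℤ × ℤ)
    (hc : ¬ (p : ℤ) ∣ dt c c') :
    ((V3 p).filter (fun r => (p : ℤ) ∣ fv r c ∧ (p : ℤ) ∣ fv r c')).card =
      if Sp p then 2 else 0 := by
  classical
  have : Fact p.Prime := ⟨hp⟩
  have : NeZero p := ⟨hp.ne_zero⟩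
  rw [← cnt_roots h2 hR]
  -- coordinates modulo `p`
  obtain ⟨a, ha⟩ : ∃ a : ZMod p, a = (c.1 : ZMod p) := ⟨_, rfl⟩
  obtain ⟨b, hb⟩ : ∃ b : ZMod p, b = (c.2 : ZMod p) := ⟨_, rfl⟩
  obtain ⟨a', ha'⟩ : ∃ a' : ZMod p, a' = (c'.1 : ZMod p) := ⟨_, rfl⟩
  obtain ⟨b', hb'⟩ : ∃ b' : ZMod p, b' = (c'.2 : ZMod p) := ⟨_, rfl⟩
  obtain ⟨d, hd⟩ : ∃ d : ZMod p, d = a * b' - b * a' := ⟨_, rfl⟩
  have hcast : ∀ x : ℤ, (p : ℤ) ∣ x ↔ (x : ZMod p) = 0 := fun x =>
    (ZMod.intCast_zmod_eq_zero_iff_dvd x p).symm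
  have hd0 : d ≠ 0 := by
    intro h0
    apply hc
    rw [hcast]
    unfold dt
    push_cast
    rw [← ha, ← hb, ← ha', ← hb', ← hd, h0]
  have h20 : (2 : ZMod p) ≠ 0 := by
    intro h0
    have h1 : ((2 : ℕ) : ZMod p) = 0 := by exact_mod_cast h0
    rw [ZMod.natCast_eq_zero_iff] at h1
    have := Nat.le_of_dvd (by norm_num) h1
    omega
  -- membership
  have hmem : ∀ r : ℤ × ℤ × ℤ, r ∈ (V3 p).filter (fun r => (p : ℤ) ∣ fv r c ∧ (p : ℤ) ∣ fv r c') ↔
      ((0 ≤ r.1 ∧ r.1 < p) ∧ (0 ≤ r.2.1 ∧ r.2.1 < p) ∧ (0 ≤ r.2.2 ∧ r.2.2 < p)) ∧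
      ((r.1 : ZMod p) * r.2.2 - (r.2.1 : ZMod p) ^ 2 = (D : ZMod p)) ∧
      ((r.1 : ZMod p) * a ^ 2 + 2 * r.2.1 * a * b + r.2.2 * b ^ 2 = 0) ∧
      ((r.1 : ZMod p) * a' ^ 2 + 2 * r.2.1 * a' * b' + r.2.2 * b' ^ 2 = 0) := by
    intro r
    unfold V3 fv qf
    rw [mem_filter, mem_filter, mem_product, mem_product, mem_Ico, mem_Ico, mem_Ico,
      hcast, hcast, hcast]
    push_cast
    rw [← ha, ← hb, ← ha', ← hb', sub_eq_zero, and_assoc]
  refine Finset.card_nbij'
    (fun r => -((r.1 : ZMod p) * a * a' + r.2.1 * (a * b' + b * a') + r.2.2 * b * b') / d)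
    (fun t => ((((2 * t / d * (b * b') : ZMod p).val : ℕ) : ℤ),
      (((-(t / d) * (a * b' + b * a') : ZMod p).val : ℕ) : ℤ),
      (((2 * t / d * (a * a') : ZMod p).val : ℕ) : ℤ))) ?_ ?_ ?_ ?_
  · intro r hr
    obtain ⟨-, e1, e2, e3⟩ := (hmem r).1 (mem_coe.1 hr)
    refine mem_coe.2 (mem_filter.2 ⟨mem_univ _, ?_⟩)
    show (-((r.1 : ZMod p) * a * a' + r.2.1 * (a * b' + b * a') + r.2.2 * b * b') / d) ^ 2 = -(D : ZMod p)
    rw [div_pow, div_eq_iff (pow_ne_zero 2 hd0)]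
    have key : ((r.1 : ZMod p) * a * a' + r.2.1 * (a * b' + b * a') + r.2.2 * b * b') ^ 2 =
        ((r.1 : ZMod p) * a ^ 2 + 2 * r.2.1 * a * b + r.2.2 * b ^ 2) *
        ((r.1 : ZMod p) * a' ^ 2 + 2 * r.2.1 * a' * b' + r.2.2 * b' ^ 2) -
        ((r.1 : ZMod p) * r.2.2 - (r.2.1 : ZMod p) ^ 2) * d ^ 2 := by
      rw [hd]; ring
    rw [neg_pow_two, key, e1, e2]
    ring
  · intro t ht
    have ht2 : t ^ 2 = -(D : ZMod p) := (mem_filter.1 (mem_coe.1 ht)).2
    refine mem_coe.2 ((hmem _).2 ⟨⟨⟨?_, ?_⟩, ⟨?_, ?_⟩, ⟨?_, ?_⟩⟩, ?_, ?_, ?_⟩)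
    · exact Int.natCast_nonneg _
    · exact Int.ofNat_lt.2 (ZMod.val_lt _)
    · exact Int.natCast_nonneg _
    · exact Int.ofNat_lt.2 (ZMod.val_lt _)
    · exact Int.natCast_nonneg _
    · exact Int.ofNat_lt.2 (ZMod.val_lt _)
    · simp only [Int.cast_natCast, ZMod.natCast_zmod_val]
      have e : 2 * t / d * (b * b') * (2 * t / d * (a * a')) - (-(t / d) * (a * b' + b * a')) ^ 2 =
          -(t ^ 2) * (a * b' - b * a') ^ 2 / d ^ 2 := by
        field_simp
        ring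
      rw [e, ht2, ← hd]
      field_simp
    · simp only [Int.cast_natCast, ZMod.natCast_zmod_val]
      field_simp
      ring
    · simp only [Int.cast_natCast, ZMod.natCast_zmod_val]
      field_simp
      ring
  · intro r hr
    obtain ⟨⟨f1, f2, f3⟩, -, e2, e3⟩ := (hmem r).1 (mem_coe.1 hr)
    have g1 : (2 * (-((r.1 : ZMod p) * a * a' + r.2.1 * (a * b' + b * a') + r.2.2 * b * b') / d) / d
        * (b * b') : ZMod p) = ((r.1 : ℤ) : ZMod p) := by
      field_simp
      rw [hd]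
      linear_combination (-(b' ^ 2)) * e2 - b ^ 2 * e3
    have g2 : (-((-((r.1 : ZMod p) * a * a' + r.2.1 * (a * b' + b * a') + r.2.2 * b * b') / d) / d)
        * (a * b' + b * a') : ZMod p) = ((r.2.1 : ℤ) : ZMod p) := by
      field_simp
      rw [hd]
      linear_combination (a' * b') * e2 + (a * b) * e3
    have g3 : (2 * (-((r.1 : ZMod p) * a * a' + r.2.1 * (a * b' + b * a') + r.2.2 * b * b') / d) / d
        * (a * a') : ZMod p) = ((r.2.2 : ℤ) : ZMod p) := by
      field_simp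
      rw [hd]
      linear_combination (-(a' ^ 2)) * e2 - a ^ 2 * e3
    show ((((2 * (-((r.1 : ZMod p) * a * a' + r.2.1 * (a * b' + b * a') + r.2.2 * b * b') / d) / d
        * (b * b') : ZMod p).val : ℕ) : ℤ),
      (((-((-((r.1 : ZMod p) * a * a' + r.2.1 * (a * b' + b * a') + r.2.2 * b * b') / d) / d)
        * (a * b' + b * a') : ZMod p).val : ℕ) : ℤ),
      (((2 * (-((r.1 : ZMod p) * a * a' + r.2.1 * (a * b' + b * a') + r.2.2 * b * b') / d) / d
        * (a * a') : ZMod p).val : ℕ) : ℤ)) = r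
    rw [g1, g2, g3]
    rw [ZMod.val_intCast, ZMod.val_intCast, ZMod.val_intCast, Int.emod_eq_of_lt f1.1 f1.2,
      Int.emod_eq_of_lt f2.1 f2.2, Int.emod_eq_of_lt f3.1 f3.2]
  · intro t ht
    simp only [Int.cast_natCast, ZMod.natCast_zmod_val]
    field_simp
    rw [hd]
    ring


end Pool.Agent.AQ.NC
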