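import Pool.Agent.Lib_helper88.AQN.CNT

/-!
# AQ, NC: the probability that `p²` divides `Q(u)` (port of helper8's block `ya`; helper88)
-/

set_option autoImplicit false

namespace Pool.Agent.AQ.NC

open Finset Pool.Agent.PENT Pool.Agent.PENT.EQ

variable [Cst]

/-- the square roots of `-D` modulo `p²` in `[0, p²)` -/
noncomputable def ya_rt (p : ℕ) : Finset ℤ :=
  (Ico (0 : ℤ) ((p ^ 2 : ℕ) : ℤ)).filter (fun t => ((p ^ 2 : ℕ) : ℤ) ∣ t ^ 2 + D)

theorem ya_eq {m x y : ℤ} (hx0 : 0 ≤ x) (hx : x < m) (hy0 : 0 ≤ y) (hy : y < m)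
    (h : m ∣ x - y) : x = y := by
  have h1 : x % m = y % m := Int.emod_eq_emod_iff_emod_sub_eq_zero.2 (Int.emod_eq_zero_of_dvd h)
  rwa [Int.emod_eq_of_lt hx0 hx, Int.emod_eq_of_lt hy0 hy] at h1

theorem ya_rt_card {p : ℕ} (hp : p.Prime) (h4 : Sp p) : (ya_rt p).card ≤ 2 := by
  classical
  have hp2 : p ≠ 2 := by have := h4.two_lt; omega
  by_cases hne : (ya_rt p).Nonempty
  · obtain ⟨t0, ht0⟩ := hne
    have hsub : ya_rt p ⊆ {t0, (-t0) % ((p ^ 2 : ℕ) : ℤ)} := by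
      intro t ht
      unfold ya_rt at ht ht0
      rw [mem_filter, mem_Ico] at ht ht0
      obtain ⟨⟨a1, a2⟩, a3⟩ := ht
      obtain ⟨⟨b1, b2⟩, b3⟩ := ht0
      have hd : ((p : ℤ)) ^ 2 ∣ (t - t0) * (t + t0) := by
        have h := dvd_sub a3 b3
        push_cast at h
        have e : (t ^ 2 + D) - (t0 ^ 2 + D) = (t - t0) * (t + t0) := by ring
        rwa [e] at h
      have hpI : Prime (p : ℤ) := Nat.prime_iff_prime_int.1 hp
      have hnot : ¬ ((p : ℤ) ∣ t - t0 ∧ (p : ℤ) ∣ t + t0) := by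
        rintro ⟨h1, h2⟩
        have h3 : (p : ℤ) ∣ 2 * t := by
          have := dvd_add h1 h2
          have e : t - t0 + (t + t0) = 2 * t := by ring
          rwa [e] at this
        have h5 : (p : ℤ) ∣ t := by
          rcases hpI.dvd_or_dvd h3 with h | h
          · exfalso
            have : p ∣ 2 := by exact_mod_cast h
            exact hp2 ((Nat.prime_dvd_prime_iff_eq hp Nat.prime_two).1 this)
          · exact h
        have h6 : (p : ℤ) ∣ t ^ 2 + D := by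
          refine dvd_trans ?_ a3
          push_cast
          exact dvd_pow_self _ (by norm_num)
        have h7 : (p : ℤ) ∣ D := by
          have := dvd_sub h6 (dvd_pow h5 (two_ne_zero))
          have e : t ^ 2 + D - t ^ 2 = D := by ring
          rwa [e] at this
        exact h4.ndvd (prime_dvd_D hp h7)
      have hcase : ((p : ℤ)) ^ 2 ∣ t - t0 ∨ ((p : ℤ)) ^ 2 ∣ t + t0 := by
        by_cases h1 : (p : ℤ) ∣ t - t0
        · left
          have h2 : ¬ (p : ℤ) ∣ t + t0 := fun h => hnot ⟨h1, h⟩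
          have hc : IsCoprime ((p : ℤ) ^ 2) (t + t0) :=
            IsCoprime.pow_left ((Prime.coprime_iff_not_dvd hpI).2 h2)
          exact hc.dvd_of_dvd_mul_right hd
        · right
          have hc : IsCoprime ((p : ℤ) ^ 2) (t - t0) :=
            IsCoprime.pow_left ((Prime.coprime_iff_not_dvd hpI).2 h1)
          exact hc.dvd_of_dvd_mul_left hd
      have hpos : (0 : ℤ) < ((p ^ 2 : ℕ) : ℤ) := by
        have : 0 < p ^ 2 := pow_pos hp.pos 2
        exact_mod_cast this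
      rw [mem_insert, mem_singleton]
      rcases hcase with h | h
      · left
        exact ya_eq a1 a2 b1 b2 (by push_cast; exact h)
      · right
        apply ya_eq a1 a2 (Int.emod_nonneg _ hpos.ne') (Int.emod_lt_of_pos _ hpos)
        have h8 : ((p ^ 2 : ℕ) : ℤ) ∣ (-t0) - (-t0) % ((p ^ 2 : ℕ) : ℤ) :=
          Int.dvd_self_sub_emod
        have h9 : ((p ^ 2 : ℕ) : ℤ) ∣ t + t0 := by push_cast; exact h
        have := dvd_add h9 h8
        have e : t + t0 + (-t0 - (-t0) % ((p ^ 2 : ℕ) : ℤ)) = t - (-t0) % ((p ^ 2 : ℕ) : ℤ) := by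
          ring
        rwa [e] at this
    exact (card_le_card hsub).trans (card_le_two)
  · rw [not_nonempty_iff_eq_empty.1 hne]; simp

/-- the forms with `p² ∣ Q(u)` -/
noncomputable def ya_bad (p : ℕ) (u : ℤ × ℤ) : Finset (ℤ × ℤ × ℤ) :=
  (V3 (p ^ 2)).filter (fun v => ((p : ℤ) ^ 2) ∣ fv v u)

theorem ya_bad_card {p : ℕ} (hp : p.Prime) (h4 : Sp p) (u : ℤ × ℤ)
    (hu : ¬ (p : ℤ) ∣ u.2) : (ya_bad p u).card ≤ p ^ 2 * 2 := by
  classical
  have hpI : Prime (p : ℤ) := Nat.prime_iff_prime_int.1 hp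
  set m : ℤ := ((p ^ 2 : ℕ) : ℤ) with hm
  have hm' : m = (p : ℤ) ^ 2 := by rw [hm]; push_cast; rfl
  have hpos : (0 : ℤ) < m := by
    have : 0 < p ^ 2 := pow_pos hp.pos 2
    rw [hm]; exact_mod_cast this
  have hcop : IsCoprime (u.2) m := by
    rw [hm']
    exact (IsCoprime.pow_left ((Prime.coprime_iff_not_dvd hpI).2 hu)).symm
  obtain ⟨w, w', hw⟩ := hcop
  -- w * u.2 + w' * m = 1
  have hcopy : ∀ x : ℤ, m ∣ u.2 * x → m ∣ x := by
    intro x hx
    have : x = w * (u.2 * x) + m * (w' * x) := by linear_combination (-x) * hw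
    rw [this]
    exact dvd_add (Dvd.dvd.mul_left hx _) (dvd_mul_right _ _)
  have hcard : (ya_bad p u).card ≤ ((Ico (0 : ℤ) m) ×ˢ (ya_rt p)).card := by
    apply Finset.card_le_card_of_injOn
      (fun v => (v.1, (v.1 * u.1 + v.2.1 * u.2) * w % m))
    · intro v hv
      have hv' : v ∈ ya_bad p u := hv
      unfold ya_bad V3 at hv'
      rw [mem_filter, mem_filter, mem_product, mem_product, mem_Ico, mem_Ico, mem_Ico] at hv'
      obtain ⟨⟨⟨h1, h2, h3⟩, hdet⟩, hq⟩ := hv'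
      have hgoal : (v.1, (v.1 * u.1 + v.2.1 * u.2) * w % m) ∈ (Ico (0 : ℤ) m) ×ˢ (ya_rt p) := by
        rw [mem_product]
        refine ⟨mem_Ico.2 h1, ?_⟩
        unfold ya_rt
        rw [mem_filter, mem_Ico]
        refine ⟨⟨Int.emod_nonneg _ hpos.ne', Int.emod_lt_of_pos _ hpos⟩, ?_⟩
        change m ∣ ((v.1 * u.1 + v.2.1 * u.2) * w % m) ^ 2 + D
        set s := v.1 * u.1 + v.2.1 * u.2 with hs
        have e1 : m ∣ s ^ 2 + D * u.2 ^ 2 := by
          have hq' : m ∣ fv v u := by rw [hm']; exact hq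
          have hdet' : m ∣ v.1 * v.2.2 - v.2.1 ^ 2 - D := hdet
          have e : s ^ 2 + D * u.2 ^ 2 = v.1 * fv v u - u.2 ^ 2 * (v.1 * v.2.2 - v.2.1 ^ 2 - D) := by
            rw [hs]; unfold fv qf; ring
          rw [e]
          exact dvd_sub (Dvd.dvd.mul_left hq' _) (Dvd.dvd.mul_left hdet' _)
        have e2 : m ∣ (s * w) ^ 2 + D := by
          have e : (s * w) ^ 2 + D = w ^ 2 * (s ^ 2 + D * u.2 ^ 2) + m * (D * (w' * (1 + w * u.2))) := by
            linear_combination (-(D * (1 + w * u.2))) * hw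
          rw [e]
          exact dvd_add (Dvd.dvd.mul_left e1 _) (dvd_mul_right _ _)
        have e3 : m ∣ (s * w) - (s * w) % m := Int.dvd_self_sub_emod
        have e : ((s * w) % m) ^ 2 + D = ((s * w) ^ 2 + D) -
            ((s * w) - (s * w) % m) * ((s * w) + (s * w) % m) := by ring
        rw [e]
        exact dvd_sub e2 (Dvd.dvd.mul_right e3 _)
      exact hgoal
    · intro v hv v' hv' heq
      have hv1 : v ∈ ya_bad p u := hv
      have hv2 : v' ∈ ya_bad p u := hv'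
      unfold ya_bad V3 at hv1 hv2
      rw [mem_filter, mem_filter, mem_product, mem_product, mem_Ico, mem_Ico, mem_Ico] at hv1 hv2
      obtain ⟨⟨⟨h1, h2, h3⟩, hdet⟩, hq⟩ := hv1
      obtain ⟨⟨⟨k1, k2, k3⟩, kdet⟩, kq⟩ := hv2
      have heq' : (v.1, (v.1 * u.1 + v.2.1 * u.2) * w % m) =
        (v'.1, (v'.1 * u.1 + v'.2.1 * u.2) * w % m) := heq
      rw [Prod.mk.injEq] at heq'
      obtain ⟨ea, et⟩ := heq'
      have hb : m ∣ v.2.1 - v'.2.1 := by
        have e3 : m ∣ ((v.1 * u.1 + v.2.1 * u.2) * w) - ((v'.1 * u.1 + v'.2.1 * u.2) * w) := by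
          exact Int.dvd_of_emod_eq_zero (Int.emod_eq_emod_iff_emod_sub_eq_zero.1 et)
        have e : v.2.1 - v'.2.1 = (((v.1 * u.1 + v.2.1 * u.2) * w) -
            ((v'.1 * u.1 + v'.2.1 * u.2) * w)) + m * (w' * (v.2.1 - v'.2.1)) := by
          rw [ea]
          linear_combination (-(v.2.1 - v'.2.1)) * hw
        rw [e]
        exact dvd_add e3 (dvd_mul_right _ _)
      have hbe : v.2.1 = v'.2.1 := ya_eq h2.1 h2.2 k2.1 k2.2 hb
      have hc : m ∣ v.2.2 - v'.2.2 := by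
        apply hcopy
        apply hcopy
        have e : u.2 * (u.2 * (v.2.2 - v'.2.2)) = fv v u - fv v' u := by
          unfold fv qf
          rw [ea, hbe]; ring
        rw [e, hm']
        exact dvd_sub hq kq
      have hce : v.2.2 = v'.2.2 := ya_eq h3.1 h3.2 k3.1 k3.2 hc
      exact Prod.ext ea (Prod.ext hbe hce)
  refine hcard.trans ?_
  rw [card_product, Int.card_Ico, sub_zero, hm, Int.toNat_natCast]
  exact Nat.mul_le_mul_left _ (ya_rt_card hp h4)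

theorem ya_bad_swap (p : ℕ) (u : ℤ × ℤ) : (ya_bad p u).card ≤ (ya_bad p (u.2, u.1)).card := by
  apply Finset.card_le_card_of_injOn (fun v => (v.2.2, v.2.1, v.1))
  · intro v hv
    have hv' : v ∈ ya_bad p u := hv
    have hgoal : (v.2.2, v.2.1, v.1) ∈ ya_bad p (u.2, u.1) := by
      unfold ya_bad V3 at hv' ⊢
      rw [mem_filter, mem_filter, mem_product, mem_product] at hv' ⊢
      obtain ⟨⟨⟨h1, h2, h3⟩, hdet⟩, hq⟩ := hv'
      refine ⟨⟨⟨h3, h2, h1⟩, ?_⟩, ?_⟩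
      · have e : v.2.2 * v.1 - v.2.1 ^ 2 - D = v.1 * v.2.2 - v.2.1 ^ 2 - D := by ring
        change _ ∣ v.2.2 * v.1 - v.2.1 ^ 2 - D
        rw [e]; exact hdet
      · have e : fv (v.2.2, v.2.1, v.1) (u.2, u.1) = fv v u := by
          unfold fv qf; ring
        rw [e]; exact hq
    exact hgoal
  · intro v _ v' _ heq
    have heq' : (v.2.2, v.2.1, v.1) = (v'.2.2, v'.2.1, v'.1) := heq
    rw [Prod.mk.injEq, Prod.mk.injEq] at heq'
    exact Prod.ext heq'.2.2 (Prod.ext heq'.2.1 heq'.1)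

theorem ya_V3_card {p : ℕ} (hp : p.Prime) :
    p ^ 2 * (p * (p - 1)) ≤ (V3 (p ^ 2)).card := by
  classical
  set m : ℤ := ((p ^ 2 : ℕ) : ℤ) with hm
  have hpos : (0 : ℤ) < m := by
    have : 0 < p ^ 2 := pow_pos hp.pos 2
    rw [hm]; exact_mod_cast this
  have htot : p * (p - 1) = ((range (p ^ 2)).filter (Nat.Coprime (p ^ 2))).card := by
    have h := Nat.totient_prime_pow hp (show 0 < 2 by norm_num)
    have h' : p * (p - 1) = p ^ (2 - 1) * (p - 1) := by norm_num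
    rw [h', ← h]
    rfl
  have hc1 : p ^ 2 * (p * (p - 1)) =
      ((range (p ^ 2)) ×ˢ ((range (p ^ 2)).filter (Nat.Coprime (p ^ 2)))).card := by
    rw [card_product, card_range, ← htot]
  rw [hc1]
  have hinv : ∀ a : ℕ, Nat.Coprime (p ^ 2) a → ∃ c : ℤ, m ∣ (a : ℤ) * c - 1 := by
    intro a ha
    have : IsCoprime (a : ℤ) m := by
      rw [hm]; exact Nat.isCoprime_iff_coprime.2 ha.symm
    obtain ⟨x, y, hxy⟩ := this
    refine ⟨x, ⟨-y, ?_⟩⟩
    linear_combination hxy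
  choose! inv hinv using hinv
  apply Finset.card_le_card_of_injOn
    (fun z : ℕ × ℕ => ((z.2 : ℤ), (z.1 : ℤ), (((z.1 : ℤ) ^ 2 + D) * inv z.2) % m))
  · intro z hz
    have hz' : z ∈ (range (p ^ 2)) ×ˢ ((range (p ^ 2)).filter (Nat.Coprime (p ^ 2))) := hz
    rw [mem_product, mem_filter, mem_range, mem_range] at hz'
    obtain ⟨h1, h2, h3⟩ := hz'
    have hgoal : ((z.2 : ℤ), (z.1 : ℤ), (((z.1 : ℤ) ^ 2 + D) * inv z.2) % m) ∈
        V3 (p ^ 2) := by
      unfold V3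
      rw [mem_filter, mem_product, mem_product, mem_Ico, mem_Ico, mem_Ico]
      have g2 : ((z.2 : ℕ) : ℤ) < ((p ^ 2 : ℕ) : ℤ) := Nat.cast_lt.2 h2
      have g1 : ((z.1 : ℕ) : ℤ) < ((p ^ 2 : ℕ) : ℤ) := Nat.cast_lt.2 h1
      refine ⟨⟨⟨Int.natCast_nonneg _, g2⟩, ⟨Int.natCast_nonneg _, g1⟩,
        ⟨Int.emod_nonneg _ hpos.ne', Int.emod_lt_of_pos _ hpos⟩⟩, ?_⟩
      change m ∣ (z.2 : ℤ) * ((((z.1 : ℤ) ^ 2 + D) * inv z.2) % m) - (z.1 : ℤ) ^ 2 - D
      have e3 : m ∣ (((z.1 : ℤ) ^ 2 + D) * inv z.2) - (((z.1 : ℤ) ^ 2 + D) * inv z.2) % m :=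
        Int.dvd_self_sub_emod
      have e4 := hinv z.2 h3
      have e : (z.2 : ℤ) * ((((z.1 : ℤ) ^ 2 + D) * inv z.2) % m) - (z.1 : ℤ) ^ 2 - D =
          ((z.1 : ℤ) ^ 2 + D) * ((z.2 : ℤ) * inv z.2 - 1) -
            (z.2 : ℤ) * ((((z.1 : ℤ) ^ 2 + D) * inv z.2) -
              (((z.1 : ℤ) ^ 2 + D) * inv z.2) % m) := by ring
      rw [e]
      exact dvd_sub (Dvd.dvd.mul_left e4 _) (Dvd.dvd.mul_left e3 _)
    exact hgoal
  · intro z _ z' _ heq
    have heq' : ((z.2 : ℤ), (z.1 : ℤ), (((z.1 : ℤ) ^ 2 + D) * inv z.2) % m) =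
      ((z'.2 : ℤ), (z'.1 : ℤ), (((z'.1 : ℤ) ^ 2 + D) * inv z'.2) % m) := heq
    rw [Prod.mk.injEq, Prod.mk.injEq] at heq'
    exact Prod.ext (by exact_mod_cast heq'.2.1) (by exact_mod_cast heq'.1)

theorem MV_sq_pr {p : ℕ} (hp : p.Prime) (h4 : Sp p) (u : ℤ × ℤ)
    (hu : ¬ ((p : ℤ) ∣ u.1 ∧ (p : ℤ) ∣ u.2)) :
    MV (p ^ 2) (fun v => if ((p : ℤ) ^ 2) ∣ fv v u then 1 else 0) ≤ 4 / (p : ℝ) ^ 2 := by
  classical
  have hb : (ya_bad p u).card ≤ p ^ 2 * 2 := by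
    by_cases h2 : (p : ℤ) ∣ u.2
    · have h1 : ¬ (p : ℤ) ∣ u.1 := fun h => hu ⟨h, h2⟩
      exact (ya_bad_swap p u).trans (ya_bad_card hp h4 (u.2, u.1) h1)
    · exact ya_bad_card hp h4 u h2
  have hV := ya_V3_card hp
  have hp2 : (2 : ℝ) ≤ p := by exact_mod_cast hp.two_le
  have hp0 : (0 : ℝ) < p := by linarith
  have hVr : (p : ℝ) ^ 2 * (p * (p - 1)) ≤ ((V3 (p ^ 2)).card : ℝ) := by
    have h1 : 1 ≤ p := hp.one_lt.le
    have := (Nat.cast_le (α := ℝ)).2 hV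
    push_cast [Nat.cast_sub h1] at this
    exact this
  have hbr : ((ya_bad p u).card : ℝ) ≤ (p : ℝ) ^ 2 * 2 := by
    have := (Nat.cast_le (α := ℝ)).2 hb
    push_cast at this
    exact this
  have hVpos : (0 : ℝ) < (p : ℝ) ^ 2 * (p * (p - 1)) := by
    have : (0 : ℝ) < p - 1 := by linarith
    positivity
  unfold MV
  have hs : (∑ v ∈ V3 (p ^ 2), if ((p : ℤ) ^ 2) ∣ fv v u then (1 : ℝ) else 0) =
      ((ya_bad p u).card : ℝ) := by
    rw [Finset.sum_boole]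
    unfold ya_bad
    congr!
  rw [hs]
  calc ((ya_bad p u).card : ℝ) / ((V3 (p ^ 2)).card : ℝ)
      ≤ ((p : ℝ) ^ 2 * 2) / ((p : ℝ) ^ 2 * (p * (p - 1))) := by
        apply div_le_div₀ (by positivity) hbr hVpos hVr
    _ ≤ 4 / (p : ℝ) ^ 2 := by
        rw [div_le_div_iff₀ hVpos (by positivity)]
        nlinarith [pow_pos hp0 2, pow_pos hp0 3, pow_pos hp0 4,
          mul_nonneg (pow_pos hp0 3).le (by linarith : (0 : ℝ) ≤ p - 2)]



end Pool.Agent.AQ.NC
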